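import Pool.Agent.LibCQ2.Defs

set_option autoImplicit false

/-! ROW A1 (MEDIUM, only Mathlib + Defs). Division by a row reduced polynomial matrix P (row i: P i i monic of degree d i, all other entries of the row of degree < d i).
 matdiv_exists: induction on a bound s with degree (z i) < d i + s for all i (s = 0: c = 0, ρ = z). Step: all degree (z i) < d i + (s+1): c0 j := C (coeff (d j + s) (z j)) * X ^ s; (P *ᵥ c0) i has degree < d i + s + 1 and its
   coefficient at d i + s is that of z i (only the diagonal term contributes: P i i monic of degree d i; P i j * c0 j has degree < d i + s for j ≠ i). So z - P *ᵥ c0 satisfies the bound s.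
 matdiv_deg: let s be a bound for all degree (c j) < s; if s ≤ e done; if s > e: s = s' + 1; the coefficient of (P *ᵥ c) i at d i + s' is the coefficient of c i at s' (only the diagonal), and it is 0 as d i + s' ≥ d i + e; so all
   degree (c j) < s'. Downward induction.
 det_reg: P.det is monic of degree ∑ d i: Matrix.det_apply; the identity permutation gives ∏ P i i (monic), every other σ: degree of ∏ P (σ i) i < ∑ d (σ i) = ∑ d i because some i has σ i ≠ i (natDegree_prod_le / degree_prod_le
   with one strict inequality). Or: see the proof of Matrix.charpoly_monic. Then Monic.isRegular / mem_nonZeroDivisors. -/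

namespace Pool.Agent.LibCQ2

open Polynomial

private theorem A1_natDeg {R : Type*} [CommRing R] {m : ℕ} {d : Fin m → ℕ}
    {P : Matrix (Fin m) (Fin m) R[X]} (hP : RowRed d P) (i j : Fin m) : (P i j).natDegree ≤ d i := by
  by_cases h : i = j
  · subst h
    exact (hP.diag i).2.le
  · exact natDegree_le_of_degree_le (hP.off i j h).le

private theorem A1_top {R : Type*} [CommRing R] {m : ℕ} {d : Fin m → ℕ}
    {P : Matrix (Fin m) (Fin m) R[X]} (hP : RowRed d P) {c : Fin m → R[X]} {s : ℕ}
    (hc : ∀ j, (c j).natDegree ≤ s) (i : Fin m) : (P.mulVec c i).coeff (d i + s) = (c i).coeff s := by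
  rw [Matrix.mulVec, dotProduct, finsetSum_coeff, Finset.sum_eq_single i]
  · rw [coeff_mul_add_eq_of_natDegree_le (A1_natDeg hP i i) (hc i)]
    have h1 : (P i i).coeff (d i) = 1 := by
      rw [← (hP.diag i).2]
      exact (hP.diag i).1.coeff_natDegree
    rw [h1, one_mul]
  · intro j _ hj
    rw [coeff_mul_add_eq_of_natDegree_le (A1_natDeg hP i j) (hc j)]
    rw [coeff_eq_zero_of_degree_lt (hP.off i j (Ne.symm hj)), zero_mul]
  · intro h
    exact absurd (Finset.mem_univ i) h

private theorem A1_above {R : Type*} [CommRing R] {m : ℕ} {d : Fin m → ℕ}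
    {P : Matrix (Fin m) (Fin m) R[X]} (hP : RowRed d P) {c : Fin m → R[X]} {s : ℕ}
    (hc : ∀ j, (c j).natDegree ≤ s) (i : Fin m) {n : ℕ} (hn : d i + s < n) :
    (P.mulVec c i).coeff n = 0 := by
  rw [Matrix.mulVec, dotProduct, finsetSum_coeff]
  refine Finset.sum_eq_zero fun j _ => ?_
  refine coeff_eq_zero_of_natDegree_lt (lt_of_le_of_lt natDegree_mul_le (lt_of_le_of_lt ?_ hn))
  exact add_le_add (A1_natDeg hP i j) (hc j)

private theorem A1_div {R : Type*} [CommRing R] {m : ℕ} {d : Fin m → ℕ}
    {P : Matrix (Fin m) (Fin m) R[X]} (hP : RowRed d P) (s : ℕ) : ∀ z : Fin m → R[X],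
    (∀ i, ∀ n, d i + s ≤ n → (z i).coeff n = 0) →
    ∃ c ρ : Fin m → R[X], z = P.mulVec c + ρ ∧ ∀ i, (ρ i).degree < (d i : WithBot ℕ) := by
  induction s with
  | zero =>
    intro z hz
    refine ⟨0, z, ?_, fun i => ?_⟩
    · rw [Matrix.mulVec_zero, zero_add]
    · rw [degree_lt_iff_coeff_zero]
      intro n hn
      exact hz i n (by omega)
  | succ s ih =>
    intro z hz
    set c0 : Fin m → R[X] := fun j => C ((z j).coeff (d j + s)) * X ^ s with hc0
    have hd : ∀ j, (c0 j).natDegree ≤ s := fun j => natDegree_C_mul_X_pow_le _ _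
    have hc : ∀ j, (c0 j).coeff s = (z j).coeff (d j + s) := by
      intro j
      rw [hc0]
      simp only [coeff_C_mul, coeff_X_pow, if_true, mul_one]
    obtain ⟨c, ρ, h1, h2⟩ := ih (z - P.mulVec c0) (by
      intro i n hn
      rw [Pi.sub_apply, coeff_sub]
      rcases Nat.eq_or_lt_of_le hn with h | h
      · rw [← h, A1_top hP hd i, hc, sub_self]
      · rw [A1_above hP hd i h, hz i n (by omega), sub_zero])
    refine ⟨c0 + c, ρ, ?_, h2⟩
    rw [Matrix.mulVec_add, add_assoc, ← h1, add_sub_cancel]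

theorem matdiv_exists {R : Type*} [CommRing R] [Nontrivial R] {m : ℕ} {d : Fin m → ℕ}
    {P : Matrix (Fin m) (Fin m) R[X]} (hP : RowRed d P) (z : Fin m → R[X]) :
    ∃ c ρ : Fin m → R[X], z = P.mulVec c + ρ ∧ ∀ i, (ρ i).degree < (d i : WithBot ℕ) := by
  refine A1_div hP (∑ i, ((z i).natDegree + 1)) z ?_
  intro i n hn
  refine coeff_eq_zero_of_natDegree_lt ?_
  have h := Finset.single_le_sum (f := fun i => (z i).natDegree + 1) (fun j _ => Nat.zero_le _)
    (Finset.mem_univ i)
  omega

private theorem A1_deg {R : Type*} [CommRing R] {m : ℕ} {d : Fin m → ℕ}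
    {P : Matrix (Fin m) (Fin m) R[X]} (hP : RowRed d P) (c : Fin m → R[X]) (e : ℕ)
    (h : ∀ i, (P.mulVec c i).degree < ((d i + e : ℕ) : WithBot ℕ)) (s : ℕ) :
    (∀ j, ∀ n, s ≤ n → (c j).coeff n = 0) → ∀ j, ∀ n, e ≤ n → (c j).coeff n = 0 := by
  induction s with
  | zero =>
    intro hs j n _
    exact hs j n (Nat.zero_le n)
  | succ s ih =>
    intro hs
    by_cases hse : s + 1 ≤ e
    · intro j n hn
      exact hs j n (le_trans hse hn)
    · refine ih ?_
      have hd : ∀ j, (c j).natDegree ≤ s := by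
        intro j
        rw [natDegree_le_iff_coeff_eq_zero]
        intro n hn
        exact hs j n hn
      intro j n hn
      rcases Nat.eq_or_lt_of_le hn with h1 | h1
      · rw [← h1, ← A1_top hP hd j]
        refine coeff_eq_zero_of_degree_lt (lt_of_lt_of_le (h j) ?_)
        exact_mod_cast (by omega : d j + e ≤ d j + s)
      · exact hs j n h1

theorem matdiv_deg {R : Type*} [CommRing R] [Nontrivial R] {m : ℕ} {d : Fin m → ℕ}
    {P : Matrix (Fin m) (Fin m) R[X]} (hP : RowRed d P) (c : Fin m → R[X]) (e : ℕ)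
    (h : ∀ i, (P.mulVec c i).degree < ((d i + e : ℕ) : WithBot ℕ)) : ∀ j, (c j).degree < (e : WithBot ℕ) := by
  intro j
  rw [degree_lt_iff_coeff_zero]
  refine A1_deg hP c e h (∑ i, ((c i).natDegree + 1)) ?_ j
  intro i n hn
  refine coeff_eq_zero_of_natDegree_lt ?_
  have h := Finset.single_le_sum (f := fun i => (c i).natDegree + 1) (fun j _ => Nat.zero_le _)
    (Finset.mem_univ i)
  omega

private theorem A1_prod {R ι : Type*} [CommRing R] (s : Finset ι) (f : ι → R[X]) (n : ι → ℕ)
    (h : ∀ i ∈ s, (f i).natDegree ≤ n i) :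
    (∏ i ∈ s, f i).natDegree ≤ ∑ i ∈ s, n i ∧
      (∏ i ∈ s, f i).coeff (∑ i ∈ s, n i) = ∏ i ∈ s, (f i).coeff (n i) := by
  classical
  induction s using Finset.induction_on with
  | empty => simp
  | insert a s ha ih =>
    obtain ⟨h1, h2⟩ := ih (fun i hi => h i (Finset.mem_insert_of_mem hi))
    have h3 := h a (Finset.mem_insert_self a s)
    rw [Finset.prod_insert ha, Finset.sum_insert ha, Finset.prod_insert ha]
    refine ⟨natDegree_mul_le.trans (add_le_add h3 h1), ?_⟩
    rw [coeff_mul_add_eq_of_natDegree_le h3 h1, h2]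

theorem det_monic {R : Type*} [CommRing R] [Nontrivial R] {m : ℕ} {d : Fin m → ℕ}
    {P : Matrix (Fin m) (Fin m) R[X]} (hP : RowRed d P) : P.det.Monic := by
  have key : ∀ σ : Equiv.Perm (Fin m), (∏ i, P (σ i) i).natDegree ≤ ∑ i, d i ∧
      (∏ i, P (σ i) i).coeff (∑ i, d i) = if σ = 1 then 1 else 0 := by
    intro σ
    have h := A1_prod Finset.univ (fun i => P (σ i) i) (fun i => d (σ i))
      (fun i _ => A1_natDeg hP (σ i) i)
    rw [Equiv.sum_comp σ d] at h
    refine ⟨h.1, ?_⟩
    rw [h.2]
    split_ifs with hσ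
    · subst hσ
      refine Finset.prod_eq_one fun i _ => ?_
      rw [Equiv.Perm.one_apply, ← (hP.diag i).2]
      exact (hP.diag i).1.coeff_natDegree
    · obtain ⟨i, hi⟩ : ∃ i, σ i ≠ i := by
        by_contra hcon
        push Not at hcon
        exact hσ (Equiv.ext hcon)
      exact Finset.prod_eq_zero (Finset.mem_univ i) (coeff_eq_zero_of_degree_lt (hP.off _ _ hi))
  refine monic_of_natDegree_le_of_coeff_eq_one (∑ i, d i) ?_ ?_
  · rw [Matrix.det_apply]
    refine natDegree_sum_le_of_forall_le _ _ fun σ _ => ?_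
    rw [Units.smul_def]
    exact (natDegree_smul_le _ _).trans (key σ).1
  · rw [Matrix.det_apply, finsetSum_coeff, Finset.sum_eq_single 1]
    · rw [Units.smul_def, coeff_smul, (key 1).2, if_pos rfl, Equiv.Perm.sign_one]
      simp
    · intro σ _ hσ
      rw [Units.smul_def, coeff_smul, (key σ).2, if_neg hσ, smul_zero]
    · intro h
      exact absurd (Finset.mem_univ _) h

end Pool.Agent.LibCQ2
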