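import Pool.Agent.LibCQ2.Defs

set_option autoImplicit false

/-! ROW A8: from star to Q P = P Q', and the shape of P. -/

namespace Pool.Agent.LibCQ2

open Polynomial

section
variable {R : Type*} [CommRing R] {N b : ℕ}

private theorem A8_coeffD (j : ℕ) (F : R[X][X]) (a : R[X]) (i : ℕ) :
    (F - C a * X ^ j).coeff i = F.coeff i - if i = j then a else 0 := by
  rw [coeff_sub, coeff_C_mul_X_pow]

private theorem A8_high {F : R[X][X]} (hF : wtLT b (N * b) F) (i : ℕ) (hi : N ≤ i) :
    F.coeff i = 0 := by
  ext l
  rw [coeff_zero]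
  refine hF i l ?_
  have : N * b ≤ i * b := Nat.mul_le_mul_right b hi
  rw [mul_comm b i]
  omega

private theorem A8_low {F : R[X][X]} (hF : wtLT b (N * b) F) (i : ℕ) (hi : i < N) :
    (F.coeff i).degree < ((b * (N - i) : ℕ) : WithBot ℕ) := by
  rw [degree_lt_iff_coeff_zero]
  intro l hl
  refine hF i l ?_
  have h1 : b * i + b * (N - i) = N * b := by
    rw [← mul_add, mul_comm]
    congr 1
    omega
  omega

theorem PM_rowRed [Nontrivial R] (hb : 1 ≤ b) {g : R[X]} (hg : g.Monic) (hgb : g.natDegree = b)
    {u : Fin (N + 1) → R[X]} (hu : ∀ j, (u j).degree < (b : WithBot ℕ)) {q : R[X][X]} {B : Fin (N + 1) → R[X][X]}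
    (wB : ∀ j, wtLT b (N * b) (B j - C (X ^ (b * (N - (j : ℕ)))) * X ^ (j : ℕ))) (wq : wtLT b (N * b) q) :
    RowRed (dv N b) (PM N g u q B) := by
  constructor
  · intro i
    by_cases hi : (i : ℕ) < N
    · have h1 : PM N g u q B i i = X ^ (b * (N - (i : ℕ))) +
          (B i - C (X ^ (b * (N - (i : ℕ)))) * X ^ (i : ℕ)).coeff i := by
        rw [A8_coeffD, if_pos rfl]
        simp only [PM, Matrix.of_apply, if_pos hi]
        ring
      have h2 := A8_low (wB i) i hi
      rw [h1]
      refine ⟨monic_X_pow_add h2, ?_⟩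
      rw [natDegree_add_eq_left_of_degree_lt (by rw [degree_X_pow]; exact h2), natDegree_X_pow]
      simp only [dv, if_pos hi]
    · have h1 : PM N g u q B i i = g := by
        simp only [PM, Matrix.of_apply, if_neg hi]
      rw [h1]
      refine ⟨hg, ?_⟩
      rw [hgb]
      simp only [dv, if_neg hi]
  · intro i j hij
    by_cases hi : (i : ℕ) < N
    · simp only [dv, if_pos hi]
      by_cases hj : (j : ℕ) < N
      · have h1 : PM N g u q B i j =
            (B j - C (X ^ (b * (N - (j : ℕ)))) * X ^ (j : ℕ)).coeff i := by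
          rw [A8_coeffD, if_neg (fun h => hij (Fin.ext h)), sub_zero]
          simp only [PM, Matrix.of_apply, if_pos hi, if_pos hj]
        rw [h1]
        exact A8_low (wB j) i hi
      · have h1 : PM N g u q B i j = q.coeff i := by
          simp only [PM, Matrix.of_apply, if_pos hi, if_neg hj]
        rw [h1]
        exact A8_low wq i hi
    · simp only [dv, if_neg hi]
      have hj : (j : ℕ) < N := by
        have h1 := i.2
        have h2 := j.2
        have h3 : (i : ℕ) ≠ (j : ℕ) := fun h => hij (Fin.ext h)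
        omega
      have h1 : PM N g u q B i j = u j := by
        simp only [PM, Matrix.of_apply, if_neg hi, if_pos hj]
      rw [h1]
      exact hu j

private noncomputable def A8_sft (F : R[X][X]) (i : ℕ) : R[X] := if i = 0 then 0 else F.coeff (i - 1)

private theorem A8_mulX (F : R[X][X]) (f : R[X]) (i : ℕ) :
    (F * (X - C f)).coeff i = A8_sft F i - F.coeff i * f := by
  unfold A8_sft
  rw [mul_sub, coeff_sub, coeff_mul_C]
  congr 1
  rcases Nat.eq_zero_or_pos i with h | h
  · subst h
    rw [if_pos rfl, mul_coeff_zero, coeff_X_zero, mul_zero]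
  · obtain ⟨m, rfl⟩ : ∃ m, i = m + 1 := ⟨i - 1, by omega⟩
    rw [if_neg (by omega), coeff_mul_X, Nat.add_sub_cancel]

private theorem A8_sum {S : Type*} [CommRing S] (M i : ℕ) (c : S) (G : ℕ → S) :
    ∑ m ∈ Finset.range (M + 1), (if m + 1 < M + 1 then (if i = m + 1 then 1 else 0) else c) * G m =
      (if 1 ≤ i ∧ i ≤ M then G (i - 1) else 0) + c * G M := by
  rw [Finset.sum_range_succ, if_neg (lt_irrefl _)]
  congr 1
  have h1 : ∀ m ∈ Finset.range M,
      (if m + 1 < M + 1 then (if i = m + 1 then (1 : S) else 0) else c) * G m =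
        if i = m + 1 then G m else 0 := by
    intro m hm
    rw [Finset.mem_range] at hm
    rw [if_pos (by omega), ite_mul, one_mul, zero_mul]
  rw [Finset.sum_congr rfl h1]
  by_cases h : 1 ≤ i ∧ i ≤ M
  · rw [if_pos h, Finset.sum_eq_single (i - 1)]
    · rw [if_pos (by omega)]
    · intro m _ hm
      rw [if_neg (by omega)]
    · intro hm
      rw [Finset.mem_range] at hm
      omega
  · rw [if_neg h]
    refine Finset.sum_eq_zero fun m hm => ?_
    rw [Finset.mem_range] at hm
    rw [if_neg (by omega)]

private theorem A8_last {S : Type*} [CommRing S] {m : ℕ} (a t : Fin (m + 1) → S) (d : S) :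
    ∑ j, (a j + if j = Fin.last m then d else 0) * t j = ∑ j, a j * t j + d * t (Fin.last m) := by
  simp only [add_mul, Finset.sum_add_distrib, ite_mul, zero_mul]
  rw [Finset.sum_ite_eq' Finset.univ (Fin.last m) fun j => d * t j, if_pos (Finset.mem_univ _)]

private theorem A8_star {g f p : R[X]} {u h : Fin (N + 1) → R[X]}
    {T : Matrix (Fin (N + 1)) (Fin (N + 1)) R[X]} {q : R[X][X]} {B : Fin (N + 1) → R[X][X]}
    (O : Out N b g f u T h p q B) (k : Fin (N + 1)) (i : ℕ) :
    ∑ j, (B j).coeff i * T j k +
        (if (k : ℕ) < N then A8_sft (B k) i - (B k).coeff i * f else 0) =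
      q.coeff i * h k + (if (k : ℕ) < N then 0 else A8_sft q i - q.coeff i * f) -
        (if i = 0 then p * (if (k : ℕ) < N then u k else -g) else 0) := by
  have hs := congrArg (fun F => coeff F i) (O.star k)
  beta_reduce at hs
  rw [finsetSum_coeff, coeff_sub] at hs
  have h1 : ∀ j : Fin (N + 1), (B j * AA N f T j k).coeff i = (B j).coeff i * T j k +
      if j = k ∧ (j : ℕ) < N then A8_sft (B j) i - (B j).coeff i * f else 0 := by
    intro j
    simp only [AA, Matrix.of_apply]
    rw [mul_add, coeff_add, coeff_mul_C]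
    split_ifs
    · rw [A8_mulX]
    · rw [mul_zero, coeff_zero]
  have h2 : ∑ j : Fin (N + 1), (if j = k ∧ (j : ℕ) < N then
      A8_sft (B j) i - (B j).coeff i * f else 0) =
      if (k : ℕ) < N then A8_sft (B k) i - (B k).coeff i * f else 0 := by
    rw [Finset.sum_eq_single k]
    · by_cases hk : (k : ℕ) < N
      · rw [if_pos ⟨rfl, hk⟩, if_pos hk]
      · rw [if_neg (fun h => hk h.2), if_neg hk]
    · intro j _ hj
      rw [if_neg (fun h => hj h.1)]
    · intro hk
      exact absurd (Finset.mem_univ k) hk
  rw [Finset.sum_congr rfl fun j _ => h1 j, Finset.sum_add_distrib, h2] at hs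
  rw [hs]
  congr 1
  · simp only [ry]
    rw [mul_add, coeff_add, coeff_mul_C]
    congr 1
    split_ifs
    · rw [mul_zero, coeff_zero]
    · rw [A8_mulX]
  · simp only [rx]
    rw [← C_mul, coeff_C]

theorem out_QP [Nontrivial R] (hN : 1 ≤ N) (hb : 1 ≤ b) {g f p : R[X]} {u h : Fin (N + 1) → R[X]}
    {T : Matrix (Fin (N + 1)) (Fin (N + 1)) R[X]} {q : R[X][X]} {B : Fin (N + 1) → R[X][X]}
    (hrel : ∀ k, ∑ j, u j * T j k = g * h k) (O : Out N b g f u T h p q B) :
    QM N f u p B * PM N g u q B = PM N g u q B * QpM N f T h := by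
  have wB := O.wB
  have wq := O.wq
  -- the coefficients of `x ^ N`
  have hBN : ∀ j : Fin (N + 1), (B j).coeff N = if j = Fin.last N then 1 else 0 := by
    intro j
    have h1 := A8_high (wB j) N le_rfl
    rw [A8_coeffD] at h1
    rw [sub_eq_zero.1 h1]
    by_cases hj : j = Fin.last N
    · subst hj
      rw [if_pos (Fin.val_last N).symm, if_pos rfl, Fin.val_last, Nat.sub_self, mul_zero, pow_zero]
    · rw [if_neg hj, if_neg]
      intro h2
      exact hj (Fin.ext (by rw [Fin.val_last]; exact h2.symm))
  have hqN : q.coeff N = 0 := A8_high wq N le_rfl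
  have hTN : ∀ k : Fin (N + 1), T (Fin.last N) k =
      if (k : ℕ) < N then -(B k).coeff (N - 1) else q.coeff (N - 1) := by
    intro k
    have h1 := A8_star O k N
    have h2 : ∑ j, (B j).coeff N * T j k = T (Fin.last N) k := by
      rw [Finset.sum_congr rfl fun j _ => by rw [hBN j, ite_mul, one_mul, zero_mul]]
      rw [Finset.sum_ite_eq' Finset.univ (Fin.last N) fun j => T j k, if_pos (Finset.mem_univ _)]
    rw [h2, hqN, if_neg (show ¬ N = 0 by omega)] at h1
    by_cases hk : (k : ℕ) < N
    · rw [if_pos hk, if_pos hk, hBN k, if_neg (fun h3 => by rw [h3, Fin.val_last] at hk; omega)] at h1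
      rw [if_pos hk]
      unfold A8_sft at h1
      rw [if_neg (show ¬ N = 0 by omega)] at h1
      linear_combination h1
    · rw [if_neg hk, if_neg hk] at h1
      rw [if_neg hk]
      unfold A8_sft at h1
      rw [if_neg (show ¬ N = 0 by omega)] at h1
      linear_combination h1
  refine Matrix.ext fun i k => ?_
  rw [Matrix.mul_apply, Matrix.mul_apply]
  -- the left side
  obtain ⟨M, rfl⟩ : ∃ M, N = M + 1 := ⟨N - 1, by omega⟩
  obtain ⟨G, hG⟩ : ∃ G : ℕ → R[X], G = fun m => if (k : ℕ) < M + 1 then (B k).coeff m else q.coeff m :=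
    ⟨_, rfl⟩
  have hL : ∑ j, QM (M + 1) f u p B i j * PM (M + 1) g u q B j k =
      ((if 1 ≤ (i : ℕ) ∧ (i : ℕ) ≤ M then G (i - 1) else 0) +
        (if (i : ℕ) < M + 1 then -(B (Fin.last (M + 1))).coeff i else -u (Fin.last (M + 1))) * G M) +
        (if (i : ℕ) < M + 1 then (if (i : ℕ) = 0 then p else 0) else f) *
          (if (k : ℕ) < M + 1 then u k else g) := by
    rw [Fin.sum_univ_castSucc]
    congr 1
    · rw [← A8_sum M (i : ℕ) _ G, ← Fin.sum_univ_eq_sum_range (fun m =>
        (if m + 1 < M + 1 then (if (i : ℕ) = m + 1 then 1 else 0) else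
          (if (i : ℕ) < M + 1 then -(B (Fin.last (M + 1))).coeff i else -u (Fin.last (M + 1)))) * G m)
        (M + 1)]
      refine Finset.sum_congr rfl fun j _ => ?_
      have hj : ((Fin.castSucc j : Fin (M + 1 + 1)) : ℕ) = (j : ℕ) := rfl
      simp only [QM, PM, Matrix.of_apply, hj, hG, if_pos j.2]
    · have hl : ¬ ((Fin.last (M + 1) : Fin (M + 1 + 1)) : ℕ) < M + 1 := by
        rw [Fin.val_last]; omega
      simp only [QM, PM, Matrix.of_apply, if_neg hl]
  rw [hL]
  -- the right side
  have hPM : ∀ j, PM (M + 1) g u q B i j = (if (i : ℕ) < M + 1 then (B j).coeff i else u j) +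
      if j = Fin.last (M + 1) then (if (i : ℕ) < M + 1 then
        q.coeff i - (B (Fin.last (M + 1))).coeff i else g - u (Fin.last (M + 1))) else 0 := by
    intro j
    simp only [PM, Matrix.of_apply]
    by_cases hj : j = Fin.last (M + 1)
    · subst hj
      have hl : ¬ ((Fin.last (M + 1) : Fin (M + 1 + 1)) : ℕ) < M + 1 := by
        rw [Fin.val_last]; omega
      rw [if_pos rfl, if_neg hl, if_neg hl]
      split_ifs <;> ring
    · have hj' : (j : ℕ) < M + 1 := by
        have h1 := j.2
        have h2 : (j : ℕ) ≠ M + 1 := fun h3 => hj (Fin.ext (by rw [Fin.val_last]; exact h3))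
        omega
      rw [if_neg hj, if_pos hj', if_pos hj', add_zero]
  have hS : ∑ j, (if (i : ℕ) < M + 1 then (B j).coeff i else u j) * T j k =
      if (i : ℕ) < M + 1 then ∑ j, (B j).coeff i * T j k else g * h k := by
    by_cases hi : (i : ℕ) < M + 1
    · rw [if_pos hi]
      refine Finset.sum_congr rfl fun j _ => ?_
      rw [if_pos hi]
    · rw [if_neg hi, ← hrel k]
      refine Finset.sum_congr rfl fun j _ => ?_
      rw [if_neg hi]
  have hst := A8_star O k (i : ℕ)
  have hT := hTN k
  rw [Nat.add_sub_cancel] at hT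
  by_cases hk : (k : ℕ) < M + 1
  · have hkl : k ≠ Fin.last (M + 1) := by
      intro h3
      rw [h3, Fin.val_last] at hk
      omega
    have hQ : ∀ j, QpM (M + 1) f T h j k = ((if j = k then f else 0) - T j k) +
        if j = Fin.last (M + 1) then T (Fin.last (M + 1)) k + h k else 0 := by
      intro j
      simp only [QpM, Matrix.of_apply]
      by_cases hj : j = Fin.last (M + 1)
      · subst hj
        have hl : ¬ ((Fin.last (M + 1) : Fin (M + 1 + 1)) : ℕ) < M + 1 := by
          rw [Fin.val_last]; omega
        rw [if_neg hl, if_pos hk, if_neg (Ne.symm hkl), if_pos rfl]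
        ring
      · have hj' : (j : ℕ) < M + 1 := by
          have h1 := j.2
          have h2 : (j : ℕ) ≠ M + 1 := fun h3 => hj (Fin.ext (by rw [Fin.val_last]; exact h3))
          omega
        rw [if_pos hj', if_pos hk, if_neg hj, add_zero]
    have hR : ∑ j, PM (M + 1) g u q B i j * QpM (M + 1) f T h j k =
        PM (M + 1) g u q B i k * f - ∑ j, PM (M + 1) g u q B i j * T j k +
          PM (M + 1) g u q B i (Fin.last (M + 1)) * (T (Fin.last (M + 1)) k + h k) := by
      rw [Finset.sum_congr rfl fun j _ => by rw [hQ j, mul_comm]]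
      rw [A8_last (fun j => (if j = k then f else 0) - T j k)
        (fun j => PM (M + 1) g u q B i j) (T (Fin.last (M + 1)) k + h k)]
      simp only [sub_mul, Finset.sum_sub_distrib, ite_mul, zero_mul]
      rw [Finset.sum_ite_eq' Finset.univ k fun j => f * PM (M + 1) g u q B i j,
        if_pos (Finset.mem_univ _)]
      rw [Finset.sum_congr rfl fun j _ => mul_comm (T j k) (PM (M + 1) g u q B i j)]
      ring
    have hR2 : ∑ j, PM (M + 1) g u q B i j * T j k =
        ∑ j, (if (i : ℕ) < M + 1 then (B j).coeff i else u j) * T j k +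
          (if (i : ℕ) < M + 1 then q.coeff i - (B (Fin.last (M + 1))).coeff i else
            g - u (Fin.last (M + 1))) * T (Fin.last (M + 1)) k := by
      rw [Finset.sum_congr rfl fun j _ => by rw [hPM j], A8_last]
    rw [hR, hR2, hS, hPM k, hPM (Fin.last (M + 1)), if_neg hkl, if_pos rfl]
    rw [if_pos hk] at hT hst
    rw [hT, if_pos hk]
    simp only [hG, if_pos hk]
    by_cases hi : (i : ℕ) < M + 1
    · simp only [if_pos hi, if_pos hk] at hst ⊢
      by_cases hi0 : (i : ℕ) = 0
      · simp only [A8_sft, if_pos hi0] at hst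
        rw [if_neg (by omega), if_pos hi0]
        linear_combination hst
      · simp only [A8_sft, if_neg hi0] at hst
        rw [if_pos ⟨by omega, by omega⟩, if_neg hi0]
        linear_combination hst
    · simp only [if_neg hi]
      rw [if_neg (by omega)]
      ring
  · have hkl : k = Fin.last (M + 1) := by
      have h1 := k.2
      exact Fin.ext (by rw [Fin.val_last]; omega)
    have hQ : ∀ j, QpM (M + 1) f T h j k = T j k +
        if j = Fin.last (M + 1) then f - h k - T (Fin.last (M + 1)) k else 0 := by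
      intro j
      simp only [QpM, Matrix.of_apply]
      by_cases hj : j = Fin.last (M + 1)
      · subst hj
        have hl : ¬ ((Fin.last (M + 1) : Fin (M + 1 + 1)) : ℕ) < M + 1 := by
          rw [Fin.val_last]; omega
        rw [if_neg hl, if_neg hk, if_pos rfl]
        ring
      · have hj' : (j : ℕ) < M + 1 := by
          have h1 := j.2
          have h2 : (j : ℕ) ≠ M + 1 := fun h3 => hj (Fin.ext (by rw [Fin.val_last]; exact h3))
          omega
        rw [if_pos hj', if_neg hk, if_neg hj, add_zero]
    have hR : ∑ j, PM (M + 1) g u q B i j * QpM (M + 1) f T h j k =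
        ∑ j, PM (M + 1) g u q B i j * T j k +
          PM (M + 1) g u q B i (Fin.last (M + 1)) * (f - h k - T (Fin.last (M + 1)) k) := by
      rw [Finset.sum_congr rfl fun j _ => by rw [hQ j, mul_comm]]
      rw [A8_last (fun j => T j k)
        (fun j => PM (M + 1) g u q B i j) (f - h k - T (Fin.last (M + 1)) k)]
      rw [Finset.sum_congr rfl fun j _ => mul_comm (T j k) (PM (M + 1) g u q B i j)]
      ring
    have hR2 : ∑ j, PM (M + 1) g u q B i j * T j k =
        ∑ j, (if (i : ℕ) < M + 1 then (B j).coeff i else u j) * T j k +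
          (if (i : ℕ) < M + 1 then q.coeff i - (B (Fin.last (M + 1))).coeff i else
            g - u (Fin.last (M + 1))) * T (Fin.last (M + 1)) k := by
      rw [Finset.sum_congr rfl fun j _ => by rw [hPM j], A8_last]
    rw [hR, hR2, hS, hPM (Fin.last (M + 1)), if_pos rfl]
    rw [if_neg hk] at hT hst
    rw [hT, if_neg hk]
    simp only [hG, if_neg hk]
    by_cases hi : (i : ℕ) < M + 1
    · simp only [if_pos hi, if_neg hk] at hst ⊢
      by_cases hi0 : (i : ℕ) = 0
      · simp only [A8_sft, if_pos hi0] at hst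
        rw [if_neg (by omega), if_pos hi0]
        linear_combination -hst
      · simp only [A8_sft, if_neg hi0] at hst
        rw [if_pos ⟨by omega, by omega⟩, if_neg hi0]
        linear_combination -hst
    · simp only [if_neg hi]
      rw [if_neg (by omega)]
      ring

end

end Pool.Agent.LibCQ2
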