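import Pool.Agent.LibCQ2.Defs

set_option autoImplicit false

/-! ROW A5 (MEDIUM, only Mathlib + Defs). Weights on R[y][x] (outer variable x of weight b, inner variable y of weight 1). wtLT b m F: all coefficients of weight ≥ m vanish. apx b m F G: weights ≤ m, same part of weight m.
 wtLT_mul: coefficient (i, j) of F G = ∑ F_{i1,j1} G_{i2,j2}, i1 + i2 = i, j1 + j2 = j (coeff_mul twice): if m + m' + 1 ≤ b i + j then m + 1 ≤ b i1 + j1 or m' + 1 ≤ b i2 + j2. Second version with strict bound on one side.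
 apx_mul: F F' - G G' = (F - G) F' + G (F' - G'). apx_prod: Finset induction. apx_det: Matrix.det_apply: ∑ sign * ∏_i M (σ i) i, weights ∑_i m (σ i) = ∑ m i (Equiv.sum_comp). -/

namespace Pool.Agent.LibCQ2

open Polynomial

section
variable {R : Type*} [CommRing R] {b : ℕ}

private theorem A5_mul {F G : R[X][X]} (i j : ℕ)
    (h : ∀ i1 i2 j1 j2 : ℕ, i1 + i2 = i → j1 + j2 = j →
      (F.coeff i1).coeff j1 = 0 ∨ (G.coeff i2).coeff j2 = 0) : ((F * G).coeff i).coeff j = 0 := by
  rw [coeff_mul, finsetSum_coeff]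
  refine Finset.sum_eq_zero fun x hx => ?_
  rw [coeff_mul]
  refine Finset.sum_eq_zero fun y hy => ?_
  rcases h x.1 x.2 y.1 y.2 (Finset.HasAntidiagonal.mem_antidiagonal.mp hx)
    (Finset.HasAntidiagonal.mem_antidiagonal.mp hy) with h1 | h1
  · rw [h1, zero_mul]
  · rw [h1, mul_zero]

theorem wtLT_mono {m m' : ℕ} (h : m ≤ m') {F : R[X][X]} (hF : wtLT b m F) : wtLT b m' F :=
  fun i j hij => hF i j (h.trans hij)

theorem wtLT_zero (m : ℕ) : wtLT b m (0 : R[X][X]) := by
  intro i j _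
  rw [coeff_zero, coeff_zero]

theorem wtLT_add {m : ℕ} {F G : R[X][X]} (hF : wtLT b m F) (hG : wtLT b m G) : wtLT b m (F + G) := by
  intro i j hij
  rw [coeff_add, coeff_add, hF i j hij, hG i j hij, add_zero]

theorem wtLT_neg {m : ℕ} {F : R[X][X]} (hF : wtLT b m F) : wtLT b m (-F) := by
  intro i j hij
  rw [coeff_neg, coeff_neg, hF i j hij, neg_zero]

theorem wtLT_sub {m : ℕ} {F G : R[X][X]} (hF : wtLT b m F) (hG : wtLT b m G) : wtLT b m (F - G) := by
  rw [sub_eq_add_neg]
  exact wtLT_add hF (wtLT_neg hG)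

theorem wtLT_sum {m : ℕ} {I : Type*} (s : Finset I) (F : I → R[X][X]) (hF : ∀ i ∈ s, wtLT b m (F i)) :
    wtLT b m (∑ i ∈ s, F i) := by
  intro i j hij
  rw [finsetSum_coeff, finsetSum_coeff]
  exact Finset.sum_eq_zero fun x hx => hF x hx i j hij

/-- weights `≤ m`, `≤ m'` -/
theorem wtLT_mul {m m' : ℕ} {F G : R[X][X]} (hF : wtLT b (m + 1) F) (hG : wtLT b (m' + 1) G) :
    wtLT b (m + m' + 1) (F * G) := by
  intro i j hij
  refine A5_mul i j fun i1 i2 j1 j2 hi hj => ?_
  have h1 : b * i = b * i1 + b * i2 := by rw [← hi, mul_add]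
  by_cases h2 : m + 1 ≤ b * i1 + j1
  · exact Or.inl (hF _ _ h2)
  · exact Or.inr (hG _ _ (by omega))

/-- weights `< m`, `≤ m'` -/
theorem wtLT_mul' {m m' : ℕ} {F G : R[X][X]} (hF : wtLT b m F) (hG : wtLT b (m' + 1) G) :
    wtLT b (m + m') (F * G) := by
  intro i j hij
  refine A5_mul i j fun i1 i2 j1 j2 hi hj => ?_
  have h1 : b * i = b * i1 + b * i2 := by rw [← hi, mul_add]
  by_cases h2 : m ≤ b * i1 + j1
  · exact Or.inl (hF _ _ h2)
  · exact Or.inr (hG _ _ (by omega))

theorem wtLT_C {m : ℕ} {a : R[X]} (h : a.degree < (m : WithBot ℕ)) : wtLT b m (C a) := by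
  intro i j hij
  rw [coeff_C]
  split_ifs with hi
  · subst hi
    refine coeff_eq_zero_of_degree_lt (lt_of_lt_of_le h ?_)
    rw [mul_zero, zero_add] at hij
    exact_mod_cast hij
  · exact coeff_zero _

theorem wtLT_mono_top (i j : ℕ) : wtLT b (b * i + j + 1) (C (X ^ j) * X ^ i : R[X][X]) := by
  intro i' j' hij
  rw [coeff_C_mul_X_pow]
  split_ifs with hi
  · subst hi
    rw [coeff_X_pow, if_neg]
    omega
  · exact coeff_zero _

theorem apx_refl {m : ℕ} {F : R[X][X]} (hF : wtLT b (m + 1) F) : apx b m F F :=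
  ⟨hF, hF, by rw [sub_self]; exact wtLT_zero m⟩

theorem apx_add {m : ℕ} {F G F' G' : R[X][X]} (h : apx b m F G) (h' : apx b m F' G') : apx b m (F + F') (G + G') := by
  refine ⟨wtLT_add h.1 h'.1, wtLT_add h.2.1 h'.2.1, ?_⟩
  have e : F + F' - (G + G') = (F - G) + (F' - G') := by ring
  rw [e]
  exact wtLT_add h.2.2 h'.2.2

private theorem A5_neg {m : ℕ} {F G : R[X][X]} (h : apx b m F G) : apx b m (-F) (-G) := by
  refine ⟨wtLT_neg h.1, wtLT_neg h.2.1, ?_⟩
  have e : -F - -G = -(F - G) := by ring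
  rw [e]
  exact wtLT_neg h.2.2

theorem apx_sum {m : ℕ} {I : Type*} (s : Finset I) (F G : I → R[X][X]) (h : ∀ i ∈ s, apx b m (F i) (G i)) :
    apx b m (∑ i ∈ s, F i) (∑ i ∈ s, G i) := by
  refine ⟨wtLT_sum s F fun i hi => (h i hi).1, wtLT_sum s G fun i hi => (h i hi).2.1, ?_⟩
  rw [← Finset.sum_sub_distrib]
  exact wtLT_sum s _ fun i hi => (h i hi).2.2

theorem apx_mul {m m' : ℕ} {F G F' G' : R[X][X]} (h : apx b m F G) (h' : apx b m' F' G') :
    apx b (m + m') (F * F') (G * G') := by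
  refine ⟨wtLT_mul h.1 h'.1, wtLT_mul h.2.1 h'.2.1, ?_⟩
  have e : F * F' - G * G' = (F - G) * F' + (F' - G') * G := by ring
  rw [e]
  refine wtLT_add (wtLT_mul' h.2.2 h'.1) ?_
  rw [add_comm m m']
  exact wtLT_mul' h'.2.2 h.2.1

private theorem A5_one : wtLT b 1 (1 : R[X][X]) := by
  intro i j hij
  rw [coeff_one]
  split_ifs with hi
  · subst hi
    rw [coeff_one, if_neg]
    omega
  · exact coeff_zero _

theorem apx_prod {I : Type*} (s : Finset I) (m : I → ℕ) (F G : I → R[X][X]) (h : ∀ i ∈ s, apx b (m i) (F i) (G i)) :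
    apx b (∑ i ∈ s, m i) (∏ i ∈ s, F i) (∏ i ∈ s, G i) := by
  classical
  induction s using Finset.induction_on with
  | empty =>
    rw [Finset.sum_empty, Finset.prod_empty, Finset.prod_empty]
    exact apx_refl (by rw [zero_add]; exact A5_one)
  | insert a s ha ih =>
    rw [Finset.sum_insert ha, Finset.prod_insert ha, Finset.prod_insert ha]
    exact apx_mul (h a (Finset.mem_insert_self a s))
      (ih fun i hi => h i (Finset.mem_insert_of_mem hi))

theorem apx_det {n : Type*} [Fintype n] [DecidableEq n] (m : n → ℕ) (M M' : Matrix n n R[X][X])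
    (h : ∀ i j, apx b (m i) (M i j) (M' i j)) : apx b (∑ i, m i) M.det M'.det := by
  rw [Matrix.det_apply', Matrix.det_apply']
  refine apx_sum _ _ _ fun σ _ => ?_
  have h1 : apx b (∑ i, m (σ i)) (∏ i, M (σ i) i) (∏ i, M' (σ i) i) :=
    apx_prod _ _ _ _ fun i _ => h (σ i) i
  rw [Equiv.sum_comp σ m] at h1
  rcases Int.units_eq_one_or (Equiv.Perm.sign σ) with h2 | h2
  · rw [h2]
    simpa using h1
  · rw [h2]
    have h3 := A5_neg h1
    rw [← neg_one_mul (∏ i, M (σ i) i), ← neg_one_mul (∏ i, M' (σ i) i)] at h3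
    have h4 : (((-1 : ℤˣ) : ℤ) : R[X][X]) = -1 := by simp
    rw [h4]
    exact h3

/-- division by `x - f`, `deg f < b`, lowers the weight by `b` -/
theorem wtLT_div {m : ℕ} {f : R[X]} (hf : f.degree < (b : WithBot ℕ)) {Q : R[X][X]}
    (h : wtLT b (m + b) ((X - C f) * Q)) : wtLT b m Q := by
  have key : ∀ n i : ℕ, Q.natDegree < i + n → ∀ j, m ≤ b * i + j → (Q.coeff i).coeff j = 0 := by
    intro n
    induction n with
    | zero =>
      intro i hi j _
      have h0 : Q.coeff i = 0 := coeff_eq_zero_of_natDegree_lt (by omega)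
      rw [h0, coeff_zero]
    | succ n ih =>
      intro i hi j hj
      have h1 : ((X - C f) * Q).coeff (i + 1) = Q.coeff i - f * Q.coeff (i + 1) := by
        rw [sub_mul, coeff_sub, coeff_X_mul, coeff_C_mul]
      have h2 := h (i + 1) j (by rw [mul_add]; omega)
      rw [h1, coeff_sub] at h2
      have h3 : (f * Q.coeff (i + 1)).coeff j = 0 := by
        rw [coeff_mul]
        refine Finset.sum_eq_zero fun x hx => ?_
        have hx' := Finset.HasAntidiagonal.mem_antidiagonal.mp hx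
        by_cases h4 : x.1 < b
        · rw [ih (i + 1) (by omega) x.2 (by rw [mul_add]; omega), mul_zero]
        · rw [coeff_eq_zero_of_degree_lt (lt_of_lt_of_le hf (by exact_mod_cast not_lt.mp h4)), zero_mul]
      rw [h3, sub_zero] at h2
      exact h2
  intro i j hij
  exact key (Q.natDegree + 1) i (by omega) j hij

end

end Pool.Agent.LibCQ2
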