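import Pool.Agent.LibCQ2.Defs
import Pool.Agent.LibCQ2.A5

set_option autoImplicit false

/-! ROW A9 (MEDIUM/STRONG, Defs + A5). Normal form of a commuting pair with two vectors whose strings form a basis. Let x y = y x; a2 x y F = ∑ F_i(y) x^i.
 a2 is a ring hom (Polynomial.eval₂RingHom' with the commutation hypothesis; a2 (C a) = aeval y a, a2 X = x).
 repr: every z : n → R is (a2 x y F).mulVec v + (aeval y e).mulVec w with wtLT b (N b) F, degree e < b: z = GM *ᵥ r (HB), F := ∑_{i<N} C (∑_{j < b(N-i)} C (r ⟨i,j⟩) X^j) X^i, e := ∑_{j<b} C (r ⟨N,j⟩) X^j (gam: γ_i = x^i v, γ_N = w; y^j x^i v).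
 repr applied to w-relations: x w = f(y) w + F(x,y) v, degree f < b, wt F < N b. y^b w = e(y) w + F'(x,y) v: g := y^b - e, q0 := -F'. x^j y^(b(N-j)) v = F_j v + e_j w: B_j := y^.. x^j - F_j, u_j := -e_j.
 GAUGE: p := F.eval f ∈ R[y] (degree < N b because weights are preserved by x ↦ f(y): degree f < b), c := (F - C p) /ₘ (X - C f): F - C p = (X - C f) * c, wtLT b ((N-1) b) c (wtLT_div). w' := w - (a2 c) v.
   x w' = f w' + (F - (x - f) c) v = f(y) w' + p(y) v. g(y) w' = -q0 v - g c v: q := q0 + g c, weight < N b (g of weight ≤ b, c < (N-1) b). B_j v + u_j w = 0 gives (B_j + u_j c) v + u_j w' = 0; u_j c has weight < b + (N-1) b.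
   New basis: for every z = F v + e w = (F + e c) v + e w': so GM (dv N b) y (gam N x v w') has a right inverse; the index sets have the same cardinality (R nontrivial and GM for w invertible: Matrix.. rank, or
   card_eq_of_linearEquiv (LinearEquiv between n → R and KIx → R), commRing_strongRankCondition), so the right inverse is a left inverse (Matrix.mul_eq_one_comm_of_card_eq / mul_eq_one_comm_of_equiv). -/

namespace Pool.Agent.LibCQ2

open Polynomial

section
variable {R : Type*} [CommRing R] {n : Type*} [Fintype n] [DecidableEq n]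

theorem a2_C (x y : Matrix n n R) (a : R[X]) : a2 x y (C a) = aeval y a := by
  unfold a2
  rw [eval₂_C]
  rfl

theorem a2_X (x y : Matrix n n R) : a2 x y X = x := by
  unfold a2
  rw [eval₂_X]

theorem a2_add (x y : Matrix n n R) (F G : R[X][X]) : a2 x y (F + G) = a2 x y F + a2 x y G := by
  unfold a2
  rw [eval₂_add]

theorem a2_sub (x y : Matrix n n R) (F G : R[X][X]) : a2 x y (F - G) = a2 x y F - a2 x y G := by
  unfold a2
  rw [eval₂_sub]

private theorem A9_comm (x y : Matrix n n R) (hxy : x * y = y * x) (a : R[X]) :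
    Commute ((aeval y) a) x := by
  have h : Commute y x := hxy.symm
  induction a using Polynomial.induction_on' with
  | add p q hp hq =>
    rw [map_add]
    exact hp.add_left hq
  | monomial m r =>
    rw [aeval_monomial]
    exact (show Commute ((algebraMap R (Matrix n n R)) r) x from Algebra.commutes r x).mul_left (h.pow_left m)

theorem a2_mul (x y : Matrix n n R) (hxy : x * y = y * x) (F G : R[X][X]) :
    a2 x y (F * G) = a2 x y F * a2 x y G := by
  unfold a2
  rw [eval₂_mul_noncomm]
  intro k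
  exact A9_comm x y hxy _

private theorem A9_mono (x y : Matrix n n R) (m : ℕ) (a : R[X]) :
    a2 x y (monomial m a) = aeval y a * x ^ m := by
  unfold a2
  rw [eval₂_monomial]
  rfl

private theorem A9_sum (x y : Matrix n n R) {I : Type*} (s : Finset I) (F : I → R[X][X]) :
    a2 x y (∑ i ∈ s, F i) = ∑ i ∈ s, a2 x y (F i) := by
  unfold a2
  rw [eval₂_finsetSum]

/-- the combination of the columns is `piM` -/
private theorem A9_GM {m : ℕ} (d : Fin m → ℕ) (Y : Matrix n n R) (γ : Fin m → n → R)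
    (r : (Σ i : Fin m, Fin (d i)) → R) : (GM d Y γ).mulVec r = piM Y γ (iota d r) := by
  funext k
  unfold piM iota
  rw [Matrix.mulVec, dotProduct, Fintype.sum_sigma, Finset.sum_apply]
  apply Finset.sum_congr rfl
  intro i _
  rw [map_sum, Matrix.sum_mulVec, Finset.sum_apply]
  apply Finset.sum_congr rfl
  intro j _
  rw [map_mul, aeval_C, map_pow, aeval_X, Algebra.algebraMap_eq_smul_one, smul_mul_assoc, one_mul,
    Matrix.smul_mulVec, Pi.smul_apply, smul_eq_mul, mul_comm]
  rfl

private theorem A9_dv1 {N b : ℕ} (i : Fin (N + 1)) (h : (i : ℕ) < N) : dv N b i = b * (N - i) := by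
  unfold dv
  rw [if_pos h]

private theorem A9_dv2 {N b : ℕ} (i : Fin (N + 1)) (h : ¬ (i : ℕ) < N) : dv N b i = b := by
  unfold dv
  rw [if_neg h]

private theorem A9_piM {N : ℕ} (x y : Matrix n n R) (v w : n → R)
    (z : Fin (N + 1) → R[X]) :
    piM y (gam N x v w) z =
      (a2 x y (∑ i : Fin N, monomial (i : ℕ) (z i.castSucc))).mulVec v + (aeval y (z (Fin.last N))).mulVec w := by
  unfold piM
  rw [Fin.sum_univ_castSucc, A9_sum, Matrix.sum_mulVec]
  congr 1
  · apply Finset.sum_congr rfl
    intro i _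
    rw [A9_mono, ← Matrix.mulVec_mulVec]
    unfold gam
    rw [if_pos (by simp)]
    rfl
  · unfold gam
    rw [if_neg (by simp)]

private theorem A9_sumFin {a : R[X]} {d : ℕ} (h : a.degree < (d : WithBot ℕ)) :
    ∑ j : Fin d, C (a.coeff j) * X ^ (j : ℕ) = a := by
  rw [Fin.sum_univ_eq_sum_range (fun j => C (a.coeff j) * X ^ j) d]
  ext m
  rw [finsetSum_coeff]
  simp only [coeff_C_mul, coeff_X_pow]
  by_cases hm : m < d
  · rw [Finset.sum_eq_single m]
    · simp
    · intro j _ hj
      rw [if_neg (Ne.symm hj), mul_zero]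
    · intro h1
      exact absurd (Finset.mem_range.2 hm) h1
  · rw [Finset.sum_eq_zero]
    · symm
      apply coeff_eq_zero_of_degree_lt
      refine h.trans_le ?_
      exact_mod_cast not_lt.1 hm
    · intro j hj
      have := Finset.mem_range.1 hj
      rw [if_neg (by omega), mul_zero]

private theorem A9_coeffF {N : ℕ} (z : Fin N → R[X]) (m : ℕ) :
    (∑ i : Fin N, monomial (i : ℕ) (z i)).coeff m = if h : m < N then z ⟨m, h⟩ else 0 := by
  rw [finsetSum_coeff]
  simp only [coeff_monomial]
  by_cases hm : m < N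
  · rw [dif_pos hm, Finset.sum_eq_single ⟨m, hm⟩]
    · simp
    · intro j _ hj
      rw [if_neg]
      intro h1
      apply hj
      ext
      exact h1
    · intro h1
      exact absurd (Finset.mem_univ _) h1
  · rw [dif_neg hm, Finset.sum_eq_zero]
    intro j _
    rw [if_neg]
    have := j.2
    omega

private theorem A9_repr {N b : ℕ} (x y : Matrix n n R) (v w : n → R)
    (hB : HB (dv N b) y (gam N x v w)) (z : n → R) :
    ∃ (F : R[X][X]) (e : R[X]), wtLT b (N * b) F ∧ e.degree < (b : WithBot ℕ) ∧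
      z = (a2 x y F).mulVec v + (aeval y e).mulVec w := by
  obtain ⟨H, hH, _⟩ := hB
  refine ⟨∑ i : Fin N, monomial (i : ℕ) (iota (dv N b) (H.mulVec z) i.castSucc),
    iota (dv N b) (H.mulVec z) (Fin.last N), ?_, ?_, ?_⟩
  · intro i j hij
    rw [A9_coeffF]
    by_cases hi : i < N
    · rw [dif_pos hi]
      apply coeff_eq_zero_of_degree_lt
      refine (degree_sum_fin_lt _).trans_le ?_
      rw [A9_dv1 _ (by simpa using hi)]
      have h1 : b * (N - i) ≤ j := by
        rw [Nat.mul_sub]
        rw [mul_comm] at hij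
        omega
      exact_mod_cast h1
    · rw [dif_neg hi, coeff_zero]
  · refine (degree_sum_fin_lt _).trans_le ?_
    rw [A9_dv2 (Fin.last N) (by simp)]
  · rw [← A9_piM, ← A9_GM, Matrix.mulVec_mulVec, hH, Matrix.one_mulVec]

/-- every vector with the right weights is a combination of the columns -/
private theorem A9_span {N b : ℕ} (x y : Matrix n n R) (v w : n → R) (F : R[X][X]) (e : R[X])
    (hF : wtLT b (N * b) F) (he : e.degree < (b : WithBot ℕ)) :
    ∃ r : KIx N b → R, (GM (dv N b) y (gam N x v w)).mulVec r =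
      (a2 x y F).mulVec v + (aeval y e).mulVec w := by
  refine ⟨fun κ => if (κ.1 : ℕ) < N then (F.coeff κ.1).coeff κ.2 else e.coeff κ.2, ?_⟩
  rw [A9_GM, A9_piM]
  have h1 : ∀ i : Fin N, iota (dv N b) (fun κ : KIx N b => if (κ.1 : ℕ) < N then (F.coeff κ.1).coeff κ.2
      else e.coeff κ.2) i.castSucc = F.coeff i := by
    intro i
    have hi : ((i.castSucc : Fin (N + 1)) : ℕ) < N := by simp
    unfold iota
    simp only [if_pos hi]
    apply A9_sumFin
    rw [A9_dv1 _ hi, degree_lt_iff_coeff_zero]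
    intro m hm
    apply hF
    have hi' : (i : ℕ) < N := i.2
    have h2 : b * (N - (i : ℕ)) ≤ m := hm
    rw [Nat.mul_sub] at h2
    have h3 : N * b = b * N := mul_comm _ _
    show N * b ≤ b * (i : ℕ) + m
    omega
  have h2 : iota (dv N b) (fun κ : KIx N b => if (κ.1 : ℕ) < N then (F.coeff κ.1).coeff κ.2
      else e.coeff κ.2) (Fin.last N) = e := by
    have hi : ¬ ((Fin.last N : Fin (N + 1)) : ℕ) < N := by simp
    unfold iota
    simp only [if_neg hi]
    apply A9_sumFin
    rw [A9_dv2 _ hi]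
    exact he
  rw [h2]
  congr 2
  congr 1
  have h3 : ∑ i : Fin N, monomial (i : ℕ) (iota (dv N b) (fun κ : KIx N b => if (κ.1 : ℕ) < N then
      (F.coeff κ.1).coeff κ.2 else e.coeff κ.2) i.castSucc) = ∑ i : Fin N, monomial (i : ℕ) (F.coeff i) :=
    Finset.sum_congr rfl (fun i _ => by rw [h1 i])
  rw [h3]
  ext m : 1
  rw [A9_coeffF (fun i : Fin N => F.coeff i)]
  by_cases hm : m < N
  · rw [dif_pos hm]
  · rw [dif_neg hm]
    ext l
    rw [coeff_zero, hF m l]
    have h4 : N * b ≤ b * m := by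
      rw [mul_comm]
      exact Nat.mul_le_mul_left b (not_lt.1 hm)
    omega

private theorem A9_rightinv {ι : Type*} [Fintype ι] (G : Matrix n ι R)
    (h : ∀ z : n → R, ∃ r : ι → R, G.mulVec r = z) : ∃ H : Matrix ι n R, G * H = 1 := by
  choose r hr using h
  refine ⟨Matrix.of fun i j => r (Pi.single j 1) i, ?_⟩
  ext i j
  rw [Matrix.mul_apply]
  have h1 := congrFun (hr (Pi.single j 1)) i
  rw [Matrix.mulVec, dotProduct] at h1
  refine h1.trans ?_
  rw [Matrix.one_apply, Pi.single_apply]

private theorem A9_HB [Nontrivial R] {N b : ℕ} (x y : Matrix n n R)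
    (v w w' : n → R) (hB : HB (dv N b) y (gam N x v w))
    (h : ∀ z : n → R, ∃ (F : R[X][X]) (e : R[X]), wtLT b (N * b) F ∧ e.degree < (b : WithBot ℕ) ∧
      z = (a2 x y F).mulVec v + (aeval y e).mulVec w') : HB (dv N b) y (gam N x v w') := by
  obtain ⟨H', hH'⟩ := A9_rightinv (GM (dv N b) y (gam N x v w')) (by
    intro z
    obtain ⟨F, e, hF, he, hz⟩ := h z
    obtain ⟨r, hr⟩ := A9_span x y v w' F e hF he
    exact ⟨r, hr.trans hz.symm⟩)
  obtain ⟨H, h1, h2⟩ := hB
  have hc : Fintype.card (KIx N b) = Fintype.card n := by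
    refine card_eq_of_linearEquiv R (LinearEquiv.ofLinearMap (GM (dv N b) y (gam N x v w)).mulVecLin
      H.mulVecLin ?_ ?_)
    · rw [← Matrix.mulVecLin_mul, h1, Matrix.mulVecLin_one]
    · rw [← Matrix.mulVecLin_mul, h2, Matrix.mulVecLin_one]
  exact ⟨H', hH', (Matrix.mul_eq_one_comm_of_equiv (Fintype.card_eq.1 hc.symm).some).1 hH'⟩

/-- evaluation at `f` of degree `< b` preserves weights -/
private theorem A9_eval {b m : ℕ} {F : R[X][X]} {f : R[X]} (hb : 1 ≤ b) (hm : 1 ≤ m) (hF : wtLT b m F)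
    (hf : f.degree < (b : WithBot ℕ)) : (F.eval f).degree < (m : WithBot ℕ) := by
  rw [eval_eq_sum, Polynomial.sum]
  refine (degree_sum_le _ _).trans_lt ?_
  rw [Finset.sup_lt_iff (by exact WithBot.bot_lt_coe m)]
  intro i _
  by_cases h0 : F.coeff i = 0
  · rw [h0, zero_mul, degree_zero]
    exact WithBot.bot_lt_coe m
  have h1 : f.natDegree ≤ b - 1 := by
    rw [natDegree_le_iff_degree_le]
    rw [degree_lt_iff_coeff_zero] at hf
    rw [degree_le_iff_coeff_zero]
    intro j hj
    apply hf
    have : b - 1 < j := by exact_mod_cast hj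
    omega
  have h3 : ∃ j, (F.coeff i).natDegree = j ∧ b * i + j < m := by
    refine ⟨_, rfl, ?_⟩
    by_contra hcon
    apply h0
    rw [← leadingCoeff_eq_zero]
    exact hF i _ (not_lt.1 hcon)
  obtain ⟨j, hj, hjm⟩ := h3
  have h4 : (F.coeff i * f ^ i).natDegree ≤ j + i * (b - 1) := by
    refine natDegree_mul_le.trans ?_
    rw [hj]
    refine Nat.add_le_add_left (natDegree_pow_le.trans ?_) _
    exact Nat.mul_le_mul_left _ h1
  refine lt_of_le_of_lt degree_le_natDegree ?_
  have h5 : i * (b - 1) ≤ b * i := by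
    rw [mul_comm]
    exact Nat.mul_le_mul_right _ (Nat.sub_le _ _)
  have : (F.coeff i * f ^ i).natDegree < m := by omega
  exact_mod_cast this

theorem exists_NF [Nontrivial R] {N b : ℕ} (hN : 1 ≤ N) (hb : 1 ≤ b) (x y : Matrix n n R) (hxy : x * y = y * x)
    (v w : n → R) (hB : HB (dv N b) y (gam N x v w)) :
    ∃ (w' : n → R) (g f p : R[X]) (q : R[X][X]) (u : Fin (N + 1) → R[X]) (B : Fin (N + 1) → R[X][X]),
      HB (dv N b) y (gam N x v w') ∧ NF N b x y v w' g f p q u B := by
  have hNb : 1 ≤ N * b := Nat.mul_pos hN hb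
  obtain ⟨F, f, hF, hf, hxw⟩ := A9_repr x y v w hB (x.mulVec w)
  obtain ⟨F', e, hF', he, hyw⟩ := A9_repr x y v w hB ((y ^ b).mulVec w)
  have hj := fun j : Fin (N + 1) => A9_repr x y v w hB ((y ^ (b * (N - (j : ℕ))) * x ^ (j : ℕ)).mulVec v)
  choose Fj ej hFj hej hjv using hj
  set p : R[X] := F.eval f with hp
  have hpd : p.degree < ((N * b : ℕ) : WithBot ℕ) := A9_eval hb hNb hF hf
  obtain ⟨c, hc⟩ : (X - C f) ∣ (F - C p) := by
    rw [dvd_iff_isRoot, IsRoot.def, eval_sub, eval_C, sub_self]
  have hcw : wtLT b ((N - 1) * b) c := by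
    apply wtLT_div hf
    have h1 : (N - 1) * b + b = N * b := by
      obtain ⟨M, rfl⟩ : ∃ M, N = M + 1 := ⟨N - 1, by omega⟩
      simp only [Nat.add_sub_cancel]
      ring
    rw [h1, ← hc]
    exact wtLT_sub hF (wtLT_C hpd)
  have hNb' : (N - 1) * b + b = N * b := by
    obtain ⟨M, rfl⟩ : ∃ M, N = M + 1 := ⟨N - 1, by omega⟩
    simp only [Nat.add_sub_cancel]
    ring
  set w' : n → R := w - (a2 x y c).mulVec v with hw'
  have hww : w = w' + (a2 x y c).mulVec v := by rw [hw', sub_add_cancel]
  -- weights of products with `c`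
  have hlow : ∀ a : R[X], a.degree < (b : WithBot ℕ) → wtLT b (N * b) (c * C a) := by
    intro a ha
    have h1 : wtLT b (b - 1 + 1) (C a) := by
      apply wtLT_C
      rw [Nat.sub_add_cancel hb]
      exact ha
    exact wtLT_mono (by omega) (wtLT_mul' hcw h1)
  -- action of `c`
  have hact : ∀ a : R[X], (aeval y a).mulVec w = (aeval y a).mulVec w' + (a2 x y (c * C a)).mulVec v := by
    intro a
    have h1 : c * C a = C a * c := mul_comm _ _
    rw [h1, a2_mul x y hxy, a2_C, ← Matrix.mulVec_mulVec, ← Matrix.mulVec_add, ← hww]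
  have hgd : (X ^ b - e : R[X]).natDegree = b := by
    rw [natDegree_sub_eq_left_of_natDegree_lt, natDegree_X_pow]
    rw [natDegree_X_pow]
    by_cases h0 : e = 0
    · rw [h0, natDegree_zero]; omega
    · exact (natDegree_lt_iff_degree_lt h0).2 he
  refine ⟨w', X ^ b - e, f, p, C (X ^ b - e) * c - F', fun j => -ej j,
    fun j => (C (X ^ (b * (N - (j : ℕ)))) * X ^ (j : ℕ) - Fj j) - c * C (ej j), ?_, ?_⟩
  · apply A9_HB x y v w w' hB
    intro z
    obtain ⟨G, a, hG, ha, hz⟩ := A9_repr x y v w hB z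
    refine ⟨G + c * C a, a, wtLT_add hG (hlow a ha), ha, ?_⟩
    rw [hz, hact a, a2_add, Matrix.add_mulVec]
    abel
  · constructor
    · exact monic_X_pow_sub he
    · exact hgd
    · exact hf
    · intro j
      rw [degree_neg]
      exact hej j
    · exact hpd
    · intro j
      have h1 : (C (X ^ (b * (N - (j : ℕ)))) * X ^ (j : ℕ) - Fj j) - c * C (ej j) -
          C (X ^ (b * (N - (j : ℕ)))) * X ^ (j : ℕ) = -(Fj j + c * C (ej j)) := by ring
      rw [h1]
      exact wtLT_neg (wtLT_add (hFj j) (hlow _ (hej j)))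
    · apply wtLT_sub _ hF'
      have h1 : wtLT b (b + 1) (C (X ^ b - e)) := by
        apply wtLT_C
        refine lt_of_le_of_lt degree_le_natDegree ?_
        rw [hgd]
        exact_mod_cast Nat.lt_succ_self b
      have h2 := wtLT_mul' hcw h1
      rw [hNb'] at h2
      rw [mul_comm (C (X ^ b - e)) c]
      exact h2
    · -- x w' = f w' + p v
      have h1 : x.mulVec w' = x.mulVec w - (a2 x y (X * c)).mulVec v := by
        rw [hw', Matrix.mulVec_sub, a2_mul x y hxy, a2_X, Matrix.mulVec_mulVec]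
      have h2 : (a2 x y F).mulVec v = (a2 x y (X * c)).mulVec v - (a2 x y (c * C f)).mulVec v +
          (aeval y p).mulVec v := by
        have h3 : F = X * c - c * C f + C p := by
          have : F = (X - C f) * c + C p := by rw [← hc]; ring
          rw [this]; ring
        conv_lhs => rw [h3]
        rw [a2_add, a2_sub, a2_C, Matrix.add_mulVec, Matrix.sub_mulVec]
      rw [h1, hxw, h2, hact f]
      abel
    · -- g w' + q v = 0
      have h1 : (aeval y (X ^ b - e : R[X])).mulVec w = (a2 x y F').mulVec v := by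
        rw [map_sub, map_pow, aeval_X, Matrix.sub_mulVec, hyw]
        abel
      have h2 := hact (X ^ b - e)
      rw [h1] at h2
      rw [a2_sub, Matrix.sub_mulVec, h2, mul_comm]
      abel
    · intro j
      have h1 : (y ^ (b * (N - (j : ℕ))) * x ^ (j : ℕ)) = a2 x y (C (X ^ (b * (N - (j : ℕ)))) * X ^ (j : ℕ)) := by
        rw [C_mul_X_pow_eq_monomial, A9_mono, map_pow, aeval_X]
      have h2 := hjv j
      rw [h1, hact (ej j)] at h2
      rw [a2_sub, a2_sub, Matrix.sub_mulVec, Matrix.sub_mulVec, h2, map_neg, Matrix.neg_mulVec]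
      abel

end

end Pool.Agent.LibCQ2
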