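import Pool.Agent.LibCQ2.A2
import Pool.Agent.LibCQ2.A8
import Pool.Agent.LibCQ2.A9

set_option autoImplicit false

/-! ROW A10a (MEDIUM, Defs + A2, A8 (PM_rowRed), A9 (a2 lemmas)). The presentation of a normal form. γ := gam N x v w (γ_i = x^i v for i < N, γ_N = w).
 NF_P: piM y γ (column j of PM) = ∑_{i<N} (aeval y ((B j).coeff i)) x^i v + (aeval y (u j)) w = a2 (B j) v + u_j(y) w = 0 for j < N ((B j).coeff i = 0 for i ≥ N when j < N, by wB: a2 as a sum over range: Polynomial.eval₂_eq_sum_range'),
   for j = N: q(x,y) v + g(y) w = 0.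
 NF_Q: both sides are additive in z and compatible with y-polynomial multiples, so it suffices: x γ_i = piM (column i of QM): i + 1 < N: x^(i+1) v; i = N - 1: x^N v = -∑_{i<N} (B N).coeff i (y) x^i v - u_N(y) w by relB (Fin.last N)
   and (B N) = x^N + ∑_{i<N}; i = N: relw. x commutes with aeval y.
 exists_Qp: for each j: piM (QM *ᵥ column j of PM) = x *ᵥ 0 = 0, ker_mem gives column j of Q'. -/

namespace Pool.Agent.LibCQ2

open Polynomial

section
variable {R : Type*} [CommRing R] {n : Type*} [Fintype n] [DecidableEq n] {N b : ℕ}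

private theorem A10a_comm {x y : Matrix n n R} (hxy : x * y = y * x) (p : R[X]) :
    x * aeval y p = aeval y p * x := by
  have hc : Commute x y := hxy
  induction p using Polynomial.induction_on' with
  | add p q hp hq => rw [map_add, mul_add, add_mul, hp, hq]
  | monomial m a =>
    rw [aeval_monomial]
    have h1 : Commute x ((algebraMap R (Matrix n n R)) a) := Algebra.commute_algebraMap_right a x
    exact (h1.mul_right (hc.pow_right m)).eq

private theorem A10a_sum (x y : Matrix n n R) (v : n → R) (F : R[X][X]) (hF : ∀ i, N < i → F.coeff i = 0) :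
    (a2 x y F).mulVec v = ∑ i : Fin N, (aeval y (F.coeff i)).mulVec ((x ^ (i : ℕ)).mulVec v) +
      (aeval y (F.coeff N)).mulVec ((x ^ N).mulVec v) := by
  have hd : F.natDegree < N + 1 := by
    refine Nat.lt_succ_of_le (natDegree_le_iff_coeff_eq_zero.2 ?_)
    intro i hi
    exact hF i hi
  unfold a2
  rw [eval₂_eq_sum_range' _ hd, Finset.sum_range_succ, Matrix.add_mulVec, Matrix.sum_mulVec,
    Finset.sum_range]
  congr 1
  · apply Finset.sum_congr rfl
    intro i _
    rw [Matrix.mulVec_mulVec]
    rfl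
  · rw [Matrix.mulVec_mulVec]
    rfl

private theorem A10a_sub0 {F G : R[X][X]} (h : wtLT b (N * b) (F - G)) {i : ℕ} (hi : N ≤ i) :
    F.coeff i = G.coeff i := by
  have h1 : (F - G).coeff i = 0 := by
    ext l
    rw [coeff_zero]
    apply h i l
    calc N * b = b * N := mul_comm _ _
      _ ≤ b * i := Nat.mul_le_mul_left b hi
      _ ≤ b * i + l := Nat.le_add_right _ _
  rw [coeff_sub] at h1
  exact sub_eq_zero.1 h1

private theorem A10a_B {B : Fin (N + 1) → R[X][X]}
    (wB : ∀ j, wtLT b (N * b) (B j - C (X ^ (b * (N - (j : ℕ)))) * X ^ (j : ℕ))) (j : Fin (N + 1))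
    (hj : (j : ℕ) < N) {i : ℕ} (hi : N ≤ i) : (B j).coeff i = 0 := by
  rw [A10a_sub0 (wB j) hi, coeff_C_mul, coeff_X_pow, if_neg (by omega), mul_zero]

private theorem A10a_BN {B : Fin (N + 1) → R[X][X]}
    (wB : ∀ j, wtLT b (N * b) (B j - C (X ^ (b * (N - (j : ℕ)))) * X ^ (j : ℕ))) :
    (B (Fin.last N)).coeff N = 1 ∧ ∀ i, N < i → (B (Fin.last N)).coeff i = 0 := by
  constructor
  · rw [A10a_sub0 (wB (Fin.last N)) le_rfl, coeff_C_mul, coeff_X_pow, Fin.val_last, if_pos rfl,
      Nat.sub_self, mul_zero, pow_zero, mul_one]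
  · intro i hi
    rw [A10a_sub0 (wB (Fin.last N)) hi.le, coeff_C_mul, coeff_X_pow, Fin.val_last, if_neg (by omega),
      mul_zero]

private theorem A10a_q {q : R[X][X]} (wq : wtLT b (N * b) q) {i : ℕ} (hi : N ≤ i) : q.coeff i = 0 := by
  have h1 : wtLT b (N * b) (q - 0) := by rwa [sub_zero]
  rw [A10a_sub0 h1 hi, coeff_zero]

private theorem A10a_pi (x y : Matrix n n R) (v w : n → R) (z : Fin (N + 1) → R[X]) :
    piM y (gam N x v w) z = ∑ i : Fin N, (aeval y (z i.castSucc)).mulVec ((x ^ (i : ℕ)).mulVec v) +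
      (aeval y (z (Fin.last N))).mulVec w := by
  unfold piM
  rw [Fin.sum_univ_castSucc]
  congr 1
  · apply Finset.sum_congr rfl
    intro i _
    simp [gam]
  · simp [gam]

theorem NF_P (hb : 1 ≤ b) {x y : Matrix n n R} {v w : n → R} {g f p : R[X]} {q : R[X][X]}
    {u : Fin (N + 1) → R[X]} {B : Fin (N + 1) → R[X][X]} (H : NF N b x y v w g f p q u B) (j : Fin (N + 1)) :
    piM y (gam N x v w) (fun i => PM N g u q B i j) = 0 := by
  rw [A10a_pi]
  by_cases hj : (j : ℕ) < N
  · have h1 := H.relB j
    rw [A10a_sum (N := N) x y v (B j) (fun i hi => A10a_B H.wB j hj hi.le), A10a_B H.wB j hj le_rfl,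
      map_zero, Matrix.zero_mulVec, add_zero] at h1
    rw [← h1]
    congr 1
    · apply Finset.sum_congr rfl
      intro i _
      simp [PM, hj]
    · simp [PM, hj]
  · have h1 := H.relg
    rw [A10a_sum (N := N) x y v q (fun i hi => A10a_q H.wq hi.le), A10a_q H.wq le_rfl,
      map_zero, Matrix.zero_mulVec, add_zero, add_comm] at h1
    rw [← h1]
    congr 1
    · apply Finset.sum_congr rfl
      intro i _
      simp [PM, hj]
    · simp [PM, hj]

theorem NF_Q (hN : 1 ≤ N) (hb : 1 ≤ b) {x y : Matrix n n R} (hxy : x * y = y * x) {v w : n → R} {g f p : R[X]}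
    {q : R[X][X]} {u : Fin (N + 1) → R[X]} {B : Fin (N + 1) → R[X][X]} (H : NF N b x y v w g f p q u B)
    (z : Fin (N + 1) → R[X]) :
    x.mulVec (piM y (gam N x v w) z) = piM y (gam N x v w) ((QM N f u p B).mulVec z) := by
  rw [piM_mulVec]
  unfold piM
  rw [Matrix.mulVec_sum]
  apply Finset.sum_congr rfl
  intro j _
  rw [Matrix.mulVec_mulVec, A10a_comm hxy, ← Matrix.mulVec_mulVec]
  congr 1
  change _ = piM y (gam N x v w) (fun i => QM N f u p B i j)
  rw [A10a_pi]
  by_cases hj : (j : ℕ) < N
  · have hg : gam N x v w j = (x ^ (j : ℕ)).mulVec v := by simp [gam, hj]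
    rw [hg, Matrix.mulVec_mulVec, ← pow_succ']
    by_cases hj1 : (j : ℕ) + 1 < N
    · have hl : aeval y (QM N f u p B (Fin.last N) j) = 0 := by
        have : QM N f u p B (Fin.last N) j = 0 := by
          simp only [QM, Matrix.of_apply, if_pos hj, if_pos hj1, Fin.val_last]
          rw [if_neg (by omega)]
        rw [this, map_zero]
      rw [hl, Matrix.zero_mulVec, add_zero, Finset.sum_eq_single (⟨(j : ℕ) + 1, hj1⟩ : Fin N)]
      · have : QM N f u p B (Fin.castSucc (⟨(j : ℕ) + 1, hj1⟩ : Fin N)) j = 1 := by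
          simp only [QM, Matrix.of_apply, if_pos hj, if_pos hj1, Fin.val_castSucc, if_true]
        rw [this, map_one, Matrix.one_mulVec]
      · intro i _ hi
        have : QM N f u p B i.castSucc j = 0 := by
          simp only [QM, Matrix.of_apply, if_pos hj, if_pos hj1, Fin.val_castSucc]
          rw [if_neg]
          intro h
          exact hi (Fin.ext h)
        rw [this, map_zero, Matrix.zero_mulVec]
      · intro h
        exact absurd (Finset.mem_univ _) h
    · have hN1 : (j : ℕ) + 1 = N := by omega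
      rw [hN1]
      have h1 := H.relB (Fin.last N)
      rw [A10a_sum (N := N) x y v _ (A10a_BN H.wB).2, (A10a_BN H.wB).1, map_one,
        Matrix.one_mulVec] at h1
      have h2 : ∑ i : Fin N, (aeval y (QM N f u p B i.castSucc j)).mulVec ((x ^ (i : ℕ)).mulVec v) =
          -∑ i : Fin N, (aeval y ((B (Fin.last N)).coeff i)).mulVec ((x ^ (i : ℕ)).mulVec v) := by
        rw [← Finset.sum_neg_distrib]
        apply Finset.sum_congr rfl
        intro i _
        have : QM N f u p B i.castSucc j = -(B (Fin.last N)).coeff i := by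
          simp only [QM, Matrix.of_apply, if_pos hj, if_neg hj1, Fin.val_castSucc, i.2, if_true]
        rw [this, map_neg, Matrix.neg_mulVec]
      have h3 : aeval y (QM N f u p B (Fin.last N) j) = -aeval y (u (Fin.last N)) := by
        have : QM N f u p B (Fin.last N) j = -u (Fin.last N) := by
          simp only [QM, Matrix.of_apply, if_pos hj, if_neg hj1, Fin.val_last]
          rw [if_neg (lt_irrefl N)]
        rw [this, map_neg]
      rw [h2, h3, Matrix.neg_mulVec]
      rw [add_assoc, add_comm, ← eq_sub_iff_add_eq, zero_sub] at h1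
      have h4 : (x ^ N).mulVec v = -(∑ i : Fin N, (aeval y ((B (Fin.last N)).coeff i)).mulVec
          ((x ^ (i : ℕ)).mulVec v)) - (aeval y (u (Fin.last N))).mulVec w := by
        rw [← h1]
        abel
      rw [h4]
      abel
  · have hg : gam N x v w j = w := by simp [gam, hj]
    have hl : QM N f u p B (Fin.last N) j = f := by
      simp only [QM, Matrix.of_apply, if_neg hj, Fin.val_last]
      rw [if_neg (lt_irrefl N)]
    rw [hg, H.relw, hl, add_comm]
    congr 1
    rw [Finset.sum_eq_single (⟨0, hN⟩ : Fin N)]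
    · have : QM N f u p B (Fin.castSucc (⟨0, hN⟩ : Fin N)) j = p := by
        simp only [QM, Matrix.of_apply, if_neg hj, Fin.val_castSucc, if_true]
        rw [if_pos (by omega)]
      rw [this]
      simp
    · intro i _ hi
      have : QM N f u p B i.castSucc j = 0 := by
        simp only [QM, Matrix.of_apply, if_neg hj, Fin.val_castSucc, i.2, if_true]
        rw [if_neg]
        intro h
        exact hi (Fin.ext h)
      rw [this, map_zero, Matrix.zero_mulVec]
    · intro h
      exact absurd (Finset.mem_univ _) h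

theorem exists_Qp [Nontrivial R] (hN : 1 ≤ N) (hb : 1 ≤ b) {x y : Matrix n n R} (hxy : x * y = y * x) {v w : n → R}
    {g f p : R[X]} {q : R[X][X]} {u : Fin (N + 1) → R[X]} {B : Fin (N + 1) → R[X][X]}
    (hB : HB (dv N b) y (gam N x v w)) (H : NF N b x y v w g f p q u B) :
    ∃ Q' : Matrix (Fin (N + 1)) (Fin (N + 1)) R[X], QM N f u p B * PM N g u q B = PM N g u q B * Q' := by
  have hP : RowRed (dv N b) (PM N g u q B) := PM_rowRed hb H.g_monic H.g_deg H.u_deg H.wB H.wq
  have hz : ∀ j : Fin (N + 1), ∃ c : Fin (N + 1) → R[X],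
      (QM N f u p B).mulVec (fun i => PM N g u q B i j) = (PM N g u q B).mulVec c := by
    intro j
    apply ker_mem hP y (gam N x v w) hB (fun j => NF_P hb H j)
    rw [← NF_Q hN hb hxy H, NF_P hb H j, Matrix.mulVec_zero]
  choose c hc using hz
  refine ⟨Matrix.of fun i j => c j i, ?_⟩
  ext1 i j
  have h1 := congrFun (hc j) i
  rw [Matrix.mul_apply, Matrix.mul_apply]
  exact h1

end

end Pool.Agent.LibCQ2
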