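import Pool.Agent.LibCQ2.Defs
import Pool.Agent.LibCQ2.A8

set_option autoImplicit false

/-! ROW A10b (MEDIUM, Defs, same computation as A8 backwards). From Q P = P Q' to the data T := TM N f Q' P, h := hM N f Q' (P = PM N g u q B).
 alg_rel: row N of QM * PM = PM * Q': k: -u_N P_(N-1,k) + f P_(N,k) = ∑_{j<N} u_j Q'_jk + g Q'_Nk. For k < N: P_(N,k) = u_k, Q'_jk = f δ_jk - T_jk (j < N), Q'_Nk = h_k, T_Nk = -P_(N-1,k). For k = N: P_NN = g, Q'_jN = T_jN, Q'_NN = f - h_N,
   T_NN = P_(N-1,N). Row N of QM: entry -u_N at column N-1 (N ≥ 1), f at column N, 0 elsewhere.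
 alg_star: compare the coefficients of x^i (Polynomial.ext): i < N: row i of Q P = P Q' (see row A8 for the formulas, T_Nk etc. by definition of TM); i = N: the definition of row N of TM: T_Nk = -(B_k).coeff (N-1) for k < N, T_NN = q.coeff (N-1),
   (B_N).coeff N = 1, (B_j).coeff N = 0 for j < N, q.coeff N = 0; i > N: everything is 0 (coefficients of B_j, q in degrees ≥ N vanish except (B_N).coeff N = 1). -/

namespace Pool.Agent.LibCQ2

open Polynomial

section
variable {R : Type*} [CommRing R] {N b : ℕ}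

private theorem A10b_cfB {B : Fin (N + 1) → R[X][X]}
    (wB : ∀ j, wtLT b (N * b) (B j - C (X ^ (b * (N - (j : ℕ)))) * X ^ (j : ℕ))) (j : Fin (N + 1))
    (i : ℕ) (hi : N ≤ i) : (B j).coeff i = if i = (j : ℕ) then 1 else 0 := by
  have h1 : (B j - C (X ^ (b * (N - (j : ℕ)))) * X ^ (j : ℕ)).coeff i = 0 := by
    ext l
    rw [coeff_zero]
    apply wB j i l
    calc N * b = b * N := Nat.mul_comm _ _
      _ ≤ b * i := Nat.mul_le_mul_left _ hi
      _ ≤ b * i + l := Nat.le_add_right _ _
  rw [coeff_sub, coeff_C_mul, coeff_X_pow, sub_eq_zero] at h1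
  rw [h1]
  by_cases h : i = (j : ℕ)
  · have hj : (j : ℕ) ≤ N := Nat.lt_succ_iff.1 j.2
    have hjN : (j : ℕ) = N := by omega
    rw [if_pos h, hjN, Nat.sub_self, Nat.mul_zero, pow_zero, mul_one]
  · rw [if_neg h, mul_zero]

private theorem A10b_cfq {q : R[X][X]} (wq : wtLT b (N * b) q) (i : ℕ) (hi : N ≤ i) :
    q.coeff i = 0 := by
  ext l
  rw [coeff_zero]
  apply wq i l
  calc N * b = b * N := Nat.mul_comm _ _
    _ ≤ b * i := Nat.mul_le_mul_left _ hi
    _ ≤ b * i + l := Nat.le_add_right _ _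

private theorem A10b_row {M : ℕ} {f p : R[X]} {u : Fin (M + 1 + 1) → R[X]}
    {B : Fin (M + 1 + 1) → R[X][X]} (P : Matrix (Fin (M + 1 + 1)) (Fin (M + 1 + 1)) R[X])
    (i k : Fin (M + 1 + 1)) (hi : (i : ℕ) < M + 1) :
    (QM (M + 1) f u p B * P) i k =
      (if 1 ≤ (i : ℕ) then P ⟨(i : ℕ) - 1, by omega⟩ k else 0) -
        (B (Fin.last (M + 1))).coeff i * P ⟨M, by omega⟩ k +
        (if (i : ℕ) = 0 then p * P (Fin.last (M + 1)) k else 0) := by
  rw [Matrix.mul_apply, Fin.sum_univ_castSucc, Fin.sum_univ_castSucc]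
  have h1 : ∀ j : Fin M, QM (M + 1) f u p B i j.castSucc.castSucc =
      if (i : ℕ) = (j : ℕ) + 1 then 1 else 0 := by
    intro j
    have hj := j.2
    simp only [QM, Matrix.of_apply, Fin.val_castSucc]
    rw [if_pos (by omega), if_pos (by omega)]
  have h2 : QM (M + 1) f u p B i (Fin.last M).castSucc = -(B (Fin.last (M + 1))).coeff i := by
    simp only [QM, Matrix.of_apply, Fin.val_castSucc, Fin.val_last]
    rw [if_pos (by omega), if_neg (by omega), if_pos hi]
  have h3 : QM (M + 1) f u p B i (Fin.last (M + 1)) = if (i : ℕ) = 0 then p else 0 := by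
    simp only [QM, Matrix.of_apply, Fin.val_last]
    rw [if_neg (by omega), if_pos hi]
  rw [h2, h3]
  have h4 : ∑ j : Fin M, QM (M + 1) f u p B i j.castSucc.castSucc * P j.castSucc.castSucc k =
      (if 1 ≤ (i : ℕ) then P ⟨(i : ℕ) - 1, by omega⟩ k else 0) := by
    by_cases h : 1 ≤ (i : ℕ)
    · rw [if_pos h, Finset.sum_eq_single (⟨(i : ℕ) - 1, by omega⟩ : Fin M)]
      · rw [h1, if_pos (by simp only; omega), one_mul]
        rfl
      · intro j _ hj
        rw [h1, if_neg, zero_mul]
        intro e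
        apply hj
        apply Fin.ext
        simp only
        omega
      · intro hh
        exact absurd (Finset.mem_univ _) hh
    · rw [if_neg h]
      apply Finset.sum_eq_zero
      intro j _
      rw [h1, if_neg (by omega), zero_mul]
  rw [h4]
  have h5 : (Fin.last M).castSucc = (⟨M, by omega⟩ : Fin (M + 1 + 1)) := rfl
  rw [h5]
  by_cases h : (i : ℕ) = 0
  · rw [if_pos h, if_pos h]
    ring
  · rw [if_neg h, if_neg h]
    ring

private theorem A10b_last {M : ℕ} {f p : R[X]} {u : Fin (M + 1 + 1) → R[X]}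
    {B : Fin (M + 1 + 1) → R[X][X]} (P : Matrix (Fin (M + 1 + 1)) (Fin (M + 1 + 1)) R[X])
    (k : Fin (M + 1 + 1)) :
    (QM (M + 1) f u p B * P) (Fin.last (M + 1)) k =
      -u (Fin.last (M + 1)) * P ⟨M, by omega⟩ k + f * P (Fin.last (M + 1)) k := by
  rw [Matrix.mul_apply, Fin.sum_univ_castSucc, Fin.sum_univ_castSucc]
  have h1 : ∀ j : Fin M, QM (M + 1) f u p B (Fin.last (M + 1)) j.castSucc.castSucc = 0 := by
    intro j
    have hj := j.2
    simp only [QM, Matrix.of_apply, Fin.val_castSucc, Fin.val_last]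
    rw [if_pos (by omega), if_pos (by omega), if_neg (by omega)]
  have h2 : QM (M + 1) f u p B (Fin.last (M + 1)) (Fin.last M).castSucc = -u (Fin.last (M + 1)) := by
    simp only [QM, Matrix.of_apply, Fin.val_castSucc, Fin.val_last]
    rw [if_pos (by omega), if_neg (by omega), if_neg (by omega)]
  have h3 : QM (M + 1) f u p B (Fin.last (M + 1)) (Fin.last (M + 1)) = f := by
    simp only [QM, Matrix.of_apply, Fin.val_last]
    rw [if_neg (by omega), if_neg (by omega)]
  rw [h2, h3, Finset.sum_eq_zero, zero_add]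
  · rfl
  · intro j _
    rw [h1, zero_mul]

/-- row `i` of `P Q'`, with `P` split -/
private theorem A10b_right {M : ℕ} (P Q' : Matrix (Fin (M + 1 + 1)) (Fin (M + 1 + 1)) R[X])
    (i k : Fin (M + 1 + 1)) :
    (P * Q') i k = ∑ j : Fin (M + 1), P i j.castSucc * Q' j.castSucc k +
      P i (Fin.last (M + 1)) * Q' (Fin.last (M + 1)) k := by
  rw [Matrix.mul_apply, Fin.sum_univ_castSucc]

/-- `∑_{j<N} a_j T_jk` in terms of `Q'` -/
private theorem A10b_T1 {M : ℕ} (f : R[X]) (P Q' : Matrix (Fin (M + 1 + 1)) (Fin (M + 1 + 1)) R[X])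
    (a : Fin (M + 1) → R[X]) (k : Fin (M + 1)) :
    ∑ j : Fin (M + 1), a j * TM (M + 1) f Q' P j.castSucc k.castSucc =
      a k * f - ∑ j : Fin (M + 1), a j * Q' j.castSucc k.castSucc := by
  have h : ∀ j : Fin (M + 1), a j * TM (M + 1) f Q' P j.castSucc k.castSucc =
      (if j = k then a j * f else 0) - a j * Q' j.castSucc k.castSucc := by
    intro j
    have hj := j.2
    have hk := k.2
    simp only [TM, Matrix.of_apply, Fin.val_castSucc]
    rw [if_pos hj, if_pos hk]
    by_cases e : j = k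
    · rw [if_pos e, if_pos (by rw [e])]
      ring
    · rw [if_neg e, if_neg (fun h => e (Fin.castSucc_injective _ h))]
      ring
  rw [Finset.sum_congr rfl fun j _ => h j, Finset.sum_sub_distrib, Finset.sum_ite_eq' Finset.univ k,
    if_pos (Finset.mem_univ _)]

private theorem A10b_T2 {M : ℕ} (f : R[X]) (P Q' : Matrix (Fin (M + 1 + 1)) (Fin (M + 1 + 1)) R[X])
    (a : Fin (M + 1) → R[X]) :
    ∑ j : Fin (M + 1), a j * TM (M + 1) f Q' P j.castSucc (Fin.last (M + 1)) =
      ∑ j : Fin (M + 1), a j * Q' j.castSucc (Fin.last (M + 1)) := by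
  refine Finset.sum_congr rfl fun j _ => ?_
  simp only [TM, Matrix.of_apply, Fin.val_castSucc, Fin.val_last]
  rw [if_pos j.2, if_neg (by omega)]

private theorem A10b_T3 {M : ℕ} (f : R[X]) (P Q' : Matrix (Fin (M + 1 + 1)) (Fin (M + 1 + 1)) R[X])
    (k : Fin (M + 1)) :
    TM (M + 1) f Q' P (Fin.last (M + 1)) k.castSucc = -P ⟨M, by omega⟩ k.castSucc := by
  simp only [TM, Matrix.of_apply, Fin.val_castSucc, Fin.val_last]
  rw [if_neg (by omega), if_pos k.2]
  rfl

private theorem A10b_T4 {M : ℕ} (f : R[X]) (P Q' : Matrix (Fin (M + 1 + 1)) (Fin (M + 1 + 1)) R[X]) :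
    TM (M + 1) f Q' P (Fin.last (M + 1)) (Fin.last (M + 1)) =
      P ⟨M, by omega⟩ (Fin.last (M + 1)) := by
  simp only [TM, Matrix.of_apply, Fin.val_last]
  rw [if_neg (by omega), if_neg (by omega)]
  rfl

private theorem A10b_h1 {M : ℕ} (f : R[X]) (Q' : Matrix (Fin (M + 1 + 1)) (Fin (M + 1 + 1)) R[X])
    (k : Fin (M + 1)) : hM (M + 1) f Q' k.castSucc = Q' (Fin.last (M + 1)) k.castSucc := by
  simp only [hM, Fin.val_castSucc]
  rw [if_pos k.2]

private theorem A10b_h2 {M : ℕ} (f : R[X]) (Q' : Matrix (Fin (M + 1 + 1)) (Fin (M + 1 + 1)) R[X]) :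
    hM (M + 1) f Q' (Fin.last (M + 1)) = f - Q' (Fin.last (M + 1)) (Fin.last (M + 1)) := by
  simp only [hM, Fin.val_last]
  rw [if_neg (by omega)]

private theorem A10b_PNk {M : ℕ} (g : R[X]) (u : Fin (M + 1 + 1) → R[X]) (q : R[X][X])
    (B : Fin (M + 1 + 1) → R[X][X]) (k : Fin (M + 1)) :
    PM (M + 1) g u q B (Fin.last (M + 1)) k.castSucc = u k.castSucc := by
  simp only [PM, Matrix.of_apply, Fin.val_castSucc, Fin.val_last]
  rw [if_neg (by omega), if_pos k.2]

private theorem A10b_PNN {M : ℕ} (g : R[X]) (u : Fin (M + 1 + 1) → R[X]) (q : R[X][X])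
    (B : Fin (M + 1 + 1) → R[X][X]) :
    PM (M + 1) g u q B (Fin.last (M + 1)) (Fin.last (M + 1)) = g := by
  simp only [PM, Matrix.of_apply, Fin.val_last]
  rw [if_neg (by omega), if_neg (by omega)]

private theorem A10b_Pik {M : ℕ} (g : R[X]) (u : Fin (M + 1 + 1) → R[X]) (q : R[X][X])
    (B : Fin (M + 1 + 1) → R[X][X]) (i : Fin (M + 1 + 1)) (hi : (i : ℕ) < M + 1) (k : Fin (M + 1)) :
    PM (M + 1) g u q B i k.castSucc = (B k.castSucc).coeff i := by
  simp only [PM, Matrix.of_apply, Fin.val_castSucc]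
  rw [if_pos hi, if_pos k.2]

private theorem A10b_PiN {M : ℕ} (g : R[X]) (u : Fin (M + 1 + 1) → R[X]) (q : R[X][X])
    (B : Fin (M + 1 + 1) → R[X][X]) (i : Fin (M + 1 + 1)) (hi : (i : ℕ) < M + 1) :
    PM (M + 1) g u q B i (Fin.last (M + 1)) = q.coeff i := by
  simp only [PM, Matrix.of_apply, Fin.val_last]
  rw [if_pos hi, if_neg (by omega)]

theorem alg_rel (hN : 1 ≤ N) {g f p : R[X]} {u : Fin (N + 1) → R[X]} {q : R[X][X]} {B : Fin (N + 1) → R[X][X]}
    {Q' : Matrix (Fin (N + 1)) (Fin (N + 1)) R[X]}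
    (hQ : QM N f u p B * PM N g u q B = PM N g u q B * Q') (k : Fin (N + 1)) :
    ∑ j, u j * TM N f Q' (PM N g u q B) j k = g * hM N f Q' k := by
  obtain ⟨M, rfl⟩ : ∃ M, N = M + 1 := ⟨N - 1, by omega⟩
  have hk := congrFun (congrFun hQ (Fin.last (M + 1))) k
  rw [A10b_last, A10b_right] at hk
  simp only [A10b_PNk, A10b_PNN] at hk
  rw [Fin.sum_univ_castSucc]
  revert hk
  refine Fin.lastCases ?_ (fun k => ?_) k
  · intro hk
    rw [A10b_T2, A10b_T4, A10b_h2]
    rw [A10b_PNN] at hk
    linear_combination -hk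
  · intro hk
    rw [A10b_T1 f _ _ (fun j => u j.castSucc), A10b_T3, A10b_h1]
    rw [A10b_PNk] at hk
    linear_combination hk

/-- the coefficients of the left side of star -/
private theorem A10b_left {M : ℕ} (f : R[X]) (T : Matrix (Fin (M + 1 + 1)) (Fin (M + 1 + 1)) R[X])
    (B : Fin (M + 1 + 1) → R[X][X]) (k : Fin (M + 1 + 1)) (i : ℕ) :
    (∑ j, B j * AA (M + 1) f T j k).coeff i = ∑ j, (B j).coeff i * T j k +
      (if (k : ℕ) < M + 1 then (B k * X).coeff i - (B k).coeff i * f else 0) := by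
  rw [finsetSum_coeff]
  have h : ∀ j, (B j * AA (M + 1) f T j k).coeff i = (B j).coeff i * T j k +
      (if j = k then (if (k : ℕ) < M + 1 then (B k * X).coeff i - (B k).coeff i * f else 0) else 0) := by
    intro j
    simp only [AA, Matrix.of_apply]
    rw [mul_add, coeff_add, coeff_mul_C]
    by_cases e : j = k
    · subst e
      by_cases hj : (j : ℕ) < M + 1
      · rw [if_pos ⟨rfl, hj⟩, if_pos rfl, if_pos hj, mul_sub, coeff_sub, coeff_mul_C]
      · rw [if_neg (fun h => hj h.2), if_pos rfl, if_neg hj, mul_zero, coeff_zero]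
    · rw [if_neg (fun h => e h.1), if_neg e, mul_zero, coeff_zero]
  rw [Finset.sum_congr rfl fun j _ => h j, Finset.sum_add_distrib, Finset.sum_ite_eq' Finset.univ k,
    if_pos (Finset.mem_univ _)]

theorem alg_star (hN : 1 ≤ N) (hb : 1 ≤ b) {g f p : R[X]} {u : Fin (N + 1) → R[X]} {q : R[X][X]}
    {B : Fin (N + 1) → R[X][X]} {Q' : Matrix (Fin (N + 1)) (Fin (N + 1)) R[X]}
    (wB : ∀ j, wtLT b (N * b) (B j - C (X ^ (b * (N - (j : ℕ)))) * X ^ (j : ℕ))) (wq : wtLT b (N * b) q)
    (hQ : QM N f u p B * PM N g u q B = PM N g u q B * Q') (k : Fin (N + 1)) :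
    ∑ j, B j * AA N f (TM N f Q' (PM N g u q B)) j k = q * ry N f (hM N f Q') k - C p * rx N g u k := by
  obtain ⟨M, rfl⟩ : ∃ M, N = M + 1 := ⟨N - 1, by omega⟩
  have cB := A10b_cfB wB
  have cq := A10b_cfq wq
  have key : ∀ i : ℕ, (∑ j, B j * AA (M + 1) f (TM (M + 1) f Q' (PM (M + 1) g u q B)) j k).coeff i =
      (q * ry (M + 1) f (hM (M + 1) f Q') k - C p * rx (M + 1) g u k).coeff i := by
    intro i
    rw [A10b_left, Fin.sum_univ_castSucc, coeff_sub]
    rcases Nat.lt_or_ge i (M + 1) with hi | hi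
    · -- `i < N`
      have hk := congrFun (congrFun hQ (⟨i, by omega⟩ : Fin (M + 1 + 1))) k
      rw [A10b_row _ _ _ hi, A10b_right, A10b_PiN _ _ _ _ _ hi] at hk
      simp only [A10b_Pik _ _ _ _ (⟨i, by omega⟩ : Fin (M + 1 + 1)) hi] at hk
      revert hk
      refine Fin.lastCases ?_ (fun k => ?_) k
      · intro hk
        rw [A10b_T2 f _ _ (fun j => (B j.castSucc).coeff i), A10b_T4,
          if_neg (by rw [Fin.val_last]; omega), add_zero]
        simp only [ry, rx, Fin.val_last]
        rw [if_neg (by omega), if_neg (by omega), mul_add, coeff_add, coeff_mul_C, mul_sub, coeff_sub,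
          coeff_mul_C, A10b_h2, ← C_mul, coeff_C]
        rw [A10b_PNN] at hk
        cases i with
        | zero =>
          rw [if_neg (by omega), if_pos rfl] at hk
          rw [if_pos rfl, mul_coeff_zero, coeff_X_zero, mul_zero]
          linear_combination -hk
        | succ i =>
          rw [if_pos (show 1 ≤ i + 1 by omega), if_neg (show ¬ i + 1 = 0 by omega)] at hk
          rw [if_neg (by omega), coeff_mul_X]
          rw [A10b_PiN _ _ _ _ _ (by simp only; omega)] at hk
          simp only [Nat.add_sub_cancel] at hk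
          linear_combination -hk
      · intro hk
        rw [A10b_T1 f _ _ (fun j => (B j.castSucc).coeff i), A10b_T3,
          if_pos (by rw [Fin.val_castSucc]; exact k.2)]
        simp only [ry, rx, Fin.val_castSucc]
        rw [if_pos k.2, if_pos k.2, add_zero, coeff_mul_C, A10b_h1, ← C_mul, coeff_C]
        rw [A10b_PNk] at hk
        cases i with
        | zero =>
          rw [if_neg (by omega), if_pos rfl] at hk
          rw [if_pos rfl, mul_coeff_zero, coeff_X_zero, mul_zero]
          linear_combination hk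
        | succ i =>
          rw [if_pos (show 1 ≤ i + 1 by omega), if_neg (show ¬ i + 1 = 0 by omega)] at hk
          rw [if_neg (by omega), coeff_mul_X]
          rw [A10b_Pik _ _ _ _ _ (by simp only; omega)] at hk
          simp only [Nat.add_sub_cancel] at hk
          linear_combination hk
    · -- `i ≥ N`
      have hz : ∑ j : Fin (M + 1), (B j.castSucc).coeff i *
          TM (M + 1) f Q' (PM (M + 1) g u q B) j.castSucc k = 0 := by
        apply Finset.sum_eq_zero
        intro j _
        rw [cB _ _ hi, if_neg, zero_mul]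
        rw [Fin.val_castSucc]
        have := j.2
        omega
      rw [hz, zero_add]
      obtain ⟨i', rfl⟩ : ∃ i', i = i' + 1 := ⟨i - 1, by omega⟩
      refine Fin.lastCases ?_ (fun k => ?_) k
      · rw [if_neg (by rw [Fin.val_last]; omega), add_zero, A10b_T4]
        simp only [ry, rx, Fin.val_last]
        rw [if_neg (by omega), if_neg (by omega), mul_add, coeff_add, coeff_mul_C, mul_sub, coeff_sub,
          coeff_mul_C, ← C_mul, coeff_C, if_neg (by omega), coeff_mul_X, cq _ hi, cB _ _ hi,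
          A10b_PiN _ _ _ _ _ (by simp only; omega)]
        simp only [Fin.val_last]
        by_cases h : i' = M
        · rw [if_pos (by omega), h]
          ring
        · rw [if_neg (by omega), cq i' (by omega)]
          ring
      · rw [if_pos (by rw [Fin.val_castSucc]; exact k.2), A10b_T3]
        simp only [ry, rx, Fin.val_castSucc]
        rw [if_pos k.2, if_pos k.2, add_zero, coeff_mul_C, ← C_mul, coeff_C, if_neg (by omega),
          coeff_mul_X, cq _ hi, cB _ _ hi, cB _ _ hi, A10b_Pik _ _ _ _ _ (by simp only; omega)]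
        simp only [Fin.val_last, Fin.val_castSucc]
        have hk := k.2
        by_cases h : i' = M
        · rw [if_pos (by omega), if_neg (by omega), h]
          ring
        · rw [if_neg (by omega), if_neg (by omega), cB _ i' (by omega), if_neg (by
            rw [Fin.val_castSucc]; omega)]
          ring
  exact Polynomial.ext key

end

end Pool.Agent.LibCQ2
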