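import Pool.Agent.LibCQ2.A1
import Pool.Agent.LibCQ2.A8

set_option autoImplicit false

/-! ROW A10c. The degrees of T := TM N f Q' P, P = PM N g u q B. -/

namespace Pool.Agent.LibCQ2

open Polynomial

section A10c
variable {R : Type*} [CommRing R]

private theorem A10c_mul {p q : R[X]} {m n : ℕ} (hp : p.degree < (m : WithBot ℕ)) (hq : q.degree ≤ (n : WithBot ℕ)) :
    (p * q).degree < ((m + n : ℕ) : WithBot ℕ) := by
  by_cases h0 : p = 0
  · rw [h0, zero_mul, degree_zero]
    exact WithBot.bot_lt_coe _
  · have h1 : p.natDegree < m := by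
      rw [degree_eq_natDegree h0] at hp
      exact_mod_cast hp
    calc (p * q).degree ≤ p.degree + q.degree := degree_mul_le _ _
      _ ≤ (p.natDegree : WithBot ℕ) + (n : WithBot ℕ) := add_le_add degree_le_natDegree hq
      _ = ((p.natDegree + n : ℕ) : WithBot ℕ) := by push_cast; rfl
      _ < _ := by exact_mod_cast (by omega)

private theorem A10c_sub {p q : R[X]} {n : ℕ} (hp : p.degree < (n : WithBot ℕ)) (hq : q.degree < (n : WithBot ℕ)) :
    (p - q).degree < (n : WithBot ℕ) :=
  (degree_sub_le _ _).trans_lt (max_lt hp hq)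

private theorem A10c_add {p q : R[X]} {n : ℕ} (hp : p.degree < (n : WithBot ℕ)) (hq : q.degree < (n : WithBot ℕ)) :
    (p + q).degree < (n : WithBot ℕ) :=
  (degree_add_le _ _).trans_lt (max_lt hp hq)

private theorem A10c_monic [Nontrivial R] {p q : R[X]} {n : ℕ} (hp : p.Monic) (hq : q.Monic) (hpn : p.natDegree = n)
    (hqn : q.natDegree = n) : (p - q).degree < (n : WithBot ℕ) := by
  have h := degree_sub_lt (p := p) (q := q) (by
    rw [degree_eq_natDegree hp.ne_zero, degree_eq_natDegree hq.ne_zero, hpn, hqn]) hp.ne_zero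
    (by rw [hp.leadingCoeff, hq.leadingCoeff])
  rwa [degree_eq_natDegree hp.ne_zero, hpn] at h

private theorem A10c_zero {n : ℕ} : (0 : R[X]).degree < (n : WithBot ℕ) := by
  rw [degree_zero]
  exact WithBot.bot_lt_coe _

private theorem A10c_lt {N : ℕ} {i : Fin (N + 1)} (hi : i ≠ Fin.last N) : (i : ℕ) < N := by
  have := i.2
  have h2 : (i : ℕ) ≠ N := fun h => hi (Fin.ext h)
  omega

/-- sum against a row of `QM` -/
private theorem A10c_row {N : ℕ} (hN : 1 ≤ N) {f p : R[X]} {u : Fin (N + 1) → R[X]} {B : Fin (N + 1) → R[X][X]}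
    (z : Fin (N + 1) → R[X]) (i : Fin (N + 1)) (hi : (i : ℕ) < N) :
    ∑ j, QM N f u p B i j * z j = (if (i : ℕ) = 0 then 0 else z ⟨(i : ℕ) - 1, by omega⟩) -
      (B (Fin.last N)).coeff i * z ⟨N - 1, by omega⟩ + (if (i : ℕ) = 0 then p * z (Fin.last N) else 0) := by
  have hQMv : ∀ i j, QM N f u p B i j =
    if (j : ℕ) < N then
      (if (j : ℕ) + 1 < N then (if (i : ℕ) = (j : ℕ) + 1 then 1 else 0)
       else (if (i : ℕ) < N then -(B (Fin.last N)).coeff i else -u (Fin.last N)))
    else (if (i : ℕ) < N then (if (i : ℕ) = 0 then p else 0) else f) := fun i j => rfl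
  have h1 : ∀ j, QM N f u p B i j * z j =
      (if (i : ℕ) = (j : ℕ) + 1 then z j else 0) + (if (j : ℕ) = N - 1 then -(B (Fin.last N)).coeff i * z j else 0) +
      (if j = Fin.last N then (if (i : ℕ) = 0 then p * z j else 0) else 0) := by
    intro j
    rw [hQMv]
    by_cases hj : (j : ℕ) < N
    · have hjl : j ≠ Fin.last N := by
        rintro rfl
        simp at hj
      rw [if_pos hj, if_neg hjl]
      by_cases hj1 : (j : ℕ) + 1 < N
      · rw [if_pos hj1, if_neg (show ¬ ((j : ℕ) = N - 1) by omega)]
        split_ifs <;> simp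
      · rw [if_neg hj1, if_pos hi, if_pos (show (j : ℕ) = N - 1 by omega), if_neg (show ¬ ((i : ℕ) = (j : ℕ) + 1) by omega)]
        ring
    · have hjl : j = Fin.last N := by
        by_contra h
        exact hj (A10c_lt h)
      have hjN : (j : ℕ) = N := by rw [hjl]; simp
      rw [if_neg hj, if_pos hi, if_pos hjl, if_neg (show ¬ ((i : ℕ) = (j : ℕ) + 1) by omega),
        if_neg (show ¬ ((j : ℕ) = N - 1) by omega)]
      split_ifs <;> simp
  rw [Finset.sum_congr rfl fun j _ => h1 j, Finset.sum_add_distrib, Finset.sum_add_distrib]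
  have e3 : ∑ j : Fin (N + 1), (if j = Fin.last N then (if (i : ℕ) = 0 then p * z j else 0) else 0) =
      if (i : ℕ) = 0 then p * z (Fin.last N) else 0 := by
    rw [Finset.sum_eq_single (Fin.last N)]
    · rw [if_pos rfl]
    · intro j _ hj
      rw [if_neg hj]
    · intro h
      exact absurd (Finset.mem_univ _) h
  have e2 : ∑ j : Fin (N + 1), (if (j : ℕ) = N - 1 then -(B (Fin.last N)).coeff i * z j else 0) =
      -(B (Fin.last N)).coeff i * z ⟨N - 1, by omega⟩ := by
    rw [Finset.sum_eq_single (⟨N - 1, by omega⟩ : Fin (N + 1))]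
    · rw [if_pos rfl]
    · intro j _ hj
      rw [if_neg]
      intro h
      exact hj (Fin.ext h)
    · intro h
      exact absurd (Finset.mem_univ _) h
  have e1 : ∑ j : Fin (N + 1), (if (i : ℕ) = (j : ℕ) + 1 then z j else 0) =
      if (i : ℕ) = 0 then 0 else z ⟨(i : ℕ) - 1, by omega⟩ := by
    by_cases h0 : (i : ℕ) = 0
    · rw [if_pos h0]
      apply Finset.sum_eq_zero
      intro j _
      rw [if_neg (by omega)]
    · rw [if_neg h0, Finset.sum_eq_single (⟨(i : ℕ) - 1, by omega⟩ : Fin (N + 1))]
      · rw [if_pos]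
        show (i : ℕ) = (i : ℕ) - 1 + 1
        omega
      · intro j _ hj
        rw [if_neg]
        intro h
        apply hj
        apply Fin.ext
        show (j : ℕ) = (i : ℕ) - 1
        omega
      · intro h
        exact absurd (Finset.mem_univ _) h
  rw [e1, e2, e3]
  ring

/-- sum against the last row of `QM` -/
private theorem A10c_last {N : ℕ} (hN : 1 ≤ N) {f p : R[X]} {u : Fin (N + 1) → R[X]} {B : Fin (N + 1) → R[X][X]}
    (z : Fin (N + 1) → R[X]) :
    ∑ j, QM N f u p B (Fin.last N) j * z j = - (u (Fin.last N) * z ⟨N - 1, by omega⟩) + f * z (Fin.last N) := by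
  have hQMv : ∀ i j, QM N f u p B i j =
    if (j : ℕ) < N then
      (if (j : ℕ) + 1 < N then (if (i : ℕ) = (j : ℕ) + 1 then 1 else 0)
       else (if (i : ℕ) < N then -(B (Fin.last N)).coeff i else -u (Fin.last N)))
    else (if (i : ℕ) < N then (if (i : ℕ) = 0 then p else 0) else f) := fun i j => rfl
  have h1 : ∀ j, QM N f u p B (Fin.last N) j * z j =
      (if (j : ℕ) = N - 1 then -(u (Fin.last N) * z j) else 0) +
      (if j = Fin.last N then f * z j else 0) := by
    intro j
    rw [hQMv]
    by_cases hj : (j : ℕ) < N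
    · have hjl : j ≠ Fin.last N := by
        rintro rfl
        simp at hj
      rw [if_pos hj, if_neg hjl, Fin.val_last]
      by_cases hj1 : (j : ℕ) + 1 < N
      · rw [if_pos hj1, if_neg (show ¬ ((j : ℕ) = N - 1) by omega), if_neg (show ¬ (N = (j : ℕ) + 1) by omega)]
        simp
      · rw [if_neg hj1, if_neg (lt_irrefl N), if_pos (show (j : ℕ) = N - 1 by omega)]
        ring
    · have hjl : j = Fin.last N := by
        by_contra h
        exact hj (A10c_lt h)
      have hjN : (j : ℕ) = N := by rw [hjl]; simp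
      rw [if_neg hj, if_pos hjl, Fin.val_last, if_neg (lt_irrefl N), if_neg (show ¬ ((j : ℕ) = N - 1) by omega)]
      ring
  rw [Finset.sum_congr rfl fun j _ => h1 j, Finset.sum_add_distrib]
  have e3 : ∑ j : Fin (N + 1), (if j = Fin.last N then f * z j else 0) = f * z (Fin.last N) := by
    rw [Finset.sum_eq_single (Fin.last N)]
    · rw [if_pos rfl]
    · intro j _ hj
      rw [if_neg hj]
    · intro h
      exact absurd (Finset.mem_univ _) h
  have e2 : ∑ j : Fin (N + 1), (if (j : ℕ) = N - 1 then -(u (Fin.last N) * z j) else 0) =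
      -(u (Fin.last N) * z ⟨N - 1, by omega⟩) := by
    rw [Finset.sum_eq_single (⟨N - 1, by omega⟩ : Fin (N + 1))]
    · rw [if_pos rfl]
    · intro j _ hj
      rw [if_neg]
      intro h
      exact hj (Fin.ext h)
    · intro h
      exact absurd (Finset.mem_univ _) h
  rw [e2, e3]

end A10c

theorem TM_deg {R : Type*} [CommRing R] [Nontrivial R] {N b : ℕ} (hN : 1 ≤ N) (hb : 1 ≤ b) {g f p : R[X]}
    (hg : g.Monic) (hgb : g.natDegree = b) (hf : f.degree < (b : WithBot ℕ)) (hp : p.degree < ((N * b : ℕ) : WithBot ℕ))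
    {u : Fin (N + 1) → R[X]} (hu : ∀ j, (u j).degree < (b : WithBot ℕ)) {q : R[X][X]} {B : Fin (N + 1) → R[X][X]}
    (wB : ∀ j, wtLT b (N * b) (B j - C (X ^ (b * (N - (j : ℕ)))) * X ^ (j : ℕ))) (wq : wtLT b (N * b) q)
    {Q' : Matrix (Fin (N + 1)) (Fin (N + 1)) R[X]}
    (hQ : QM N f u p B * PM N g u q B = PM N g u q B * Q') (j k : Fin (N + 1)) :
    (TM N f Q' (PM N g u q B) j k + if (j : ℕ) = (k : ℕ) + 1 then g else 0).degree < (b : WithBot ℕ) := by
  have hRR := PM_rowRed (N := N) hb hg hgb hu wB wq
  set P := PM N g u q B with hPdef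
  have hle : ∀ i j, (P i j).degree ≤ (dv N b i : WithBot ℕ) := by
    intro i j
    by_cases hij : i = j
    · rw [← hij, degree_eq_natDegree (hRR.diag i).1.ne_zero, (hRR.diag i).2]
    · exact (hRR.off i j hij).le
  let m : Fin (N + 1) := ⟨N - 1, by omega⟩
  have hdvm : dv N b m = b := by
    show (if N - 1 < N then b * (N - (N - 1)) else b) = b
    rw [if_pos (by omega), show N - (N - 1) = 1 by omega, mul_one]
  have hdvl : dv N b (Fin.last N) = b := by
    show (if ((Fin.last N : Fin (N + 1)) : ℕ) < N then b * (N - ((Fin.last N : Fin (N + 1)) : ℕ)) else b) = b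
    rw [if_neg (by simp)]
  have hdv : ∀ i : Fin (N + 1), (i : ℕ) < N → dv N b i = b * (N - (i : ℕ)) := by
    intro i hi
    show (if (i : ℕ) < N then b * (N - (i : ℕ)) else b) = _
    rw [if_pos hi]
  have hBN : ∀ i : Fin (N + 1), (i : ℕ) < N →
      ((B (Fin.last N)).coeff i).degree < (dv N b i : WithBot ℕ) := by
    intro i hi
    rw [hdv i hi, degree_lt_iff_coeff_zero]
    intro l hl
    have h1 := wB (Fin.last N) (i : ℕ) l (by
      have h2 : b * (N - (i : ℕ)) + b * (i : ℕ) = N * b := by
        rw [← mul_add, Nat.sub_add_cancel hi.le, mul_comm]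
      omega)
    rw [coeff_sub, coeff_sub, coeff_C_mul, coeff_X_pow, if_neg (by rw [Fin.val_last]; omega), mul_zero,
      coeff_zero, sub_zero] at h1
    exact h1
  -- the correction
  let e : Fin (N + 1) → R[X] := fun j => if (j : ℕ) = (k : ℕ) + 1 ∧ (j : ℕ) < N then X ^ b else 0
  let c : Fin (N + 1) → R[X] := fun j => Q' j k - e j
  have hPe : ∀ i, ∑ j, P i j * e j = if h : (k : ℕ) + 1 < N then P i ⟨(k : ℕ) + 1, by omega⟩ * X ^ b else 0 := by
    intro i
    by_cases h : (k : ℕ) + 1 < N
    · rw [dif_pos h, Finset.sum_eq_single (⟨(k : ℕ) + 1, by omega⟩ : Fin (N + 1))]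
      · show _ * (if (k : ℕ) + 1 = (k : ℕ) + 1 ∧ (k : ℕ) + 1 < N then X ^ b else 0) = _
        rw [if_pos ⟨rfl, h⟩]
      · intro j _ hj
        show _ * (if (j : ℕ) = (k : ℕ) + 1 ∧ (j : ℕ) < N then X ^ b else 0) = _
        rw [if_neg, mul_zero]
        rintro ⟨h1, -⟩
        exact hj (Fin.ext h1)
      · intro h
        exact absurd (Finset.mem_univ _) h
    · rw [dif_neg h]
      apply Finset.sum_eq_zero
      intro j _
      show _ * (if (j : ℕ) = (k : ℕ) + 1 ∧ (j : ℕ) < N then X ^ b else 0) = _
      rw [if_neg, mul_zero]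
      rintro ⟨h1, h2⟩
      omega
  have hmul : ∀ i, P.mulVec c i = ∑ j, QM N f u p B i j * P j k -
      if h : (k : ℕ) + 1 < N then P i ⟨(k : ℕ) + 1, by omega⟩ * X ^ b else 0 := by
    intro i
    have h1 : ∑ j, QM N f u p B i j * P j k = ∑ j, P i j * Q' j k := by
      have h2 := congrFun (congrFun hQ i) k
      rw [Matrix.mul_apply, Matrix.mul_apply] at h2
      exact h2
    rw [h1, ← hPe i, ← Finset.sum_sub_distrib]
    show ∑ j, P i j * (Q' j k - e j) = _
    exact Finset.sum_congr rfl fun j _ => by ring
  have hXb : ((X : R[X]) ^ b).degree ≤ (b : WithBot ℕ) := degree_X_pow_le b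
  have hkey : ∀ i, (P.mulVec c i).degree < ((dv N b i + b : ℕ) : WithBot ℕ) := by
    intro i
    rw [hmul i]
    by_cases hi : (i : ℕ) < N
    · rw [A10c_row hN (fun j => P j k) i hi]
      have t2 : ((B (Fin.last N)).coeff i * P m k).degree < ((dv N b i + b : ℕ) : WithBot ℕ) := by
        have h := hle m k
        rw [hdvm] at h
        exact A10c_mul (hBN i hi) h
      have t3 : (if (i : ℕ) = 0 then p * P (Fin.last N) k else 0).degree < ((dv N b i + b : ℕ) : WithBot ℕ) := by
        by_cases h0 : (i : ℕ) = 0
        · rw [if_pos h0]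
          have h := hle (Fin.last N) k
          rw [hdvl] at h
          have h2 : dv N b i = N * b := by
            rw [hdv i hi, h0, Nat.sub_zero, mul_comm]
          rw [h2]
          exact A10c_mul hp h
        · rw [if_neg h0]
          exact A10c_zero
      have t1 : ((if (i : ℕ) = 0 then 0 else P ⟨(i : ℕ) - 1, by omega⟩ k) -
          if h : (k : ℕ) + 1 < N then P i ⟨(k : ℕ) + 1, by omega⟩ * X ^ b else 0).degree <
          ((dv N b i + b : ℕ) : WithBot ℕ) := by
        by_cases hki : (k : ℕ) + 1 = (i : ℕ)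
        · have hkN : (k : ℕ) + 1 < N := by omega
          rw [if_neg (by omega), dif_pos hkN]
          have e1 : (⟨(i : ℕ) - 1, by omega⟩ : Fin (N + 1)) = k := by
            apply Fin.ext
            show (i : ℕ) - 1 = (k : ℕ)
            omega
          have e2 : (⟨(k : ℕ) + 1, by omega⟩ : Fin (N + 1)) = i := by
            apply Fin.ext
            exact hki
          rw [e1, e2]
          apply A10c_monic (hRR.diag k).1 ((hRR.diag i).1.mul (monic_X_pow b))
          · rw [(hRR.diag k).2, hdv k (by omega), hdv i hi, ← hki]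
            have h3 : N - (k : ℕ) = (N - ((k : ℕ) + 1)) + 1 := by omega
            rw [h3]
            ring
          · rw [(hRR.diag i).1.natDegree_mul (monic_X_pow b), (hRR.diag i).2, natDegree_X_pow]
        · refine A10c_sub ?_ ?_
          · by_cases h0 : (i : ℕ) = 0
            · rw [if_pos h0]
              exact A10c_zero
            · rw [if_neg h0]
              have h1 := hRR.off ⟨(i : ℕ) - 1, by omega⟩ k (by
                intro h
                have h2 := congrArg Fin.val h
                simp only at h2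
                omega)
              have h4 : dv N b ⟨(i : ℕ) - 1, by omega⟩ = dv N b i + b := by
                rw [hdv _ (by show (i : ℕ) - 1 < N; omega), hdv i hi]
                show b * (N - ((i : ℕ) - 1)) = b * (N - (i : ℕ)) + b
                have h3 : N - ((i : ℕ) - 1) = (N - (i : ℕ)) + 1 := by omega
                rw [h3]
                ring
              rw [h4] at h1
              exact h1
          · by_cases hkN : (k : ℕ) + 1 < N
            · rw [dif_pos hkN]
              apply A10c_mul _ hXb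
              apply hRR.off
              intro h
              apply hki
              have h2 := congrArg Fin.val h
              simp only at h2
              omega
            · rw [dif_neg hkN]
              exact A10c_zero
      have e4 : (if (i : ℕ) = 0 then 0 else P ⟨(i : ℕ) - 1, by omega⟩ k) - (B (Fin.last N)).coeff i * P m k +
          (if (i : ℕ) = 0 then p * P (Fin.last N) k else 0) -
          (if h : (k : ℕ) + 1 < N then P i ⟨(k : ℕ) + 1, by omega⟩ * X ^ b else 0) =
          ((if (i : ℕ) = 0 then 0 else P ⟨(i : ℕ) - 1, by omega⟩ k) -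
          if h : (k : ℕ) + 1 < N then P i ⟨(k : ℕ) + 1, by omega⟩ * X ^ b else 0) -
          (B (Fin.last N)).coeff i * P m k + (if (i : ℕ) = 0 then p * P (Fin.last N) k else 0) := by
        ring
      show ((if (i : ℕ) = 0 then 0 else P ⟨(i : ℕ) - 1, by omega⟩ k) - (B (Fin.last N)).coeff i * P m k +
          (if (i : ℕ) = 0 then p * P (Fin.last N) k else 0) -
          (if h : (k : ℕ) + 1 < N then P i ⟨(k : ℕ) + 1, by omega⟩ * X ^ b else 0)).degree < _
      rw [e4]
      exact A10c_add (A10c_sub t1 t2) t3
    · have hil : i = Fin.last N := by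
        by_contra h
        exact hi (A10c_lt h)
      subst hil
      rw [A10c_last hN (fun j => P j k), hdvl]
      show (-(u (Fin.last N) * P m k) + f * P (Fin.last N) k -
        (if h : (k : ℕ) + 1 < N then P (Fin.last N) ⟨(k : ℕ) + 1, by omega⟩ * X ^ b else 0)).degree < _
      refine A10c_sub (A10c_add ?_ ?_) ?_
      · rw [degree_neg]
        have h := hle m k
        rw [hdvm] at h
        exact A10c_mul (hu _) h
      · have h := hle (Fin.last N) k
        rw [hdvl] at h
        exact A10c_mul hf h
      · by_cases hkN : (k : ℕ) + 1 < N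
        · rw [dif_pos hkN]
          have h1 := hRR.off (Fin.last N) ⟨(k : ℕ) + 1, by omega⟩ (by
            intro h
            have h2 := congrArg Fin.val h
            rw [Fin.val_last] at h2
            simp only at h2
            omega)
          rw [hdvl] at h1
          exact A10c_mul h1 hXb
        · rw [dif_neg hkN]
          exact A10c_zero
  have hc : ∀ j, (c j).degree < (b : WithBot ℕ) := matdiv_deg hRR c b hkey
  have hcv : ∀ j, Q' j k = c j + (if (j : ℕ) = (k : ℕ) + 1 ∧ (j : ℕ) < N then X ^ b else 0) := by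
    intro j
    show _ = Q' j k - e j + e j
    ring
  have hTM : ∀ j k, TM N f Q' P j k =
      if (j : ℕ) < N then (if (k : ℕ) < N then (if j = k then f else 0) - Q' j k else Q' j k)
      else (if (k : ℕ) < N then -P m k else P m k) := fun j k => rfl
  rw [hTM]
  by_cases hj : (j : ℕ) < N
  · rw [if_pos hj]
    by_cases hk : (k : ℕ) < N
    · rw [if_pos hk, hcv j]
      have hf' : (if j = k then f else 0).degree < (b : WithBot ℕ) := by
        split_ifs
        · exact hf
        · exact A10c_zero
      by_cases hjk : (j : ℕ) = (k : ℕ) + 1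
      · rw [if_pos (show (j : ℕ) = (k : ℕ) + 1 ∧ (j : ℕ) < N from ⟨hjk, hj⟩), if_pos hjk]
        have e5 : (if j = k then f else 0) - (c j + X ^ b) + g = (if j = k then f else 0) - c j + (g - X ^ b) := by
          ring
        rw [e5]
        exact A10c_add (A10c_sub hf' (hc j)) (A10c_monic hg (monic_X_pow b) hgb (natDegree_X_pow b))
      · rw [if_neg (show ¬ ((j : ℕ) = (k : ℕ) + 1 ∧ (j : ℕ) < N) from fun h => hjk h.1), if_neg hjk,
          add_zero, add_zero]
        exact A10c_sub hf' (hc j)
    · rw [if_neg hk, hcv j, if_neg (by omega), if_neg (by omega), add_zero, add_zero]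
      exact hc j
  · have hjN : (j : ℕ) = N := by omega
    rw [if_neg hj]
    by_cases hk : (k : ℕ) < N
    · rw [if_pos hk]
      by_cases hjk : (j : ℕ) = (k : ℕ) + 1
      · rw [if_pos hjk]
        have hkm : k = m := by
          apply Fin.ext
          show (k : ℕ) = N - 1
          omega
        rw [hkm, neg_add_eq_sub]
        exact A10c_monic hg (hRR.diag m).1 hgb (by rw [(hRR.diag m).2, hdvm])
      · rw [if_neg hjk, add_zero, degree_neg]
        have h1 := hRR.off m k (by
          intro h
          have h2 : N - 1 = (k : ℕ) := congrArg Fin.val h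
          omega)
        rw [hdvm] at h1
        exact h1
    · rw [if_neg hk, if_neg (by omega), add_zero]
      have h1 := hRR.off m k (by
        intro h
        have h2 : N - 1 = (k : ℕ) := congrArg Fin.val h
        omega)
      rw [hdvm] at h1
      exact h1

end Pool.Agent.LibCQ2
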