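import Pool.Agent.LibCQ2.A1

set_option autoImplicit false

/-! ROW A10d. det T = g p for T := TM N f Q' P, P := PM N g u q B, P row reduced, Q P = P Q', Q := QM N f u p B, g monic, N ≥ 1. -/

namespace Pool.Agent.LibCQ2

open Polynomial

section A10d
variable {S : Type*} [CommRing S] {N : ℕ}

/-- last column `(0, .., 0, c)` -/
private theorem A10d_col (M : Matrix (Fin (N + 1)) (Fin (N + 1)) S) (h : ∀ i, i ≠ Fin.last N → M i (Fin.last N) = 0) :
    M.det = M (Fin.last N) (Fin.last N) * (M.submatrix Fin.castSucc Fin.castSucc).det := by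
  rw [Matrix.det_succ_column M (Fin.last N), Finset.sum_eq_single (Fin.last N)]
  · rw [Fin.succAbove_last, Even.neg_one_pow ⟨_, rfl⟩, one_mul]
  · intro i _ hi
    rw [h i hi]
    ring
  · intro hi
    exact absurd (Finset.mem_univ _) hi

/-- last row `(0, .., 0, c)` -/
private theorem A10d_row (M : Matrix (Fin (N + 1)) (Fin (N + 1)) S) (h : ∀ i, i ≠ Fin.last N → M (Fin.last N) i = 0) :
    M.det = M (Fin.last N) (Fin.last N) * (M.submatrix Fin.castSucc Fin.castSucc).det := by
  rw [Matrix.det_succ_row M (Fin.last N), Finset.sum_eq_single (Fin.last N)]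
  · rw [Fin.succAbove_last, Even.neg_one_pow ⟨_, rfl⟩, one_mul]
  · intro i _ hi
    rw [h i hi]
    ring
  · intro hi
    exact absurd (Finset.mem_univ _) hi

private theorem A10d_castne (i : Fin N) : Fin.castSucc i ≠ Fin.last N := (Fin.castSucc_lt_last i).ne

private theorem A10d_lt {i : Fin (N + 1)} (hi : i ≠ Fin.last N) : (i : ℕ) < N := by
  have := i.2
  have h2 : (i : ℕ) ≠ N := fun h => hi (Fin.ext h)
  omega

/-- the matrix `A2`: last row replaced by `e_{N-1}` -/
private theorem A10d_A2 (hN : 1 ≤ N) {A : Matrix (Fin (N + 1)) (Fin (N + 1)) S} {p f : S} (m : Fin (N + 1))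
    (hm : (m : ℕ) = N - 1)
    (hAc : ∀ i : Fin (N + 1), (i : ℕ) < N → A i (Fin.last N) = if (i : ℕ) = 0 then p else 0)
    (hAd : ∀ i j : Fin (N + 1), (i : ℕ) < N → (j : ℕ) + 1 < N →
      A i j = (if (i : ℕ) = (j : ℕ) + 1 then 1 else 0) - (if i = j then f else 0)) :
    (Matrix.of fun i j : Fin (N + 1) => if (i : ℕ) < N then A i j else if j = m then (1 : S) else 0).det
      = (-1) ^ N * p := by
  set A2 : Matrix (Fin (N + 1)) (Fin (N + 1)) S :=
    Matrix.of fun i j : Fin (N + 1) => if (i : ℕ) < N then A i j else if j = m then (1 : S) else 0 with hA2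
  have hA2v : ∀ i j, A2 i j = if (i : ℕ) < N then A i j else if j = m then (1 : S) else 0 := fun i j => rfl
  rw [Matrix.det_succ_column A2 (Fin.last N), Finset.sum_eq_single 0]
  · have h1 : A2 0 (Fin.last N) = p := by
      rw [hA2v, if_pos (by simp; omega), hAc _ (by simp; omega)]
      simp
    have h2 : (A2.submatrix (Fin.succAbove 0) (Fin.succAbove (Fin.last N))).det = 1 := by
      rw [Fin.succAbove_last, Fin.succAbove_zero, Matrix.det_of_isUpperTriangular]
      · apply Finset.prod_eq_one
        intro i _
        rw [Matrix.submatrix_apply, hA2v]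
        by_cases hi : (i : ℕ) + 1 < N
        · rw [if_pos (by simpa using hi), hAd _ _ (by simpa using hi) (by simpa using hi)]
          have h3 : ¬ (Fin.succ i = Fin.castSucc i) := by
            intro h
            have := congrArg Fin.val h
            simp at this
          rw [if_neg h3, if_pos (by simp), sub_zero]
        · rw [if_neg (by simpa using hi), if_pos]
          apply Fin.ext
          rw [hm]
          have := i.2
          simp only [Fin.val_castSucc]
          omega
      · intro i j hij
        have hij' : (j : ℕ) < (i : ℕ) := hij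
        rw [Matrix.submatrix_apply, hA2v]
        by_cases hi : (i : ℕ) + 1 < N
        · rw [if_pos (by simpa using hi), hAd _ _ (by simpa using hi) (by simp; omega)]
          have h3 : ¬ (Fin.succ i = Fin.castSucc j) := by
            intro h
            have := congrArg Fin.val h
            simp at this
            omega
          rw [if_neg h3, if_neg (by simp; omega), sub_zero]
        · rw [if_neg (by simpa using hi), if_neg]
          intro h
          have h4 := congrArg Fin.val h
          rw [hm] at h4
          have := i.2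
          simp only [Fin.val_castSucc] at h4
          omega
    rw [h1, h2]
    simp
  · intro i _ hi
    have hz : A2 i (Fin.last N) = 0 := by
      rw [hA2v]
      by_cases h : (i : ℕ) < N
      · rw [if_pos h, hAc _ h, if_neg]
        intro h0
        exact hi (Fin.ext (by simpa using h0))
      · rw [if_neg h, if_neg]
        intro h0
        have := congrArg Fin.val h0
        rw [hm, Fin.val_last] at this
        omega
    rw [hz]
    ring
  · intro hi
    exact absurd (Finset.mem_univ _) hi

/-- step (3) -/
private theorem A10d_M {P : Matrix (Fin (N + 1)) (Fin (N + 1)) S} {u : Fin (N + 1) → S} {g : S}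
    (hPu : ∀ j, j ≠ Fin.last N → P (Fin.last N) j = u j) (hPg : P (Fin.last N) (Fin.last N) = g) :
    g * (Matrix.of fun j k : Fin (N + 1) => if (j : ℕ) < N then
      (if (k : ℕ) < N then g * P j k - P j (Fin.last N) * u k else - (P j (Fin.last N) * u k))
      else if k = Fin.last N then (1 : S) else 0).det = g ^ N * P.det := by
  set M : Matrix (Fin (N + 1)) (Fin (N + 1)) S := Matrix.of fun j k : Fin (N + 1) => if (j : ℕ) < N then
      (if (k : ℕ) < N then g * P j k - P j (Fin.last N) * u k else - (P j (Fin.last N) * u k))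
      else if k = Fin.last N then (1 : S) else 0 with hM
  have hMv : ∀ j k, M j k = if (j : ℕ) < N then
      (if (k : ℕ) < N then g * P j k - P j (Fin.last N) * u k else - (P j (Fin.last N) * u k))
      else if k = Fin.last N then (1 : S) else 0 := fun j k => rfl
  let L : Matrix (Fin (N + 1)) (Fin (N + 1)) S := Matrix.of fun i j : Fin (N + 1) => if (i : ℕ) < N then
      (if i = j then g else if j = Fin.last N then - P i (Fin.last N) else 0) else if j = Fin.last N then 1 else 0
  have hLv : ∀ i j, L i j = if (i : ℕ) < N then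
      (if i = j then g else if j = Fin.last N then - P i (Fin.last N) else 0) else
        if j = Fin.last N then 1 else 0 := fun i j => rfl
  have hLdet : L.det = g ^ N := by
    rw [Matrix.det_of_isUpperTriangular]
    · rw [Fin.prod_univ_castSucc, hLv, if_neg (by simp), if_pos rfl, mul_one]
      rw [Finset.prod_eq_pow_card (b := g)]
      · simp
      · intro i _
        rw [hLv, if_pos (by simp), if_pos rfl]
    · intro i j hij
      have hij' : j < i := hij
      have hj : j ≠ Fin.last N := (lt_of_lt_of_le hij' (Fin.le_last i)).ne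
      rw [hLv, if_neg hij'.ne', if_neg hj, if_neg hj]
      simp
  have hMl : M.det = (M.submatrix Fin.castSucc Fin.castSucc).det := by
    rw [A10d_row M]
    · rw [hMv, if_neg (by simp), if_pos rfl, one_mul]
    · intro i hi
      rw [hMv, if_neg (by simp), if_neg hi]
  have hLP1 : ∀ i j : Fin (N + 1), (i : ℕ) < N → (L * P) i j = g * P i j - P i (Fin.last N) * P (Fin.last N) j := by
    intro i j hi
    have hil : i ≠ Fin.last N := by
      rintro rfl
      simp at hi
    rw [Matrix.mul_apply, Finset.sum_eq_add (a := i) (b := Fin.last N) hil]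
    · rw [hLv, hLv, if_pos hi, if_pos rfl, if_pos hi, if_neg hil, if_pos rfl]
      ring
    · rintro c _ ⟨hc1, hc2⟩
      rw [hLv, if_pos hi, if_neg (Ne.symm hc1), if_neg hc2, zero_mul]
    · intro h
      exact absurd (Finset.mem_univ _) h
    · intro h
      exact absurd (Finset.mem_univ _) h
  have hLP2 : ∀ j, (L * P) (Fin.last N) j = P (Fin.last N) j := by
    intro j
    rw [Matrix.mul_apply, Finset.sum_eq_single (Fin.last N)]
    · rw [hLv, if_neg (by simp), if_pos rfl, one_mul]
    · intro c _ hc
      rw [hLv, if_neg (by simp), if_neg hc, zero_mul]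
    · intro h
      exact absurd (Finset.mem_univ _) h
  have hLPdet : (L * P).det = g * (M.submatrix Fin.castSucc Fin.castSucc).det := by
    rw [A10d_col (L * P)]
    · rw [hLP2, hPg]
      congr 2
      ext i j
      rw [Matrix.submatrix_apply, Matrix.submatrix_apply, hLP1 _ _ (by simp), hMv, if_pos (by simp),
        if_pos (by simp), hPu _ (A10d_castne j)]
    · intro i hi
      rw [hLP1 _ _ (A10d_lt hi), hPg]
      ring
  rw [hMl, ← hLPdet, Matrix.det_mul, hLdet]

/-- step (2) -/
private theorem A10d_Q1 (hN : 1 ≤ N) {A : Matrix (Fin (N + 1)) (Fin (N + 1)) S} {p f g : S} (m : Fin (N + 1))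
    (hm : (m : ℕ) = N - 1)
    (hAc : ∀ i : Fin (N + 1), (i : ℕ) < N → A i (Fin.last N) = if (i : ℕ) = 0 then p else 0)
    (hAd : ∀ i j : Fin (N + 1), (i : ℕ) < N → (j : ℕ) + 1 < N →
      A i j = (if (i : ℕ) = (j : ℕ) + 1 then 1 else 0) - (if i = j then f else 0)) :
    (Matrix.of fun i j : Fin (N + 1) => if (i : ℕ) < N then g * A i j else if j = m then (1 : S) else 0).det
      = g ^ N * ((-1) ^ N * p) := by
  rw [← A10d_A2 hN m hm hAc hAd]
  have h1 : (Matrix.of fun i j : Fin (N + 1) => if (i : ℕ) < N then g * A i j else if j = m then (1 : S) else 0) =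
      Matrix.diagonal (fun i : Fin (N + 1) => if (i : ℕ) < N then g else 1) *
        (Matrix.of fun i j : Fin (N + 1) => if (i : ℕ) < N then A i j else if j = m then (1 : S) else 0) := by
    ext i j
    rw [Matrix.diagonal_mul]
    simp only [Matrix.of_apply]
    split_ifs <;> simp
  rw [h1, Matrix.det_mul, Matrix.det_diagonal]
  congr 1
  rw [Fin.prod_univ_castSucc]
  simp

/-- step (1) -/
private theorem A10d_one {P A Q2 : Matrix (Fin (N + 1)) (Fin (N + 1)) S}
    {u : Fin (N + 1) → S} {g : S} (m : Fin (N + 1))
    (hPu : ∀ j, j ≠ Fin.last N → P (Fin.last N) j = u j) (hPg : P (Fin.last N) (Fin.last N) = g)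
    (hA : A * P = P * Q2) (hAl : ∀ j, A (Fin.last N) j = if j = m then - u (Fin.last N) else 0) :
    (Matrix.of fun j k : Fin (N + 1) => if (j : ℕ) < N then
      (if (k : ℕ) < N then g * P j k - P j (Fin.last N) * u k else - (P j (Fin.last N) * u k))
      else if k = Fin.last N then (1 : S) else 0) *
      (Matrix.of fun j k : Fin (N + 1) => if (j : ℕ) < N then Q2 j k else P m k) =
    (Matrix.of fun i j : Fin (N + 1) => if (i : ℕ) < N then g * A i j else if j = m then (1 : S) else 0) * P := by
  have hrow : ∀ k, g * Q2 (Fin.last N) k = - (u (Fin.last N) * P m k) -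
      ∑ j : Fin N, u (Fin.castSucc j) * Q2 (Fin.castSucc j) k := by
    intro k
    have h1 : (A * P) (Fin.last N) k = (P * Q2) (Fin.last N) k := by rw [hA]
    rw [Matrix.mul_apply, Matrix.mul_apply, Finset.sum_eq_single m, hAl, if_pos rfl, Fin.sum_univ_castSucc,
      hPg] at h1
    · have h2 : ∑ j : Fin N, P (Fin.last N) (Fin.castSucc j) * Q2 (Fin.castSucc j) k =
          ∑ j : Fin N, u (Fin.castSucc j) * Q2 (Fin.castSucc j) k :=
        Finset.sum_congr rfl fun j _ => by rw [hPu _ (A10d_castne j)]
      rw [h2] at h1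
      linear_combination -h1
    · intro j _ hj
      rw [hAl, if_neg hj, zero_mul]
    · intro h
      exact absurd (Finset.mem_univ _) h
  ext i k
  rw [Matrix.mul_apply, Matrix.mul_apply]
  simp only [Matrix.of_apply]
  by_cases hi : (i : ℕ) < N
  · simp only [if_pos hi]
    have h3 : ∑ j, g * A i j * P j k = g * ∑ j, P i j * Q2 j k := by
      have h4 : (A * P) i k = (P * Q2) i k := by rw [hA]
      rw [Matrix.mul_apply, Matrix.mul_apply] at h4
      rw [← h4, Finset.mul_sum]
      exact Finset.sum_congr rfl fun j _ => by ring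
    rw [h3, Fin.sum_univ_castSucc, Fin.sum_univ_castSucc]
    simp only [Fin.val_castSucc, Fin.is_lt, if_true, Fin.val_last, lt_irrefl, if_false]
    have h5 : ∑ j : Fin N, (g * P i (Fin.castSucc j) - P i (Fin.last N) * u (Fin.castSucc j)) *
        Q2 (Fin.castSucc j) k = g * ∑ j : Fin N, P i (Fin.castSucc j) * Q2 (Fin.castSucc j) k -
          P i (Fin.last N) * ∑ j : Fin N, u (Fin.castSucc j) * Q2 (Fin.castSucc j) k := by
      rw [Finset.mul_sum, Finset.mul_sum, ← Finset.sum_sub_distrib]
      exact Finset.sum_congr rfl fun j _ => by ring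
    rw [h5]
    linear_combination - P i (Fin.last N) * hrow k
  · simp only [if_neg hi]
    rw [Finset.sum_eq_single (Fin.last N), Finset.sum_eq_single m]
    · simp
    · intro j _ hj
      rw [if_neg hj, zero_mul]
    · intro h
      exact absurd (Finset.mem_univ _) h
    · intro j _ hj
      rw [if_neg hj, zero_mul]
    · intro h
      exact absurd (Finset.mem_univ _) h

end A10d

theorem det_TM {R : Type*} [CommRing R] [Nontrivial R] {N : ℕ} (hN : 1 ≤ N) {d : Fin (N + 1) → ℕ} {g f p : R[X]}
    (hg : g.Monic) {u : Fin (N + 1) → R[X]} {q : R[X][X]} {B : Fin (N + 1) → R[X][X]}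
    (hP : RowRed d (PM N g u q B)) {Q' : Matrix (Fin (N + 1)) (Fin (N + 1)) R[X]}
    (hQ : QM N f u p B * PM N g u q B = PM N g u q B * Q') :
    (TM N f Q' (PM N g u q B)).det = g * p := by
  have hdet := det_monic hP
  set P := PM N g u q B with hPdef
  have hPu : ∀ j, j ≠ Fin.last N → P (Fin.last N) j = u j := by
    intro j hj
    show (if ((Fin.last N : Fin (N + 1)) : ℕ) < N then _ else if (j : ℕ) < N then u j else g) = u j
    rw [if_neg (by simp), if_pos (A10d_lt hj)]
  have hPg : P (Fin.last N) (Fin.last N) = g := by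
    show (if ((Fin.last N : Fin (N + 1)) : ℕ) < N then _ else
      if ((Fin.last N : Fin (N + 1)) : ℕ) < N then u (Fin.last N) else g) = g
    rw [if_neg (by simp), if_neg (by simp)]
  set A : Matrix (Fin (N + 1)) (Fin (N + 1)) R[X] := QM N f u p B - f • (1 : Matrix (Fin (N + 1)) (Fin (N + 1)) R[X])
    with hAdef
  set Q2 : Matrix (Fin (N + 1)) (Fin (N + 1)) R[X] := Q' - f • (1 : Matrix (Fin (N + 1)) (Fin (N + 1)) R[X])
    with hQ2def
  have hA : A * P = P * Q2 := by
    rw [hAdef, hQ2def, sub_mul, mul_sub, hQ, Matrix.smul_mul, Matrix.mul_smul, one_mul, mul_one]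
  have hAv : ∀ i j, A i j = QM N f u p B i j - (if i = j then f else 0) := by
    intro i j
    rw [hAdef, Matrix.sub_apply, Matrix.smul_apply, Matrix.one_apply]
    split_ifs <;> simp
  have hQ2v : ∀ i j, Q2 i j = Q' i j - (if i = j then f else 0) := by
    intro i j
    rw [hQ2def, Matrix.sub_apply, Matrix.smul_apply, Matrix.one_apply]
    split_ifs <;> simp
  have hQMv : ∀ i j, QM N f u p B i j =
    if (j : ℕ) < N then
      (if (j : ℕ) + 1 < N then (if (i : ℕ) = (j : ℕ) + 1 then 1 else 0)
       else (if (i : ℕ) < N then -(B (Fin.last N)).coeff i else -u (Fin.last N)))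
    else (if (i : ℕ) < N then (if (i : ℕ) = 0 then p else 0) else f) := fun i j => rfl
  let m : Fin (N + 1) := ⟨N - 1, by omega⟩
  have hm : (m : ℕ) = N - 1 := rfl
  have hAl : ∀ j, A (Fin.last N) j = if j = m then - u (Fin.last N) else 0 := by
    intro j
    rw [hAv, hQMv]
    by_cases hj : (j : ℕ) < N
    · have hjl : ¬ (Fin.last N = j) := by
        rintro rfl
        simp at hj
      rw [if_pos hj, if_neg hjl, sub_zero]
      by_cases hj1 : (j : ℕ) + 1 < N
      · have hjm : j ≠ m := by
          intro h
          rw [h, hm] at hj1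
          omega
        rw [if_pos hj1, if_neg hjm, if_neg (by rw [Fin.val_last]; omega)]
      · have hjm : j = m := by
          apply Fin.ext
          rw [hm]
          omega
        rw [if_neg hj1, if_pos hjm, if_neg (by simp)]
    · have hjl : j = Fin.last N := by
        by_contra h
        exact hj (A10d_lt h)
      have hjm : j ≠ m := by
        intro h
        rw [h, hm] at hj
        omega
      rw [if_neg hj, if_neg (by simp), if_neg hjm, if_pos hjl.symm, sub_self]
  have hAc : ∀ i : Fin (N + 1), (i : ℕ) < N → A i (Fin.last N) = if (i : ℕ) = 0 then p else 0 := by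
    intro i hi
    have hil : ¬ (i = Fin.last N) := by
      rintro rfl
      simp at hi
    rw [hAv, hQMv, if_neg (by simp), if_pos hi, if_neg hil, sub_zero]
  have hAd : ∀ i j : Fin (N + 1), (i : ℕ) < N → (j : ℕ) + 1 < N →
      A i j = (if (i : ℕ) = (j : ℕ) + 1 then 1 else 0) - (if i = j then f else 0) := by
    intro i j _ hj
    rw [hAv, hQMv, if_pos (by omega), if_pos hj]
  have e1 := congrArg Matrix.det (A10d_one m hPu hPg hA hAl)
  rw [Matrix.det_mul, Matrix.det_mul, A10d_Q1 hN m hm hAc hAd] at e1
  have e2 := A10d_M hPu hPg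
  set M := (Matrix.of fun j k : Fin (N + 1) => if (j : ℕ) < N then
      (if (k : ℕ) < N then g * P j k - P j (Fin.last N) * u k else - (P j (Fin.last N) * u k))
      else if k = Fin.last N then (1 : R[X]) else 0)
  set T' := (Matrix.of fun j k : Fin (N + 1) => if (j : ℕ) < N then Q2 j k else P m k) with hT'
  have e3 : (g ^ N * P.det) * T'.det = (g ^ N * P.det) * ((-1) ^ N * (g * p)) := by
    linear_combination g * e1 - T'.det * e2
  have hreg : IsLeftRegular (g ^ N * P.det) := ((hg.pow N).mul hdet).isRegular.left
  have e4 : T'.det = (-1) ^ N * (g * p) := hreg e3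
  have e5 : TM N f Q' P = T' * Matrix.diagonal (fun i : Fin (N + 1) => if (i : ℕ) < N then (-1 : R[X]) else 1) := by
    ext1 j k
    rw [Matrix.mul_diagonal, hT', Matrix.of_apply]
    show (if (j : ℕ) < N then (if (k : ℕ) < N then (if j = k then f else 0) - Q' j k else Q' j k)
      else (if (k : ℕ) < N then -P m k else P m k)) = _
    by_cases hj : (j : ℕ) < N
    · rw [if_pos hj, if_pos hj, hQ2v]
      by_cases hk : (k : ℕ) < N
      · rw [if_pos hk, if_pos hk]
        ring
      · have hjk : j ≠ k := by
          rintro rfl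
          exact hk hj
        rw [if_neg hk, if_neg hk, if_neg hjk]
        ring
    · rw [if_neg hj, if_neg hj]
      split_ifs <;> ring
  rw [e5, Matrix.det_mul, e4, Matrix.det_diagonal, Fin.prod_univ_castSucc]
  have e6 : ((-1 : R[X]) ^ N) * (-1) ^ N = 1 := by
    rw [← mul_pow]
    simp
  have e7 : (∏ i : Fin N, if ((Fin.castSucc i : Fin (N + 1)) : ℕ) < N then (-1 : R[X]) else 1) = (-1) ^ N := by
    rw [Finset.prod_eq_pow_card (b := (-1 : R[X]))]
    · simp
    · intro i _
      rw [if_pos (by simp)]
  rw [e7, if_neg (by simp), mul_one]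
  linear_combination (g * p) * e6

end Pool.Agent.LibCQ2
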