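import Pool.Agent.LibCQ2.A10a
import Pool.Agent.LibCQ2.A10b
import Pool.Agent.LibCQ2.A10c
import Pool.Agent.LibCQ2.A10d

set_option autoImplicit false

/-! ROW A10e (SHORT, Defs + A8, A10a-d). Assembly: the data of a normal form. Q' from exists_Qp, T := TM N f Q' P, h := hM N f Q', P := PM N g u q B. -/

namespace Pool.Agent.LibCQ2

open Polynomial

theorem pair_data {R : Type*} [CommRing R] [Nontrivial R] {n : Type*} [Fintype n] [DecidableEq n] {N b : ℕ}
    (hN : 1 ≤ N) (hb : 1 ≤ b) {x y : Matrix n n R} (hxy : x * y = y * x) {v w : n → R}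
    {g f p : R[X]} {q : R[X][X]} {u : Fin (N + 1) → R[X]} {B : Fin (N + 1) → R[X][X]}
    (hB : HB (dv N b) y (gam N x v w)) (H : NF N b x y v w g f p q u B) :
    ∃ (T : Matrix (Fin (N + 1)) (Fin (N + 1)) R[X]) (h : Fin (N + 1) → R[X]),
      Dta N b g f u T h p ∧ Out N b g f u T h p q B := by
  obtain ⟨Q', hQ⟩ := exists_Qp hN hb hxy hB H
  refine ⟨TM N f Q' (PM N g u q B), hM N f Q', ?_, ?_⟩
  · exact
      { g_monic := H.g_monic
        g_deg := H.g_deg
        f_deg := H.f_deg
        u_deg := H.u_deg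
        T_deg := TM_deg hN hb H.g_monic H.g_deg H.f_deg H.p_deg H.u_deg H.wB H.wq hQ
        rel := alg_rel hN hQ
        det := det_TM hN H.g_monic (PM_rowRed hb H.g_monic H.g_deg H.u_deg H.wB H.wq) hQ }
  · exact
      { star := alg_star hN hb H.wB H.wq hQ
        wB := H.wB
        wq := H.wq }

end Pool.Agent.LibCQ2
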