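import Pool.Agent.LibCQ2.Defs

set_option autoImplicit false

/-! ROW A11 (MEDIUM, only Mathlib + Defs). Nilpotent functions on the commuting scheme vanish at pairs coming from a reduced ring, up to conjugation.
 ev_map: for an algebra hom φ: φ (ev X Y F) = ev (X.map φ) (Y.map φ) F (MvPolynomial.aeval / algHom_ext). ev_comm: X Y = Y X and F ∈ cI give ev X Y F = 0 (span_induction; ev of the generator is ((X Y - Y X) i j)).
 conj_zero: if R1 is trivial: Subsingleton. Otherwise card n = card κ (G, H invertible): e : κ ≃ n. O' := Localization.Away (det of the generic matrix 𝔾 : Matrix κ κ (MvPolynomial (κ × κ) O)): O' is reduced (MvPolynomial over reduced is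
   reduced; IsLocalization of reduced is reduced). Over O': pair (𝔾 Xs 𝔾⁻¹, 𝔾 Ys 𝔾⁻¹) reindexed along e (Matrix.reindex / submatrix) commutes, so F ^ m ↦ 0, so F ↦ 0 by reducedness. Φ : O' → R1: on O it is φ, 𝔾 ↦ G1 := G reindexed to κ × κ
   (G1 i j = G (e i) j), det G1 is a unit (inverse H), IsLocalization.Away.lift; it is a k-algebra hom. Φ maps the pair to (G1 φ(Xs) G1⁻¹ ..) reindexed = (X, Y) by hX, hY, h1, h2. So ev X Y F = Φ (0) = 0. -/

namespace Pool.Agent.LibCQ2

universe u

theorem ev_map {k : Type u} [CommRing k] {n : Type} {R R' : Type u} [CommRing R] [Algebra k R] [CommRing R'] [Algebra k R']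
    (φ : R →ₐ[k] R') (X Y : Matrix n n R) (F : MvPolynomial (Fin 2 × n × n) k) :
    φ (ev X Y F) = ev (X.map φ) (Y.map φ) F := by
  unfold ev
  rw [MvPolynomial.comp_aeval_apply]
  congr 2
  funext p
  by_cases h : p.1 = 0
  · simp [h]
  · simp [h]

private theorem A11_gen {k : Type u} [CommRing k] {n : Type} [Fintype n] [DecidableEq n] {R : Type u}
    [CommRing R] [Algebra k R] (X Y : Matrix n n R) (i j : n) :
    ev X Y ((cm k n 0 * cm k n 1 - cm k n 1 * cm k n 0) i j) = (X * Y - Y * X) i j := by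
  have h0 : ∀ a b, ev X Y (cm k n 0 a b) = X a b := by
    intro a b
    simp [ev, cm]
  have h1 : ∀ a b, ev X Y (cm k n 1 a b) = Y a b := by
    intro a b
    simp [ev, cm]
  simp only [Matrix.sub_apply, Matrix.mul_apply, map_sub, map_sum, map_mul, h0, h1]

theorem ev_comm {k : Type u} [CommRing k] {n : Type} [Fintype n] [DecidableEq n] {R : Type u} [CommRing R] [Algebra k R]
    (X Y : Matrix n n R) (h : X * Y = Y * X) (F : CP k n) (hF : F ∈ cI k n) : ev X Y F = 0 := by
  have hle : cI k n ≤ RingHom.ker (ev X Y : CP k n →ₐ[k] R) := by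
    unfold cI
    rw [Ideal.span_le]
    rintro _ ⟨p, rfl⟩
    simp only [SetLike.mem_coe, RingHom.mem_ker]
    have := A11_gen (k := k) X Y p.1 p.2
    rw [h, sub_self] at this
    exact this
  exact hle hF

theorem conj_zero {k : Type u} [Field k] {O : Type u} [CommRing O] [Algebra k O] [IsReduced O]
    {R1 : Type u} [CommRing R1] [Algebra k R1] (φ : O →ₐ[k] R1) {n κ : Type} [Fintype n] [DecidableEq n]
    [Fintype κ] [DecidableEq κ] (Xs Ys : Matrix κ κ O) (hs : Xs * Ys = Ys * Xs) (X Y : Matrix n n R1)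
    (G : Matrix n κ R1) (H : Matrix κ n R1) (h1 : G * H = 1) (h2 : H * G = 1)
    (hX : X * G = G * Xs.map φ) (hY : Y * G = G * Ys.map φ) (F : CP k n) (m : ℕ) (hF : F ^ m ∈ cI k n) :
    ev X Y F = 0 := by
  classical
  rcases subsingleton_or_nontrivial R1 with hR | hR
  · exact Subsingleton.elim _ _
  have hcard : Fintype.card κ = Fintype.card n := Matrix.square_of_invertible H G h2 h1
  let e : κ ≃ n := Fintype.equivOfCardEq hcard
  -- the generic matrix
  let S := MvPolynomial (κ × κ) O
  let GG : Matrix κ κ S := Matrix.of fun i j => MvPolynomial.X (i, j)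
  let O' := Localization.Away GG.det
  have hred : IsReduced O' := by
    have : IsReduced S := inferInstance
    exact isReduced_localizationPreserves (Submonoid.powers GG.det) O' this
  -- the two homomorphisms
  let ψ : S →ₐ[k] R1 :=
    { MvPolynomial.eval₂Hom (φ : O →+* R1) (fun p : κ × κ => G (e p.1) p.2) with
      commutes' := fun c => by
        change MvPolynomial.eval₂Hom (φ : O →+* R1) (fun p : κ × κ => G (e p.1) p.2)
          (algebraMap k S c) = _
        rw [IsScalarTower.algebraMap_apply k O S, MvPolynomial.algebraMap_eq,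
          MvPolynomial.eval₂Hom_C]
        exact φ.commutes c }
  have hψC : ∀ c : O, ψ (MvPolynomial.C c) = φ c := fun c =>
    MvPolynomial.eval₂Hom_C (φ : O →+* R1) _ c
  have hψX : ∀ i j : κ, ψ (MvPolynomial.X (i, j)) = G (e i) j := fun i j =>
    MvPolynomial.eval₂Hom_X' (φ : O →+* R1) _ (i, j)
  let G1 : Matrix κ κ R1 := G.submatrix e id
  let H1 : Matrix κ κ R1 := H.submatrix id e
  have hGH : G1 * H1 = 1 := by
    ext i j
    have h3 := congrFun (congrFun h1 (e i)) (e j)
    rw [Matrix.mul_apply] at h3 ⊢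
    rw [show ((1 : Matrix κ κ R1) i j) = (1 : Matrix n n R1) (e i) (e j) by
      simp [Matrix.one_apply], ← h3]
    rfl
  have hHG : H1 * G1 = 1 := by
    change H.submatrix id e * G.submatrix e id = 1
    rw [Matrix.submatrix_mul_equiv H G id e id, h2]
    rfl
  have hψG : GG.map ψ = G1 := by
    ext i j
    exact hψX i j
  have hunit : IsUnit (ψ GG.det) := by
    have h3 : ψ GG.det = (GG.map ψ).det := RingHom.map_det (ψ : S →+* R1) GG
    rw [h3, hψG]
    exact (Matrix.isUnit_iff_isUnit_det G1).1 ⟨⟨G1, H1, hGH, hHG⟩, rfl⟩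
  let Φ : O' →ₐ[k] R1 := IsLocalization.Away.liftAlgHom GG.det hunit
  have hΦ : ∀ x : S, Φ (algebraMap S O' x) = ψ x := fun x =>
    IsLocalization.Away.lift_eq GG.det hunit x
  -- the generic matrix over `O'`
  let G' : Matrix κ κ O' := GG.map (algebraMap S O')
  obtain ⟨H', hH1, hH2⟩ : ∃ H' : Matrix κ κ O', G' * H' = 1 ∧ H' * G' = 1 := by
    have h3 : IsUnit G' := by
      rw [Matrix.isUnit_iff_isUnit_det]
      have h4 : G'.det = algebraMap S O' GG.det := (RingHom.map_det (algebraMap S O') GG).symm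
      rw [h4]
      exact IsLocalization.map_units O' (⟨GG.det, Submonoid.mem_powers _⟩ :
        Submonoid.powers GG.det)
    obtain ⟨u, hu⟩ := h3
    refine ⟨(↑u⁻¹ : Matrix κ κ O'), ?_, ?_⟩
    · rw [← hu]; exact u.mul_inv
    · rw [← hu]; exact u.inv_mul
  let X2 : Matrix κ κ O' := Xs.map (fun c => algebraMap S O' (MvPolynomial.C c))
  let Y2 : Matrix κ κ O' := Ys.map (fun c => algebraMap S O' (MvPolynomial.C c))
  have hXY2 : X2 * Y2 = Y2 * X2 := by
    have h3 := congrArg (fun M : Matrix κ κ O =>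
      M.map ((algebraMap S O').comp (MvPolynomial.C : O →+* S))) hs
    simp only [Matrix.map_mul] at h3
    exact h3
  let X3 : Matrix κ κ O' := G' * X2 * H'
  let Y3 : Matrix κ κ O' := G' * Y2 * H'
  have hXY3 : X3 * Y3 = Y3 * X3 := by
    change G' * X2 * H' * (G' * Y2 * H') = G' * Y2 * H' * (G' * X2 * H')
    have h3 : ∀ A B : Matrix κ κ O', G' * A * H' * (G' * B * H') = G' * (A * B) * H' := by
      intro A B
      calc G' * A * H' * (G' * B * H') = G' * A * (H' * G') * B * H' := by
            simp only [Matrix.mul_assoc]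
        _ = G' * (A * B) * H' := by rw [hH2, Matrix.mul_one]; simp only [Matrix.mul_assoc]
    rw [h3, h3, hXY2]
  have hzero : ev (X3.submatrix e.symm e.symm) (Y3.submatrix e.symm e.symm) F = 0 := by
    refine hred.eq_zero _ ⟨m, ?_⟩
    rw [← map_pow]
    refine ev_comm _ _ ?_ _ hF
    rw [Matrix.submatrix_mul_equiv, Matrix.submatrix_mul_equiv, hXY3]
  have hG'Φ : G'.map Φ = G1 := by
    ext i j
    change Φ (algebraMap S O' (GG i j)) = G1 i j
    rw [hΦ]
    exact hψX i j
  have hmapmul : ∀ A B : Matrix κ κ O', (A * B).map Φ = A.map Φ * B.map Φ := fun A B =>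
    Matrix.map_mul (f := (Φ : O' →+* R1))
  have hH'Φ : H'.map Φ = H1 := by
    have h3 : H'.map Φ * G1 = 1 := by
      rw [← hG'Φ, ← hmapmul, hH2]
      exact Matrix.map_one _ (map_zero _) (map_one _)
    calc H'.map Φ = H'.map Φ * (G1 * H1) := by rw [hGH, Matrix.mul_one]
      _ = H1 := by rw [← Matrix.mul_assoc, h3, Matrix.one_mul]
  have hmain : ∀ (Zs : Matrix κ κ O) (Z : Matrix n n R1), Z * G = G * Zs.map φ →
      ((G' * Zs.map (fun c => algebraMap S O' (MvPolynomial.C c)) * H').submatrix
        e.symm e.symm).map Φ = Z := by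
    intro Zs Z hZ
    have h3 : (Zs.map (fun c => algebraMap S O' (MvPolynomial.C c))).map Φ = Zs.map φ := by
      ext i j
      change Φ (algebraMap S O' (MvPolynomial.C (Zs i j))) = φ (Zs i j)
      rw [hΦ, hψC]
    have h4 : Z = G * Zs.map φ * H := by
      rw [← hZ, Matrix.mul_assoc, h1, Matrix.mul_one]
    have h6 : ((G' * Zs.map (fun c => algebraMap S O' (MvPolynomial.C c)) * H')).map Φ =
        G1 * Zs.map φ * H1 := by
      rw [hmapmul, hmapmul, hG'Φ, hH'Φ, h3]
    ext i j
    have h7 := congrFun (congrFun h6 (e.symm i)) (e.symm j)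
    refine h7.trans ?_
    rw [h4]
    simp [G1, H1, Matrix.mul_apply]
  have h5 := ev_map Φ (X3.submatrix e.symm e.symm) (Y3.submatrix e.symm e.symm) F
  rw [hzero, map_zero, hmain Xs X hX, hmain Ys Y hY] at h5
  exact h5.symm

end Pool.Agent.LibCQ2
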