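import Pool.Agent.LibCQ2.B1

set_option autoImplicit false

/-! ROW A12 (SHORT/MEDIUM, Defs + B1). A monic polynomial of degree b splits over an injective extension (same universe). Induction on b: b = 0: g = 1, R1 = R. b + 1: R' := AdjoinRoot g (AdjoinRoot.of is injective as g is monic of positive degree:
 AdjoinRoot.of.injective_of_degree_ne_zero or via powerBasis'; R' nontrivial), g.map = (X - C root) * g', g' monic of degree b; induction for g' over R'; Fin.cons. gP univ = ∏ (X - C (y i)) (Fin.prod_univ_succ). -/

namespace Pool.Agent.LibCQ2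

open Polynomial

universe u

private theorem A12_inj {R : Type u} [CommRing R] (g : R[X]) (hg : g.Monic) (hd : 0 < g.natDegree) :
    Function.Injective (AdjoinRoot.of g) := by
  rw [injective_iff_map_eq_zero]
  intro a ha
  by_contra hne
  have h1 : g ∣ C a := by
    rw [← AdjoinRoot.mk_eq_zero]
    exact ha
  refine hg.not_dvd_of_degree_lt (C_ne_zero.mpr hne) ?_ h1
  calc degree (C a) ≤ 0 := degree_C_le
    _ < degree g := natDegree_pos_iff_degree_pos.mp hd

theorem split_ext : ∀ (b : ℕ) {R : Type u} [CommRing R] [Nontrivial R] (g : R[X]) (_ : g.Monic) (_ : g.natDegree = b),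
    ∃ (R1 : Type u) (_ : CommRing R1) (φ : R →+* R1) (y : Fin b → R1), Function.Injective φ ∧ g.map φ = gP y Finset.univ := by
  intro b
  induction b with
  | zero =>
    intro R _ _ g hg hd
    have h1 : g = 1 := hg.natDegree_eq_zero.mp hd
    refine ⟨R, inferInstance, RingHom.id R, fun i => i.elim0, Function.injective_id, ?_⟩
    subst h1
    simp [gP]
  | succ b ih =>
    intro R _ _ g hg hd
    have hinj := A12_inj g hg (by omega)
    have : Nontrivial (AdjoinRoot g) := hinj.nontrivial
    have hroot : (g.map (AdjoinRoot.of g)).IsRoot (AdjoinRoot.root g) := AdjoinRoot.isRoot_root g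
    obtain ⟨g', hg'⟩ := dvd_iff_isRoot.mpr hroot
    have hmg : (g.map (AdjoinRoot.of g)).Monic := hg.map _
    have hmg' : g'.Monic := by
      rw [hg'] at hmg
      exact (monic_X_sub_C (AdjoinRoot.root g)).of_mul_monic_left hmg
    have hdeg : g'.natDegree = b := by
      have h2 : (g.map (AdjoinRoot.of g)).natDegree = b + 1 := by
        rw [hg.natDegree_map, hd]
      rw [hg', (monic_X_sub_C (AdjoinRoot.root g)).natDegree_mul hmg', natDegree_X_sub_C] at h2
      omega
    obtain ⟨R1, inst, φ1, y', hφ1, hy'⟩ := ih g' hmg' hdeg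
    refine ⟨R1, inst, φ1.comp (AdjoinRoot.of g), Fin.cons (φ1 (AdjoinRoot.root g)) y', ?_, ?_⟩
    · rw [RingHom.coe_comp]
      exact hφ1.comp hinj
    · rw [← Polynomial.map_map, hg', Polynomial.map_mul, hy']
      simp [gP, Fin.prod_univ_succ]

end Pool.Agent.LibCQ2
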