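import Pool.Agent.LibCQ2.Defs
import Pool.Agent.LibCQ2.A8

set_option autoImplicit false

/-! ROW A13 (SHORT/MEDIUM, only Mathlib + Defs). Functoriality of data and outputs under a ring hom φ (target nontrivial).
 Dta.map: g.map monic of the same degree (Monic.natDegree_map), degrees do not increase (degree_map_le), rel, det: Polynomial.map is a ring hom (RingHom.map_det with mapRingHom).
 Out.map: bivariate: F ↦ F.map (mapRingHom φ); coefficients: coeff_map. AA, ry, rx commute with maps (if-then-else). wtLT is preserved.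
 NF.map: x.map φ etc.: aeval (y.map φ) (f.map φ) = (aeval y f).map φ (by Polynomial induction; also a2), mulVec commutes with maps (Matrix.. RingHom.map_mulVec).
 HB.map: GM (x.map ..) = (GM ..).map φ. -/

namespace Pool.Agent.LibCQ2

open Polynomial

section
variable {R R1 : Type*} [CommRing R] [CommRing R1] [Nontrivial R1] (φ : R →+* R1) {N b : ℕ}

omit [Nontrivial R1] in
private theorem A13_wt {m : ℕ} {F : R[X][X]} (h : wtLT b m F) : wtLT b m (F.map (mapRingHom φ)) := by
  intro i j hij
  rw [coeff_map, coe_mapRingHom, coeff_map, h i j hij, map_zero]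

omit [Nontrivial R1] in
private theorem A13_AA (f : R[X]) (T : Matrix (Fin (N + 1)) (Fin (N + 1)) R[X]) (j k : Fin (N + 1)) :
    (AA N f T j k).map (mapRingHom φ) = AA N (f.map φ) (T.map (Polynomial.map φ)) j k := by
  unfold AA
  simp only [Matrix.of_apply, Matrix.map_apply]
  rw [Polynomial.map_add, map_C, coe_mapRingHom]
  split_ifs
  · rw [Polynomial.map_sub, map_X, map_C, coe_mapRingHom]
  · rw [Polynomial.map_zero]

omit [Nontrivial R1] in
private theorem A13_ry (f : R[X]) (h : Fin (N + 1) → R[X]) (k : Fin (N + 1)) :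
    (ry N f h k).map (mapRingHom φ) = ry N (f.map φ) (fun j => (h j).map φ) k := by
  unfold ry
  simp only
  rw [Polynomial.map_add, map_C, coe_mapRingHom]
  split_ifs
  · rw [Polynomial.map_zero]
  · rw [Polynomial.map_sub, map_X, map_C, coe_mapRingHom]

omit [Nontrivial R1] in
private theorem A13_rx (g : R[X]) (u : Fin (N + 1) → R[X]) (k : Fin (N + 1)) :
    (rx N g u k).map (mapRingHom φ) = rx N (g.map φ) (fun j => (u j).map φ) k := by
  unfold rx
  simp only
  rw [map_C, coe_mapRingHom]
  split_ifs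
  · rfl
  · rw [Polynomial.map_neg]

omit [Nontrivial R1] in
private theorem A13_B {B : Fin (N + 1) → R[X][X]} (j : Fin (N + 1)) :
    (B j - C (X ^ (b * (N - (j : ℕ)))) * X ^ (j : ℕ)).map (mapRingHom φ) =
      (B j).map (mapRingHom φ) - C (X ^ (b * (N - (j : ℕ)))) * X ^ (j : ℕ) := by
  rw [Polynomial.map_sub, Polynomial.map_mul, map_C, coe_mapRingHom, Polynomial.map_pow, map_X,
    Polynomial.map_pow, map_X]

theorem Dta_map {g f p : R[X]} {u h : Fin (N + 1) → R[X]} {T : Matrix (Fin (N + 1)) (Fin (N + 1)) R[X]}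
    (D : Dta N b g f u T h p) :
    Dta N b (g.map φ) (f.map φ) (fun j => (u j).map φ) (T.map (Polynomial.map φ)) (fun j => (h j).map φ) (p.map φ) := by
  refine ⟨D.g_monic.map φ, ?_, degree_map_le.trans_lt D.f_deg, fun j => degree_map_le.trans_lt (D.u_deg j), ?_, ?_, ?_⟩
  · rw [D.g_monic.natDegree_map, D.g_deg]
  · intro j k
    have h1 : (T.map (Polynomial.map φ)) j k + (if (j : ℕ) = (k : ℕ) + 1 then g.map φ else 0) =
        (T j k + if (j : ℕ) = (k : ℕ) + 1 then g else 0).map φ := by
      rw [Matrix.map_apply, Polynomial.map_add]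
      split_ifs
      · rfl
      · rw [Polynomial.map_zero]
    rw [h1]
    exact degree_map_le.trans_lt (D.T_deg j k)
  · intro k
    have h1 := congrArg (Polynomial.map φ) (D.rel k)
    rw [Polynomial.map_sum, Polynomial.map_mul] at h1
    rw [← h1]
    refine Finset.sum_congr rfl fun j _ => ?_
    rw [Polynomial.map_mul, Matrix.map_apply]
  · have h1 := congrArg (mapRingHom φ) D.det
    rw [RingHom.map_det, coe_mapRingHom, Polynomial.map_mul] at h1
    rw [← h1]
    rfl

theorem Out_map {g f p : R[X]} {u h : Fin (N + 1) → R[X]} {T : Matrix (Fin (N + 1)) (Fin (N + 1)) R[X]}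
    {q : R[X][X]} {B : Fin (N + 1) → R[X][X]} (O : Out N b g f u T h p q B) :
    Out N b (g.map φ) (f.map φ) (fun j => (u j).map φ) (T.map (Polynomial.map φ)) (fun j => (h j).map φ) (p.map φ)
      (q.map (mapRingHom φ)) (fun j => (B j).map (mapRingHom φ)) := by
  refine ⟨fun k => ?_, fun j => ?_, A13_wt φ O.wq⟩
  · have h1 := congrArg (Polynomial.map (mapRingHom φ)) (O.star k)
    rw [Polynomial.map_sum, Polynomial.map_sub, Polynomial.map_mul, Polynomial.map_mul, map_C,
      coe_mapRingHom, A13_ry, A13_rx] at h1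
    rw [← h1]
    refine Finset.sum_congr rfl fun j _ => ?_
    rw [Polynomial.map_mul, A13_AA]
  · skip
    rw [← A13_B]
    exact A13_wt φ (O.wB j)

omit [Nontrivial R1] in
private theorem A13_aev {n : Type*} [Fintype n] [DecidableEq n] (y : Matrix n n R) (f : R[X]) :
    aeval (y.map φ) (f.map φ) = (aeval y f).map φ := by
  have h1 : ∀ f : R[X], aeval (y.map φ) (f.map φ) = φ.mapMatrix (aeval y f) := by
    intro f
    induction f using Polynomial.induction_on' with
    | add p q hp hq => rw [Polynomial.map_add, map_add, map_add, map_add, hp, hq]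
    | monomial m a =>
      rw [map_monomial, aeval_monomial, aeval_monomial, map_mul, map_pow]
      congr 1
      ext i j
      simp only [RingHom.mapMatrix_apply, Matrix.map_apply, Matrix.algebraMap_matrix_apply]
      split_ifs
      · rfl
      · rw [map_zero]
  exact h1 f

omit [Nontrivial R1] in
private theorem A13_a2 {n : Type*} [Fintype n] [DecidableEq n] (x y : Matrix n n R) (F : R[X][X]) :
    a2 (x.map φ) (y.map φ) (F.map (mapRingHom φ)) = (a2 x y F).map φ := by
  have h1 : φ.mapMatrix (a2 x y F) = a2 (x.map φ) (y.map φ) (F.map (mapRingHom φ)) := by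
    unfold a2
    rw [hom_eval₂, eval₂_map]
    congr 1
    refine RingHom.ext fun f => ?_
    exact (A13_aev φ y f).symm
  exact h1.symm

omit [Nontrivial R1] in
private theorem A13_mv {n : Type*} [Fintype n] (M : Matrix n n R) (v : n → R) :
    (M.map φ).mulVec (φ ∘ v) = φ ∘ (M.mulVec v) := by
  ext i
  simp only [Function.comp_apply]
  exact (RingHom.map_mulVec φ M v i).symm

theorem NF_map {n : Type*} [Fintype n] [DecidableEq n] {x y : Matrix n n R} {v w : n → R} {g f p : R[X]}
    {q : R[X][X]} {u : Fin (N + 1) → R[X]} {B : Fin (N + 1) → R[X][X]} (H : NF N b x y v w g f p q u B) :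
    NF N b (x.map φ) (y.map φ) (φ ∘ v) (φ ∘ w) (g.map φ) (f.map φ) (p.map φ) (q.map (mapRingHom φ))
      (fun j => (u j).map φ) (fun j => (B j).map (mapRingHom φ)) := by
  have hadd : ∀ a c : n → R, φ ∘ (a + c) = φ ∘ a + φ ∘ c := by
    intro a c
    ext i
    simp
  have hzero : φ ∘ (0 : n → R) = 0 := by
    ext i
    simp
  refine ⟨H.g_monic.map φ, ?_, degree_map_le.trans_lt H.f_deg, fun j => degree_map_le.trans_lt (H.u_deg j),
    degree_map_le.trans_lt H.p_deg, fun j => ?_, A13_wt φ H.wq, ?_, ?_, fun j => ?_⟩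
  · rw [H.g_monic.natDegree_map, H.g_deg]
  · skip
    rw [← A13_B]
    exact A13_wt φ (H.wB j)
  · rw [A13_mv, A13_aev, A13_aev, A13_mv, A13_mv, H.relw, hadd]
  · rw [A13_aev, A13_a2, A13_mv, A13_mv, ← hadd, H.relg, hzero]
  · skip
    rw [A13_aev, A13_a2, A13_mv, A13_mv, ← hadd, H.relB, hzero]

omit [Nontrivial R1] in
private theorem A13_gam {n : Type*} [Fintype n] [DecidableEq n] (x : Matrix n n R) (v w : n → R)
    (i : Fin (N + 1)) : gam N (x.map φ) (φ ∘ v) (φ ∘ w) i = φ ∘ gam N x v w i := by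
  unfold gam
  split_ifs
  · rw [← A13_mv]
    congr 1
    exact (map_pow φ.mapMatrix x (i : ℕ)).symm
  · rfl

omit [Nontrivial R1] in
private theorem A13_GM {n : Type*} [Fintype n] [DecidableEq n] (x y : Matrix n n R) (v w : n → R) :
    GM (dv N b) (y.map φ) (gam N (x.map φ) (φ ∘ v) (φ ∘ w)) = (GM (dv N b) y (gam N x v w)).map φ := by
  ext i κ
  unfold GM
  simp only [Matrix.of_apply, Matrix.map_apply]
  rw [A13_gam]
  have h1 : (y.map φ) ^ (κ.2 : ℕ) = (y ^ (κ.2 : ℕ)).map φ :=
    (map_pow φ.mapMatrix y (κ.2 : ℕ)).symm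
  rw [h1, A13_mv]
  rfl

theorem HB_map {n : Type*} [Fintype n] [DecidableEq n] {x y : Matrix n n R} {v w : n → R}
    (h : HB (dv N b) y (gam N x v w)) : HB (dv N b) (y.map φ) (gam N (x.map φ) (φ ∘ v) (φ ∘ w)) := by
  obtain ⟨H, h1, h2⟩ := h
  refine ⟨H.map φ, ?_, ?_⟩
  · rw [A13_GM, ← Matrix.map_mul, h1]
    exact Matrix.map_one φ (map_zero φ) (map_one φ)
  · rw [A13_GM, ← Matrix.map_mul, h2]
    exact Matrix.map_one φ (map_zero φ) (map_one φ)

theorem PM_map {g : R[X]} {u : Fin (N + 1) → R[X]} {q : R[X][X]} {B : Fin (N + 1) → R[X][X]} :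
    (PM N g u q B).map (Polynomial.map φ) =
      PM N (g.map φ) (fun j => (u j).map φ) (q.map (mapRingHom φ)) (fun j => (B j).map (mapRingHom φ)) := by
  ext1 i j
  unfold PM
  simp only [Matrix.of_apply, Matrix.map_apply, coeff_map, coe_mapRingHom]
  split_ifs <;> rfl

theorem QM_map {f p : R[X]} {u : Fin (N + 1) → R[X]} {B : Fin (N + 1) → R[X][X]} :
    (QM N f u p B).map (Polynomial.map φ) =
      QM N (f.map φ) (fun j => (u j).map φ) (p.map φ) (fun j => (B j).map (mapRingHom φ)) := by
  ext1 i j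
  unfold QM
  simp only [Matrix.of_apply, Matrix.map_apply, coeff_map, coe_mapRingHom]
  split_ifs <;> simp

end

end Pool.Agent.LibCQ2
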