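import Pool.Agent.LibCQ2.Defs

set_option autoImplicit false

/-! ROW B1p (SHORT, only Mathlib + Defs). Polynomials with p coefficients (pV t = sum of C (t l) * X ^ l, l : Fin p).
 pV_coeff, pV_degree_lt; exists_pV: t l := P.coeff l; pV_inj; pV_div: X - C c divides pV t (dvd_iff_isRoot), the quotient (/ₘ) has degree < p.
 pV_mul: compare coefficients (Fin (p+1), l = 0, 0 < l < p, l = p), or state it through exists_pV. -/

namespace Pool.Agent.LibCQ2

open Polynomial

private theorem B1p_coeff {B : Type*} [CommRing B] {p : ℕ} (t : Fin p → B) (n : ℕ) :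
    (pV t).coeff n = if h : n < p then t ⟨n, h⟩ else 0 := by
  unfold pV
  rw [finsetSum_coeff]
  simp only [coeff_C_mul_X_pow]
  split_ifs with h
  · rw [Finset.sum_eq_single ⟨n, h⟩]
    · simp
    · intro b _ hb
      rw [if_neg]
      intro h2
      exact hb (Fin.ext h2.symm)
    · intro h3
      exact absurd (Finset.mem_univ _) h3
  · apply Finset.sum_eq_zero
    intro b _
    rw [if_neg]
    have := b.2
    omega

theorem pV_coeff {B : Type*} [CommRing B] {p : ℕ} (t : Fin p → B) (l : Fin p) : (pV t).coeff l = t l := by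
  rw [B1p_coeff, dif_pos l.2]

theorem pV_degree_lt {B : Type*} [CommRing B] {p : ℕ} (t : Fin p → B) : (pV t).degree < (p : WithBot ℕ) := by
  rw [degree_lt_iff_coeff_zero]
  intro m hm
  rw [B1p_coeff, dif_neg (by omega)]

theorem exists_pV {B : Type*} [CommRing B] {p : ℕ} (P : B[X]) (h : P.degree < (p : WithBot ℕ)) :
    P = pV (fun l : Fin p => P.coeff l) := by
  rw [degree_lt_iff_coeff_zero] at h
  ext n
  rw [B1p_coeff]
  split_ifs with h1
  · rfl
  · exact h n (by omega)

theorem pV_inj {B : Type*} [CommRing B] {p : ℕ} (t t' : Fin p → B) (h : pV t = pV t') : t = t' := by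
  funext l
  rw [← pV_coeff t l, h, pV_coeff]

theorem pV_div {B : Type*} [CommRing B] {p : ℕ} (t : Fin (p + 1) → B) (c : B) (h : (pV t).eval c = 0) :
    ∃ t'' : Fin p → B, pV t = (X - C c) * pV t'' := by
  rcases subsingleton_or_nontrivial B with hB | hB
  · exact ⟨fun _ => 0, Subsingleton.elim _ _⟩
  obtain ⟨Q, hQ⟩ := (dvd_iff_isRoot (p := pV t) (a := c)).mpr h
  have hd : Q.degree < (p : WithBot ℕ) := by
    by_cases h0 : Q = 0
    · rw [h0, degree_zero]
      exact WithBot.bot_lt_coe p
    · have h1 := pV_degree_lt t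
      have hne : pV t ≠ 0 := by
        intro h2
        rw [h2] at hQ
        exact h0 ((monic_X_sub_C c).mul_right_eq_zero_iff.mp hQ.symm)
      have h3 := (natDegree_lt_iff_degree_lt hne).mpr h1
      rw [hQ, (monic_X_sub_C c).natDegree_mul' h0, natDegree_X_sub_C] at h3
      rw [← natDegree_lt_iff_degree_lt h0]
      omega
  refine ⟨fun l => Q.coeff l, ?_⟩
  rw [← exists_pV Q hd]
  exact hQ

/-- coefficients of `(X - c) t''` -/
def sft {B : Type*} [CommRing B] {p : ℕ} (c : B) (t'' : Fin p → B) : Fin (p + 1) → B :=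
  fun l => (if h : 0 < (l : ℕ) then t'' ⟨(l : ℕ) - 1, by omega⟩ else 0) -
    c * (if h : (l : ℕ) < p then t'' ⟨(l : ℕ), h⟩ else 0)

theorem pV_sft {B : Type*} [CommRing B] {p : ℕ} (c : B) (t'' : Fin p → B) :
    pV (sft c t'') = (X - C c) * pV t'' := by
  ext n
  rw [sub_mul, coeff_sub, coeff_C_mul, B1p_coeff, B1p_coeff]
  rcases n with _ | n
  · rw [coeff_X_mul_zero, dif_pos (Nat.succ_pos p)]
    simp only [sft]
    rw [dif_neg (lt_irrefl 0)]
  · rw [coeff_X_mul, B1p_coeff]
    by_cases h : n + 1 < p + 1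
    · rw [dif_pos h]
      simp only [sft]
      rw [dif_pos (Nat.succ_pos n), dif_pos (show n < p by omega)]
      rfl
    · rw [dif_neg h, dif_neg (show ¬ n < p by omega), dif_neg (show ¬ n + 1 < p by omega)]
      simp

theorem sft_map {B B' : Type*} [CommRing B] [CommRing B'] (φ : B →+* B') {p : ℕ} (c : B) (t'' : Fin p → B) :
    (fun l => φ (sft c t'' l)) = sft (φ c) (fun l => φ (t'' l)) := by
  funext l
  simp only [sft, map_sub, map_mul]
  congr 1
  · split_ifs
    · rfl
    · exact map_zero φ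
  · congr 1
    split_ifs
    · rfl
    · exact map_zero φ

end Pool.Agent.LibCQ2
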