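import Pool.Agent.LibCQ2.B13
import Pool.Agent.LibCQ2.B1p

set_option autoImplicit false

/-! ROW A14 (MEDIUM, Defs + B1, B1p, B13). The model ring. Yb := MvPolynomial (Fin b ⊕ Fin b) k (a domain), y i := X (inl i) (injective), f := pV (X ∘ inr). MO k N b := MvPolynomial (IK (N+1) b) Yb ⧸ KI (N+1) y.
 MO_reduced: KI_radical: Ideal.Quotient: x ^ m = 0 → x = 0.
 moG = ∏ (z - y_i), moF, moU j, moT j k = t_jk - [j = k+1] g over MO.
 mo_data: h k := (∑ u_j T_jk) /ₘ g, p := det T /ₘ g: g monic; g ∣ ∑ u_j T_jk: ∑ u_j t_jk is divisible by g in MO[z] (remId_le_ker with mk: KI ≤ ker mk) and the correction is a multiple of g. det T ≡ det t mod g: compare in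
   MO[z] ⧸ span {g} (RingHom.map_det), so g ∣ det T. Degrees: pV_degree_lt.
 mo_hom: data over R1 with g = gP y1 univ: define Yb → R1: inl i ↦ y1 i, inr l ↦ f.coeff l; IK: inl (j,l) ↦ (u j).coeff l; inr (j,k,l) ↦ (T j k + [j=k+1] g).coeff l. It kills KI: remId_le_ker: the images of uv, tv are u j, T j k + [..] g
   (exists_pV), so ∑ u_j (T_jk + ..) ≡ g h_k mod g, det (T + g L') ≡ det T = g p mod g. Ideal.Quotient.liftₐ. -/

namespace Pool.Agent.LibCQ2

open Polynomial

universe u

section
variable (k : Type u) [Field k] (N b : ℕ)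

/-- base domain: the roots `y_i` (left) and the coefficients of `f` (right) -/
abbrev Yb := MvPolynomial (Fin b ⊕ Fin b) k

noncomputable def yb : Fin b → Yb k b := fun i => MvPolynomial.X (Sum.inl i)

/-- the model ring -/
def MO := MvPolynomial (IK (N + 1) b) (Yb k b) ⧸ KI (N + 1) (yb k b)

noncomputable instance : CommRing (MO k N b) :=
  inferInstanceAs (CommRing (MvPolynomial (IK (N + 1) b) (Yb k b) ⧸ KI (N + 1) (yb k b)))

noncomputable instance : Algebra k (MO k N b) :=
  inferInstanceAs (Algebra k (MvPolynomial (IK (N + 1) b) (Yb k b) ⧸ KI (N + 1) (yb k b)))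

noncomputable def moMk : MvPolynomial (IK (N + 1) b) (Yb k b) →ₐ[k] MO k N b := Ideal.Quotient.mkₐ k (KI (N + 1) (yb k b))

noncomputable def moG : (MO k N b)[X] := gP (fun i => moMk k N b (MvPolynomial.C (yb k b i))) Finset.univ

noncomputable def moF : (MO k N b)[X] := pV fun l : Fin b => moMk k N b (MvPolynomial.C (MvPolynomial.X (Sum.inr l)))

noncomputable def moU (j : Fin (N + 1)) : (MO k N b)[X] := pV fun l : Fin b => moMk k N b (MvPolynomial.X (Sum.inl (j, l)))

noncomputable def moT : Matrix (Fin (N + 1)) (Fin (N + 1)) (MO k N b)[X] :=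
  Matrix.of fun j l => (pV fun i : Fin b => moMk k N b (MvPolynomial.X (Sum.inr (j, l, i)))) -
    if (j : ℕ) = (l : ℕ) + 1 then moG k N b else 0

end

private theorem A14_det {R : Type*} [CommRing R] {n : Type*} [Fintype n] [DecidableEq n] (g : R)
    (A B : Matrix n n R) (h : ∀ i j, g ∣ A i j - B i j) : g ∣ A.det - B.det := by
  rw [← Ideal.mem_span_singleton, ← Ideal.Quotient.eq_zero_iff_mem, map_sub, RingHom.map_det,
    RingHom.map_det, sub_eq_zero]
  congr 1
  ext i j
  rw [RingHom.mapMatrix_apply, RingHom.mapMatrix_apply, Matrix.map_apply, Matrix.map_apply,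
    ← sub_eq_zero, ← map_sub, Ideal.Quotient.eq_zero_iff_mem, Ideal.mem_span_singleton]
  exact h i j

private theorem A14_gg_monic {Y : Type*} [CommRing Y] (n : ℕ) {b : ℕ} (y : Fin b → Y) :
    (gg n y).Monic := by
  unfold gg
  exact (gP_monic y _).map _

private theorem A14_gg_map {Y B : Type*} [CommRing Y] [CommRing B] (n : ℕ) {b : ℕ} (y : Fin b → Y)
    (Φ : MvPolynomial (IK n b) Y →+* B) :
    (gg n y).map Φ = gP (fun i => Φ (MvPolynomial.C (y i))) Finset.univ := by
  unfold gg
  rw [gP_map, gP_map]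

private theorem A14_mk (k : Type u) [Field k] (N b : ℕ) (x : MvPolynomial (IK (N + 1) b) (Yb k b))
    (hx : x ∈ KI (N + 1) (yb k b)) : moMk k N b x = 0 :=
  Ideal.Quotient.eq_zero_iff_mem.2 hx

private theorem A14_ker (k : Type u) [Field k] (N b : ℕ) (m P : (MvPolynomial (IK (N + 1) b) (Yb k b))[X])
    (hm : m.Monic) (h : remId m P ≤ KI (N + 1) (yb k b)) :
    m.map (moMk k N b : MvPolynomial (IK (N + 1) b) (Yb k b) →+* MO k N b) ∣
      P.map (moMk k N b : MvPolynomial (IK (N + 1) b) (Yb k b) →+* MO k N b) := by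
  rw [← remId_le_ker _ _ _ hm]
  intro x hx
  rw [RingHom.mem_ker]
  exact A14_mk k N b x (h hx)

theorem MO_reduced (k : Type u) [Field k] (N b : ℕ) : IsReduced (MO k N b) := by
  refine ⟨fun x hx => ?_⟩
  obtain ⟨m, hm⟩ := hx
  obtain ⟨F, rfl⟩ := Ideal.Quotient.mk_surjective (I := KI (N + 1) (yb k b)) x
  have h1 : F ^ m ∈ KI (N + 1) (yb k b) := by
    rw [← Ideal.Quotient.eq_zero_iff_mem, map_pow]
    exact hm
  refine Ideal.Quotient.eq_zero_iff_mem.2 (KI_radical (N + 1) (yb k b) ?_ F m h1)
  exact (MvPolynomial.X_injective (R := k)).comp Sum.inl_injective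

theorem mo_data (k : Type u) [Field k] (N b : ℕ) [Nontrivial (MO k N b)] :
    ∃ (h : Fin (N + 1) → (MO k N b)[X]) (p : (MO k N b)[X]),
      Dta N b (moG k N b) (moF k N b) (moU k N b) (moT k N b) h p := by
  classical
  have hgm : (gg (N + 1) (yb k b)).map
      (moMk k N b : MvPolynomial (IK (N + 1) b) (Yb k b) →+* MO k N b) = moG k N b := by
    rw [A14_gg_map]
    rfl
  have hum : ∀ j, (uv (Yb k b) (N + 1) b j).map
      (moMk k N b : MvPolynomial (IK (N + 1) b) (Yb k b) →+* MO k N b) = moU k N b j := by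
    intro j
    unfold uv
    rw [pV_map]
    rfl
  have htm : ∀ j l, (tv (Yb k b) (N + 1) b j l).map
      (moMk k N b : MvPolynomial (IK (N + 1) b) (Yb k b) →+* MO k N b) =
      moT k N b j l + if (j : ℕ) = (l : ℕ) + 1 then moG k N b else 0 := by
    intro j l
    unfold tv moT
    rw [Matrix.of_apply, Matrix.of_apply, pV_map, sub_add_cancel]
    rfl
  have hrel : ∀ l, ∃ h, ∑ j, moU k N b j * moT k N b j l = moG k N b * h := by
    intro l
    have h1 : remId (gg (N + 1) (yb k b)) (∑ j, uv (Yb k b) (N + 1) b j * tv (Yb k b) (N + 1) b j l) ≤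
        KI (N + 1) (yb k b) := by
      unfold KI
      exact le_sup_of_le_left (le_iSup (fun l => remId (gg (N + 1) (yb k b))
        (∑ j, uv (Yb k b) (N + 1) b j * tv (Yb k b) (N + 1) b j l)) l)
    have h2 := A14_ker k N b _ _ (A14_gg_monic _ _) h1
    rw [hgm, Polynomial.map_sum] at h2
    have h3 : ∑ j, moU k N b j * moT k N b j l =
        (∑ j, (uv (Yb k b) (N + 1) b j * tv (Yb k b) (N + 1) b j l).map
          (moMk k N b : MvPolynomial (IK (N + 1) b) (Yb k b) →+* MO k N b)) -
        ∑ j, moU k N b j * (if (j : ℕ) = (l : ℕ) + 1 then moG k N b else 0) := by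
      rw [← Finset.sum_sub_distrib]
      refine Finset.sum_congr rfl fun j _ => ?_
      rw [Polynomial.map_mul, hum, htm]
      ring
    rw [h3]
    refine dvd_sub h2 (Finset.dvd_sum fun j _ => ?_)
    split_ifs
    · exact Dvd.intro_left _ rfl
    · simp
  have hdet : ∃ p, (moT k N b).det = moG k N b * p := by
    have h1 : remId (gg (N + 1) (yb k b)) (tv (Yb k b) (N + 1) b).det ≤ KI (N + 1) (yb k b) := by
      unfold KI
      exact le_sup_right
    have h2 := A14_ker k N b _ _ (A14_gg_monic _ _) h1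
    rw [hgm] at h2
    have h3 : (tv (Yb k b) (N + 1) b).det.map
        (moMk k N b : MvPolynomial (IK (N + 1) b) (Yb k b) →+* MO k N b) =
        (Matrix.of fun j l => moT k N b j l + if (j : ℕ) = (l : ℕ) + 1 then moG k N b else 0).det := by
      refine (RingHom.map_det (Polynomial.mapRingHom
        (moMk k N b : MvPolynomial (IK (N + 1) b) (Yb k b) →+* MO k N b))
        (tv (Yb k b) (N + 1) b)).trans ?_
      congr 1
      refine Matrix.ext fun j l => ?_
      exact htm j l
    rw [h3] at h2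
    have h4 : moG k N b ∣ (Matrix.of fun j l => moT k N b j l +
        if (j : ℕ) = (l : ℕ) + 1 then moG k N b else 0).det - (moT k N b).det := by
      refine A14_det _ _ _ fun j l => ?_
      rw [Matrix.of_apply, add_sub_cancel_left]
      split_ifs
      · exact dvd_rfl
      · simp
    exact (dvd_sub_right h2).1 h4
  choose h hh using hrel
  obtain ⟨p, hp⟩ := hdet
  refine ⟨h, p, ?_, ?_, ?_, ?_, ?_, hh, hp⟩
  · exact gP_monic _ _
  · unfold moG
    rw [gP_natDegree, Finset.card_univ, Fintype.card_fin]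
  · exact pV_degree_lt _
  · exact fun j => pV_degree_lt _
  · intro j l
    unfold moT
    rw [Matrix.of_apply, sub_add_cancel]
    exact pV_degree_lt _

theorem mo_hom (k : Type u) [Field k] {N b : ℕ} {R1 : Type u} [CommRing R1] [Algebra k R1] [Nontrivial R1]
    (y1 : Fin b → R1) {g f p : R1[X]} {u h : Fin (N + 1) → R1[X]} {T : Matrix (Fin (N + 1)) (Fin (N + 1)) R1[X]}
    (D : Dta N b g f u T h p) (hg : g = gP y1 Finset.univ) :
    ∃ φ : MO k N b →ₐ[k] R1, (moG k N b).map (φ : MO k N b →+* R1) = g ∧ (moF k N b).map (φ : MO k N b →+* R1) = f ∧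
      (∀ j, (moU k N b j).map (φ : MO k N b →+* R1) = u j) ∧
      ∀ j l, (moT k N b j l).map (φ : MO k N b →+* R1) = T j l := by
  classical
  set φ0 : Yb k b →ₐ[k] R1 := MvPolynomial.aeval (Sum.elim y1 (fun l : Fin b => f.coeff l)) with hφ0
  set Φ : MvPolynomial (IK (N + 1) b) (Yb k b) →+* R1 :=
    MvPolynomial.eval₂Hom (φ0 : Yb k b →+* R1)
      (Sum.elim (fun p : Fin (N + 1) × Fin b => (u p.1).coeff p.2)
        (fun p : Fin (N + 1) × Fin (N + 1) × Fin b =>
          (T p.1 p.2.1 + if (p.1 : ℕ) = (p.2.1 : ℕ) + 1 then g else 0).coeff p.2.2)) with hΦ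
  have hy : ∀ i, Φ (MvPolynomial.C (yb k b i)) = y1 i := by
    intro i
    rw [hΦ, MvPolynomial.eval₂Hom_C]
    show φ0 (yb k b i) = y1 i
    unfold yb
    rw [hφ0, MvPolynomial.aeval_X, Sum.elim_inl]
  have hf : ∀ l : Fin b, Φ (MvPolynomial.C (MvPolynomial.X (Sum.inr l))) = f.coeff l := by
    intro l
    rw [hΦ, MvPolynomial.eval₂Hom_C]
    show φ0 (MvPolynomial.X (Sum.inr l)) = f.coeff l
    rw [hφ0, MvPolynomial.aeval_X, Sum.elim_inr]
  have hu : ∀ j (l : Fin b), Φ (MvPolynomial.X (Sum.inl (j, l))) = (u j).coeff l := by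
    intro j l
    rw [hΦ, MvPolynomial.coe_eval₂Hom, MvPolynomial.eval₂_X, Sum.elim_inl]
  have ht : ∀ j i (l : Fin b), Φ (MvPolynomial.X (Sum.inr (j, i, l))) =
      (T j i + if (j : ℕ) = (i : ℕ) + 1 then g else 0).coeff l := by
    intro j i l
    rw [hΦ, MvPolynomial.coe_eval₂Hom, MvPolynomial.eval₂_X, Sum.elim_inr]
  have hgm : (gg (N + 1) (yb k b)).map Φ = g := by
    rw [A14_gg_map, hg]
    congr 1
    funext i
    exact hy i
  have hum : ∀ j, (uv (Yb k b) (N + 1) b j).map Φ = u j := by
    intro j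
    unfold uv
    rw [pV_map]
    simp only [hu]
    exact (exists_pV (u j) (D.u_deg j)).symm
  have htm : ∀ j l, (tv (Yb k b) (N + 1) b j l).map Φ =
      T j l + if (j : ℕ) = (l : ℕ) + 1 then g else 0 := by
    intro j l
    unfold tv
    rw [Matrix.of_apply, pV_map]
    simp only [ht]
    exact (exists_pV _ (D.T_deg j l)).symm
  have hker : ∀ x ∈ KI (N + 1) (yb k b), Φ x = 0 := by
    have h1 : KI (N + 1) (yb k b) ≤ RingHom.ker Φ := by
      unfold KI
      refine sup_le (iSup_le fun l => ?_) ?_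
      · rw [remId_le_ker _ _ _ (A14_gg_monic _ _), hgm, Polynomial.map_sum]
        have h3 : ∑ j, (uv (Yb k b) (N + 1) b j * tv (Yb k b) (N + 1) b j l).map Φ =
            g * h l + ∑ j, u j * (if (j : ℕ) = (l : ℕ) + 1 then g else 0) := by
          rw [← D.rel l, ← Finset.sum_add_distrib]
          refine Finset.sum_congr rfl fun j _ => ?_
          rw [Polynomial.map_mul, hum, htm]
          ring
        rw [h3]
        refine dvd_add (Dvd.intro _ rfl) (Finset.dvd_sum fun j _ => ?_)
        split_ifs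
        · exact Dvd.intro_left _ rfl
        · simp
      · rw [remId_le_ker _ _ _ (A14_gg_monic _ _), hgm]
        have h3 : (tv (Yb k b) (N + 1) b).det.map Φ =
            (Matrix.of fun j l => T j l + if (j : ℕ) = (l : ℕ) + 1 then g else 0).det := by
          refine (RingHom.map_det (Polynomial.mapRingHom Φ) (tv (Yb k b) (N + 1) b)).trans ?_
          congr 1
          refine Matrix.ext fun j l => ?_
          exact htm j l
        rw [h3]
        have h4 : g ∣ (Matrix.of fun j l => T j l +
            if (j : ℕ) = (l : ℕ) + 1 then g else 0).det - T.det := by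
          refine A14_det _ _ _ fun j l => ?_
          rw [Matrix.of_apply, add_sub_cancel_left]
          split_ifs
          · exact dvd_rfl
          · simp
        have h5 : g ∣ T.det := by
          rw [D.det]
          exact Dvd.intro _ rfl
        exact (dvd_sub_left h5).1 h4
    exact fun x hx => RingHom.mem_ker.1 (h1 hx)
  let Φa : MvPolynomial (IK (N + 1) b) (Yb k b) →ₐ[k] R1 :=
    { toRingHom := Φ
      commutes' := by
        intro r
        show Φ (algebraMap k (MvPolynomial (IK (N + 1) b) (Yb k b)) r) = algebraMap k R1 r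
        rw [MvPolynomial.algebraMap_apply, hΦ, MvPolynomial.eval₂Hom_C]
        exact φ0.commutes r }
  let φ : MO k N b →ₐ[k] R1 := Ideal.Quotient.liftₐ (KI (N + 1) (yb k b)) Φa hker
  have hφ : ∀ x, (φ : MO k N b →+* R1) (moMk k N b x) = Φ x := fun x => rfl
  refine ⟨φ, ?_, ?_, ?_, ?_⟩
  · unfold moG
    rw [gP_map, hg]
    congr 1
    funext i
    rw [hφ, hy]
  · unfold moF
    rw [pV_map]
    simp only [hφ, hf]
    exact (exists_pV f D.f_deg).symm
  · intro j
    unfold moU
    rw [pV_map]
    simp only [hφ, hu]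
    exact (exists_pV (u j) (D.u_deg j)).symm
  · intro j l
    have hG : (moG k N b).map (φ : MO k N b →+* R1) = g := by
      unfold moG
      rw [gP_map, hg]
      congr 1
      funext i
      rw [hφ, hy]
    unfold moT
    rw [Matrix.of_apply, Polynomial.map_sub, pV_map]
    simp only [hφ, ht]
    rw [← exists_pV _ (D.T_deg j l)]
    split_ifs
    · rw [hG, add_sub_cancel_right]
    · rw [Polynomial.map_zero, add_zero, sub_zero]

end Pool.Agent.LibCQ2
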