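import Pool.Agent.LibCQ2.A6a

set_option autoImplicit false

/-! ROW A6b (MEDIUM, Defs + A5, A6a). The polynomials q, B of given data: q = (det AA - det T)/(x - f), B_j = (ρ_j - p u_j)/(x - f), ρ_j = ∑_k ry_k (adj AA) k j.
 h_deg: g h_k = ∑ u_j T_jk; T_jk = (degree < b) - [j=k+1] g: g (h_k + u_(k+1)) = ∑ u_j (T + g L')_jk has degree ≤ 2b-2, g monic of degree b: degree (h_k + ..) < b. (Compute degrees: Monic.degree_mul.)
 Exactness: Polynomial.dvd_iff_isRoot in x (eval (the R[y]-element f)): eval f is a ring hom R[y][x] → R[y]; AA evaluates to T (x - f ↦ 0), so det AA ↦ det T (RingHom.map_det), adj AA ↦ adj T, ry ↦ h.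
   ρ_j ↦ ∑ h_k (adj T)_kj =: s; g s = ∑_k ∑_i u_i T_ik (adj T)_kj = u_j det T = g p u_j, so s = p u_j (g monic: regular).
 star: multiply by x - f (regular: monic) : (x - f) ∑_j B_j AA_jk = ∑_j ρ_j AA_jk - p ∑ u_j AA_jk = ry_k det AA - p ((x - f) rx_k + g ry_k), where ∑_j u_j AA_jk = C (g h_k) + (x - f) [k<N] u_k = (x - f) rx_k + g ry_k, and
   det AA = (x - f) q + C (det T) = (x - f) q + C (g p). So it is (x - f)(q ry_k - p rx_k).
 weights: wq: (x - f) q = det AA - C det T: wtLT b ((N+1) b) (det_wt), wtLT_div with m = N b. wB: (x - f)(B_j - y^.. x^j) = (ρ_j - x y^.. x^j) - p u_j + f y^.. x^j: all of weight < (N+1) b: rho_top; degree p < N b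
   (g p = det T has degree < (N+1) b by det_wt, g monic), u_j degree < b; f y^.. x^j: degree f < b. wtLT_div. -/

namespace Pool.Agent.LibCQ2

open Polynomial

section
variable {R : Type*} [CommRing R] [Nontrivial R] {N b : ℕ}

private theorem A6b_mul {p q : R[X]} {m n : ℕ} (hp : p.degree < (m : WithBot ℕ))
    (hq : q.degree < (n : WithBot ℕ)) : (p * q).degree < ((m + n : ℕ) : WithBot ℕ) := by
  rw [degree_lt_iff_coeff_zero] at hp hq ⊢
  intro l hl
  rw [coeff_mul]
  refine Finset.sum_eq_zero fun x hx => ?_
  have h1 := Finset.HasAntidiagonal.mem_antidiagonal.1 hx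
  by_cases h2 : m ≤ x.1
  · rw [hp _ h2, zero_mul]
  · rw [hq x.2 (by omega), mul_zero]

private theorem A6b_cancel {g p : R[X]} {n : ℕ} (hg : g.Monic) (hgb : g.natDegree = b)
    (h : (g * p).degree < ((b + n : ℕ) : WithBot ℕ)) : p.degree < (n : WithBot ℕ) := by
  by_cases hp : p = 0
  · rw [hp, degree_zero]
    exact WithBot.bot_lt_coe n
  · rw [mul_comm, hg.degree_mul, degree_eq_natDegree hp, degree_eq_natDegree hg.ne_zero, hgb] at h
    rw [degree_eq_natDegree hp]
    have h1 : ((p.natDegree + b : ℕ) : WithBot ℕ) < ((b + n : ℕ) : WithBot ℕ) := by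
      push_cast at h ⊢
      exact h
    have h2 : p.natDegree + b < b + n := by exact_mod_cast h1
    have h3 : p.natDegree < n := by omega
    exact_mod_cast h3

omit [Nontrivial R] in
private theorem A6b_ry (f : R[X]) (h : Fin (N + 1) → R[X]) (k : Fin (N + 1)) :
    eval f (ry N f h k) = h k := by
  unfold ry
  split_ifs <;> simp

omit [Nontrivial R] in
private theorem A6b_AA (f : R[X]) (T : Matrix (Fin (N + 1)) (Fin (N + 1)) R[X]) :
    (evalRingHom f).mapMatrix (AA N f T) = T := by
  ext1 j k
  show eval f (AA N f T j k) = T j k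
  unfold AA
  rw [Matrix.of_apply]
  split_ifs <;> simp

theorem h_deg {g f p : R[X]} {u h : Fin (N + 1) → R[X]} {T : Matrix (Fin (N + 1)) (Fin (N + 1)) R[X]}
    (D : Dta N b g f u T h p) (k : Fin (N + 1)) : (h k).degree < (b : WithBot ℕ) := by
  obtain ⟨e, he1, he2⟩ : ∃ e : R[X], e.degree < (b : WithBot ℕ) ∧
      g * e = ∑ j, u j * (if (j : ℕ) = (k : ℕ) + 1 then g else 0) := by
    by_cases hk : (k : ℕ) + 1 < N + 1
    · refine ⟨u ⟨k + 1, hk⟩, D.u_deg _, ?_⟩
      rw [Finset.sum_eq_single (⟨(k : ℕ) + 1, hk⟩ : Fin (N + 1))]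
      · rw [if_pos rfl, mul_comm]
      · intro j _ hj
        rw [if_neg, mul_zero]
        intro h1
        exact hj (Fin.ext h1)
      · intro h1
        exact absurd (Finset.mem_univ _) h1
    · refine ⟨0, ?_, ?_⟩
      · rw [degree_zero]
        exact WithBot.bot_lt_coe b
      · rw [mul_zero, Finset.sum_eq_zero]
        intro j _
        rw [if_neg, mul_zero]
        intro h1
        have h2 := j.2
        omega
  have h1 : g * (h k + e) = ∑ j, u j * (T j k + if (j : ℕ) = (k : ℕ) + 1 then g else 0) := by
    rw [mul_add, ← D.rel k, he2, ← Finset.sum_add_distrib]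
    refine Finset.sum_congr rfl fun j _ => ?_
    rw [mul_add]
  have h2 : (g * (h k + e)).degree < ((b + b : ℕ) : WithBot ℕ) := by
    rw [h1, degree_lt_iff_coeff_zero]
    intro l hl
    rw [finsetSum_coeff]
    refine Finset.sum_eq_zero fun j _ => ?_
    exact (degree_lt_iff_coeff_zero _ _).1 (A6b_mul (D.u_deg j) (D.T_deg j k)) l hl
  have h3 := A6b_cancel D.g_monic D.g_deg h2
  rw [degree_lt_iff_coeff_zero] at h3 he1 ⊢
  intro l hl
  have h4 := h3 l hl
  rw [coeff_add, he1 l hl, add_zero] at h4
  exact h4

theorem out_exists (hb : 1 ≤ b) {g f p : R[X]} {u h : Fin (N + 1) → R[X]}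
    {T : Matrix (Fin (N + 1)) (Fin (N + 1)) R[X]} (D : Dta N b g f u T h p) :
    ∃ (q : R[X][X]) (B : Fin (N + 1) → R[X][X]), Out N b g f u T h p q B := by
  classical
  have hmon : (X - C f : R[X][X]).Monic := monic_X_sub_C f
  have hreg : ∀ A B : R[X][X], (X - C f) * A = (X - C f) * B → A = B := fun A B hAB =>
    hmon.isRegular.left hAB
  have hh := h_deg D
  obtain ⟨q, hq⟩ : ∃ q : R[X][X], (AA N f T).det - C T.det = (X - C f) * q := by
    have h1 : (X - C f) ∣ (AA N f T).det - C T.det := by
      rw [dvd_iff_isRoot, IsRoot.def, eval_sub, eval_C]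
      have h2 : (evalRingHom f) (AA N f T).det = T.det := by
        rw [RingHom.map_det, A6b_AA]
      rw [coe_evalRingHom] at h2
      rw [h2, sub_self]
    exact h1
  have hρ : ∀ j, eval f (∑ k, ry N f h k * (AA N f T).adjugate k j) = p * u j := by
    intro j
    have h1 : ∀ k, eval f ((AA N f T).adjugate k j) = T.adjugate k j := by
      intro k
      have h2 := RingHom.map_adjugate (evalRingHom f) (AA N f T)
      rw [A6b_AA] at h2
      have h3 := congrFun (congrFun h2 k) j
      exact h3
    rw [eval_finsetSum]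
    simp only [eval_mul, A6b_ry, h1]
    have h4 : g * ∑ k, h k * T.adjugate k j = g * (p * u j) := by
      calc g * ∑ k, h k * T.adjugate k j = ∑ k, (g * h k) * T.adjugate k j := by
            rw [Finset.mul_sum]
            refine Finset.sum_congr rfl fun k _ => ?_
            ring
        _ = ∑ k, ∑ i, u i * (T i k * T.adjugate k j) := by
            refine Finset.sum_congr rfl fun k _ => ?_
            rw [← D.rel k, Finset.sum_mul]
            refine Finset.sum_congr rfl fun i _ => ?_
            ring
        _ = ∑ i, u i * (T * T.adjugate) i j := by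
            rw [Finset.sum_comm]
            refine Finset.sum_congr rfl fun i _ => ?_
            rw [Matrix.mul_apply, Finset.mul_sum]
        _ = u j * T.det := by
            rw [Matrix.mul_adjugate, Finset.sum_eq_single j]
            · rw [Matrix.smul_apply, Matrix.one_apply_eq, smul_eq_mul, mul_one]
            · intro i _ hi
              rw [Matrix.smul_apply, Matrix.one_apply_ne hi, smul_eq_mul, mul_zero, mul_zero]
            · intro h5
              exact absurd (Finset.mem_univ _) h5
        _ = g * (p * u j) := by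
            rw [D.det]
            ring
    exact D.g_monic.isRegular.left h4
  have hB : ∀ j, ∃ Bj : R[X][X], (∑ k, ry N f h k * (AA N f T).adjugate k j) - C p * C (u j) =
      (X - C f) * Bj := by
    intro j
    have h1 : (X - C f) ∣ (∑ k, ry N f h k * (AA N f T).adjugate k j) - C p * C (u j) := by
      rw [dvd_iff_isRoot, IsRoot.def, eval_sub, hρ j, eval_mul, eval_C, eval_C, sub_self]
    exact h1
  choose B hB using hB
  have hwt := det_wt (N := N) hb D.g_monic D.g_deg D.f_deg D.T_deg
  refine ⟨q, B, ⟨?_, ?_, ?_⟩⟩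
  · intro k
    apply hreg
    have h1 : ∑ j, (∑ l, ry N f h l * (AA N f T).adjugate l j) * AA N f T j k =
        ry N f h k * (AA N f T).det := by
      calc ∑ j, (∑ l, ry N f h l * (AA N f T).adjugate l j) * AA N f T j k
          = ∑ j, ∑ l, ry N f h l * ((AA N f T).adjugate l j * AA N f T j k) := by
            refine Finset.sum_congr rfl fun j _ => ?_
            rw [Finset.sum_mul]
            refine Finset.sum_congr rfl fun l _ => ?_
            ring
        _ = ∑ l, ry N f h l * ((AA N f T).adjugate * AA N f T) l k := by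
            rw [Finset.sum_comm]
            refine Finset.sum_congr rfl fun l _ => ?_
            rw [Matrix.mul_apply, Finset.mul_sum]
        _ = ry N f h k * (AA N f T).det := by
            rw [Matrix.adjugate_mul, Finset.sum_eq_single k]
            · rw [Matrix.smul_apply, Matrix.one_apply_eq, smul_eq_mul, mul_one]
            · intro i _ hi
              rw [Matrix.smul_apply, Matrix.one_apply_ne hi, smul_eq_mul, mul_zero, mul_zero]
            · intro h5
              exact absurd (Finset.mem_univ _) h5
    have h2 : ∑ j, C (u j) * AA N f T j k = (X - C f) * rx N g u k + C g * ry N f h k := by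
      have h3 : ∑ j, C (u j) * AA N f T j k =
          C (g * h k) + if (k : ℕ) < N then C (u k) * (X - C f) else 0 := by
        have h4 : ∀ j, C (u j) * AA N f T j k = C (u j * T j k) +
            (if j = k then (if (k : ℕ) < N then C (u k) * (X - C f) else 0) else 0) := by
          intro j
          unfold AA
          rw [Matrix.of_apply, mul_add, C_mul]
          by_cases hjk : j = k
          · subst hjk
            by_cases hj : (j : ℕ) < N
            · rw [if_pos ⟨rfl, hj⟩, if_pos rfl, if_pos hj]
            · rw [if_neg (fun h5 => hj h5.2), if_pos rfl, if_neg hj, mul_zero]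
          · rw [if_neg (fun h5 => hjk h5.1), if_neg hjk, mul_zero]
        rw [Finset.sum_congr rfl fun j _ => h4 j, Finset.sum_add_distrib, ← map_sum, D.rel k,
          Finset.sum_ite_eq' Finset.univ k, if_pos (Finset.mem_univ k)]
      rw [h3]
      unfold rx ry
      by_cases hk : (k : ℕ) < N
      · rw [if_pos hk, if_pos hk, if_pos hk, C_mul]
        ring
      · rw [if_neg hk, if_neg hk, if_neg hk, C_mul, C_neg]
        ring
    have h5 : (AA N f T).det = (X - C f) * q + C g * C p := by
      rw [← C_mul, ← D.det, ← hq]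
      ring
    calc (X - C f) * ∑ j, B j * AA N f T j k
        = ∑ j, ((∑ l, ry N f h l * (AA N f T).adjugate l j) - C p * C (u j)) * AA N f T j k := by
          rw [Finset.mul_sum]
          refine Finset.sum_congr rfl fun j _ => ?_
          rw [hB j]
          ring
      _ = (∑ j, (∑ l, ry N f h l * (AA N f T).adjugate l j) * AA N f T j k) -
            C p * ∑ j, C (u j) * AA N f T j k := by
          rw [Finset.mul_sum, ← Finset.sum_sub_distrib]
          refine Finset.sum_congr rfl fun j _ => ?_
          ring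
      _ = (X - C f) * (q * ry N f h k - C p * rx N g u k) := by
          rw [h1, h2, h5]
          ring
  · intro j
    apply wtLT_div D.f_deg
    have hM : wtLT b (N * b + 1) (C (X ^ (b * (N - (j : ℕ)))) * X ^ (j : ℕ) : R[X][X]) := by
      have h1 := wtLT_mono_top (R := R) (b := b) (j : ℕ) (b * (N - (j : ℕ)))
      have h2 : b * (j : ℕ) + b * (N - (j : ℕ)) + 1 = N * b + 1 := by
        have h3 := j.2
        rw [← Nat.mul_add, Nat.add_sub_of_le (by omega), Nat.mul_comm]
      rw [h2] at h1
      exact h1
    have h4 : (X - C f) * (B j - C (X ^ (b * (N - (j : ℕ)))) * X ^ (j : ℕ)) =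
        (((∑ k, ry N f h k * (AA N f T).adjugate k j) -
          X * (C (X ^ (b * (N - (j : ℕ)))) * X ^ (j : ℕ))) - C (p * u j)) +
          C f * (C (X ^ (b * (N - (j : ℕ)))) * X ^ (j : ℕ)) := by
      rw [mul_sub, ← hB j, C_mul]
      ring
    rw [h4]
    have hNb : N * b + b = (N + 1) * b := by ring
    have hp : p.degree < ((N * b : ℕ) : WithBot ℕ) := by
      apply A6b_cancel D.g_monic D.g_deg
      rw [← D.det, degree_lt_iff_coeff_zero]
      intro l hl
      have h5 := hwt.2 0 l (by rw [Nat.mul_zero, Nat.zero_add, ← hNb]; omega)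
      rw [coeff_C_zero] at h5
      exact h5
    refine wtLT_add (wtLT_sub ?_ ?_) ?_
    · rw [hNb]
      exact rho_top hb D.g_monic D.g_deg D.f_deg D.T_deg hh j
    · exact wtLT_C (A6b_mul hp (D.u_deg j))
    · have h6 := wtLT_mul' (b := b) (m := b) (m' := N * b) (wtLT_C D.f_deg) hM
      rw [Nat.add_comm] at h6
      exact h6
  · apply wtLT_div D.f_deg
    rw [← hq]
    have hNb : N * b + b = (N + 1) * b := by ring
    rw [hNb]
    exact wtLT_sub hwt.1 hwt.2

end

end Pool.Agent.LibCQ2
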