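import Pool.Agent.LibCQ2.A5
import Pool.Agent.LibCQ2.A6b

set_option autoImplicit false

/-! ROW A7 (MEDIUM, Defs + A5, A6b.h_deg). Uniqueness of q, B. -/

namespace Pool.Agent.LibCQ2

open Polynomial

section
variable {R : Type*} [CommRing R] [Nontrivial R] {N b : ℕ}

omit [Nontrivial R] in
private theorem A7_big (F : R[X][X]) : ∃ M : ℕ, wtLT b M F := by
  refine ⟨b * (F.natDegree + 1) + (Finset.range (F.natDegree + 1)).sup
    (fun i => (F.coeff i).natDegree) + 1, fun i j h => ?_⟩
  by_cases hi : F.natDegree < i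
  · rw [coeff_eq_zero_of_natDegree_lt hi, coeff_zero]
  · apply coeff_eq_zero_of_natDegree_lt
    have h1 : (F.coeff i).natDegree ≤ (Finset.range (F.natDegree + 1)).sup
        (fun i => (F.coeff i).natDegree) :=
      Finset.le_sup (f := fun i => (F.coeff i).natDegree) (Finset.mem_range.2 (by omega))
    have h2 : b * i ≤ b * (F.natDegree + 1) := Nat.mul_le_mul_left _ (by omega)
    omega

omit [Nontrivial R] in
private theorem A7_mulC {m : ℕ} {F : R[X][X]} {t : R[X]} (hF : wtLT b (m + 1) F)
    (ht : t.degree < (b : WithBot ℕ)) : wtLT b (m + b) (F * C t) := by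
  rw [mul_comm, add_comm m b]
  exact wtLT_mul' (wtLT_C ht) hF

private theorem A7_gdeg {g : R[X]} (hg : g.Monic) (hgb : g.natDegree = b) :
    (g - X ^ b).degree < (b : WithBot ℕ) := by
  have h1 : g.degree = (b : WithBot ℕ) := by
    rw [degree_eq_natDegree hg.ne_zero, hgb]
  rw [← h1]
  apply degree_sub_lt_left
  · rw [h1, degree_X_pow]
  · exact hg.ne_zero
  · rw [hg.leadingCoeff, (monic_X_pow b).leadingCoeff]

theorem lemK (hb : 1 ≤ b) {g f : R[X]} (hg : g.Monic) (hgb : g.natDegree = b) (hf : f.degree < (b : WithBot ℕ))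
    {T : Matrix (Fin (N + 1)) (Fin (N + 1)) R[X]}
    (hT : ∀ j k, (T j k + if (j : ℕ) = (k : ℕ) + 1 then g else 0).degree < (b : WithBot ℕ))
    {h : Fin (N + 1) → R[X]} (hh : ∀ k, (h k).degree < (b : WithBot ℕ))
    (β : Fin (N + 1) → R[X][X]) (δ : R[X][X]) (hβ : ∀ j, wtLT b (N * b) (β j))
    (hs : ∀ k, ∑ j, β j * AA N f T j k = δ * ry N f h k) : (∀ j, β j = 0) ∧ δ = 0 := by
  have step : ∀ m : ℕ, ((∀ j, wtLT b (m + 1) (β j)) ∧ wtLT b (m + 1) δ) →
      ((∀ j, wtLT b m (β j)) ∧ wtLT b m δ) := by
    rintro m ⟨hβm, hδm⟩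
    -- the sum over `j` of `β j * C (t j k)`
    have hsum : ∀ k, wtLT b (m + b)
        (∑ j, β j * C (T j k + if (j : ℕ) = (k : ℕ) + 1 then g else 0)) := fun k =>
      wtLT_sum _ _ (fun j _ => A7_mulC (hβm j) (hT j k))
    have hexp : ∀ k, ∑ j, β j * AA N f T j k =
        ∑ j, β j * C (T j k + if (j : ℕ) = (k : ℕ) + 1 then g else 0) -
          ∑ j : Fin (N + 1), β j * (if (j : ℕ) = (k : ℕ) + 1 then C g else 0) +
          ∑ j, β j * (if j = k ∧ (j : ℕ) < N then X - C f else 0) := by
      intro k
      rw [← Finset.sum_sub_distrib, ← Finset.sum_add_distrib]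
      refine Finset.sum_congr rfl fun j _ => ?_
      have e1 : (C (T j k + if (j : ℕ) = (k : ℕ) + 1 then g else 0) : R[X][X]) =
          C (T j k) + if (j : ℕ) = (k : ℕ) + 1 then C g else 0 := by
        rw [C_add]
        congr 1
        split_ifs
        · rfl
        · exact C_0
      rw [e1, AA, Matrix.of_apply]
      ring
    -- `δ`
    have hδ : wtLT b m δ := by
      have h1 := hs (Fin.last N)
      rw [hexp] at h1
      have e2 : ∑ j : Fin (N + 1), β j *
          (if (j : ℕ) = ((Fin.last N : Fin (N + 1)) : ℕ) + 1 then C g else 0) = 0 := by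
        refine Finset.sum_eq_zero fun j _ => ?_
        rw [if_neg, mul_zero]
        rw [Fin.val_last]
        have := j.2
        omega
      have e3 : ∑ j : Fin (N + 1), β j *
          (if j = Fin.last N ∧ (j : ℕ) < N then X - C f else 0) = 0 := by
        refine Finset.sum_eq_zero fun j _ => ?_
        rw [if_neg, mul_zero]
        rintro ⟨rfl, h2⟩
        rw [Fin.val_last] at h2
        exact lt_irrefl _ h2
      rw [e2, e3, ry, if_neg (by rw [Fin.val_last]; exact lt_irrefl _), sub_zero, add_zero] at h1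
      have e4 : δ * X = ∑ j, β j * C (T j (Fin.last N) +
          if (j : ℕ) = ((Fin.last N : Fin (N + 1)) : ℕ) + 1 then g else 0) -
          δ * C (h (Fin.last N)) + δ * C f := by
        rw [h1]
        ring
      have e5 : wtLT b (m + b) (δ * X) := by
        rw [e4]
        exact wtLT_add (wtLT_sub (hsum _) (A7_mulC hδm (hh _))) (A7_mulC hδm hf)
      intro i j hij
      have e6 := e5 (i + 1) j (by rw [mul_add, mul_one]; omega)
      rwa [coeff_mul_X] at e6
    refine ⟨?_, hδ⟩
    -- the two relations between coefficients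
    have hD : ∀ (k : ℕ) (hk : k < N), wtLT b (m + b)
        (β ⟨k, by omega⟩ * X - β ⟨k + 1, by omega⟩ * C (X ^ b)) := by
      intro k hk
      have h1 := hs ⟨k, by omega⟩
      rw [hexp] at h1
      have e2 : ∑ j : Fin (N + 1), β j *
          (if (j : ℕ) = ((⟨k, by omega⟩ : Fin (N + 1)) : ℕ) + 1 then C g else 0) =
          β ⟨k + 1, by omega⟩ * C g := by
        rw [Finset.sum_eq_single (⟨k + 1, by omega⟩ : Fin (N + 1))]
        · rw [if_pos rfl]
        · intro j _ hj
          rw [if_neg, mul_zero]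
          intro h2
          exact hj (Fin.ext h2)
        · intro h2
          exact absurd (Finset.mem_univ _) h2
      have e3 : ∑ j : Fin (N + 1), β j *
          (if j = (⟨k, by omega⟩ : Fin (N + 1)) ∧ (j : ℕ) < N then X - C f else 0) =
          β ⟨k, by omega⟩ * (X - C f) := by
        rw [Finset.sum_eq_single (⟨k, by omega⟩ : Fin (N + 1))]
        · rw [if_pos ⟨rfl, hk⟩]
        · intro j _ hj
          rw [if_neg, mul_zero]
          rintro ⟨h2, -⟩
          exact hj h2
        · intro h2
          exact absurd (Finset.mem_univ _) h2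
      rw [e2, e3, ry, if_pos (show ((⟨k, by omega⟩ : Fin (N + 1)) : ℕ) < N from hk), add_zero] at h1
      have e4 : β ⟨k, by omega⟩ * X - β ⟨k + 1, by omega⟩ * C (X ^ b) =
          δ * C (h ⟨k, by omega⟩) -
          ∑ j, β j * C (T j ⟨k, by omega⟩ +
            if (j : ℕ) = ((⟨k, by omega⟩ : Fin (N + 1)) : ℕ) + 1 then g else 0) +
          β ⟨k, by omega⟩ * C f + β ⟨k + 1, by omega⟩ * C (g - X ^ b) := by
        rw [← h1, C_sub]
        ring
      rw [e4]
      exact wtLT_add (wtLT_add (wtLT_sub (A7_mulC hδm (hh _)) (hsum _)) (A7_mulC (hβm _) hf))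
        (A7_mulC (hβm _) (A7_gdeg hg hgb))
    have E1 : ∀ (k : ℕ) (hk : k < N) (i l : ℕ), m ≤ b * i + l →
        ((β ⟨k, by omega⟩).coeff i).coeff l =
          if b ≤ l then ((β ⟨k + 1, by omega⟩).coeff (i + 1)).coeff (l - b) else 0 := by
      intro k hk i l hil
      have h1 := hD k hk (i + 1) l (by rw [mul_add, mul_one]; omega)
      rw [coeff_sub, coeff_mul_X, coeff_mul_C, coeff_sub, coeff_mul_X_pow', sub_eq_zero] at h1
      exact h1
    have E2 : ∀ (k : ℕ) (hk : k < N) (l : ℕ), m ≤ l →
        ((β ⟨k + 1, by omega⟩).coeff 0).coeff l = 0 := by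
      intro k hk l hl
      have h1 := hD k hk 0 (l + b) (by rw [mul_zero]; omega)
      rw [coeff_sub, mul_coeff_zero, coeff_X_zero, mul_zero, coeff_mul_C, zero_sub, coeff_neg,
        coeff_mul_X_pow', if_pos (by omega), Nat.add_sub_cancel, neg_eq_zero] at h1
      exact h1
    -- short second index
    have hshort : ∀ (t k : ℕ) (hk : k + t = N) (i l : ℕ), m ≤ b * i + l → l < t * b →
        ((β ⟨k, by omega⟩).coeff i).coeff l = 0 := by
      intro t
      induction t with
      | zero =>
        intro k hk i l _ hl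
        rw [zero_mul] at hl
        exact absurd hl (Nat.not_lt_zero _)
      | succ t ih =>
        intro k hk i l hil hl
        rw [E1 k (by omega) i l hil]
        split_ifs with hbl
        · refine ih (k + 1) (by omega) (i + 1) (l - b) ?_ ?_
          · rw [mul_add, mul_one]
            omega
          · rw [add_mul, one_mul] at hl
            omega
        · rfl
    have hall : ∀ (k : ℕ) (hk : k < N + 1), wtLT b m (β ⟨k, hk⟩) := by
      intro k
      induction k with
      | zero =>
        intro hk i l hil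
        by_cases hl : l < N * b
        · exact hshort N 0 (by omega) i l hil hl
        · exact hβ _ i l (by omega)
      | succ k ih =>
        intro hk i l hil
        rcases i with _ | i
        · rw [mul_zero, zero_add] at hil
          exact E2 k (by omega) l hil
        · have h1 := E1 k (by omega) i (l + b) (by rw [mul_add, mul_one] at hil; omega)
          rw [if_pos (by omega), Nat.add_sub_cancel,
            ih (by omega) i (l + b) (by rw [mul_add, mul_one] at hil; omega)] at h1
          exact h1.symm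
    intro j
    exact hall j.1 j.2
  have hz : ∀ n : ℕ, ((∀ j, wtLT b n (β j)) ∧ wtLT b n δ) →
      ((∀ j, wtLT b 0 (β j)) ∧ wtLT b 0 δ) := by
    intro n
    induction n with
    | zero => exact id
    | succ n ih => exact fun h1 => ih (step n h1)
  obtain ⟨M, hM⟩ := A7_big (b := b) δ
  obtain ⟨h1, h2⟩ := hz (max (N * b) M) ⟨fun j => wtLT_mono (le_max_left _ _) (hβ j),
    wtLT_mono (le_max_right _ _) hM⟩
  refine ⟨fun j => ?_, ?_⟩
  · ext i l
    rw [coeff_zero, coeff_zero]
    exact h1 j i l (Nat.zero_le _)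
  · ext i l
    rw [coeff_zero, coeff_zero]
    exact h2 i l (Nat.zero_le _)

theorem out_unique (hb : 1 ≤ b) {g f p : R[X]} {u h : Fin (N + 1) → R[X]}
    {T : Matrix (Fin (N + 1)) (Fin (N + 1)) R[X]} (D : Dta N b g f u T h p) {q q' : R[X][X]}
    {B B' : Fin (N + 1) → R[X][X]} (h1 : Out N b g f u T h p q B) (h2 : Out N b g f u T h p q' B') :
    q = q' ∧ B = B' := by
  have h3 := lemK hb D.g_monic D.g_deg D.f_deg D.T_deg (h_deg D) (fun j => B j - B' j) (q - q')
    (fun j => by
      have e : B j - B' j = (B j - C (X ^ (b * (N - (j : ℕ)))) * X ^ (j : ℕ)) -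
          (B' j - C (X ^ (b * (N - (j : ℕ)))) * X ^ (j : ℕ)) := by ring
      rw [e]
      exact wtLT_sub (h1.wB j) (h2.wB j))
    (fun k => by
      have e1 := h1.star k
      have e2 := h2.star k
      simp only [sub_mul, Finset.sum_sub_distrib]
      rw [e1, e2]
      ring)
  refine ⟨sub_eq_zero.1 h3.2, ?_⟩
  funext j
  exact sub_eq_zero.1 (h3.1 j)

end

end Pool.Agent.LibCQ2
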