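import Pool.Agent.LibCQ2.A3
import Pool.Agent.LibCQ2.A7
import Pool.Agent.LibCQ2.A10e
import Pool.Agent.LibCQ2.A11
import Pool.Agent.LibCQ2.A12
import Pool.Agent.LibCQ2.A13
import Pool.Agent.LibCQ2.A14

set_option autoImplicit false

/-! A15 (assembly). Theorem R. -/

namespace Pool.Agent.LibCQ2

open Polynomial

universe u

/-- `h`, `p` are determined by the other data -/
theorem Dta_unique {R : Type*} [CommRing R] {N b : ℕ} {g f p p' : R[X]} {u h h' : Fin (N + 1) → R[X]}
    {T : Matrix (Fin (N + 1)) (Fin (N + 1)) R[X]} (D : Dta N b g f u T h p) (D' : Dta N b g f u T h' p') :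
    h = h' ∧ p = p' := by
  constructor
  · funext k
    have h1 := D.rel k
    rw [D'.rel k] at h1
    exact (D.g_monic.isRegular.left h1).symm
  · have h1 := D.det
    rw [D'.det] at h1
    exact (D.g_monic.isRegular.left h1).symm

theorem thmR {k : Type u} [Field k] {R : Type u} [CommRing R] [Algebra k R] {n : Type} [Fintype n] [DecidableEq n]
    {N b : ℕ} (hN : 1 ≤ N) (hb : 1 ≤ b) (x y : Matrix n n R) (hxy : x * y = y * x) (v w : n → R)
    (hB : HB (dv N b) y (gam N x v w)) (F : CP k n) (m : ℕ) (hF : F ^ m ∈ cI k n) : ev x y F = 0 := by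
  rcases subsingleton_or_nontrivial R with hs | hnt
  · exact Subsingleton.elim _ _
  obtain ⟨w', g, f, p, q, u, B, hB', H⟩ := exists_NF hN hb x y hxy v w hB
  obtain ⟨T, h, D, O⟩ := pair_data hN hb hxy hB' H
  obtain ⟨R1, _, φ, y1, hinj, hg⟩ := split_ext b g H.g_monic H.g_deg
  have hnt1 : Nontrivial R1 := hinj.nontrivial
  let _ : Algebra k R1 := (φ.comp (algebraMap k R)).toAlgebra
  let φ' : R →ₐ[k] R1 := { φ with commutes' := fun _ => rfl }
  have D1 := Dta_map φ D
  have O1 := Out_map φ O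
  have H1 := NF_map φ H
  have HB1 := HB_map φ hB'
  obtain ⟨ψ, hψg, hψf, hψu, hψT⟩ := mo_hom k y1 D1 hg
  have hntO : Nontrivial (MO k N b) := (ψ : MO k N b →+* R1).domain_nontrivial
  obtain ⟨hO, pO, DO⟩ := mo_data k N b
  obtain ⟨qO, BO, OO⟩ := out_exists hb DO
  have hQ := out_QP hN hb DO.rel OO
  have hP := PM_rowRed hb DO.g_monic DO.g_deg DO.u_deg OO.wB OO.wq
  obtain ⟨Xs, Ys, hcomm, hXs, hYs⟩ := model_pair hP _ _ hQ
  have D2 := Dta_map (ψ : MO k N b →+* R1) DO
  have O2 := Out_map (ψ : MO k N b →+* R1) OO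
  have hT : (moT k N b).map (Polynomial.map (ψ : MO k N b →+* R1)) = T.map (Polynomial.map φ) := by
    ext1 j l
    exact hψT j l
  have hU : (fun j => (moU k N b j).map (ψ : MO k N b →+* R1)) = fun j => (u j).map φ := funext hψu
  rw [hψg, hψf, hU, hT] at D2 O2
  obtain ⟨hh, hp⟩ := Dta_unique D1 D2
  rw [← hh, ← hp] at O2
  obtain ⟨hq, hBB⟩ := out_unique hb D1 O1 O2
  have hPM : (PM N (moG k N b) (moU k N b) qO BO).map (Polynomial.map (ψ : MO k N b →+* R1)) =
      PM N (g.map φ) (fun j => (u j).map φ) (q.map (mapRingHom φ)) (fun j => (B j).map (mapRingHom φ)) := by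
    rw [PM_map, hψg, hU, hq, hBB]
  have hQM : (QM N (moF k N b) (moU k N b) pO BO).map (Polynomial.map (ψ : MO k N b →+* R1)) =
      QM N (f.map φ) (fun j => (u j).map φ) (p.map φ) (fun j => (B j).map (mapRingHom φ)) := by
    rw [QM_map, hψf, hU, hp, hBB]
  have hxy1 : x.map φ * y.map φ = y.map φ * x.map φ := by
    rw [← Matrix.map_mul, hxy, Matrix.map_mul]
  obtain ⟨i1, i2⟩ := intertwine (ψ : MO k N b →+* R1) (PM N (moG k N b) (moU k N b) qO BO)
    (QM N (moF k N b) (moU k N b) pO BO) Xs Ys hXs hYs (x.map φ) (y.map φ) (gam N (x.map φ) (φ ∘ v) (φ ∘ w'))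
    (fun j => by
      have h1 := NF_P hb H1 j
      rw [← hPM] at h1
      exact h1)
    (fun z => by
      have h1 := NF_Q hN hb hxy1 H1 z
      rw [← hQM] at h1
      exact h1)
  obtain ⟨G', hG1, hG2⟩ := HB1
  have hred := MO_reduced k N b
  have hz := conj_zero ψ Xs Ys hcomm (x.map φ) (y.map φ) _ G' hG1 hG2 i1 i2 F m hF
  have h2 := ev_map φ' x y F
  have h3 : ev (x.map φ') (y.map φ') F = 0 := hz
  rw [h3] at h2
  exact hinj (h2.trans (map_zero φ').symm)

end Pool.Agent.LibCQ2
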