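import Pool.Agent.LibCQ2.A15

set_option autoImplicit false

/-! ROW A16 (SHORT/MEDIUM, Defs + A11 (ev_map), A15). Red at the special points. n with an equivalence e : KIx N b ≃ n (from the cardinalities), x0 y0 = y0 x0 over k, HB over k.
 R := Localization.Away δ of A := CP k n ⧸ cI k n, δ := det of the matrix GM (dv N b) y~ (gam N x~ v w) (with constant vectors v, w mapped to A; x~, y~ the classes of cm 0, cm 1) reindexed by e to a square matrix. Over R the matrix GM is
 invertible (two-sided: HB). thmR: ev x~ y~ F = 0 in R; ev x~ y~ F is the class of F (MvPolynomial.algHom_ext), so δ ^ M * F ∈ cI (IsLocalization.map_eq_zero_iff / Away). Take h := (a polynomial representing δ)^M, e.g. the same determinant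
 over CP k n: ev x0 y0 h = (det of GM at (x0, y0))^M ≠ 0: ev is a ring hom: RingHom.map_det, map of GM; unit by HB. -/

namespace Pool.Agent.LibCQ2

universe u

private theorem A16_pow_map {R S : Type*} [CommRing R] [CommRing S] {n : Type*} [Fintype n] [DecidableEq n]
    (φ : R →+* S) (Y : Matrix n n R) (j : ℕ) : (Y.map φ) ^ j = (Y ^ j).map φ := by
  have h := map_pow φ.mapMatrix Y j
  exact h.symm

private theorem A16_gam_map {R S : Type*} [CommRing R] [CommRing S] {n : Type*} [Fintype n] [DecidableEq n]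
    (φ : R →+* S) (N : ℕ) (X : Matrix n n R) (v w : n → R) (i : Fin (N + 1)) :
    gam N (X.map φ) (φ ∘ v) (φ ∘ w) i = φ ∘ gam N X v w i := by
  unfold gam
  by_cases h : (i : ℕ) < N
  · rw [if_pos h, if_pos h, A16_pow_map]
    funext a
    exact (RingHom.map_mulVec φ _ _ _).symm
  · rw [if_neg h, if_neg h]

private theorem A16_GM_map {R S : Type*} [CommRing R] [CommRing S] {n : Type*} [Fintype n] [DecidableEq n]
    (φ : R →+* S) (N b : ℕ) (X Y : Matrix n n R) (v w : n → R) :
    GM (dv N b) (Y.map φ) (gam N (X.map φ) (φ ∘ v) (φ ∘ w)) = (GM (dv N b) Y (gam N X v w)).map φ := by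
  ext i κ
  simp only [GM, Matrix.of_apply, Matrix.map_apply]
  rw [A16_gam_map, A16_pow_map]
  exact (RingHom.map_mulVec φ _ _ _).symm

private theorem A16_cI {k : Type*} [CommRing k] {n : Type} [Fintype n] [DecidableEq n] (i j : n) :
    (cm k n 0 * cm k n 1 - cm k n 1 * cm k n 0) i j ∈ cI k n :=
  Ideal.subset_span ⟨(i, j), rfl⟩

theorem red_special {k : Type u} [Field k] {n : Type} [Fintype n] [DecidableEq n] {N b : ℕ} (hN : 1 ≤ N) (hb : 1 ≤ b)
    (x0 y0 : Matrix n n k) (v w : n → k) (hB : HB (dv N b) y0 (gam N x0 v w)) : Red k n x0 y0 := by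
  classical
  -- the index sets have the same cardinality
  obtain ⟨H, hH1, hH2⟩ := id hB
  have hcard : Fintype.card (KIx N b) = Fintype.card n :=
    card_eq_of_linearEquiv k (Matrix.toLin'OfInv (M := H) (M' := GM (dv N b) y0 (gam N x0 v w)) hH2 hH1)
  have e : KIx N b ≃ n := Fintype.equivOfCardEq hcard
  intro F hF
  obtain ⟨m, hm⟩ := hF
  -- the determinant
  let Cv : n → CP k n := fun i => MvPolynomial.C (v i)
  let Cw : n → CP k n := fun i => MvPolynomial.C (w i)
  let GP : Matrix n (KIx N b) (CP k n) := GM (dv N b) (cm k n 1) (gam N (cm k n 0) Cv Cw)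
  let δ : CP k n := (GP.submatrix id e.symm).det
  -- the value at the point
  let φ0 : CP k n →+* k := ((ev x0 y0 : CP k n →ₐ[k] k) : CP k n →+* k)
  have hev0 : (cm k n 0).map φ0 = x0 := by
    ext i j
    simp [φ0, cm, ev]
  have hev1 : (cm k n 1).map φ0 = y0 := by
    ext i j
    simp [φ0, cm, ev]
  have hevv : φ0 ∘ Cv = v := by
    funext i
    simp [φ0, Cv, ev]
  have hevw : φ0 ∘ Cw = w := by
    funext i
    simp [φ0, Cw, ev]
  have hevδ : ev x0 y0 δ = ((GM (dv N b) y0 (gam N x0 v w)).submatrix id e.symm).det := by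
    have h1 : GP.map φ0 = GM (dv N b) y0 (gam N x0 v w) := by
      have h2 := A16_GM_map φ0 N b (cm k n 0) (cm k n 1) Cv Cw
      rw [hev0, hev1, hevv, hevw] at h2
      exact h2.symm
    have h3 := RingHom.map_det φ0 (GP.submatrix id e.symm)
    rw [← h1]
    exact h3
  have hdet : ev x0 y0 δ ≠ 0 := by
    rw [hevδ]
    have h1 : (GM (dv N b) y0 (gam N x0 v w)).submatrix id e.symm * H.submatrix e.symm id = 1 := by
      rw [Matrix.submatrix_mul_equiv, hH1]
      simp
    have h2 := congrArg Matrix.det h1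
    rw [Matrix.det_mul, Matrix.det_one] at h2
    exact left_ne_zero_of_mul_eq_one h2
  -- the localization
  let A : Type u := CP k n ⧸ cI k n
  let mk : CP k n →+* A := Ideal.Quotient.mk (cI k n)
  let R : Type u := Localization.Away (mk δ)
  let ρ : CP k n →ₐ[k] R := (IsScalarTower.toAlgHom k A R).comp (Ideal.Quotient.mkₐ k (cI k n))
  have hρ : ∀ F, ρ F = algebraMap A R (mk F) := fun _ => rfl
  have hxy : (cm k n 0).map (ρ : CP k n →+* R) * (cm k n 1).map (ρ : CP k n →+* R) =
      (cm k n 1).map (ρ : CP k n →+* R) * (cm k n 0).map (ρ : CP k n →+* R) := by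
    rw [← Matrix.map_mul, ← Matrix.map_mul, ← sub_eq_zero]
    ext i j
    have h1 : mk ((cm k n 0 * cm k n 1 - cm k n 1 * cm k n 0) i j) = 0 :=
      Ideal.Quotient.eq_zero_iff_mem.2 (A16_cI i j)
    have h2 : ρ ((cm k n 0 * cm k n 1 - cm k n 1 * cm k n 0) i j) = 0 := by
      rw [hρ, h1, map_zero]
    rw [Matrix.sub_apply, map_sub] at h2
    exact h2
  have hBR : HB (dv N b) ((cm k n 1).map (ρ : CP k n →+* R))
      (gam N ((cm k n 0).map (ρ : CP k n →+* R)) ((ρ : CP k n →+* R) ∘ Cv) ((ρ : CP k n →+* R) ∘ Cw)) := by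
    unfold HB
    rw [A16_GM_map]
    have hu : IsUnit ((GP.map (ρ : CP k n →+* R)).submatrix id e.symm).det := by
      have h1 : ((GP.map (ρ : CP k n →+* R)).submatrix id e.symm).det = ρ δ :=
        (RingHom.map_det (ρ : CP k n →+* R) (GP.submatrix id e.symm)).symm
      rw [h1, hρ]
      exact IsLocalization.Away.algebraMap_isUnit (mk δ)
    let M : Matrix n n R := (GP.map (ρ : CP k n →+* R)).submatrix id e.symm
    have hM1 : M * M⁻¹ = 1 := Matrix.mul_nonsing_inv M hu
    have hM2 : M⁻¹ * M = 1 := Matrix.nonsing_inv_mul M hu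
    have hG : GP.map (ρ : CP k n →+* R) = M.submatrix id e := by
      simp [M, Matrix.submatrix_submatrix]
    refine ⟨M⁻¹.submatrix e id, ?_, ?_⟩
    · show GP.map (ρ : CP k n →+* R) * M⁻¹.submatrix e id = 1
      rw [hG, Matrix.submatrix_mul_equiv, hM1]
      simp
    · show M⁻¹.submatrix e id * GP.map (ρ : CP k n →+* R) = 1
      rw [hG]
      have h1 := Matrix.submatrix_mul (M⁻¹) M e id e Function.bijective_id
      rw [← h1, hM2, Matrix.submatrix_one_equiv]
  have hz := thmR (k := k) hN hb ((cm k n 0).map (ρ : CP k n →+* R)) ((cm k n 1).map (ρ : CP k n →+* R)) hxy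
    ((ρ : CP k n →+* R) ∘ Cv) ((ρ : CP k n →+* R) ∘ Cw) hBR F m hm
  have hρF : ρ F = 0 := by
    have h1 : ev ((cm k n 0).map (ρ : CP k n →+* R)) ((cm k n 1).map (ρ : CP k n →+* R)) = ρ := by
      refine MvPolynomial.algHom_ext fun p => ?_
      obtain ⟨s, i, j⟩ := p
      rw [ev, MvPolynomial.aeval_X]
      fin_cases s
      · simp [cm]
      · simp [cm]
    rw [h1] at hz
    exact hz
  rw [hρ, IsLocalization.map_eq_zero_iff (Submonoid.powers (mk δ)) R] at hρF
  obtain ⟨⟨c, M, hc⟩, hcF⟩ := hρF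
  refine ⟨δ ^ M, ?_, ?_⟩
  · rw [map_pow]
    exact pow_ne_zero _ hdet
  · rw [← Ideal.Quotient.eq_zero_iff_mem]
    have h1 : mk (δ ^ M * F) = c * mk F := by
      rw [map_mul, map_pow]
      simp only at hc
      rw [hc]
    exact h1.trans hcF

end Pool.Agent.LibCQ2
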