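import Pool.Agent.LibCQ2.A1

set_option autoImplicit false

/-! ROW A2 (MEDIUM, Defs + A1). The map piM Y γ z = ∑ (aeval Y (z i)) γ_i and its kernel.
 piM_add, piM_smul: aeval is an algebra hom, mulVec_mulVec. piM_iota: piM (iota d r) = (GM d Y γ).mulVec r: aeval of C (r ..) * X ^ j is r .. • Y ^ j.
 coeffs: a vector ρ with degree (ρ i) < d i is iota of its coefficients.
 ker_mem: z = P *ᵥ c + ρ (matdiv_exists), piM (P *ᵥ c) = ∑_j (aeval Y (c j)) (piM (column j of P)) = 0, so 0 = piM ρ = GM *ᵥ r, so r = 0 (left inverse from HB), ρ = 0. -/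

namespace Pool.Agent.LibCQ2

open Polynomial

section
variable {R : Type*} [CommRing R] {n : Type*} [Fintype n] [DecidableEq n] {m : ℕ}

theorem piM_add (Y : Matrix n n R) (γ : Fin m → n → R) (z z' : Fin m → R[X]) :
    piM Y γ (z + z') = piM Y γ z + piM Y γ z' := by
  simp only [piM, Pi.add_apply, map_add, Matrix.add_mulVec, Finset.sum_add_distrib]

theorem piM_smul (Y : Matrix n n R) (γ : Fin m → n → R) (a : R[X]) (z : Fin m → R[X]) :
    piM Y γ (a • z) = (aeval Y a).mulVec (piM Y γ z) := by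
  simp only [piM, Pi.smul_apply, smul_eq_mul, map_mul, ← Matrix.mulVec_mulVec]
  rw [Matrix.mulVec_sum]

theorem piM_mulVec (Y : Matrix n n R) (γ : Fin m → n → R) (P : Matrix (Fin m) (Fin m) R[X]) (c : Fin m → R[X]) :
    piM Y γ (P.mulVec c) = ∑ j, (aeval Y (c j)).mulVec (piM Y γ (fun i => P i j)) := by
  have h1 : ∀ j, (aeval Y (c j)).mulVec (piM Y γ (fun i => P i j)) =
      ∑ i, (aeval Y (P i j * c j)).mulVec (γ i) := by
    intro j
    rw [piM, Matrix.mulVec_sum]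
    refine Finset.sum_congr rfl fun i _ => ?_
    rw [Matrix.mulVec_mulVec, mul_comm (P i j) (c j), map_mul]
  rw [Finset.sum_congr rfl (fun j _ => h1 j), Finset.sum_comm, piM]
  refine Finset.sum_congr rfl fun i _ => ?_
  rw [← Matrix.sum_mulVec, ← map_sum]
  rfl

theorem piM_iota (d : Fin m → ℕ) (Y : Matrix n n R) (γ : Fin m → n → R) (r : (Σ i : Fin m, Fin (d i)) → R) :
    piM Y γ (iota d r) = (GM d Y γ).mulVec r := by
  ext t
  have hR : (GM d Y γ).mulVec r t = ∑ i, ∑ j : Fin (d i), ((Y ^ (j : ℕ)).mulVec (γ i)) t * r ⟨i, j⟩ := by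
    rw [Matrix.mulVec, dotProduct, Fintype.sum_sigma]
    rfl
  rw [hR, piM, Finset.sum_apply]
  refine Finset.sum_congr rfl fun i _ => ?_
  have hC : aeval Y (iota d r i) = ∑ j : Fin (d i), r ⟨i, j⟩ • Y ^ (j : ℕ) := by
    rw [iota, map_sum]
    refine Finset.sum_congr rfl fun j _ => ?_
    rw [map_mul, aeval_C, map_pow, aeval_X, Algebra.smul_def]
  rw [hC, Matrix.sum_mulVec, Finset.sum_apply]
  refine Finset.sum_congr rfl fun j _ => ?_
  rw [Matrix.smul_mulVec, Pi.smul_apply, smul_eq_mul, mul_comm]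

theorem iota_coeff (d : Fin m → ℕ) (ρ : Fin m → R[X]) (h : ∀ i, (ρ i).degree < (d i : WithBot ℕ)) :
    ρ = iota d (fun κ => (ρ κ.1).coeff κ.2) := by
  funext i
  ext t
  have h1 : iota d (fun κ => (ρ κ.1).coeff κ.2) i = ∑ j ∈ Finset.range (d i), C ((ρ i).coeff j) * X ^ j := by
    rw [iota]
    exact Fin.sum_univ_eq_sum_range (fun j => C ((ρ i).coeff j) * X ^ j) (d i)
  rw [h1, finsetSum_coeff]
  simp only [coeff_C_mul, coeff_X_pow, mul_ite, mul_one, mul_zero]
  rw [Finset.sum_ite_eq]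
  split_ifs with ht
  · rfl
  · have h2 : d i ≤ t := by
      rw [Finset.mem_range] at ht
      omega
    exact coeff_eq_zero_of_degree_lt (lt_of_lt_of_le (h i) (by exact_mod_cast h2))

theorem ker_mem [Nontrivial R] {d : Fin m → ℕ} {P : Matrix (Fin m) (Fin m) R[X]} (hP : RowRed d P)
    (Y : Matrix n n R) (γ : Fin m → n → R) (hB : HB d Y γ) (h0 : ∀ j, piM Y γ (fun i => P i j) = 0)
    (z : Fin m → R[X]) (hz : piM Y γ z = 0) : ∃ c : Fin m → R[X], z = P.mulVec c := by
  obtain ⟨c, ρ, hzc, hρ⟩ := matdiv_exists hP z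
  refine ⟨c, ?_⟩
  have h1 : piM Y γ (P.mulVec c) = 0 := by
    rw [piM_mulVec]
    refine Finset.sum_eq_zero fun j _ => ?_
    rw [h0 j, Matrix.mulVec_zero]
  have h2 : piM Y γ ρ = 0 := by
    rw [hzc, piM_add, h1, zero_add] at hz
    exact hz
  have h3 := iota_coeff d ρ hρ
  rw [h3, piM_iota] at h2
  obtain ⟨H, -, hH⟩ := hB
  have h4 : (fun κ : (Σ i : Fin m, Fin (d i)) => (ρ κ.1).coeff κ.2) = 0 := by
    have h5 := congrArg (fun v => H.mulVec v) h2
    simp only [Matrix.mulVec_mulVec, Matrix.mulVec_zero] at h5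
    rw [hH, Matrix.one_mulVec] at h5
    exact h5
  have h6 : ρ = 0 := by
    rw [h3, h4]
    funext i
    simp [iota]
  rw [hzc, h6, add_zero]

end

end Pool.Agent.LibCQ2
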