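import Pool.Agent.LibCQ2.A2

set_option autoImplicit false

/-! ROW A3 (MEDIUM, Defs + A1, A2). The commuting pair of the module R[y]^m / P and the intertwining.
 model_pair: for κ = ⟨i, j⟩ let mono κ := Pi.single i (X ^ j) = iota d (Pi.single κ 1). matdiv_exists + iota_coeff: Q *ᵥ mono κ = P *ᵥ c + iota d (column κ of Xs), X • mono κ = P *ᵥ c' + iota d (column κ of Ys).
   By linearity: Q *ᵥ iota d r - iota d (Xs *ᵥ r) ∈ im P and X • iota d r - iota d (Ys *ᵥ r) ∈ im P for all r (iota d r = ∑ r κ • mono κ).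
   Commutation: Q *ᵥ (X • iota r) - iota (Xs *ᵥ (Ys *ᵥ r)): X • iota r = iota (Ys *ᵥ r) + P *ᵥ c, Q *ᵥ P *ᵥ c = P *ᵥ Q' *ᵥ c. In the same way for the other order. So iota ((Xs Ys - Ys Xs) *ᵥ r) ∈ im P; a vector iota d r = P *ᵥ c has
   degrees < d i, so c = 0 by matdiv_deg with e = 0, iota d r = 0, r = 0 (coefficients). Test on r = Pi.single.
 intertwine: apply φ (Polynomial.map) to Q *ᵥ mono κ = P *ᵥ c + iota (Xs col), then piM over R1: the P part vanishes (piM_mulVec, h0), the left side is piM (Q.map φ *ᵥ mono κ) = x *ᵥ piM (mono κ) = x *ᵥ (column κ of GM); right side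
   GM *ᵥ (φ (Xs col)) (piM_iota). Same for y: piM (X • z) = y *ᵥ piM z (piM_smul). -/

namespace Pool.Agent.LibCQ2

open Polynomial

private theorem A3_iota_sum {R : Type*} [CommRing R] {m : ℕ} (d : Fin m → ℕ)
    (r : (Σ i : Fin m, Fin (d i)) → R) :
    iota d r = ∑ κ : Σ i : Fin m, Fin (d i), (C (r κ) : R[X]) •
      (Pi.single κ.1 (X ^ (κ.2 : ℕ)) : Fin m → R[X]) := by
  funext i
  rw [Finset.sum_apply]
  simp only [Pi.smul_apply, smul_eq_mul]
  rw [Fintype.sum_sigma]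
  rw [Finset.sum_eq_single i]
  · unfold iota
    refine Finset.sum_congr rfl fun j _ => ?_
    rw [Pi.single_eq_same]
  · intro i' _ hi'
    refine Finset.sum_eq_zero fun j _ => ?_
    rw [Pi.single_eq_of_ne (Ne.symm hi'), mul_zero]
  · intro h
    exact absurd (Finset.mem_univ i) h

private theorem A3_iota_mulVec {R : Type*} [CommRing R] {m : ℕ} (d : Fin m → ℕ)
    (Xs : Matrix (Σ i : Fin m, Fin (d i)) (Σ i : Fin m, Fin (d i)) R)
    (r : (Σ i : Fin m, Fin (d i)) → R) :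
    iota d (Xs.mulVec r) = ∑ κ : Σ i : Fin m, Fin (d i), (C (r κ) : R[X]) •
      iota d (fun κ' => Xs κ' κ) := by
  funext i
  rw [Finset.sum_apply]
  simp only [Pi.smul_apply, smul_eq_mul, iota, Matrix.mulVec, dotProduct, map_sum, map_mul,
    Finset.sum_mul, Finset.mul_sum]
  rw [Finset.sum_comm]
  refine Finset.sum_congr rfl fun κ _ => Finset.sum_congr rfl fun j _ => ?_
  ring

private theorem A3_iota_deg {R : Type*} [CommRing R] {m : ℕ} (d : Fin m → ℕ)
    (r : (Σ i : Fin m, Fin (d i)) → R) (i : Fin m) : (iota d r i).degree < (d i : WithBot ℕ) :=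
  degree_sum_fin_lt fun j => r ⟨i, j⟩

private theorem A3_iota_inj {R : Type*} [CommRing R] {m : ℕ} (d : Fin m → ℕ)
    {r r' : (Σ i : Fin m, Fin (d i)) → R} (h : iota d r = iota d r') : r = r' := by
  have key : ∀ (r : (Σ i : Fin m, Fin (d i)) → R) (i : Fin m) (j : Fin (d i)),
      (iota d r i).coeff (j : ℕ) = r ⟨i, j⟩ := by
    intro r i j
    unfold iota
    rw [finsetSum_coeff, Finset.sum_eq_single j]
    · rw [coeff_C_mul_X_pow, if_pos rfl]
    · intro j' _ hj'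
      rw [coeff_C_mul_X_pow, if_neg]
      intro he
      exact hj' (Fin.ext he.symm)
    · intro hj
      exact absurd (Finset.mem_univ j) hj
  funext κ
  rw [← key r κ.1 κ.2, ← key r' κ.1 κ.2, h]

/-- extension by linearity -/
private theorem A3_lin {R : Type*} [CommRing R] {m : ℕ} {d : Fin m → ℕ}
    (P : Matrix (Fin m) (Fin m) R[X]) (L : (Fin m → R[X]) →ₗ[R[X]] (Fin m → R[X]))
    (Xs : Matrix (Σ i : Fin m, Fin (d i)) (Σ i : Fin m, Fin (d i)) R)
    (hX : ∀ κ : Σ i : Fin m, Fin (d i), ∃ c, L (Pi.single κ.1 (X ^ (κ.2 : ℕ))) =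
      P.mulVec c + iota d (fun κ' => Xs κ' κ)) (r : (Σ i : Fin m, Fin (d i)) → R) :
    ∃ c, L (iota d r) = P.mulVec c + iota d (Xs.mulVec r) := by
  choose c hc using hX
  refine ⟨∑ κ : Σ i : Fin m, Fin (d i), (C (r κ) : R[X]) • c κ, ?_⟩
  rw [A3_iota_sum d r, map_sum, A3_iota_mulVec, Matrix.mulVec_sum, ← Finset.sum_add_distrib]
  refine Finset.sum_congr rfl fun κ _ => ?_
  rw [map_smul, hc κ, smul_add, Matrix.mulVec_smul]

private theorem A3_mono {R : Type*} [CommRing R] {m : ℕ} (d : Fin m → ℕ)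
    (κ : Σ i : Fin m, Fin (d i)) :
    (Pi.single κ.1 (X ^ (κ.2 : ℕ)) : Fin m → R[X]) = iota d (Pi.single κ 1) := by
  classical
  rw [A3_iota_sum, Finset.sum_eq_single κ]
  · rw [Pi.single_eq_same, map_one, one_smul]
  · intro κ' _ hκ'
    rw [Pi.single_eq_of_ne hκ', map_zero, zero_smul]
  · intro h
    exact absurd (Finset.mem_univ κ) h

/-- reduction modulo `P` of a linear map -/
private theorem A3_exists {R : Type*} [CommRing R] [Nontrivial R] {m : ℕ} {d : Fin m → ℕ}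
    {P : Matrix (Fin m) (Fin m) R[X]} (hP : RowRed d P)
    (L : (Fin m → R[X]) →ₗ[R[X]] (Fin m → R[X])) :
    ∃ Xs : Matrix (Σ i : Fin m, Fin (d i)) (Σ i : Fin m, Fin (d i)) R,
      ∀ κ : Σ i : Fin m, Fin (d i), ∃ c, L (Pi.single κ.1 (X ^ (κ.2 : ℕ))) =
        P.mulVec c + iota d (fun κ' => Xs κ' κ) := by
  choose c ρ h1 h2 using fun κ : Σ i : Fin m, Fin (d i) =>
    matdiv_exists hP (L (Pi.single κ.1 (X ^ (κ.2 : ℕ))))
  refine ⟨Matrix.of fun κ' κ => (ρ κ κ'.1).coeff κ'.2, fun κ => ⟨c κ, ?_⟩⟩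
  rw [h1 κ]
  congr 1
  exact iota_coeff d (ρ κ) (h2 κ)

theorem model_pair {R : Type*} [CommRing R] [Nontrivial R] {m : ℕ} {d : Fin m → ℕ}
    {P : Matrix (Fin m) (Fin m) R[X]} (hP : RowRed d P) (Q Q' : Matrix (Fin m) (Fin m) R[X]) (hQ : Q * P = P * Q') :
    ∃ Xs Ys : Matrix (Σ i : Fin m, Fin (d i)) (Σ i : Fin m, Fin (d i)) R, Xs * Ys = Ys * Xs ∧
      (∀ κ : Σ i : Fin m, Fin (d i), ∃ c, Q.mulVec (Pi.single κ.1 (X ^ (κ.2 : ℕ))) = P.mulVec c + iota d (fun κ' => Xs κ' κ)) ∧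
      (∀ κ : Σ i : Fin m, Fin (d i), ∃ c, (X : R[X]) • (Pi.single κ.1 (X ^ (κ.2 : ℕ)) : Fin m → R[X]) =
        P.mulVec c + iota d (fun κ' => Ys κ' κ)) := by
  obtain ⟨Xs, hXs⟩ := A3_exists hP (Matrix.mulVecLin Q)
  obtain ⟨Ys, hYs⟩ := A3_exists hP ((X : R[X]) • (LinearMap.id : (Fin m → R[X]) →ₗ[R[X]] _))
  refine ⟨Xs, Ys, ?_, hXs, hYs⟩
  have hXr := A3_lin P (Matrix.mulVecLin Q) Xs hXs
  have hYr := A3_lin P ((X : R[X]) • (LinearMap.id : (Fin m → R[X]) →ₗ[R[X]] _)) Ys hYs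
  have key : ∀ r : (Σ i : Fin m, Fin (d i)) → R,
      Xs.mulVec (Ys.mulVec r) = Ys.mulVec (Xs.mulVec r) := by
    intro r
    obtain ⟨c1, h1⟩ := hYr r
    obtain ⟨c2, h2⟩ := hXr (Ys.mulVec r)
    obtain ⟨c3, h3⟩ := hXr r
    obtain ⟨c4, h4⟩ := hYr (Xs.mulVec r)
    replace h1 : (X : R[X]) • iota d r = P.mulVec c1 + iota d (Ys.mulVec r) := h1
    replace h2 : Q.mulVec (iota d (Ys.mulVec r)) =
      P.mulVec c2 + iota d (Xs.mulVec (Ys.mulVec r)) := h2
    replace h3 : Q.mulVec (iota d r) = P.mulVec c3 + iota d (Xs.mulVec r) := h3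
    replace h4 : (X : R[X]) • iota d (Xs.mulVec r) =
      P.mulVec c4 + iota d (Ys.mulVec (Xs.mulVec r)) := h4
    have e1 : Q.mulVec ((X : R[X]) • iota d r) =
        P.mulVec (Q'.mulVec c1 + c2) + iota d (Xs.mulVec (Ys.mulVec r)) := by
      rw [h1, Matrix.mulVec_add, Matrix.mulVec_mulVec, hQ, ← Matrix.mulVec_mulVec, h2,
        Matrix.mulVec_add, add_assoc]
    have e2 : Q.mulVec ((X : R[X]) • iota d r) =
        P.mulVec ((X : R[X]) • c3 + c4) + iota d (Ys.mulVec (Xs.mulVec r)) := by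
      rw [Matrix.mulVec_smul, h3, smul_add, h4, Matrix.mulVec_add, Matrix.mulVec_smul, add_assoc]
    have e3 : P.mulVec (Q'.mulVec c1 + c2 - ((X : R[X]) • c3 + c4)) =
        iota d (Ys.mulVec (Xs.mulVec r)) - iota d (Xs.mulVec (Ys.mulVec r)) := by
      rw [Matrix.mulVec_sub, sub_eq_sub_iff_add_eq_add, ← e1, e2, add_comm]
    have e4 := matdiv_deg hP (Q'.mulVec c1 + c2 - ((X : R[X]) • c3 + c4)) 0 (by
      intro i
      rw [e3, add_zero, Pi.sub_apply]
      exact lt_of_le_of_lt (degree_sub_le _ _)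
        (max_lt (A3_iota_deg d _ i) (A3_iota_deg d _ i)))
    have e5 : Q'.mulVec c1 + c2 - ((X : R[X]) • c3 + c4) = 0 := by
      funext j
      rw [Pi.zero_apply, ← degree_eq_bot]
      have h6 := e4 j
      rw [Nat.cast_zero] at h6
      exact Nat.WithBot.lt_zero_iff.1 h6
    rw [e5, Matrix.mulVec_zero] at e3
    exact (A3_iota_inj d (sub_eq_zero.1 e3.symm)).symm
  classical
  ext κ' κ
  have h1 := congrFun (key (Pi.single κ 1)) κ'
  rw [Matrix.mulVec_mulVec, Matrix.mulVec_mulVec, Matrix.mulVec_single_one,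
    Matrix.mulVec_single_one] at h1
  exact h1

theorem intertwine {R R1 : Type*} [CommRing R] [CommRing R1] (φ : R →+* R1) {n : Type*} [Fintype n] [DecidableEq n]
    {m : ℕ} {d : Fin m → ℕ} (P Q : Matrix (Fin m) (Fin m) R[X])
    (Xs Ys : Matrix (Σ i : Fin m, Fin (d i)) (Σ i : Fin m, Fin (d i)) R)
    (hX : ∀ κ : Σ i : Fin m, Fin (d i), ∃ c, Q.mulVec (Pi.single κ.1 (X ^ (κ.2 : ℕ))) = P.mulVec c + iota d (fun κ' => Xs κ' κ))
    (hY : ∀ κ : Σ i : Fin m, Fin (d i), ∃ c, (X : R[X]) • (Pi.single κ.1 (X ^ (κ.2 : ℕ)) : Fin m → R[X]) =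
        P.mulVec c + iota d (fun κ' => Ys κ' κ))
    (x y : Matrix n n R1) (γ : Fin m → n → R1)
    (h0 : ∀ j, piM y γ (fun i => (P i j).map φ) = 0)
    (hx : ∀ z : Fin m → R1[X], x.mulVec (piM y γ z) = piM y γ ((Q.map (Polynomial.map φ)).mulVec z)) :
    x * GM d y γ = GM d y γ * Xs.map φ ∧ y * GM d y γ = GM d y γ * Ys.map φ := by
  classical
  have hpi : ∀ κ : Σ i : Fin m, Fin (d i),
      piM y γ (Pi.single κ.1 (X ^ (κ.2 : ℕ)) : Fin m → R1[X]) =
        (GM d y γ).mulVec (Pi.single κ 1) := by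
    intro κ
    rw [A3_mono, piM_iota]
  have hmono : ∀ κ : Σ i : Fin m, Fin (d i),
      (fun i => ((Pi.single κ.1 (X ^ (κ.2 : ℕ)) : Fin m → R[X]) i).map φ) =
        (Pi.single κ.1 (X ^ (κ.2 : ℕ)) : Fin m → R1[X]) := by
    intro κ
    funext i
    by_cases hi : i = κ.1
    · rw [hi, Pi.single_eq_same, Pi.single_eq_same, Polynomial.map_pow, map_X]
    · rw [Pi.single_eq_of_ne hi, Pi.single_eq_of_ne hi, Polynomial.map_zero]
  have hmv : ∀ (M : Matrix (Fin m) (Fin m) R[X]) (v : Fin m → R[X]),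
      (fun i => (M.mulVec v i).map φ) =
        (M.map (Polynomial.map φ)).mulVec (fun i => (v i).map φ) := by
    intro M v
    funext i
    exact RingHom.map_mulVec (Polynomial.mapRingHom φ) M v i
  have hiota : ∀ r : (Σ i : Fin m, Fin (d i)) → R,
      (fun i => (iota d r i).map φ) = iota d (fun κ => φ (r κ)) := by
    intro r
    funext i
    unfold iota
    rw [Polynomial.map_sum]
    refine Finset.sum_congr rfl fun j _ => ?_
    rw [Polynomial.map_mul, map_C, Polynomial.map_pow, map_X]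
  have hP0 : ∀ c : Fin m → R1[X], piM y γ ((P.map (Polynomial.map φ)).mulVec c) = 0 := by
    intro c
    rw [piM_mulVec]
    refine Finset.sum_eq_zero fun j _ => ?_
    have h1 : piM y γ (fun i => (P.map (Polynomial.map φ)) i j) = 0 := h0 j
    rw [h1, Matrix.mulVec_zero]
  have hcol : ∀ (M N : Matrix n (Σ i : Fin m, Fin (d i)) R1),
      (∀ κ, M.mulVec (Pi.single κ 1) = N.mulVec (Pi.single κ 1)) → M = N := by
    intro M N hMN
    ext i κ
    have h1 := congrFun (hMN κ) i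
    rw [Matrix.mulVec_single_one, Matrix.mulVec_single_one] at h1
    exact h1
  have hXs : ∀ (Zs : Matrix (Σ i : Fin m, Fin (d i)) (Σ i : Fin m, Fin (d i)) R)
      (κ : Σ i : Fin m, Fin (d i)) (c : Fin m → R[X]),
      piM y γ (fun i => ((P.mulVec c + iota d (fun κ' => Zs κ' κ)) i).map φ) =
        (GM d y γ * Zs.map φ).mulVec (Pi.single κ 1) := by
    intro Zs κ c
    have h1 : (fun i => ((P.mulVec c + iota d (fun κ' => Zs κ' κ)) i).map φ) =
        (P.map (Polynomial.map φ)).mulVec (fun i => (c i).map φ) +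
          iota d (fun κ' => φ (Zs κ' κ)) := by
      rw [← hmv, ← hiota]
      funext i
      rw [Pi.add_apply, Pi.add_apply, Polynomial.map_add]
    rw [h1, piM_add, hP0, zero_add, piM_iota, ← Matrix.mulVec_mulVec, Matrix.mulVec_single_one]
    rfl
  constructor
  · refine hcol _ _ fun κ => ?_
    obtain ⟨c, hc⟩ := hX κ
    rw [← hXs Xs κ c, ← hc, hmv, hmono, ← hx, hpi, Matrix.mulVec_mulVec]
  · refine hcol _ _ fun κ => ?_
    obtain ⟨c, hc⟩ := hY κ
    rw [← hXs Ys κ c, ← hc]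
    have h1 : (fun i => (((X : R[X]) • (Pi.single κ.1 (X ^ (κ.2 : ℕ)) : Fin m → R[X])) i).map φ) =
        (X : R1[X]) • (Pi.single κ.1 (X ^ (κ.2 : ℕ)) : Fin m → R1[X]) := by
      rw [← hmono]
      funext i
      rw [Pi.smul_apply, Pi.smul_apply, smul_eq_mul, smul_eq_mul, Polynomial.map_mul, map_X]
    rw [h1, piM_smul, aeval_X, hpi, Matrix.mulVec_mulVec]

end Pool.Agent.LibCQ2
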