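import Pool.Agent.LibCQ2.A5

set_option autoImplicit false

/-! ROW A6a (MEDIUM, Defs + A5). Leading forms. At := matrix over R[y][x] with x on the diagonal places (j,j), j < N, 0 at (N,N), -y^b at (k+1, k), 0 elsewhere; b ≥ 1.
 At_det: last column is 0 (det_eq_zero_of_column_eq_zero; N + 1 ≥ 1).
 At_adj: c j := At.adjugate (Fin.last N) j. c ᵥ* At = det At • e_N = 0 (adjugate_mul): column k < N: c_k x = c_(k+1) y^b. c_N = det (At.updateRow N e_N) = x^N: this matrix is lower triangular (det_of_lowerTriangular or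
   BlockTriangular) with diagonal x, .., x, 1. Downward induction: c_(k+1) = y^(b(N-k-1)) x^(k+1) gives x c_k = x (y^(b(N-k)) x^k), cancel x (X is regular in R[y][x]).
 AA_apx: AA N f T j k and At j k: apx b b entrywise: T j k + [j = k+1] g has degree < b, g monic of degree b: T j k = -[j=k+1] y^b + (degree < b); x - f: f degree < b.
 det_wt: apx_det with all m i = b: ∑ = (N+1) b; At.det = 0: so wtLT b ((N+1) b) of det AA. T.det: T = AA at .. same with the matrix C (T j k) (top form: only the entries -y^b at (k+1,k)), whose determinant is 0 too (row 0 of the top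
   matrix is 0): wtLT b ((N+1) b) (C T.det).
 rho_top: ρ j := ∑ k, ry N f h k * (AA N f T).adjugate k j. Adjugate entries: Matrix.adjugate_apply: det of updateRow j (Pi.single k 1): row weights m i = b for i ≠ j, 0 for i = j (Pi.single entries are 0 or 1: apx b 0 refl), sum N b:
   apx b (N b) (adjugate (AA) k j) (adjugate At k j). For k < N: ry k = C (h k), degree (h k) < b: the product has weight < N b + b. For k = N: ry N = x + (C h_N - C f): top x. So ρ j - x * At.adjugate N j has weight < (N+1) b. -/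

namespace Pool.Agent.LibCQ2

open Polynomial

/-- leading form of `AA` -/
noncomputable def At (R : Type*) [CommRing R] (N b : ℕ) : Matrix (Fin (N + 1)) (Fin (N + 1)) R[X][X] :=
  Matrix.of fun j k => (if j = k ∧ (j : ℕ) < N then X else 0) - (if (j : ℕ) = (k : ℕ) + 1 then C (X ^ b) else 0)

section
variable {R : Type*} [CommRing R] [Nontrivial R] {N b : ℕ}

omit [Nontrivial R] in
private theorem A6a_C (m : ℕ) : wtLT b (m + 1) (C (X ^ m) : R[X][X]) := by
  have h := wtLT_mono_top (R := R) (b := b) 0 m
  rw [pow_zero, mul_one, mul_zero, zero_add] at h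
  exact h

omit [Nontrivial R] in
private theorem A6a_X : wtLT b (b + 1) (X : R[X][X]) := by
  have h := wtLT_mono_top (R := R) (b := b) 1 0
  rw [pow_zero, pow_one, map_one, one_mul, mul_one, add_zero] at h
  exact h

omit [Nontrivial R] in
private theorem A6a_one : wtLT b 1 (1 : R[X][X]) := by
  have h := wtLT_mono_top (R := R) (b := b) 0 0
  rw [pow_zero, pow_zero, map_one, mul_one, mul_zero] at h
  exact h

omit [Nontrivial R] in
private theorem A6a_apx {m : ℕ} {F G : R[X][X]} (hG : wtLT b (m + 1) G) (h : wtLT b m (F - G)) :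
    apx b m F G := by
  refine ⟨?_, hG, h⟩
  have h2 := wtLT_add (wtLT_mono (Nat.le_succ m) h) hG
  rw [sub_add_cancel] at h2
  exact h2

private theorem A6a_g (hb : 1 ≤ b) {g : R[X]} (hg : g.Monic) (hgb : g.natDegree = b) :
    (g - X ^ b).degree < (b : WithBot ℕ) := by
  have hd : g.degree = (b : WithBot ℕ) := by
    rw [Polynomial.degree_eq_natDegree hg.ne_zero, hgb]
  have h := Polynomial.degree_sub_lt (p := g) (q := X ^ b) (by rw [hd, Polynomial.degree_X_pow])
    hg.ne_zero (by rw [hg.leadingCoeff, Polynomial.leadingCoeff_X_pow])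
  rw [hd] at h
  exact h

private theorem A6a_T (hb : 1 ≤ b) {g : R[X]} (hg : g.Monic) (hgb : g.natDegree = b) (c : Prop)
    [Decidable c] {t : R[X]} (ht : (t + if c then g else 0).degree < (b : WithBot ℕ)) :
    (t + if c then X ^ b else 0).degree < (b : WithBot ℕ) := by
  by_cases hc : c
  · rw [if_pos hc] at ht ⊢
    have e : t + X ^ b = (t + g) - (g - X ^ b) := by ring
    rw [e]
    exact lt_of_le_of_lt (Polynomial.degree_sub_le _ _) (max_lt ht (A6a_g hb hg hgb))
  · rw [if_neg hc] at ht ⊢
    exact ht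

private theorem A6a_ent (hb : 1 ≤ b) {g f : R[X]} (hg : g.Monic) (hgb : g.natDegree = b)
    (hf : f.degree < (b : WithBot ℕ))
    {T : Matrix (Fin (N + 1)) (Fin (N + 1)) R[X]}
    (hT : ∀ j k, (T j k + if (j : ℕ) = (k : ℕ) + 1 then g else 0).degree < (b : WithBot ℕ))
    (j k : Fin (N + 1)) : apx b b (AA N f T j k) (At R N b j k) := by
  have hX : wtLT b (b + 1) (X : R[X][X]) := A6a_X
  have hCb : wtLT b (b + 1) (C (X ^ b) : R[X][X]) := A6a_C b
  have h0 : wtLT b (b + 1) (0 : R[X][X]) := wtLT_zero _
  have hd := wtLT_C (b := b) (A6a_T hb hg hgb ((j : ℕ) = (k : ℕ) + 1) (hT j k))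
  have hdf := wtLT_C (b := b) hf
  have hz : wtLT b b (0 : R[X][X]) := wtLT_zero _
  apply A6a_apx
  · show wtLT b (b + 1) ((if j = k ∧ (j : ℕ) < N then X else 0) -
      (if (j : ℕ) = (k : ℕ) + 1 then C (X ^ b) else 0) : R[X][X])
    apply wtLT_sub
    · split_ifs
      · exact hX
      · exact h0
    · split_ifs
      · exact hCb
      · exact h0
  · have e : AA N f T j k - At R N b j k =
        C (T j k + if (j : ℕ) = (k : ℕ) + 1 then X ^ b else 0) -
          (if j = k ∧ (j : ℕ) < N then C f else 0) := by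
      show (C (T j k) + if j = k ∧ (j : ℕ) < N then X - C f else 0) -
        ((if j = k ∧ (j : ℕ) < N then X else 0) -
          (if (j : ℕ) = (k : ℕ) + 1 then C (X ^ b) else 0)) = _
      split_ifs <;> simp only [map_add, map_zero] <;> ring
    rw [e]
    apply wtLT_sub hd
    split_ifs
    · exact hdf
    · exact hz

omit [Nontrivial R] in
private theorem A6a_det0 : (At R N b).det = 0 := by
  apply Matrix.det_eq_zero_of_column_eq_zero (Fin.last N)
  intro i
  show ((if i = Fin.last N ∧ (i : ℕ) < N then X else 0) -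
      (if (i : ℕ) = ((Fin.last N : Fin (N + 1)) : ℕ) + 1 then C (X ^ b) else 0) : R[X][X]) = 0
  have h1 : ¬ (i = Fin.last N ∧ (i : ℕ) < N) := by
    rintro ⟨h, h'⟩
    rw [h, Fin.val_last] at h'
    omega
  have h2 : ¬ ((i : ℕ) = ((Fin.last N : Fin (N + 1)) : ℕ) + 1) := by
    rw [Fin.val_last]
    have := i.2
    omega
  rw [if_neg h1, if_neg h2, sub_zero]

omit [Nontrivial R] in
private theorem A6a_last : (At R N b).adjugate (Fin.last N) (Fin.last N) = X ^ N := by
  rw [Matrix.adjugate_apply]
  have hlt : ((At R N b).updateRow (Fin.last N) (Pi.single (Fin.last N) 1)).BlockTriangular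
      OrderDual.toDual := by
    intro i j hij
    have hij' : i < j := OrderDual.toDual_lt_toDual.1 hij
    have hi : i ≠ Fin.last N := by
      intro h
      rw [h] at hij'
      exact absurd (Fin.le_last j) (not_le.2 hij')
    rw [Matrix.updateRow_ne hi]
    show ((if i = j ∧ (i : ℕ) < N then X else 0) -
      (if (i : ℕ) = (j : ℕ) + 1 then C (X ^ b) else 0) : R[X][X]) = 0
    have h1 : ¬ (i = j ∧ (i : ℕ) < N) := fun h => absurd h.1 (ne_of_lt hij')
    have h2 : ¬ ((i : ℕ) = (j : ℕ) + 1) := by
      have : (i : ℕ) < (j : ℕ) := hij'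
      omega
    rw [if_neg h1, if_neg h2, sub_zero]
  rw [Matrix.det_of_lowerTriangular _ hlt, Fin.prod_univ_castSucc]
  have h3 : ∀ i : Fin N, ((At R N b).updateRow (Fin.last N) (Pi.single (Fin.last N) 1))
      i.castSucc i.castSucc = X := by
    intro i
    rw [Matrix.updateRow_ne (Fin.castSucc_lt_last i).ne]
    show ((if i.castSucc = i.castSucc ∧ ((i.castSucc : Fin (N + 1)) : ℕ) < N then X else 0) -
      (if ((i.castSucc : Fin (N + 1)) : ℕ) = ((i.castSucc : Fin (N + 1)) : ℕ) + 1 then C (X ^ b)
        else 0) : R[X][X]) = X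
    have h1 : (i.castSucc = i.castSucc ∧ ((i.castSucc : Fin (N + 1)) : ℕ) < N) :=
      ⟨rfl, by rw [Fin.val_castSucc]; exact i.2⟩
    have h2 : ¬ (((i.castSucc : Fin (N + 1)) : ℕ) = ((i.castSucc : Fin (N + 1)) : ℕ) + 1) := by
      omega
    rw [if_pos h1, if_neg h2, sub_zero]
  rw [Finset.prod_congr rfl fun i _ => h3 i, Finset.prod_const, Finset.card_univ, Fintype.card_fin,
    Matrix.updateRow_self, Pi.single_eq_same, mul_one]

omit [Nontrivial R] in
private theorem A6a_step (k : Fin N) : (At R N b).adjugate (Fin.last N) k.castSucc * X =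
    (At R N b).adjugate (Fin.last N) k.succ * C (X ^ b) := by
  have h := congrFun (congrFun (Matrix.adjugate_mul (At R N b)) (Fin.last N)) k.castSucc
  rw [A6a_det0, zero_smul, Matrix.zero_apply, Matrix.mul_apply] at h
  have h2 : ∀ j : Fin (N + 1), (At R N b).adjugate (Fin.last N) j * At R N b j k.castSucc =
      (if j = k.castSucc then (At R N b).adjugate (Fin.last N) j * X else 0) -
        (if j = k.succ then (At R N b).adjugate (Fin.last N) j * C (X ^ b) else 0) := by
    intro j
    have e : At R N b j k.castSucc = (if j = k.castSucc then X else 0) -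
        (if j = k.succ then C (X ^ b) else 0) := by
      show ((if j = k.castSucc ∧ (j : ℕ) < N then X else 0) -
        (if (j : ℕ) = ((k.castSucc : Fin (N + 1)) : ℕ) + 1 then C (X ^ b) else 0) : R[X][X]) = _
      have h1 : (j = k.castSucc ∧ (j : ℕ) < N) ↔ j = k.castSucc := by
        constructor
        · exact fun h => h.1
        · intro h
          exact ⟨h, by rw [h, Fin.val_castSucc]; exact k.2⟩
      have h2 : ((j : ℕ) = ((k.castSucc : Fin (N + 1)) : ℕ) + 1) ↔ j = k.succ := by
        rw [Fin.ext_iff, Fin.val_castSucc, Fin.val_succ]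
      simp only [h1, h2]
    rw [e, mul_sub, mul_ite, mul_ite, mul_zero]
  rw [Finset.sum_congr rfl fun j _ => h2 j, Finset.sum_sub_distrib, Finset.sum_ite_eq',
    Finset.sum_ite_eq', if_pos (Finset.mem_univ _), if_pos (Finset.mem_univ _)] at h
  exact sub_eq_zero.1 h

private theorem A6a_adj (hb : 1 ≤ b) {g f : R[X]} (hg : g.Monic) (hgb : g.natDegree = b)
    (hf : f.degree < (b : WithBot ℕ))
    {T : Matrix (Fin (N + 1)) (Fin (N + 1)) R[X]}
    (hT : ∀ j k, (T j k + if (j : ℕ) = (k : ℕ) + 1 then g else 0).degree < (b : WithBot ℕ))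
    (k j : Fin (N + 1)) :
    apx b (N * b) ((AA N f T).adjugate k j) ((At R N b).adjugate k j) := by
  rw [Matrix.adjugate_apply, Matrix.adjugate_apply]
  have h := apx_det (b := b) (fun i : Fin (N + 1) => if i = j then 0 else b)
    ((AA N f T).updateRow j (Pi.single k 1)) ((At R N b).updateRow j (Pi.single k 1)) ?_
  · have hs : (∑ i : Fin (N + 1), if i = j then 0 else b) = N * b := by
      have e1 : (∑ i : Fin (N + 1), if i = j then 0 else b) + (∑ i : Fin (N + 1), if i = j then b else 0) =
          ∑ _i : Fin (N + 1), b := by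
        rw [← Finset.sum_add_distrib]
        refine Finset.sum_congr rfl fun i _ => ?_
        split_ifs
        · rw [zero_add]
        · rw [add_zero]
      rw [Finset.sum_ite_eq', if_pos (Finset.mem_univ _), Finset.sum_const, Finset.card_univ,
        Fintype.card_fin, smul_eq_mul, add_mul, one_mul] at e1
      omega
    rw [hs] at h
    exact h
  · intro i l
    show apx b (if i = j then 0 else b) _ _
    by_cases hij : i = j
    · rw [if_pos hij, hij, Matrix.updateRow_self, Matrix.updateRow_self]
      apply apx_refl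
      rw [zero_add]
      by_cases hl : l = k
      · rw [hl, Pi.single_eq_same]
        exact A6a_one
      · rw [Pi.single_eq_of_ne hl]
        exact wtLT_zero _
    · rw [if_neg hij, Matrix.updateRow_ne hij, Matrix.updateRow_ne hij]
      exact A6a_ent hb hg hgb hf hT i l

theorem At_adj (j : Fin (N + 1)) :
    (At R N b).adjugate (Fin.last N) j = C (X ^ (b * (N - (j : ℕ)))) * X ^ (j : ℕ) := by
  obtain ⟨d, hd⟩ : ∃ d, d = N - (j : ℕ) := ⟨_, rfl⟩
  induction d generalizing j with
  | zero =>
    have hj : j = Fin.last N := by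
      apply Fin.ext
      rw [Fin.val_last]
      have := j.2
      omega
    rw [hj, A6a_last, Fin.val_last, Nat.sub_self, mul_zero, pow_zero, map_one, one_mul]
  | succ d ih =>
    have hjN : (j : ℕ) < N := by omega
    obtain ⟨k, hk⟩ : ∃ k : Fin N, k.castSucc = j := ⟨⟨j, hjN⟩, Fin.ext rfl⟩
    have h1 := ih k.succ (by rw [Fin.val_succ, ← Fin.val_castSucc, hk]; omega)
    have h2 := A6a_step (R := R) (b := b) k
    rw [h1, hk] at h2
    apply (Polynomial.monic_X (R := R[X])).isRegular.right
    show (At R N b).adjugate (Fin.last N) j * X = C (X ^ (b * (N - (j : ℕ)))) * X ^ (j : ℕ) * X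
    rw [h2]
    have hv : ((k.succ : Fin (N + 1)) : ℕ) = (j : ℕ) + 1 := by
      rw [Fin.val_succ, ← Fin.val_castSucc, hk]
    rw [hv]
    have e : b * (N - (j : ℕ)) = b * (N - ((j : ℕ) + 1)) + b := by
      have : N - (j : ℕ) = (N - ((j : ℕ) + 1)) + 1 := by omega
      rw [this, mul_add, mul_one]
    rw [e, pow_add (X : R[X]) (b * (N - ((j : ℕ) + 1))) b, map_mul, pow_succ (X : R[X][X]) (j : ℕ)]
    ring

theorem det_wt (hb : 1 ≤ b) {g f : R[X]} (hg : g.Monic) (hgb : g.natDegree = b) (hf : f.degree < (b : WithBot ℕ))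
    {T : Matrix (Fin (N + 1)) (Fin (N + 1)) R[X]}
    (hT : ∀ j k, (T j k + if (j : ℕ) = (k : ℕ) + 1 then g else 0).degree < (b : WithBot ℕ)) :
    wtLT b ((N + 1) * b) (AA N f T).det ∧ wtLT b ((N + 1) * b) (C T.det) := by
  have hsum : (∑ _i : Fin (N + 1), b) = (N + 1) * b := by
    rw [Finset.sum_const, Finset.card_univ, Fintype.card_fin, smul_eq_mul]
  constructor
  · have h := apx_det (b := b) (fun _ => b) (AA N f T) (At R N b)
      (fun i j => A6a_ent hb hg hgb hf hT i j)
    rw [hsum, A6a_det0] at h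
    have h2 := h.2.2
    rw [sub_zero] at h2
    exact h2
  · have h := apx_det (b := b) (fun _ => b) ((C : R[X] →+* R[X][X]).mapMatrix T)
      (Matrix.of fun j k : Fin (N + 1) => - (if (j : ℕ) = (k : ℕ) + 1 then (C (X ^ b) : R[X][X]) else 0)) ?_
    · have h0 : (Matrix.of fun j k : Fin (N + 1) =>
          (- (if (j : ℕ) = (k : ℕ) + 1 then (C (X ^ b) : R[X][X]) else 0) : R[X][X])).det = 0 := by
        apply Matrix.det_eq_zero_of_row_eq_zero 0
        intro k
        show (- (if ((0 : Fin (N + 1)) : ℕ) = (k : ℕ) + 1 then (C (X ^ b) : R[X][X]) else 0) : R[X][X]) = 0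
        have : ¬ (((0 : Fin (N + 1)) : ℕ) = (k : ℕ) + 1) := by
          rw [Fin.val_zero]
          omega
        rw [if_neg this, neg_zero]
      rw [hsum, h0, ← RingHom.map_det] at h
      have h2 := h.2.2
      rw [sub_zero] at h2
      exact h2
    · intro i k
      show apx b b (C (T i k)) (- (if (i : ℕ) = (k : ℕ) + 1 then (C (X ^ b) : R[X][X]) else 0))
      apply A6a_apx
      · apply wtLT_neg
        split_ifs
        · exact A6a_C b
        · exact wtLT_zero _
      · have e : (C (T i k) : R[X][X]) - (- (if (i : ℕ) = (k : ℕ) + 1 then (C (X ^ b) : R[X][X]) else 0)) =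
            C (T i k + if (i : ℕ) = (k : ℕ) + 1 then X ^ b else 0) := by
          split_ifs <;> simp only [map_add, map_zero] <;> ring
        rw [e]
        exact wtLT_C (A6a_T hb hg hgb _ (hT i k))

theorem rho_top (hb : 1 ≤ b) {g f : R[X]} (hg : g.Monic) (hgb : g.natDegree = b) (hf : f.degree < (b : WithBot ℕ))
    {T : Matrix (Fin (N + 1)) (Fin (N + 1)) R[X]}
    (hT : ∀ j k, (T j k + if (j : ℕ) = (k : ℕ) + 1 then g else 0).degree < (b : WithBot ℕ))
    {h : Fin (N + 1) → R[X]} (hh : ∀ k, (h k).degree < (b : WithBot ℕ)) (j : Fin (N + 1)) :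
    wtLT b ((N + 1) * b) ((∑ k, ry N f h k * (AA N f T).adjugate k j) - X * (C (X ^ (b * (N - (j : ℕ)))) * X ^ (j : ℕ))) := by
  have hNb : (N + 1) * b = b + N * b := by ring
  have e : (∑ k, ry N f h k * (AA N f T).adjugate k j) -
      X * (C (X ^ (b * (N - (j : ℕ)))) * X ^ (j : ℕ)) =
      ∑ k, (ry N f h k * (AA N f T).adjugate k j -
        (if k = Fin.last N then X * (At R N b).adjugate k j else 0)) := by
    rw [Finset.sum_sub_distrib, Finset.sum_ite_eq', if_pos (Finset.mem_univ _), At_adj]
  rw [e]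
  apply wtLT_sum
  intro k _
  have hadj := A6a_adj hb hg hgb hf hT k j
  by_cases hk : k = Fin.last N
  · rw [if_pos hk]
    have hkN : ¬ ((k : ℕ) < N) := by
      rw [hk, Fin.val_last]
      omega
    have e2 : ry N f h k * (AA N f T).adjugate k j - X * (At R N b).adjugate k j =
        C (h k - f) * (AA N f T).adjugate k j +
          ((AA N f T).adjugate k j - (At R N b).adjugate k j) * X := by
      have e3 : ry N f h k = C (h k) + (X - C f) := by
        show C (h k) + (if (k : ℕ) < N then 0 else X - C f) = _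
        rw [if_neg hkN]
      rw [e3, map_sub]
      ring
    rw [e2]
    apply wtLT_add
    · rw [hNb]
      exact wtLT_mul' (wtLT_C (lt_of_le_of_lt (Polynomial.degree_sub_le _ _) (max_lt (hh k) hf)))
        hadj.1
    · rw [hNb, add_comm]
      exact wtLT_mul' hadj.2.2 A6a_X
  · rw [if_neg hk, sub_zero]
    have hkN : (k : ℕ) < N := by
      have h1 := k.2
      have h2 : (k : ℕ) ≠ N := fun h => hk (Fin.ext (by rw [h, Fin.val_last]))
      omega
    have e3 : ry N f h k = C (h k) := by
      show C (h k) + (if (k : ℕ) < N then 0 else X - C f) = _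
      rw [if_pos hkN, add_zero]
    rw [e3, hNb]
    exact wtLT_mul' (wtLT_C (hh k)) hadj.1

end

end Pool.Agent.LibCQ2
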