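import Pool.Agent.LibCQ2.Defs

set_option autoImplicit false

/-! ROW B1 (MEDIUM, only Mathlib + Defs). Remainder ideals and divisibility by monic polynomials.
 remId m P = ideal of the coefficients of P %ₘ m.
 remId_le_ker: Polynomial.map_modByMonic: (P %ₘ m).map φ = P.map φ %ₘ m.map φ; all coefficients of P %ₘ m are killed by φ iff this is 0 iff
   m.map φ ∣ P.map φ (Polynomial.modByMonic_eq_zero_iff_dvd).
 remId_map: Ideal.map_span, Set.range_comp, coeff_map, map_modByMonic.
 sI_le_ker: split ⊔ (sup_le_iff), Ideal.map_le_iff_le_comap, RingHom.comap_ker, remId_le_ker for φ := Φ.comp C and φ := Φ, then gP_map, pV_map,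
   Polynomial.map_map, Polynomial.map_mul. -/

namespace Pool.Agent.LibCQ2

open Polynomial

theorem remId_le_ker {A B : Type*} [CommRing A] [CommRing B] (φ : A →+* B) (m P : A[X]) (hm : m.Monic) :
    remId m P ≤ RingHom.ker φ ↔ m.map φ ∣ P.map φ := by
  unfold remId
  rw [Ideal.span_le, ← Polynomial.modByMonic_eq_zero_iff_dvd (hm.map φ), ← Polynomial.map_modByMonic φ hm]
  constructor
  · intro h
    ext n
    rw [coeff_map, coeff_zero]
    exact RingHom.mem_ker.1 (h ⟨n, rfl⟩)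
  · rintro h _ ⟨n, rfl⟩
    have h1 := congrArg (fun Q => Q.coeff n) h
    simp only [coeff_map, coeff_zero] at h1
    exact RingHom.mem_ker.2 h1

theorem remId_map {A B : Type*} [CommRing A] [CommRing B] (φ : A →+* B) (m P : A[X]) (hm : m.Monic) :
    (remId m P).map φ = remId (m.map φ) (P.map φ) := by
  unfold remId
  rw [Ideal.map_span, ← Set.range_comp, ← Polynomial.map_modByMonic φ hm]
  have h : (⇑φ ∘ (P %ₘ m).coeff) = ((P %ₘ m).map φ).coeff := by
    funext n
    rw [Function.comp_apply, coeff_map]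
  rw [h]

theorem remId_one {A : Type*} [CommRing A] (P : A[X]) : remId 1 P = ⊥ := by
  unfold remId
  rw [Polynomial.modByMonic_one, Ideal.span_eq_bot]
  rintro _ ⟨n, rfl⟩
  exact coeff_zero n

theorem gP_monic {A : Type*} [CommRing A] {b : ℕ} (y : Fin b → A) (W : Finset (Fin b)) : (gP y W).Monic := by
  unfold gP
  exact Polynomial.monic_prod_of_monic _ _ fun i _ => Polynomial.monic_X_sub_C _

theorem gP_map {A B : Type*} [CommRing A] [CommRing B] (φ : A →+* B) {b : ℕ} (y : Fin b → A) (W : Finset (Fin b)) :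
    (gP y W).map φ = gP (fun i => φ (y i)) W := by
  unfold gP
  rw [Polynomial.map_prod]
  exact Finset.prod_congr rfl fun i _ => by rw [Polynomial.map_sub, Polynomial.map_X, Polynomial.map_C]

theorem gP_dvd {A : Type*} [CommRing A] {b : ℕ} (y : Fin b → A) {W W' : Finset (Fin b)} (h : W ⊆ W') :
    gP y W ∣ gP y W' := by
  unfold gP
  exact Finset.prod_dvd_prod_of_subset _ _ _ h

theorem gP_erase {A : Type*} [CommRing A] {b : ℕ} (y : Fin b → A) {W : Finset (Fin b)} {i : Fin b} (h : i ∈ W) :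
    gP y W = (X - C (y i)) * gP y (W.erase i) := by
  unfold gP
  exact (Finset.mul_prod_erase W (fun i => X - C (y i)) h).symm

theorem gP_natDegree {A : Type*} [CommRing A] [Nontrivial A] {b : ℕ} (y : Fin b → A) (W : Finset (Fin b)) :
    (gP y W).natDegree = W.card := by
  unfold gP
  rw [Polynomial.natDegree_prod_of_monic _ _ fun i _ => Polynomial.monic_X_sub_C _]
  simp

theorem pV_map {A B : Type*} [CommRing A] [CommRing B] (φ : A →+* B) {p : ℕ} (t : Fin p → A) :
    (pV t).map φ = pV (fun l => φ (t l)) := by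
  unfold pV
  rw [Polynomial.map_sum]
  exact Finset.sum_congr rfl fun l _ => by
    rw [Polynomial.map_mul, Polynomial.map_C, Polynomial.map_pow, Polynomial.map_X]

theorem sI_le_ker {A : Type*} [CommRing A] {b : ℕ} (y : Fin b → A) (J0 : Ideal A) (π : A[X])
    (L F E : Finset (Fin b)) (p q : ℕ) {B : Type*} [CommRing B] (Φ : MvPolynomial (Fin p ⊕ Fin q) A →+* B) :
    sI y J0 π L F E p q ≤ RingHom.ker Φ ↔
      J0 ≤ RingHom.ker (Φ.comp MvPolynomial.C) ∧
      gP (fun i => Φ (MvPolynomial.C (y i))) F ∣ π.map (Φ.comp MvPolynomial.C) ∧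
      gP (fun i => Φ (MvPolynomial.C (y i))) L ∣
        pV (fun l => Φ (MvPolynomial.X (Sum.inl l))) * pV (fun l => Φ (MvPolynomial.X (Sum.inr l))) ∧
      gP (fun i => Φ (MvPolynomial.C (y i))) E ∣
        pV (fun l => Φ (MvPolynomial.X (Sum.inl l))) * π.map (Φ.comp MvPolynomial.C) := by
  unfold sI tP uP
  rw [sup_le_iff, sup_le_iff, Ideal.map_le_iff_le_comap, RingHom.comap_ker, sup_le_iff,
    remId_le_ker _ _ _ (gP_monic y F), gP_map, remId_le_ker _ _ _ ((gP_monic y L).map _),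
    remId_le_ker _ _ _ ((gP_monic y E).map _), Polynomial.map_map, Polynomial.map_map, gP_map, gP_map,
    Polynomial.map_mul, Polynomial.map_mul, pV_map, pV_map, Polynomial.map_map]
  exact ⟨fun h => ⟨h.1.1.1, h.1.1.2, h.1.2, h.2⟩, fun h => ⟨⟨⟨h.1, h.2.1⟩, h.2.2.1⟩, h.2.2.2⟩⟩

theorem sJ_le_ker {A : Type*} [CommRing A] {b : ℕ} (y : Fin b → A) (J0 : Ideal A) (π : A[X])
    (L F E : Finset (Fin b)) (p q : ℕ) (i : Fin b) (F' : Finset (Fin b)) {B : Type*} [CommRing B]
    (Φ : MvPolynomial (Fin p ⊕ Fin q) A →+* B) :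
    sJ y J0 π L F E p q i F' ≤ RingHom.ker Φ ↔
      sI y J0 π L F E p q ≤ RingHom.ker Φ ∧
      (pV (fun l => Φ (MvPolynomial.X (Sum.inr l)))).eval (Φ (MvPolynomial.C (y i))) = 0 ∧
      gP (fun i => Φ (MvPolynomial.C (y i))) F' ∣ π.map (Φ.comp MvPolynomial.C) := by
  unfold sJ
  rw [sup_le_iff, sup_le_iff, Ideal.map_le_iff_le_comap, RingHom.comap_ker,
    remId_le_ker _ _ _ (gP_monic y F'), gP_map, Ideal.span_singleton_le_iff_mem, RingHom.mem_ker]
  have h : Φ ((uP A p q).eval (MvPolynomial.C (y i))) =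
      (pV (fun l => Φ (MvPolynomial.X (Sum.inr l)))).eval (Φ (MvPolynomial.C (y i))) := by
    rw [← Polynomial.eval₂_at_apply, ← Polynomial.eval_map]
    unfold uP
    rw [pV_map]
  rw [h]
  exact ⟨fun h => ⟨h.1.1, h.1.2, h.2⟩, fun h => ⟨⟨h.1, h.2.1⟩, h.2.2⟩⟩

end Pool.Agent.LibCQ2
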