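import Pool.Agent.LibCQ2.B1

set_option autoImplicit false

/-! ROW B10a (SHORT, Defs + B1). If all differences y_i - y_j are units, then remId g P is generated by the values P(y_i), g = ∏ (z - y_i).
 ≥: P = g Q + rem, P(y_i) = rem(y_i) = ∑ coeff * y_i^l ∈ remId. ≤: let φ be the quotient map by the span of the values: X - C (φ (y_i)) ∣ P.map φ for all i (dvd_iff_isRoot, eval_map), these are pairwise coprime
 (IsCoprime (X - C a) (X - C b) if a - b is a unit: Polynomial.isCoprime_X_sub_C_of_isUnit_sub), Finset.prod_dvd_of_coprime; then remId_le_ker. -/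

namespace Pool.Agent.LibCQ2

open Polynomial

theorem remId_values {A : Type*} [CommRing A] {b : ℕ} (y : Fin b → A) (hy : ∀ i j, i ≠ j → IsUnit (y i - y j))
    (P : A[X]) : remId (gP y Finset.univ) P = Ideal.span (Set.range fun i => P.eval (y i)) := by
  apply le_antisymm
  · have hk : RingHom.ker (Ideal.Quotient.mk (Ideal.span (Set.range fun i => P.eval (y i))))
        = Ideal.span (Set.range fun i => P.eval (y i)) := Ideal.mk_ker
    rw [← hk, remId_le_ker _ _ _ (gP_monic y _), gP_map]
    unfold gP
    apply Finset.prod_dvd_of_coprime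
    · intro i _ j _ hij
      apply Polynomial.isCoprime_X_sub_C_of_isUnit_sub
      rw [← map_sub]
      exact (hy i j hij).map _
    · intro i _
      rw [Polynomial.dvd_iff_isRoot, Polynomial.IsRoot.def, Polynomial.eval_map, Polynomial.eval₂_hom]
      rw [Ideal.Quotient.eq_zero_iff_mem]
      exact Ideal.subset_span ⟨i, rfl⟩
  · rw [Ideal.span_le]
    rintro _ ⟨i, rfl⟩
    have hg : (gP y Finset.univ).eval (y i) = 0 := by
      unfold gP
      rw [Polynomial.eval_prod]
      apply Finset.prod_eq_zero (Finset.mem_univ i)
      simp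
    have h : P.eval (y i) = (P %ₘ gP y Finset.univ).eval (y i) := by
      conv_lhs => rw [← Polynomial.modByMonic_add_div P (gP y Finset.univ)]
      rw [Polynomial.eval_add, Polynomial.eval_mul, hg, zero_mul, add_zero]
    change P.eval (y i) ∈ remId (gP y Finset.univ) P
    rw [h, Polynomial.eval_eq_sum, Polynomial.sum_def]
    apply Ideal.sum_mem
    intro l _
    apply Ideal.mul_mem_right
    exact Ideal.subset_span ⟨l, rfl⟩

end Pool.Agent.LibCQ2
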