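import Pool.Agent.LibCQ2.Defs

set_option autoImplicit false

/-! ROW G0 (MEDIUM, only Mathlib + Defs). Basic facts on weights. comp w e = MvPolynomial.weightedHomogeneousComponent w e; ordGE w e F: all monomials have weight ≥ e;
 lamW w: X x ↦ C (X x) * X ^ w x.
 lamW_coeff: both sides are additive in F; for F = monomial m r: lamW w F = C F * X ^ (Finsupp.weight w m), comp w e F = if weight = e then F else 0.
 ordGE_iff: coefficient of m in comp w e F is (if weight w m = e then coeff m F else 0) (MvPolynomial.coeff_weightedHomogeneousComponent). The rest from lamW being a ring hom and ordGE_iff_dvd. -/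

namespace Pool.Agent.LibCQ2

open Polynomial

variable {σ : Type*} {R : Type*} [CommRing R]

private theorem G0_mon (w : σ → ℕ) (m : σ →₀ ℕ) (r : R) :
    lamW w (MvPolynomial.monomial m r) = C (MvPolynomial.monomial m r) * X ^ Finsupp.weight w m := by
  rw [lamW, MvPolynomial.coe_eval₂Hom, MvPolynomial.eval₂_monomial, MvPolynomial.monomial_eq, Finsupp.prod,
    Finsupp.prod]
  simp only [mul_pow, Finset.prod_mul_distrib, map_mul, map_prod, map_pow, RingHom.coe_comp, Function.comp_apply]
  rw [mul_assoc]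
  congr 2
  rw [Finsupp.weight_apply, Finsupp.sum, ← Finset.prod_pow_eq_pow_sum]
  refine Finset.prod_congr rfl fun x _ => ?_
  rw [← pow_mul, smul_eq_mul, mul_comm]

private theorem G0_coeff_comp (w : σ → ℕ) (F : MvPolynomial σ R) (e : ℕ) (m : σ →₀ ℕ) :
    MvPolynomial.coeff m (comp w e F) = if Finsupp.weight w m = e then MvPolynomial.coeff m F else 0 := by
  classical
  rw [comp, MvPolynomial.coeff_weightedHomogeneousComponent]

theorem lamW_coeff (w : σ → ℕ) (F : MvPolynomial σ R) (e : ℕ) : (lamW w F).coeff e = comp w e F := by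
  classical
  induction F using MvPolynomial.induction_on' with
  | monomial m r =>
    rw [G0_mon, coeff_C_mul, coeff_X_pow]
    ext m'
    rw [G0_coeff_comp, MvPolynomial.coeff_monomial]
    by_cases h : e = Finsupp.weight w m
    · rw [if_pos h, mul_one, MvPolynomial.coeff_monomial]
      by_cases h2 : m = m'
      · subst h2
        rw [if_pos rfl, if_pos h.symm]
      · rw [if_neg h2]
        split_ifs <;> rfl
    · rw [if_neg h, mul_zero, MvPolynomial.coeff_zero]
      by_cases h2 : m = m'
      · subst h2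
        rw [if_neg (fun h3 => h h3.symm)]
      · rw [if_neg h2]
        split_ifs <;> rfl
  | add p q hp hq =>
    rw [map_add, coeff_add, hp, hq, comp, comp, comp, map_add]

theorem lamW_comp (w : σ → ℕ) (F : MvPolynomial σ R) (e : ℕ) : lamW w (comp w e F) = C (comp w e F) * X ^ e := by
  classical
  induction F using MvPolynomial.induction_on' with
  | monomial m r =>
    have h : comp w e (MvPolynomial.monomial m r)
        = if Finsupp.weight w m = e then MvPolynomial.monomial m r else 0 := by
      ext m'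
      rw [G0_coeff_comp]
      by_cases h : Finsupp.weight w m = e
      · rw [if_pos h]
        split_ifs with h1
        · rfl
        · rw [MvPolynomial.coeff_monomial, if_neg]
          rintro rfl
          exact h1 h
      · rw [if_neg h]
        split_ifs with h1
        · rw [MvPolynomial.coeff_monomial, if_neg, MvPolynomial.coeff_zero]
          rintro rfl
          exact h h1
        · rw [MvPolynomial.coeff_zero]
    rw [h]
    split_ifs with h1
    · rw [G0_mon, h1]
    · rw [map_zero, map_zero, zero_mul]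
  | add p q hp hq =>
    have h : comp w e (p + q) = comp w e p + comp w e q := by rw [comp, comp, comp, map_add]
    rw [h, map_add, hp, hq, map_add, add_mul]

theorem lamW_eval (w : σ → ℕ) (F : MvPolynomial σ R) : (lamW w F).eval 1 = F := by
  induction F using MvPolynomial.induction_on' with
  | monomial m r =>
    rw [G0_mon, eval_mul, eval_C, eval_pow, eval_X, one_pow, mul_one]
  | add p q hp hq =>
    rw [map_add, eval_add, hp, hq]

theorem ordGE_iff (w : σ → ℕ) (e : ℕ) (F : MvPolynomial σ R) : ordGE w e F ↔ ∀ i < e, comp w i F = 0 := by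
  constructor
  · intro h i hi
    ext m
    rw [G0_coeff_comp, MvPolynomial.coeff_zero]
    split_ifs with h1
    · by_contra h2
      have := h m (MvPolynomial.mem_support_iff.mpr h2)
      omega
    · rfl
  · intro h m hm
    by_contra h1
    have h2 := congrArg (MvPolynomial.coeff m) (h _ (not_le.mp h1))
    rw [G0_coeff_comp, if_pos rfl, MvPolynomial.coeff_zero] at h2
    exact (MvPolynomial.mem_support_iff.mp hm) h2

theorem ordGE_iff_dvd (w : σ → ℕ) (e : ℕ) (F : MvPolynomial σ R) : ordGE w e F ↔ X ^ e ∣ lamW w F := by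
  rw [ordGE_iff, X_pow_dvd_iff]
  refine forall_congr' fun i => forall_congr' fun _ => ?_
  rw [lamW_coeff]

theorem ordGE_zero (w : σ → ℕ) (F : MvPolynomial σ R) : ordGE w 0 F := by
  intro m _
  exact Nat.zero_le _

theorem ordGE_succ (w : σ → ℕ) (e : ℕ) (F : MvPolynomial σ R) (h : ordGE w e F) (h0 : comp w e F = 0) :
    ordGE w (e + 1) F := by
  rw [ordGE_iff] at h ⊢
  intro i hi
  rcases Nat.lt_succ_iff_lt_or_eq.mp hi with h1 | h1
  · exact h i h1
  · rw [h1]
    exact h0

theorem ordGE_sub (w : σ → ℕ) (e : ℕ) (F G : MvPolynomial σ R) (hF : ordGE w e F) (hG : ordGE w e G) :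
    ordGE w e (F - G) := by
  rw [ordGE_iff_dvd] at hF hG ⊢
  rw [map_sub]
  exact dvd_sub hF hG

theorem ordGE_pow (w : σ → ℕ) (e m : ℕ) (F : MvPolynomial σ R) (hF : ordGE w e F) : ordGE w (e * m) (F ^ m) := by
  rw [ordGE_iff_dvd] at hF ⊢
  rw [map_pow, pow_mul]
  exact pow_dvd_pow_of_dvd hF m

theorem ordGE_mono (w w' : σ → ℕ) (hw : ∀ x, w x ≤ w' x) (e : ℕ) (F : MvPolynomial σ R) (h : ordGE w e F) :
    ordGE w' e F := by
  intro m hm
  refine (h m hm).trans ?_
  rw [Finsupp.weight_apply, Finsupp.weight_apply, Finsupp.sum, Finsupp.sum]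
  refine Finset.sum_le_sum fun x _ => ?_
  rw [smul_eq_mul, smul_eq_mul]
  exact Nat.mul_le_mul_left _ (hw x)

theorem ordGE_comp_mul (w : σ → ℕ) (e : ℕ) (F G : MvPolynomial σ R) : ordGE w e (comp w e F * G) := by
  rw [ordGE_iff_dvd, map_mul, lamW_comp]
  exact Dvd.dvd.mul_right (Dvd.intro_left _ rfl) _

theorem comp_mul_of_ordGE (w : σ → ℕ) (e e' : ℕ) (F G : MvPolynomial σ R) (hF : ordGE w e F) (hG : ordGE w e' G) :
    comp w (e + e') (F * G) = comp w e F * comp w e' G := by
  rw [ordGE_iff_dvd] at hF hG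
  obtain ⟨a, ha⟩ := hF
  obtain ⟨b, hb⟩ := hG
  rw [← lamW_coeff, ← lamW_coeff, ← lamW_coeff, map_mul, ha, hb,
    show X ^ e * a * (X ^ e' * b) = a * b * X ^ (e + e') by ring, mul_comm (X ^ e) a, mul_comm (X ^ e') b]
  have h1 := coeff_mul_X_pow (a * b) (e + e') 0
  have h2 := coeff_mul_X_pow a e 0
  have h3 := coeff_mul_X_pow b e' 0
  rw [zero_add] at h1 h2 h3
  rw [h1, h2, h3, mul_coeff_zero]

theorem comp_pow_of_ordGE (w : σ → ℕ) (e m : ℕ) (F : MvPolynomial σ R) (hF : ordGE w e F) :
    comp w (e * m) (F ^ m) = comp w e F ^ m := by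
  induction m with
  | zero =>
    rw [Nat.mul_zero, pow_zero, pow_zero, ← lamW_coeff, map_one, coeff_one_zero]
  | succ m ih =>
    rw [pow_succ, pow_succ, Nat.mul_succ, comp_mul_of_ordGE w (e * m) e (F ^ m) F (ordGE_pow w e m F hF) hF, ih]

theorem comp_comp (w : σ → ℕ) (e : ℕ) (F : MvPolynomial σ R) : comp w e (comp w e F) = comp w e F := by
  rw [← lamW_coeff w (comp w e F) e, lamW_comp, coeff_C_mul, coeff_X_pow, if_pos rfl, mul_one]

theorem comp_mul_comp_zero (w : σ → ℕ) (e : ℕ) (F G : MvPolynomial σ R) :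
    comp w e (F * comp w 0 G) = comp w e F * comp w 0 G := by
  rw [← lamW_coeff, map_mul, lamW_comp, pow_zero, mul_one, coeff_mul_C, lamW_coeff]

theorem comp_comp_mul (w : σ → ℕ) (e : ℕ) (F G : MvPolynomial σ R) :
    comp w e (comp w e F * G) = comp w e F * comp w 0 G := by
  rw [← lamW_coeff, map_mul, lamW_comp, mul_assoc, coeff_C_mul]
  have h := coeff_X_pow_mul (lamW w G) e 0
  rw [zero_add] at h
  rw [h, lamW_coeff]

theorem comp_add (w : σ → ℕ) (e : ℕ) (F G : MvPolynomial σ R) : comp w e (F + G) = comp w e F + comp w e G := by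
  rw [comp, comp, comp, map_add]

theorem comp_sub (w : σ → ℕ) (e : ℕ) (F G : MvPolynomial σ R) : comp w e (F - G) = comp w e F - comp w e G := by
  rw [comp, comp, comp, map_sub]

theorem comp_sum (w : σ → ℕ) (e : ℕ) {I : Type*} (s : Finset I) (F : I → MvPolynomial σ R) :
    comp w e (∑ a ∈ s, F a) = ∑ a ∈ s, comp w e (F a) := by
  rw [comp, map_sum]
  rfl

theorem comp_zero_mul (w : σ → ℕ) (F G : MvPolynomial σ R) : comp w 0 (F * G) = comp w 0 F * comp w 0 G := by
  rw [← lamW_coeff, ← lamW_coeff, ← lamW_coeff, map_mul, mul_coeff_zero]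

/-- the component of weight 0 as a ring hom: kill the variables of positive weight -/
theorem comp_zero_eq (w : σ → ℕ) (F : MvPolynomial σ R) :
    comp w 0 F = MvPolynomial.eval₂Hom MvPolynomial.C (fun x => if w x = 0 then MvPolynomial.X x else 0) F := by
  have h : ∀ F : MvPolynomial σ R, comp w 0 F = ((constantCoeff : (MvPolynomial σ R)[X] →+* _).comp (lamW w)) F := by
    intro F
    rw [RingHom.comp_apply, constantCoeff_apply, lamW_coeff]
  rw [h]
  congr 1
  refine MvPolynomial.ringHom_ext ?_ ?_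
  · intro r
    rw [RingHom.comp_apply, lamW, MvPolynomial.coe_eval₂Hom, MvPolynomial.eval₂_C, MvPolynomial.coe_eval₂Hom,
      MvPolynomial.eval₂_C, RingHom.comp_apply, constantCoeff_apply, coeff_C_zero]
  · intro x
    rw [RingHom.comp_apply, lamW, MvPolynomial.coe_eval₂Hom, MvPolynomial.eval₂_X, MvPolynomial.coe_eval₂Hom,
      MvPolynomial.eval₂_X, constantCoeff_apply, coeff_C_mul, coeff_X_pow]
    by_cases hx : w x = 0
    · rw [if_pos hx, hx, if_pos rfl, mul_one]
    · rw [if_neg hx, if_neg (fun h2 => hx h2.symm), mul_zero]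

theorem comp_map {R' : Type*} [CommRing R'] (φ : R →+* R') (w : σ → ℕ) (e : ℕ) (F : MvPolynomial σ R) :
    comp w e (MvPolynomial.map φ F) = MvPolynomial.map φ (comp w e F) := by
  ext m
  rw [G0_coeff_comp, MvPolynomial.coeff_map, MvPolynomial.coeff_map, G0_coeff_comp]
  split_ifs
  · rfl
  · rw [map_zero]

theorem ordGE_map {R' : Type*} [CommRing R'] (φ : R →+* R') (w : σ → ℕ) (e : ℕ) (F : MvPolynomial σ R)
    (h : ordGE w e F) : ordGE w e (MvPolynomial.map φ F) := by
  intro m hm
  refine h m ?_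
  rw [MvPolynomial.mem_support_iff] at hm ⊢
  intro h1
  apply hm
  rw [MvPolynomial.coeff_map, h1, map_zero]

end Pool.Agent.LibCQ2
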