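import Pool.Agent.LibCQ2.B10a
import Pool.Agent.LibCQ2.G0

set_option autoImplicit false

/-! ROW B10b (MEDIUM, Defs + B1, B10a, G0). Evaluation coordinates.
 V := Matrix.vandermonde y (V i l = y i ^ l), det V = ∏ of differences is a unit, W := V⁻¹: ∑_l V i l * W l j = δ_ij and ∑_i W l i * V i m = δ_lm.
 χ : aeval: X (inl (j, i)) ↦ (uv R n b j).eval (C (y i)) = ∑_l X (inl (j,l)) * C (y i ^ l); X (inr (j,k,i)) ↦ (tv j k).eval (C (y i)). Inverse χ': X (inl (j,l)) ↦ ∑_i C (W l i) * X (inl (j,i)), same for t.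
   (AlgEquiv.ofAlgHom, MvPolynomial.algHom_ext.)
 comp: χ maps a variable of weight d to a sum of variables of weight d (times constants); so lamW (χ F) = (lamW F).map χ as ring homs (compare on C and X), then lamW_coeff. Hence comp e (χ F) = χ (comp e F);
   ordGE via ordGE_iff and injectivity of χ.
 KI = map: remId_values for the ring MvPolynomial (IK n b) R and C ∘ y (units), gP_map: remId (gg n y) (∑_j uv j * tv j k) = span of the values ∑_j χ(X (inl (j,i))) χ(X (inr (j,k,i))) = χ (Gev (inl (i,k)));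
   det: eval is a ring hom: (det tv)(y_i) = det of the values = χ (Gev (inr i)) (RingHom.map_det). Ideal.map_span, iSup of spans = span of the union; range over (Fin b × Fin n) ⊕ Fin b. K0 the same with
   monomial (Eev ..) 1 = X * X, ∏ X. -/

namespace Pool.Agent.LibCQ2

open Polynomial

/-- linear substitution in the last index -/
private noncomputable def B10b_sub {R : Type*} [CommRing R] (n b : ℕ) (M : Matrix (Fin b) (Fin b) R) :
    MvPolynomial (IK n b) R →ₐ[R] MvPolynomial (IK n b) R :=
  MvPolynomial.aeval (Sum.elim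
    (fun p => ∑ l, MvPolynomial.C (M p.2 l) * MvPolynomial.X (Sum.inl (p.1, l)))
    (fun p => ∑ l, MvPolynomial.C (M p.2.2 l) * MvPolynomial.X (Sum.inr (p.1, p.2.1, l))))

private theorem B10b_sub_inl {R : Type*} [CommRing R] (n b : ℕ) (M : Matrix (Fin b) (Fin b) R) (j : Fin n)
    (i : Fin b) : B10b_sub n b M (MvPolynomial.X (Sum.inl (j, i))) =
      ∑ l, MvPolynomial.C (M i l) * MvPolynomial.X (Sum.inl (j, l)) := by
  simp [B10b_sub]

private theorem B10b_sub_inr {R : Type*} [CommRing R] (n b : ℕ) (M : Matrix (Fin b) (Fin b) R) (j k : Fin n)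
    (i : Fin b) : B10b_sub n b M (MvPolynomial.X (Sum.inr (j, k, i))) =
      ∑ l, MvPolynomial.C (M i l) * MvPolynomial.X (Sum.inr (j, k, l)) := by
  simp [B10b_sub]

private theorem B10b_sub_C {R : Type*} [CommRing R] (n b : ℕ) (M : Matrix (Fin b) (Fin b) R) (r : R) :
    B10b_sub n b M (MvPolynomial.C r) = MvPolynomial.C r :=
  (B10b_sub n b M).commutes r

private theorem B10b_comp {R : Type*} [CommRing R] (n b : ℕ) (M N : Matrix (Fin b) (Fin b) R) :
    (B10b_sub n b M).comp (B10b_sub n b N) = B10b_sub n b (N * M) := by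
  apply MvPolynomial.algHom_ext
  intro x
  rw [AlgHom.comp_apply]
  rcases x with ⟨j, i⟩ | ⟨j, k, i⟩
  · rw [B10b_sub_inl, B10b_sub_inl, map_sum]
    simp only [map_mul, B10b_sub_C, B10b_sub_inl, Matrix.mul_apply, map_sum, Finset.mul_sum, Finset.sum_mul]
    rw [Finset.sum_comm]
    refine Finset.sum_congr rfl fun l _ => Finset.sum_congr rfl fun m _ => ?_
    ring
  · rw [B10b_sub_inr, B10b_sub_inr, map_sum]
    simp only [map_mul, B10b_sub_C, B10b_sub_inr, Matrix.mul_apply, map_sum, Finset.mul_sum, Finset.sum_mul]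
    rw [Finset.sum_comm]
    refine Finset.sum_congr rfl fun l _ => Finset.sum_congr rfl fun m _ => ?_
    ring

private theorem B10b_one {R : Type*} [CommRing R] (n b : ℕ) :
    B10b_sub n b (1 : Matrix (Fin b) (Fin b) R) = AlgHom.id R _ := by
  apply MvPolynomial.algHom_ext
  intro x
  rcases x with ⟨j, i⟩ | ⟨j, k, i⟩
  · rw [B10b_sub_inl, Finset.sum_eq_single i]
    · simp
    · intro l _ hl
      rw [Matrix.one_apply_ne (Ne.symm hl)]
      simp
    · simp
  · rw [B10b_sub_inr, Finset.sum_eq_single i]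
    · simp
    · intro l _ hl
      rw [Matrix.one_apply_ne (Ne.symm hl)]
      simp
    · simp

private theorem B10b_lam {R : Type*} [CommRing R] (n b : ℕ) (M : Matrix (Fin b) (Fin b) R) :
    (lamW (wOff n b)).comp (B10b_sub n b M : MvPolynomial (IK n b) R →+* MvPolynomial (IK n b) R) =
      (Polynomial.mapRingHom (B10b_sub n b M : MvPolynomial (IK n b) R →+* MvPolynomial (IK n b) R)).comp
        (lamW (wOff n b)) := by
  apply MvPolynomial.ringHom_ext
  · intro r
    simp only [RingHom.comp_apply, RingHom.coe_coe, B10b_sub_C]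
    simp [lamW, B10b_sub_C]
  · intro x
    rcases x with ⟨j, i⟩ | ⟨j, k, i⟩
    · simp only [RingHom.comp_apply, RingHom.coe_coe, B10b_sub_inl]
      simp [lamW, B10b_sub_inl, wOff, Finset.sum_mul, B10b_sub_C]
    · simp only [RingHom.comp_apply, RingHom.coe_coe, B10b_sub_inr]
      simp only [lamW, map_sum, map_mul, MvPolynomial.coe_eval₂Hom, MvPolynomial.eval₂_C, MvPolynomial.eval₂_X,
        RingHom.comp_apply, Polynomial.coe_mapRingHom, Polynomial.map_C, Polynomial.map_X, Polynomial.map_pow,
        Polynomial.map_mul, RingHom.coe_coe, B10b_sub_inr, wOff, Finset.sum_mul, mul_assoc]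

private theorem B10b_compe {R : Type*} [CommRing R] (n b : ℕ) (M : Matrix (Fin b) (Fin b) R) (e : ℕ)
    (F : MvPolynomial (IK n b) R) :
    comp (wOff n b) e (B10b_sub n b M F) = B10b_sub n b M (comp (wOff n b) e F) := by
  rw [← lamW_coeff, ← lamW_coeff]
  have h := congrArg (fun f => (f F).coeff e) (B10b_lam n b M)
  simp only [RingHom.comp_apply, RingHom.coe_coe, Polynomial.coe_mapRingHom, Polynomial.coeff_map] at h
  exact h

private theorem B10b_sup {A : Type*} [CommRing A] (n b : ℕ) (G : (Fin b × Fin n) ⊕ Fin b → A) :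
    (⨆ k : Fin n, Ideal.span (Set.range fun i : Fin b => G (Sum.inl (i, k)))) ⊔
      Ideal.span (Set.range fun i : Fin b => G (Sum.inr i)) = Ideal.span (Set.range G) := by
  apply le_antisymm
  · refine sup_le (iSup_le fun k => ?_) ?_
    · rw [Ideal.span_le]
      rintro _ ⟨i, rfl⟩
      exact Ideal.subset_span ⟨_, rfl⟩
    · rw [Ideal.span_le]
      rintro _ ⟨i, rfl⟩
      exact Ideal.subset_span ⟨_, rfl⟩
  · rw [Ideal.span_le]
    rintro _ ⟨a, rfl⟩
    rcases a with ⟨i, k⟩ | i
    · refine Ideal.mem_sup_left ?_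
      exact Ideal.mem_iSup_of_mem k (Ideal.subset_span ⟨i, rfl⟩)
    · exact Ideal.mem_sup_right (Ideal.subset_span ⟨i, rfl⟩)

private theorem B10b_pV {A : Type*} [CommRing A] {p : ℕ} (t : Fin p → A) (a : A) :
    (pV t).eval a = ∑ l : Fin p, t l * a ^ (l : ℕ) := by
  simp [pV, Polynomial.eval_finsetSum]

private theorem B10b_uv {R : Type*} [CommRing R] (n : ℕ) {b : ℕ} (y : Fin b → R) (j : Fin n) (i : Fin b) :
    (uv R n b j).eval (MvPolynomial.C (y i)) =
      B10b_sub n b (Matrix.vandermonde y) (MvPolynomial.X (Sum.inl (j, i))) := by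
  rw [B10b_sub_inl, uv, B10b_pV]
  refine Finset.sum_congr rfl fun l _ => ?_
  rw [Matrix.vandermonde_apply, map_pow, mul_comm]

private theorem B10b_tv {R : Type*} [CommRing R] (n : ℕ) {b : ℕ} (y : Fin b → R) (j k : Fin n) (i : Fin b) :
    (tv R n b j k).eval (MvPolynomial.C (y i)) =
      B10b_sub n b (Matrix.vandermonde y) (MvPolynomial.X (Sum.inr (j, k, i))) := by
  rw [B10b_sub_inr, tv, Matrix.of_apply, B10b_pV]
  refine Finset.sum_congr rfl fun l _ => ?_
  rw [Matrix.vandermonde_apply, map_pow, mul_comm]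

theorem eval_coords {R : Type*} [CommRing R] (n : ℕ) {b : ℕ} (y : Fin b → R) (hy : ∀ i j, i ≠ j → IsUnit (y i - y j)) :
    ∃ χ : MvPolynomial (IK n b) R ≃ₐ[R] MvPolynomial (IK n b) R,
      (∀ e F, comp (wOff n b) e (χ F) = χ (comp (wOff n b) e F)) ∧
      (∀ e F, ordGE (wOff n b) e (χ F) ↔ ordGE (wOff n b) e F) ∧
      KI n y = (Ideal.span (Set.range (Gev R n b))).map χ ∧
      K0 n y = (Ideal.span (Set.range fun a => (MvPolynomial.monomial (Eev n b a) (1 : R) : MvPolynomial (IK n b) R))).map χ := by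
  have hdet : IsUnit (Matrix.vandermonde y).det := by
    rw [Matrix.det_vandermonde]
    refine (IsUnit.prod_univ_iff).mpr fun i => ?_
    rw [IsUnit.prod_iff]
    intro j hj
    exact hy j i (ne_of_gt (Finset.mem_Ioi.mp hj))
  set V := Matrix.vandermonde y with hV
  have hVW : V * V⁻¹ = 1 := Matrix.mul_nonsing_inv V hdet
  have hWV : V⁻¹ * V = 1 := Matrix.nonsing_inv_mul V hdet
  let χ : MvPolynomial (IK n b) R ≃ₐ[R] MvPolynomial (IK n b) R :=
    AlgEquiv.ofAlgHom (B10b_sub n b V) (B10b_sub n b V⁻¹)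
      (by rw [B10b_comp, hWV, B10b_one]) (by rw [B10b_comp, hVW, B10b_one])
  have hχ : ∀ F, χ F = B10b_sub n b V F := fun F => rfl
  have hcomp : ∀ e F, comp (wOff n b) e (χ F) = χ (comp (wOff n b) e F) := by
    intro e F
    rw [hχ, hχ, B10b_compe]
  have hgg : gg n y = gP (fun i => (MvPolynomial.C (y i) : MvPolynomial (IK n b) R)) Finset.univ := by
    rw [gg, gP_map]
  have hy' : ∀ i j, i ≠ j → IsUnit ((MvPolynomial.C (y i) : MvPolynomial (IK n b) R) - MvPolynomial.C (y j)) := by
    intro i j hij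
    rw [← map_sub]
    exact (hy i j hij).map MvPolynomial.C
  refine ⟨χ, hcomp, ?_, ?_, ?_⟩
  · intro e F
    rw [ordGE_iff, ordGE_iff]
    refine forall_congr' fun i => forall_congr' fun _ => ?_
    rw [hcomp, map_eq_zero_iff χ χ.injective]
  · have hmap : (Ideal.span (Set.range (Gev R n b))).map χ =
        Ideal.span (Set.range fun a => χ (Gev R n b a)) := by
      rw [Ideal.map_span, ← Set.range_comp]
      rfl
    rw [hmap, ← B10b_sup, KI, hgg, remId_values _ hy']
    congr 1
    · refine iSup_congr fun k => ?_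
      rw [remId_values _ hy']
      congr 1
      refine congrArg Set.range (funext fun i => ?_)
      rw [Gev, map_sum, Polynomial.eval_finsetSum]
      refine Finset.sum_congr rfl fun j _ => ?_
      rw [Polynomial.eval_mul, B10b_uv, B10b_tv, map_mul, hχ, hχ]
    · congr 1
      refine congrArg Set.range (funext fun i => ?_)
      have h1 : (tv R n b).det.eval (MvPolynomial.C (y i)) =
          (Polynomial.evalRingHom (MvPolynomial.C (y i) : MvPolynomial (IK n b) R)) (tv R n b).det := rfl
      have h2 : χ (Gev R n b (Sum.inr i)) =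
          (χ : MvPolynomial (IK n b) R →+* MvPolynomial (IK n b) R) (Gev R n b (Sum.inr i)) := rfl
      rw [h1, RingHom.map_det, h2, Gev, RingHom.map_det]
      congr 1
      ext1 j k
      simp only [RingHom.mapMatrix_apply, Matrix.map_apply, Polynomial.coe_evalRingHom, Matrix.of_apply]
      rw [B10b_tv]
      rfl
  · have hmap : (Ideal.span (Set.range fun a =>
          (MvPolynomial.monomial (Eev n b a) (1 : R) : MvPolynomial (IK n b) R))).map χ =
        Ideal.span (Set.range fun a => χ (MvPolynomial.monomial (Eev n b a) (1 : R))) := by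
      rw [Ideal.map_span, ← Set.range_comp]
      rfl
    rw [hmap, ← B10b_sup, K0, hgg, remId_values _ hy']
    congr 1
    · refine iSup_congr fun k => ?_
      rw [remId_values _ hy']
      congr 1
      refine congrArg Set.range (funext fun i => ?_)
      rw [Polynomial.eval_mul, B10b_uv, B10b_tv, ← hχ, ← hχ, ← map_mul]
      congr 1
      rw [Eev, MvPolynomial.X, MvPolynomial.X, MvPolynomial.monomial_mul, one_mul]
    · congr 1
      refine congrArg Set.range (funext fun i => ?_)
      rw [Polynomial.eval_prod, Eev, MvPolynomial.monomial_sum_one, map_prod]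
      refine Finset.prod_congr rfl fun k _ => ?_
      rw [B10b_tv, ← hχ]
      rfl

end Pool.Agent.LibCQ2
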