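import Pool.Agent.LibCQ2.B8a

set_option autoImplicit false

/-! ROW B8b (MEDIUM, Defs + G0, B8a). The lifts for the generators Gev (index (i,k): ∑_j u_{j,i} t_{j,k,i}; index i: det t_i), Eev their initial exponents.
 Gev_comp: comp_zero_eq: setting the off-diagonal t to 0: ∑_j u_j t_jk -> u_k t_kk; det -> det of a diagonal matrix (RingHom.map_det, Matrix.det_diagonal) = ∏ t_kk; as monomials: MvPolynomial.monomial_add_single,
   X x = monomial (single x 1) 1, monomial_finsupp_sum / Finset.prod of X = monomial of the sum.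
 LPev: LP_of_lift with w := wOff n b, G := Gev R n b, e := Eev n b. hlift a a': let Gs := fun a => lamW w (Gev a).
   * If Disjoint (e a) (e a') (as Finsupps, e a ⊓ e a' = 0): e a ⊔ e a' - e a = e a', e a ⊔ e a' - e a' = e a. c' := Pi.single a (Gs a') - Pi.single a' (Gs a); the sum is Gs a' * Gs a - Gs a * Gs a' = 0,
     coeff 0 of Gs a' is monomial (e a') 1 (lamW_coeff, Gev_comp). (If a = a' take c' = 0.)
   * a = inl (i, k), a' = inr i: e a ⊔ e a' - e a = ∑_{j ≠ k} single (inr (j,j,i)) 1, e a ⊔ e a' - e a' = single (inl (k, i)) 1. Let M := matrix of lamW (X (inr (j,k,i))) over (..)[X], U j := lamW (X (inl (j,i))) = C (X (inl (j,i))).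
     U ᵥ* M ᵥ* adj M = det M • U: ∑_j Gs (inl (i,j)) * (adj M) j k = Gs (inr i) * U k. c' := fun | inl (i', j) => if i' = i then (M.adjugate) j k else 0 | inr i' => if i' = i then -U k else 0.
     coeff 0 of adj M: the map coeff 0 (constantCoeff) is a ring hom, RingHom.map_adjugate, M at 0 is diagonal: adjugate_diagonal / entries δ_jk ∏_{j' ≠ k} t_{j'j'} .
   * a = inr i, a' = inl (i, k): negative of the previous one.
   All other pairs are disjoint: inl (i,k), inl (i',k') distinct; inl (i,k), inr i' with i ≠ i'; inr i, inr i' distinct. -/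

namespace Pool.Agent.LibCQ2

open Polynomial

section

variable (R : Type*) [CommRing R] (n b : ℕ)

private noncomputable def B8b_M (i : Fin b) : Matrix (Fin n) (Fin n) (MvPolynomial (IK n b) R)[X] :=
  Matrix.of fun j k => lamW (wOff n b) (MvPolynomial.X (Sum.inr (j, k, i)))

private noncomputable def B8b_U (i : Fin b) (j : Fin n) : (MvPolynomial (IK n b) R)[X] :=
  lamW (wOff n b) (MvPolynomial.X (Sum.inl (j, i)))

private theorem B8b_Gl (i : Fin b) (k : Fin n) :
    lamW (wOff n b) (Gev R n b (Sum.inl (i, k))) = ∑ j, B8b_U R n b i j * B8b_M R n b i j k := by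
  unfold Gev
  rw [map_sum]
  refine Finset.sum_congr rfl fun j _ => ?_
  rw [map_mul]
  rfl

private theorem B8b_Gr (i : Fin b) :
    lamW (wOff n b) (Gev R n b (Sum.inr i)) = (B8b_M R n b i).det := by
  unfold Gev
  rw [RingHom.map_det]
  rfl

private theorem B8b_adj (i : Fin b) (k : Fin n) :
    ∑ j, (B8b_M R n b i).adjugate j k * lamW (wOff n b) (Gev R n b (Sum.inl (i, j))) =
      B8b_U R n b i k * lamW (wOff n b) (Gev R n b (Sum.inr i)) := by
  rw [B8b_Gr]
  have h1 : ∑ j, (B8b_M R n b i).adjugate j k * lamW (wOff n b) (Gev R n b (Sum.inl (i, j))) =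
      ∑ l, B8b_U R n b i l * (B8b_M R n b i * (B8b_M R n b i).adjugate) l k := by
    simp only [B8b_Gl, Matrix.mul_apply, Finset.mul_sum]
    rw [Finset.sum_comm]
    refine Finset.sum_congr rfl fun l _ => Finset.sum_congr rfl fun j _ => ?_
    ring
  rw [h1, Matrix.mul_adjugate]
  rw [Finset.sum_eq_single k]
  · rw [Matrix.smul_apply, Matrix.one_apply_eq, smul_eq_mul, mul_one]
  · intro l _ hl
    rw [Matrix.smul_apply, Matrix.one_apply_ne hl, smul_zero, mul_zero]
  · intro h
    exact absurd (Finset.mem_univ k) h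

private theorem B8b_X0 (x : IK n b) :
    (lamW (wOff n b) (MvPolynomial.X x : MvPolynomial (IK n b) R)).coeff 0 =
      if wOff n b x = 0 then MvPolynomial.X x else 0 := by
  rw [lamW, MvPolynomial.eval₂Hom_X', coeff_C_mul, coeff_X_pow]
  by_cases h : wOff n b x = 0
  · rw [if_pos h.symm, if_pos h, mul_one]
  · rw [if_neg (Ne.symm h), if_neg h, mul_zero]

private theorem B8b_wr (j k : Fin n) (i : Fin b) : wOff n b (Sum.inr (j, k, i)) = if j = k then 0 else 1 := rfl

private theorem B8b_wl (x : Fin n × Fin b) : wOff n b (Sum.inl x) = 0 := rfl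

private theorem B8b_M0 (i : Fin b) :
    (constantCoeff : (MvPolynomial (IK n b) R)[X] →+* _).mapMatrix (B8b_M R n b i) =
      Matrix.diagonal fun k => MvPolynomial.X (Sum.inr (k, k, i)) := by
  ext1 j k
  rw [RingHom.mapMatrix_apply, Matrix.map_apply, constantCoeff_apply, B8b_M, Matrix.of_apply, B8b_X0]
  by_cases h : j = k
  · rw [h, Matrix.diagonal_apply_eq, if_pos]
    rw [B8b_wr, if_pos rfl]
  · rw [Matrix.diagonal_apply_ne _ h, if_neg]
    rw [B8b_wr, if_neg h]
    exact one_ne_zero

private theorem B8b_adj0 (i : Fin b) (j k : Fin n) :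
    ((B8b_M R n b i).adjugate j k).coeff 0 =
      if j = k then MvPolynomial.monomial (∑ l ∈ Finset.univ.erase k, Finsupp.single (Sum.inr (l, l, i)) 1)
        (1 : R) else 0 := by
  have h1 : ((B8b_M R n b i).adjugate j k).coeff 0 =
      ((constantCoeff : (MvPolynomial (IK n b) R)[X] →+* _).mapMatrix (B8b_M R n b i).adjugate) j k := rfl
  rw [h1, RingHom.map_adjugate, B8b_M0, Matrix.adjugate_diagonal, Matrix.diagonal_apply]
  by_cases h : j = k
  · rw [if_pos h, if_pos h, h, MvPolynomial.monomial_sum_one]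
    rfl
  · rw [if_neg h, if_neg h]

private theorem B8b_U0 (i : Fin b) (k : Fin n) :
    (B8b_U R n b i k).coeff 0 = MvPolynomial.monomial (Finsupp.single (Sum.inl (k, i)) 1) (1 : R) := by
  rw [B8b_U, B8b_X0, if_pos (B8b_wl n b _)]
  rfl

end

theorem Gev_comp (R : Type*) [CommRing R] (n b : ℕ) (a : (Fin b × Fin n) ⊕ Fin b) :
    comp (wOff n b) 0 (Gev R n b a) = MvPolynomial.monomial (Eev n b a) (1 : R) := by
  rw [← lamW_coeff]
  rcases a with ⟨i, k⟩ | i
  · rw [B8b_Gl, finsetSum_coeff, Finset.sum_eq_single k]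
    · rw [mul_coeff_zero, B8b_U0, B8b_M, Matrix.of_apply, B8b_X0, if_pos]
      · unfold Eev
        rw [← one_mul (1 : R), ← MvPolynomial.monomial_mul, one_mul]
        rfl
      · rw [B8b_wr, if_pos rfl]
    · intro j _ hj
      rw [mul_coeff_zero, B8b_M, Matrix.of_apply, B8b_X0, if_neg, mul_zero]
      rw [B8b_wr, if_neg hj]
      exact one_ne_zero
    · intro h
      exact absurd (Finset.mem_univ k) h
  · rw [B8b_Gr]
    have h1 : ((B8b_M R n b i).det).coeff 0 =
        (constantCoeff : (MvPolynomial (IK n b) R)[X] →+* _) (B8b_M R n b i).det := rfl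
    rw [h1, RingHom.map_det, B8b_M0, Matrix.det_diagonal]
    unfold Eev
    rw [MvPolynomial.monomial_sum_one]
    rfl

private theorem B8b_suppl (n b : ℕ) (i : Fin b) (k : Fin n) (x : IK n b) (h : Eev n b (Sum.inl (i, k)) x ≠ 0) :
    x = Sum.inl (k, i) ∨ x = Sum.inr (k, k, i) := by
  by_contra hcon
  rw [not_or] at hcon
  apply h
  unfold Eev
  rw [Finsupp.add_apply, Finsupp.single_apply, Finsupp.single_apply, if_neg (Ne.symm hcon.1),
    if_neg (Ne.symm hcon.2), add_zero]

private theorem B8b_suppr (n b : ℕ) (i : Fin b) (x : IK n b) (h : Eev n b (Sum.inr i) x ≠ 0) :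
    ∃ k : Fin n, x = Sum.inr (k, k, i) := by
  by_contra hcon
  apply h
  unfold Eev
  rw [Finsupp.finsetSum_apply]
  apply Finset.sum_eq_zero
  intro k _
  rw [Finsupp.single_apply, if_neg]
  intro h'
  exact hcon ⟨k, h'.symm⟩

/-- the lift of the syzygy of a pair -/
private def B8b_Lift (R : Type*) [CommRing R] (n b : ℕ) (a a' : (Fin b × Fin n) ⊕ Fin b) : Prop :=
  ∃ c' : (Fin b × Fin n) ⊕ Fin b → (MvPolynomial (IK n b) R)[X],
    (∑ a'', c' a'' * lamW (wOff n b) (Gev R n b a'')) = 0 ∧
    ∀ a'', (c' a'').coeff 0 =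
      (Pi.single a (MvPolynomial.monomial (Eev n b a ⊔ Eev n b a' - Eev n b a) (1 : R)) -
        Pi.single a' (MvPolynomial.monomial (Eev n b a ⊔ Eev n b a' - Eev n b a') (1 : R)) :
        (Fin b × Fin n) ⊕ Fin b → MvPolynomial (IK n b) R) a''

private theorem B8b_symm {R : Type*} [CommRing R] {n b : ℕ} {a a' : (Fin b × Fin n) ⊕ Fin b}
    (h : B8b_Lift R n b a a') : B8b_Lift R n b a' a := by
  obtain ⟨c, h1, h2⟩ := h
  refine ⟨fun a'' => -c a'', ?_, fun a'' => ?_⟩
  · have h3 : ∀ a'', -c a'' * lamW (wOff n b) (Gev R n b a'') =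
        -(c a'' * lamW (wOff n b) (Gev R n b a'')) := fun a'' => by ring
    rw [Finset.sum_congr rfl fun a'' _ => h3 a'', Finset.sum_neg_distrib, h1, neg_zero]
  · rw [coeff_neg, h2, Pi.sub_apply, Pi.sub_apply, neg_sub, sup_comm]

private theorem B8b_single {A I : Type*} [Semiring A] [DecidableEq I] (a a'' : I) (f : A[X]) :
    ((Pi.single a f : I → A[X]) a'').coeff 0 = (Pi.single a (f.coeff 0) : I → A) a'' := by
  by_cases h : a'' = a
  · rw [h, Pi.single_eq_same, Pi.single_eq_same]
  · rw [Pi.single_eq_of_ne h, Pi.single_eq_of_ne h, coeff_zero]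

private theorem B8b_disj {R : Type*} [CommRing R] {n b : ℕ} {a a' : (Fin b × Fin n) ⊕ Fin b}
    (h : ∀ x, Eev n b a x = 0 ∨ Eev n b a' x = 0) : B8b_Lift R n b a a' := by
  refine ⟨Pi.single a (lamW (wOff n b) (Gev R n b a')) - Pi.single a' (lamW (wOff n b) (Gev R n b a)),
    ?_, fun a'' => ?_⟩
  · simp only [Pi.sub_apply, sub_mul, Finset.sum_sub_distrib]
    rw [Finset.sum_eq_single a, Finset.sum_eq_single a', Pi.single_eq_same, Pi.single_eq_same, mul_comm,
      sub_self]
    · intro x _ hx
      rw [Pi.single_eq_of_ne hx, zero_mul]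
    · intro hx
      exact absurd (Finset.mem_univ _) hx
    · intro x _ hx
      rw [Pi.single_eq_of_ne hx, zero_mul]
    · intro hx
      exact absurd (Finset.mem_univ _) hx
  · have e1 : Eev n b a ⊔ Eev n b a' - Eev n b a = Eev n b a' := by
      ext x
      rw [Finsupp.tsub_apply, Finsupp.sup_apply]
      rcases h x with h | h <;> rw [h] <;> omega
    have e2 : Eev n b a ⊔ Eev n b a' - Eev n b a' = Eev n b a := by
      ext x
      rw [Finsupp.tsub_apply, Finsupp.sup_apply]
      rcases h x with h | h <;> rw [h] <;> omega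
    rw [e1, e2, Pi.sub_apply, Pi.sub_apply, coeff_sub, B8b_single, B8b_single, lamW_coeff, lamW_coeff,
      Gev_comp, Gev_comp]

private theorem B8b_main {R : Type*} [CommRing R] {n b : ℕ} (i : Fin b) (k : Fin n) :
    B8b_Lift R n b (Sum.inl (i, k)) (Sum.inr i) := by
  refine ⟨Sum.elim (fun p => if p.1 = i then (B8b_M R n b i).adjugate p.2 k else 0)
    (fun i' => if i' = i then -B8b_U R n b i k else 0), ?_, ?_⟩
  · rw [Fintype.sum_sum_type]
    simp only [Sum.elim_inl, Sum.elim_inr]
    rw [Fintype.sum_prod_type, Finset.sum_eq_single i, Finset.sum_eq_single i]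
    · simp only [if_true]
      rw [B8b_adj]
      ring
    · intro x _ hx
      rw [if_neg hx, zero_mul]
    · intro hx
      exact absurd (Finset.mem_univ _) hx
    · intro x _ hx
      apply Finset.sum_eq_zero
      intro j _
      rw [if_neg hx, zero_mul]
    · intro hx
      exact absurd (Finset.mem_univ _) hx
  · have e1 : Eev n b (Sum.inl (i, k)) ⊔ Eev n b (Sum.inr i) - Eev n b (Sum.inl (i, k)) =
        ∑ l ∈ Finset.univ.erase k, Finsupp.single (Sum.inr (l, l, i)) 1 := by
      have h0 : Eev n b (Sum.inr i) = Finsupp.single (Sum.inr (k, k, i)) 1 +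
          ∑ l ∈ Finset.univ.erase k, Finsupp.single (Sum.inr (l, l, i)) 1 := by
        unfold Eev
        rw [Finset.add_sum_erase _ (fun l : Fin n => (Finsupp.single (Sum.inr (l, l, i)) 1 : IK n b →₀ ℕ))
          (Finset.mem_univ k)]
      have h1 : Eev n b (Sum.inl (i, k)) = Finsupp.single (Sum.inl (k, i)) 1 +
          Finsupp.single (Sum.inr (k, k, i)) 1 := rfl
      have h2 : ∀ x, (∑ l ∈ Finset.univ.erase k, Finsupp.single (Sum.inr (l, l, i)) 1 : IK n b →₀ ℕ) x = 0 ∨
          (Finsupp.single (Sum.inl (k, i)) 1 + Finsupp.single (Sum.inr (k, k, i)) 1 : IK n b →₀ ℕ) x = 0 := by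
        intro x
        by_contra hcon
        rw [not_or] at hcon
        have h3 := B8b_suppl n b i k x hcon.2
        apply hcon.1
        rw [Finsupp.finsetSum_apply]
        apply Finset.sum_eq_zero
        intro l hl
        rw [Finsupp.single_apply, if_neg]
        intro h'
        rcases h3 with h3 | h3
        · rw [h3] at h'
          cases h'
        · rw [h3] at h'
          have h4 := Sum.inr.inj h'
          exact (Finset.ne_of_mem_erase hl) (congrArg Prod.fst h4)
      ext x
      rw [Finsupp.tsub_apply, Finsupp.sup_apply, h0, h1]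
      rcases h2 x with h | h
      · rw [h, Finsupp.add_apply, Finsupp.add_apply, h]
        omega
      · rw [h]
        rw [Finsupp.add_apply] at h ⊢
        omega
    have e2 : Eev n b (Sum.inl (i, k)) ⊔ Eev n b (Sum.inr i) - Eev n b (Sum.inr i) =
        Finsupp.single (Sum.inl (k, i)) 1 := by
      have h1 : Eev n b (Sum.inl (i, k)) = Finsupp.single (Sum.inl (k, i)) 1 +
          Finsupp.single (Sum.inr (k, k, i)) 1 := rfl
      have h0 : Eev n b (Sum.inr i) (Sum.inr (k, k, i)) = 1 := by
        unfold Eev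
        rw [Finsupp.finsetSum_apply, Finset.sum_eq_single k, Finsupp.single_eq_same]
        · intro l _ hl
          rw [Finsupp.single_apply, if_neg]
          intro h'
          exact hl (congrArg Prod.fst (Sum.inr.inj h'))
        · intro hx
          exact absurd (Finset.mem_univ _) hx
      ext x
      rw [Finsupp.tsub_apply, Finsupp.sup_apply, h1, Finsupp.add_apply]
      by_cases hx : x = Sum.inl (k, i)
      · have h2 : Eev n b (Sum.inr i) x = 0 := by
          by_contra hcon
          obtain ⟨l, hl⟩ := B8b_suppr n b i x hcon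
          rw [hx] at hl
          cases hl
        rw [h2, hx, Finsupp.single_eq_same, Finsupp.single_apply, if_neg (by intro h; cases h)]
        omega
      · rw [Finsupp.single_apply (a := Sum.inl (k, i)), if_neg (Ne.symm hx)]
        by_cases hx2 : x = Sum.inr (k, k, i)
        · rw [hx2, h0, Finsupp.single_eq_same]
          omega
        · rw [Finsupp.single_apply, if_neg (Ne.symm hx2)]
          omega
    rw [e1, e2]
    rintro (⟨i', j⟩ | i')
    · rw [Pi.sub_apply, Pi.single_eq_of_ne (i := Sum.inr i) (by intro h; cases h), sub_zero]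
      simp only [Sum.elim_inl]
      by_cases h : i' = i
      · rw [if_pos h, B8b_adj0]
        by_cases h2 : j = k
        · rw [if_pos h2, h, h2, Pi.single_eq_same]
        · rw [if_neg h2, Pi.single_eq_of_ne]
          intro h'
          exact h2 (congrArg Prod.snd (Sum.inl.inj h'))
      · rw [if_neg h, coeff_zero, Pi.single_eq_of_ne]
        intro h'
        exact h (congrArg Prod.fst (Sum.inl.inj h'))
    · rw [Pi.sub_apply, Pi.single_eq_of_ne (i := Sum.inl (i, k)) (by intro h; cases h), zero_sub]
      simp only [Sum.elim_inr]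
      by_cases h : i' = i
      · rw [if_pos h, coeff_neg, B8b_U0, h, Pi.single_eq_same]
      · rw [if_neg h, coeff_zero, Pi.single_eq_of_ne, neg_zero]
        intro h'
        exact h (Sum.inr.inj h')

private theorem B8b_lift (R : Type*) [CommRing R] (n b : ℕ) (a a' : (Fin b × Fin n) ⊕ Fin b) :
    B8b_Lift R n b a a' := by
  by_cases haa : a = a'
  · rw [haa]
    refine ⟨0, ?_, fun a'' => ?_⟩
    · simp
    · rw [sub_self, Pi.zero_apply, Pi.zero_apply, coeff_zero]
  rcases a with ⟨i, k⟩ | i
  · rcases a' with ⟨i', k'⟩ | i'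
    · apply B8b_disj
      intro x
      by_contra hcon
      rw [not_or] at hcon
      apply haa
      rcases B8b_suppl n b i k x hcon.1 with h | h <;> rcases B8b_suppl n b i' k' x hcon.2 with h' | h' <;>
        rw [h] at h'
      · have h2 := Sum.inl.inj h'
        rw [show i = i' from congrArg Prod.snd h2, show k = k' from congrArg Prod.fst h2]
      · cases h'
      · cases h'
      · have h2 := Sum.inr.inj h'
        rw [show i = i' from congrArg (fun p => p.2.2) h2, show k = k' from congrArg Prod.fst h2]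
    · by_cases hi : i' = i
      · rw [hi]
        exact B8b_main i k
      · apply B8b_disj
        intro x
        by_contra hcon
        rw [not_or] at hcon
        obtain ⟨l, hl⟩ := B8b_suppr n b i' x hcon.2
        rcases B8b_suppl n b i k x hcon.1 with h | h <;> rw [h] at hl
        · cases hl
        · exact hi (congrArg (fun p => p.2.2) (Sum.inr.inj hl)).symm
  · rcases a' with ⟨i', k'⟩ | i'
    · by_cases hi : i' = i
      · rw [hi]
        exact B8b_symm (B8b_main i k')
      · apply B8b_disj
        intro x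
        by_contra hcon
        rw [not_or] at hcon
        obtain ⟨l, hl⟩ := B8b_suppr n b i x hcon.1
        rcases B8b_suppl n b i' k' x hcon.2 with h | h <;> rw [h] at hl
        · cases hl
        · exact hi (congrArg (fun p => p.2.2) (Sum.inr.inj hl))
    · apply B8b_disj
      intro x
      by_contra hcon
      rw [not_or] at hcon
      obtain ⟨l, hl⟩ := B8b_suppr n b i x hcon.1
      obtain ⟨l', hl'⟩ := B8b_suppr n b i' x hcon.2
      rw [hl] at hl'
      apply haa
      rw [show i = i' from congrArg (fun p => p.2.2) (Sum.inr.inj hl')]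

theorem LPev (R : Type*) [CommRing R] (n b : ℕ) (F : MvPolynomial (IK n b) R)
    (hF : F ∈ Ideal.span (Set.range (Gev R n b))) (e : ℕ) (he : ordGE (wOff n b) e F) :
    comp (wOff n b) e F ∈ Ideal.span (Set.range fun a => (MvPolynomial.monomial (Eev n b a) (1 : R) : MvPolynomial (IK n b) R)) :=
  LP_of_lift (wOff n b) (Gev R n b) (Eev n b) (Gev_comp R n b) (fun a a' => B8b_lift R n b a a') F hF e he

end Pool.Agent.LibCQ2
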