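import Pool.Agent.LibCQ2.Defs

set_option autoImplicit false

/-! ROW B9 (SHORT/MEDIUM, only Mathlib + Defs). Squarefree monomial ideals over a reduced ring are radical.
 sqfree: e a x ≤ 1 for all a, x. Let F ^ m ∈ I := span {monomial (e a) 1}, F ∉ I. By MvPolynomial.mem_ideal_span_monomial_image(_iff_dvd) there is μ ∈ F.support with no a such that e a ≤ μ. Let θ : MvPolynomial σ R →ₐ[R] itself,
   X x ↦ if μ x = 0 then 0 else X x. For every a there is x with e a x > μ x; as e a x ≤ 1 this means μ x = 0, e a x = 1, so θ (monomial (e a) 1) = 0. So θ (F ^ m) = 0, θ F = 0 as MvPolynomial σ R is reduced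
   (MvPolynomial.isReduced or similar; if missing: prove it from isNilpotent_iff / via Polynomial). But coeff μ (θ F) = coeff μ F ≠ 0 (θ fixes monomials supported in the support of μ and kills the others).
 rad_ev: Eev n b a x ≤ 1: single + single with different variables; ∑_k single (inr (k,k,i)) 1 at x: at most one k contributes. -/

namespace Pool.Agent.LibCQ2

private theorem B9_theta {σ R : Type*} [CommRing R] (μ ν : σ →₀ ℕ) (c : R) [DecidablePred fun x => μ x = 0] :
    (MvPolynomial.aeval (R := R) (fun x : σ => if μ x = 0 then (0 : MvPolynomial σ R) else MvPolynomial.X x))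
      (MvPolynomial.monomial ν c) = 0 ∨
    ((MvPolynomial.aeval (R := R) (fun x : σ => if μ x = 0 then (0 : MvPolynomial σ R) else MvPolynomial.X x))
      (MvPolynomial.monomial ν c) = MvPolynomial.monomial ν c) := by
  classical
  by_cases h : ∀ x, μ x = 0 → ν x = 0
  · right
    rw [MvPolynomial.aeval_monomial, MvPolynomial.monomial_eq, MvPolynomial.algebraMap_eq]
    congr 1
    refine Finset.prod_congr rfl fun x hx => ?_
    have h1 : μ x ≠ 0 := fun h2 => (Finsupp.mem_support_iff.1 hx) (h x h2)
    show (if μ x = 0 then (0 : MvPolynomial σ R) else MvPolynomial.X x) ^ ν x = _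
    rw [if_neg h1]
  · left
    push Not at h
    obtain ⟨x, hx, hx'⟩ := h
    rw [MvPolynomial.aeval_monomial, Finsupp.prod,
      Finset.prod_eq_zero (Finsupp.mem_support_iff.2 hx'), mul_zero]
    show (if μ x = 0 then (0 : MvPolynomial σ R) else MvPolynomial.X x) ^ ν x = 0
    rw [if_pos hx, zero_pow hx']

theorem sqfree_radical {σ R I : Type*} [CommRing R] [IsReduced R] (e : I → σ →₀ ℕ) (he : ∀ a x, e a x ≤ 1)
    (F : MvPolynomial σ R) (m : ℕ)
    (h : F ^ m ∈ Ideal.span (Set.range fun a => (MvPolynomial.monomial (e a) (1 : R) : MvPolynomial σ R))) :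
    F ∈ Ideal.span (Set.range fun a => (MvPolynomial.monomial (e a) (1 : R) : MvPolynomial σ R)) := by
  classical
  have hr : (Set.range fun a => (MvPolynomial.monomial (e a) (1 : R) : MvPolynomial σ R)) =
      (fun s => MvPolynomial.monomial s (1 : R)) '' Set.range e := by
    rw [← Set.range_comp]
    rfl
  by_contra hF
  rw [hr, MvPolynomial.mem_ideal_span_monomial_image] at hF
  push Not at hF
  obtain ⟨μ, hμ, hno⟩ := hF
  let θ : MvPolynomial σ R →ₐ[R] MvPolynomial σ R :=
    MvPolynomial.aeval (fun x : σ => if μ x = 0 then (0 : MvPolynomial σ R) else MvPolynomial.X x)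
  have hker : Ideal.span (Set.range fun a => (MvPolynomial.monomial (e a) (1 : R) : MvPolynomial σ R)) ≤
      RingHom.ker (θ : MvPolynomial σ R →+* MvPolynomial σ R) := by
    rw [Ideal.span_le]
    rintro _ ⟨a, rfl⟩
    have h1 : ¬ e a ≤ μ := hno (e a) ⟨a, rfl⟩
    obtain ⟨x, hx⟩ : ∃ x, ¬ e a x ≤ μ x := by
      by_contra h2
      push Not at h2
      exact h1 h2
    have h3 := he a x
    have h4 : μ x = 0 := by omega
    have h5 : e a x ≠ 0 := by omega
    show θ (MvPolynomial.monomial (e a) (1 : R)) = 0
    show (MvPolynomial.aeval (R := R) (fun x : σ => if μ x = 0 then (0 : MvPolynomial σ R) else MvPolynomial.X x))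
      (MvPolynomial.monomial (e a) (1 : R)) = 0
    rw [MvPolynomial.aeval_monomial, Finsupp.prod,
      Finset.prod_eq_zero (Finsupp.mem_support_iff.2 h5), mul_zero]
    show (if μ x = 0 then (0 : MvPolynomial σ R) else MvPolynomial.X x) ^ e a x = 0
    rw [if_pos h4, zero_pow h5]
  have h6 : θ (F ^ m) = 0 := hker h
  rw [map_pow] at h6
  have h7 : θ F = 0 := IsReduced.eq_zero _ ⟨m, h6⟩
  have h8 : MvPolynomial.coeff μ (θ F) = MvPolynomial.coeff μ F := by
    have h9 : θ F = ∑ ν ∈ F.support, θ (MvPolynomial.monomial ν (MvPolynomial.coeff ν F)) := by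
      rw [← map_sum, MvPolynomial.support_sum_monomial_coeff]
    rw [h9, MvPolynomial.coeff_sum, Finset.sum_eq_single μ]
    · have h10 : θ (MvPolynomial.monomial μ (MvPolynomial.coeff μ F)) =
          MvPolynomial.monomial μ (MvPolynomial.coeff μ F) := by
        show (MvPolynomial.aeval (R := R) (fun x : σ => if μ x = 0 then (0 : MvPolynomial σ R) else MvPolynomial.X x))
          (MvPolynomial.monomial μ (MvPolynomial.coeff μ F)) = _
        rw [MvPolynomial.aeval_monomial, MvPolynomial.monomial_eq, MvPolynomial.algebraMap_eq]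
        congr 1
        refine Finset.prod_congr rfl fun x hx => ?_
        have h1 : μ x ≠ 0 := Finsupp.mem_support_iff.1 hx
        show (if μ x = 0 then (0 : MvPolynomial σ R) else MvPolynomial.X x) ^ μ x = _
        rw [if_neg h1]
      rw [h10, MvPolynomial.coeff_monomial, if_pos rfl]
    · intro ν _ hν
      rcases B9_theta μ ν (MvPolynomial.coeff ν F) with h10 | h10
      · have h11 : θ (MvPolynomial.monomial ν (MvPolynomial.coeff ν F)) = 0 := h10
        rw [h11, MvPolynomial.coeff_zero]
      · have h11 : θ (MvPolynomial.monomial ν (MvPolynomial.coeff ν F)) =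
          MvPolynomial.monomial ν (MvPolynomial.coeff ν F) := h10
        rw [h11, MvPolynomial.coeff_monomial, if_neg hν]
    · intro h10
      exact absurd hμ h10
  rw [h7, MvPolynomial.coeff_zero] at h8
  exact (MvPolynomial.mem_support_iff.1 hμ) h8.symm

theorem rad_ev (R : Type*) [CommRing R] [IsReduced R] (n b : ℕ) (F : MvPolynomial (IK n b) R) (m : ℕ)
    (h : F ^ m ∈ Ideal.span (Set.range fun a => (MvPolynomial.monomial (Eev n b a) (1 : R) : MvPolynomial (IK n b) R))) :
    F ∈ Ideal.span (Set.range fun a => (MvPolynomial.monomial (Eev n b a) (1 : R) : MvPolynomial (IK n b) R)) := by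
  classical
  refine sqfree_radical (Eev n b) ?_ F m h
  rintro (p | i) x
  · show (Finsupp.single (Sum.inl (p.2, p.1)) 1 + Finsupp.single (Sum.inr (p.2, p.2, p.1)) 1 :
      IK n b →₀ ℕ) x ≤ 1
    rw [Finsupp.add_apply]
    rcases x with x | x
    · have h1 : (Finsupp.single (Sum.inr (p.2, p.2, p.1)) 1 : IK n b →₀ ℕ) (Sum.inl x) = 0 := by
        rw [Finsupp.single_apply, if_neg (by simp)]
      rw [h1, add_zero, Finsupp.single_apply]
      split_ifs <;> simp
    · have h1 : (Finsupp.single (Sum.inl (p.2, p.1)) 1 : IK n b →₀ ℕ) (Sum.inr x) = 0 := by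
        rw [Finsupp.single_apply, if_neg (by simp)]
      rw [h1, zero_add, Finsupp.single_apply]
      split_ifs <;> simp
  · show (∑ k : Fin n, Finsupp.single (Sum.inr (k, k, i)) 1 : IK n b →₀ ℕ) x ≤ 1
    rw [Finsupp.finsetSum_apply]
    rcases x with x | x
    · have h1 : ∀ k ∈ (Finset.univ : Finset (Fin n)),
          (Finsupp.single (Sum.inr (k, k, i)) 1 : IK n b →₀ ℕ) (Sum.inl x) = 0 := by
        intro k _
        rw [Finsupp.single_apply, if_neg (by simp)]
      rw [Finset.sum_eq_zero h1]
      exact Nat.zero_le _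
    · calc ∑ k : Fin n, (Finsupp.single (Sum.inr (k, k, i)) 1 : IK n b →₀ ℕ) (Sum.inr x)
          ≤ ∑ k : Fin n, (if k = x.1 then 1 else 0) := by
            refine Finset.sum_le_sum fun k _ => ?_
            rw [Finsupp.single_apply]
            by_cases hk : k = x.1
            · rw [if_pos hk]
              split_ifs <;> simp
            · rw [if_neg hk, if_neg]
              intro h2
              apply hk
              have h3 := Sum.inr.inj h2
              rw [← h3]
        _ = 1 := by simp

end Pool.Agent.LibCQ2
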