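import Pool.Agent.LibCQ2.B6b
import Pool.Agent.LibCQ2.B8b
import Pool.Agent.LibCQ2.B9
import Pool.Agent.LibCQ2.B10b

set_option autoImplicit false

/-! ROW B11 (MEDIUM, Defs + B1, B6b, B8b, B9, B10b, G0). Descent to the domain Y.
 D := ∏ over pairs (i, j) with i ≠ j of (y i - y j) (∏ i, ∏ j ∈ univ.erase i, ..): D ≠ 0 (domain, y injective), y i - y j ∣ D. R := Localization.Away D (a domain, so reduced; algebraMap Y R; y i - y j becomes a unit
   since it divides a unit). yR := algebraMap ∘ y.
 KI n yR = (KI n y).map (MvPolynomial.map (algebraMap Y R)), same for K0: remId_map, Ideal.map_iSup, Ideal.map_sup, gP_map, map of det.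
 descend: if MvPolynomial.map (algebraMap Y R) F ∈ K0 n yR then F ∈ K0 n y: MvPolynomial (IK n b) R is the localization of MvPolynomial (IK n b) Y at the powers of C D (MvPolynomial.isLocalization; or by hand: clear
   denominators of the finitely many coefficients), IsLocalization.mem_map_algebraMap_iff: C D ^ M * F ∈ K0 n y for some M; K0_TF M times.
 LP_Y: image of F: eval_coords χ: map F = χ F', F' ∈ span (range Gev) (Ideal.mem_map_of_equiv), ordGE F' , LPev, so comp e (map F) = χ (comp e F') ∈ K0 n yR; comp_map; descend.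
 rad_Y: (map F)^m ∈ K0 n yR, χ, rad_ev, descend. -/

namespace Pool.Agent.LibCQ2

universe u

open Polynomial in
private theorem B11_gg {Y R : Type*} [CommRing Y] [CommRing R] (φ : Y →+* R) (n : ℕ) {b : ℕ}
    (y : Fin b → Y) : (gg n y).map (MvPolynomial.map φ) = gg n (fun i => φ (y i)) := by
  unfold gg
  rw [Polynomial.map_map, ← gP_map φ y, Polynomial.map_map]
  congr 1
  ext a
  simp

open Polynomial in
private theorem B11_uv {Y R : Type*} [CommRing Y] [CommRing R] (φ : Y →+* R) (n b : ℕ) (j : Fin n) :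
    (uv Y n b j).map (MvPolynomial.map φ) = uv R n b j := by
  unfold uv
  rw [pV_map]
  simp only [MvPolynomial.map_X]

open Polynomial in
private theorem B11_tv {Y R : Type*} [CommRing Y] [CommRing R] (φ : Y →+* R) (n b : ℕ)
    (j k : Fin n) : (tv Y n b j k).map (MvPolynomial.map φ) = tv R n b j k := by
  unfold tv
  rw [Matrix.of_apply, Matrix.of_apply, pV_map]
  simp only [MvPolynomial.map_X]

open Polynomial in
private theorem B11_monic {Y : Type*} [CommRing Y] (n : ℕ) {b : ℕ} (y : Fin b → Y) :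
    (gg n y).Monic := by
  unfold gg
  exact (gP_monic y _).map _

open Polynomial in
private theorem B11_KI {Y R : Type*} [CommRing Y] [CommRing R] (φ : Y →+* R) (n : ℕ) {b : ℕ}
    (y : Fin b → Y) : (KI n y).map (MvPolynomial.map φ) = KI n (fun i => φ (y i)) := by
  unfold KI
  rw [Ideal.map_sup, Ideal.map_iSup]
  congr 1
  · congr 1
    funext k
    rw [remId_map _ _ _ (B11_monic n y), B11_gg, Polynomial.map_sum]
    congr 1
    refine Finset.sum_congr rfl fun j _ => ?_
    rw [Polynomial.map_mul, B11_uv, B11_tv]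
  · rw [remId_map _ _ _ (B11_monic n y), B11_gg]
    congr 1
    have h1 : ((tv Y n b).det).map (MvPolynomial.map φ) =
        Polynomial.mapRingHom (MvPolynomial.map φ) (tv Y n b).det := rfl
    rw [h1, RingHom.map_det]
    congr 1
    ext1 j k
    exact B11_tv φ n b j k

open Polynomial in
private theorem B11_K0 {Y R : Type*} [CommRing Y] [CommRing R] (φ : Y →+* R) (n : ℕ) {b : ℕ}
    (y : Fin b → Y) : (K0 n y).map (MvPolynomial.map φ) = K0 n (fun i => φ (y i)) := by
  unfold K0
  rw [Ideal.map_sup, Ideal.map_iSup]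
  congr 1
  · congr 1
    funext k
    rw [remId_map _ _ _ (B11_monic n y), B11_gg, Polynomial.map_mul, B11_uv, B11_tv]
  · rw [remId_map _ _ _ (B11_monic n y), B11_gg, Polynomial.map_prod]
    congr 1
    refine Finset.prod_congr rfl fun k _ => ?_
    rw [B11_tv]

private theorem B11_D {Y : Type u} [CommRing Y] [IsDomain Y] {b : ℕ} (y : Fin b → Y)
    (hy : Function.Injective y) :
    ∃ D : Y, D ≠ 0 ∧ ∀ i j, i ≠ j → (y i - y j) ∣ D := by
  classical
  refine ⟨∏ i : Fin b, ∏ j ∈ Finset.univ.erase i, (y i - y j), ?_, ?_⟩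
  · rw [Finset.prod_ne_zero_iff]
    intro i _
    rw [Finset.prod_ne_zero_iff]
    intro j hj h
    exact (Finset.ne_of_mem_erase hj) (hy (sub_eq_zero.1 h)).symm
  · intro i j hij
    refine dvd_trans ?_ (Finset.dvd_prod_of_mem _ (Finset.mem_univ i))
    exact Finset.dvd_prod_of_mem (fun j => y i - y j)
      (Finset.mem_erase.2 ⟨hij.symm, Finset.mem_univ j⟩)

private theorem B11_pow {Y : Type u} [CommRing Y] [IsDomain Y] (n : ℕ) {b : ℕ} (y : Fin b → Y)
    (D : Y) (hD0 : D ≠ 0) (hD : ∀ i j, i ≠ j → (y i - y j) ∣ D) (M : ℕ)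
    (G : MvPolynomial (IK n b) Y) (hG : MvPolynomial.C (D ^ M) * G ∈ K0 n y) : G ∈ K0 n y := by
  induction M with
  | zero => simpa using hG
  | succ M ih =>
    apply ih
    apply K0_TF n y D hD0 hD
    rw [← mul_assoc, ← MvPolynomial.C_mul, ← pow_succ']
    exact hG

attribute [local instance] MvPolynomial.algebraMvPolynomial in
private theorem B11_descend {Y : Type u} [CommRing Y] [IsDomain Y] (n : ℕ) {b : ℕ}
    (y : Fin b → Y) (D : Y) (hD0 : D ≠ 0) (hD : ∀ i j, i ≠ j → (y i - y j) ∣ D)
    (F : MvPolynomial (IK n b) Y)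
    (hF : MvPolynomial.map (algebraMap Y (Localization.Away D)) F ∈
      K0 n (fun i => algebraMap Y (Localization.Away D) (y i))) : F ∈ K0 n y := by
  rw [← B11_K0] at hF
  have h1 : MvPolynomial.map (algebraMap Y (Localization.Away D)) =
      algebraMap (MvPolynomial (IK n b) Y) (MvPolynomial (IK n b) (Localization.Away D)) := rfl
  rw [h1] at hF
  rw [IsLocalization.mem_map_algebraMap_iff ((Submonoid.powers D).map
    (MvPolynomial.C (σ := IK n b))) (MvPolynomial (IK n b) (Localization.Away D))] at hF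
  obtain ⟨⟨⟨G, hG⟩, ⟨s, hs⟩⟩, hx⟩ := hF
  obtain ⟨t, ⟨M, rfl⟩, rfl⟩ := hs
  have hinj : Function.Injective
      (algebraMap (MvPolynomial (IK n b) Y) (MvPolynomial (IK n b) (Localization.Away D))) := by
    rw [← h1]
    exact MvPolynomial.map_injective _ (IsLocalization.injective (Localization.Away D)
      (powers_le_nonZeroDivisors_of_noZeroDivisors hD0))
  have h2 : F * MvPolynomial.C (D ^ M) = G := by
    apply hinj
    rw [map_mul]
    exact hx
  apply B11_pow n y D hD0 hD M
  rw [mul_comm, h2]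
  exact hG

private theorem B11_unit {Y : Type u} [CommRing Y] {b : ℕ} (y : Fin b → Y)
    (D : Y) (hD : ∀ i j, i ≠ j → (y i - y j) ∣ D) (i j : Fin b) (hij : i ≠ j) :
    IsUnit (algebraMap Y (Localization.Away D) (y i) -
      algebraMap Y (Localization.Away D) (y j)) := by
  rw [← map_sub]
  exact isUnit_of_dvd_unit (map_dvd _ (hD i j hij))
    (IsLocalization.Away.algebraMap_isUnit (S := Localization.Away D) D)

theorem LP_Y {Y : Type u} [CommRing Y] [IsDomain Y] (n : ℕ) {b : ℕ} (y : Fin b → Y) (hy : Function.Injective y)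
    (F : MvPolynomial (IK n b) Y) (hF : F ∈ KI n y) (e : ℕ) (he : ordGE (wOff n b) e F) :
    comp (wOff n b) e F ∈ K0 n y := by
  obtain ⟨D, hD0, hD⟩ := B11_D y hy
  apply B11_descend n y D hD0 hD
  rw [← comp_map]
  obtain ⟨χ, h1, h2, h3, h4⟩ := eval_coords n (fun i => algebraMap Y (Localization.Away D) (y i))
    (fun i j hij => B11_unit y D hD i j hij)
  have hF1 : MvPolynomial.map (algebraMap Y (Localization.Away D)) F ∈
      KI n (fun i => algebraMap Y (Localization.Away D) (y i)) := by
    rw [← B11_KI]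
    exact Ideal.mem_map_of_mem _ hF
  rw [h3, Ideal.mem_map_of_equiv] at hF1
  obtain ⟨F', hF', hFF⟩ := hF1
  have he' : ordGE (wOff n b) e F' := by
    rw [← h2, hFF]
    exact ordGE_map _ _ _ _ he
  rw [← hFF, h1, h4, Ideal.mem_map_of_equiv]
  exact ⟨_, LPev _ n b F' hF' e he', rfl⟩

theorem rad_Y {Y : Type u} [CommRing Y] [IsDomain Y] (n : ℕ) {b : ℕ} (y : Fin b → Y) (hy : Function.Injective y)
    (F : MvPolynomial (IK n b) Y) (m : ℕ) (hF : F ^ m ∈ K0 n y) : F ∈ K0 n y := by
  obtain ⟨D, hD0, hD⟩ := B11_D y hy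
  apply B11_descend n y D hD0 hD
  obtain ⟨χ, h1, h2, h3, h4⟩ := eval_coords n (fun i => algebraMap Y (Localization.Away D) (y i))
    (fun i j hij => B11_unit y D hD i j hij)
  have : IsDomain (Localization.Away D) :=
    IsLocalization.isDomain_localization (powers_le_nonZeroDivisors_of_noZeroDivisors hD0)
  have hF1 : (MvPolynomial.map (algebraMap Y (Localization.Away D)) F) ^ m ∈
      K0 n (fun i => algebraMap Y (Localization.Away D) (y i)) := by
    rw [← B11_K0, ← map_pow]
    exact Ideal.mem_map_of_mem _ hF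
  obtain ⟨F', hF'⟩ := χ.surjective (MvPolynomial.map (algebraMap Y (Localization.Away D)) F)
  rw [← hF', ← map_pow, h4, Ideal.mem_map_of_equiv] at hF1
  obtain ⟨x, hx, hxx⟩ := hF1
  have h5 := χ.injective hxx
  rw [h5] at hx
  rw [← hF', h4, Ideal.mem_map_of_equiv]
  exact ⟨F', rad_ev _ n b F' m hx, rfl⟩

end Pool.Agent.LibCQ2
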