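import Pool.Agent.LibCQ2.G0

set_option autoImplicit false

/-! ROW B12 (MEDIUM, Defs + G0). From the initial ideal to the ideal, abstractly. I0 := span of the comp w 0 (G a), J := span (range G).
 If m = 0: 1 ∈ J, so F ∈ J. Let m ≥ 1.
 Claim: for every e there is κ ∈ J with ordGE w e (F - κ). Induction on e; e = 0: κ = 0. Step: F' := F - κ, F' ^ m ∈ J (F' ≡ F mod J: Ideal.Quotient.. or sub_pow_mem: F'^m - F^m ∈ J), ordGE w (e m) (F'^m), so
   comp w (e m) (F'^m) = (comp w e F')^m ∈ I0 by LP, so comp w e F' ∈ I0 by rad: comp w e F' = ∑ c a * comp w 0 (G a) (Ideal.mem_span_range_iff_exists_fun). Apply comp w e: (comp_comp, comp_sum, comp_mul_comp_zero):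
   comp w e F' = ∑ comp w e (c a) * comp w 0 (G a). κ' := κ + ∑ comp w e (c a) * G a: F - κ' = F' - ∑ ..: ordGE w e (ordGE_sub, ordGE_comp_mul, sums) and comp w e of it is 0 (comp_comp_mul), so ordGE w (e+1).
 End: w' ≥ w. ordGE w e (F - κ) implies ordGE w' e (F - κ) (ordGE_mono), so comp w' i F = comp w' i κ for i < e. κ ∈ J and J is generated by w'-homogeneous elements: comp w' i κ ∈ J (span induction: lamW w' (r G a) =
   lamW w' r * C (G a) * X ^ d; lemma coeff_mem in LibRG7.J5 may be copied). Take e := natDegree (lamW w' F) + 1: F = (lamW w' F).eval 1 = ∑_{i < e} comp w' i F ∈ J (Polynomial.eval_eq_sum_range). -/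

namespace Pool.Agent.LibCQ2

open Polynomial

private theorem B12_coeff_mem {A : Type*} [CommRing A] (lam : A →+* Polynomial A)
    (G : Set A) (hG : ∀ g ∈ G, ∃ n : ℕ, lam g = Polynomial.C g * Polynomial.X ^ n)
    {F : A} (hF : F ∈ Ideal.span G) (n : ℕ) : (lam F).coeff n ∈ Ideal.span G := by
  induction hF using Submodule.span_induction generalizing n with
  | mem g hg =>
    obtain ⟨m, hm⟩ := hG g hg
    rw [hm, Polynomial.coeff_C_mul_X_pow]
    split_ifs
    · exact Ideal.subset_span hg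
    · exact zero_mem _
  | zero =>
    rw [map_zero, Polynomial.coeff_zero]
    exact zero_mem _
  | add x y _ _ hx hy =>
    rw [map_add, Polynomial.coeff_add]
    exact add_mem (hx n) (hy n)
  | smul r x _ hx =>
    rw [smul_eq_mul, map_mul, Polynomial.coeff_mul]
    exact sum_mem fun p _ => Ideal.mul_mem_left _ _ (hx p.2)

private theorem B12_sum_ord {σ R I : Type*} [CommRing R] [Fintype I] (w : σ → ℕ) (e : ℕ)
    (c G : I → MvPolynomial σ R) : ordGE w e (∑ a, comp w e (c a) * G a) := by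
  rw [ordGE_iff]
  intro i hi
  rw [comp_sum]
  exact Finset.sum_eq_zero fun a _ => (ordGE_iff w e _).mp (ordGE_comp_mul w e (c a) (G a)) i hi

theorem radical_of_initial {σ R I : Type*} [CommRing R] [Fintype I] (w w' : σ → ℕ) (hw : ∀ x, w x ≤ w' x)
    (G : I → MvPolynomial σ R) (hGh : ∀ a, ∃ d : ℕ, lamW w' (G a) = C (G a) * X ^ d)
    (LP : ∀ F ∈ Ideal.span (Set.range G), ∀ e, ordGE w e F → comp w e F ∈ Ideal.span (Set.range fun a => comp w 0 (G a)))
    (rad : ∀ (F : MvPolynomial σ R) (m : ℕ), F ^ m ∈ Ideal.span (Set.range fun a => comp w 0 (G a)) →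
      F ∈ Ideal.span (Set.range fun a => comp w 0 (G a)))
    (F : MvPolynomial σ R) (m : ℕ) (hF : F ^ m ∈ Ideal.span (Set.range G)) : F ∈ Ideal.span (Set.range G) := by
  have claim : ∀ e : ℕ, ∃ κ ∈ Ideal.span (Set.range G), ordGE w e (F - κ) := by
    intro e
    induction e with
    | zero => exact ⟨0, zero_mem _, ordGE_zero w _⟩
    | succ e ih =>
      obtain ⟨κ, hκ, ho⟩ := ih
      have h1 : (F - κ) ^ m ∈ Ideal.span (Set.range G) := by
        have h2 : Ideal.Quotient.mk (Ideal.span (Set.range G)) ((F - κ) ^ m) =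
            Ideal.Quotient.mk (Ideal.span (Set.range G)) (F ^ m) := by
          rw [map_pow, map_pow, map_sub, Ideal.Quotient.eq_zero_iff_mem.mpr hκ, sub_zero]
        rw [← Ideal.Quotient.eq_zero_iff_mem, h2, Ideal.Quotient.eq_zero_iff_mem]
        exact hF
      have h3 := LP _ h1 (e * m) (ordGE_pow w e m _ ho)
      rw [comp_pow_of_ordGE w e m _ ho] at h3
      have h4 := rad _ _ h3
      obtain ⟨c, hc⟩ := (Ideal.mem_span_range_iff_exists_fun).mp h4
      have h5 : comp w e (F - κ) = ∑ a, comp w e (c a) * comp w 0 (G a) := by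
        rw [← comp_comp, ← hc, comp_sum]
        exact Finset.sum_congr rfl fun a _ => comp_mul_comp_zero w e (c a) (G a)
      refine ⟨κ + ∑ a, comp w e (c a) * G a, ?_, ?_⟩
      · exact add_mem hκ (sum_mem fun a _ => Ideal.mul_mem_left _ _
          (Ideal.subset_span (Set.mem_range_self a)))
      · rw [← sub_sub]
        refine ordGE_succ w e _ (ordGE_sub w e _ _ ho (B12_sum_ord w e c G)) ?_
        rw [comp_sub, comp_sum, h5, sub_eq_zero]
        exact Finset.sum_congr rfl fun a _ => (comp_comp_mul w e (c a) (G a)).symm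
  obtain ⟨κ, hκ, ho⟩ := claim ((lamW w' F).natDegree + 1)
  have ho' := (ordGE_iff w' _ _).mp (ordGE_mono w w' hw _ _ ho)
  have hG' : ∀ g ∈ Set.range G, ∃ n : ℕ, lamW w' g = Polynomial.C g * Polynomial.X ^ n := by
    rintro g ⟨a, rfl⟩
    exact hGh a
  rw [← lamW_eval w' F, Polynomial.eval_eq_sum_range]
  refine sum_mem fun i hi => ?_
  rw [one_pow, mul_one]
  have h6 := ho' i (Finset.mem_range.mp hi)
  rw [comp_sub, sub_eq_zero] at h6
  rw [lamW_coeff, h6, ← lamW_coeff]
  exact B12_coeff_mem (lamW w') (Set.range G) hG' hκ i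

end Pool.Agent.LibCQ2
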