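import Pool.Agent.LibCQ2.B11
import Pool.Agent.LibCQ2.B12

set_option autoImplicit false

/-! ROW B13 (MEDIUM, Defs + B1, B11, B12, G0). The ideal KI is radical.
 Generators: I := (Fin n × Fin b) ⊕ Fin b; G (inl (k, l)) := ((∑ j, uv j * tv j k) %ₘ gg n y).coeff l, G (inr l) := ((tv).det %ₘ gg n y).coeff l; the remainders have degree < b (gg monic of degree b; Y nontrivial), so
   KI n y = span (range G) (remId = span of all coefficients, those with l ≥ b are 0).
 comp w 0 (w = wOff n b) is a ring hom ε (comp_zero_eq) fixing constants, so ε (G (inl (k,l))) = coefficient of (u_k t_kk) %ₘ gg (map_modByMonic; ε maps t_jk to 0 for j ≠ k, and fixes uv, t_kk), ε (G (inr l)) = coefficient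
   of (∏ t_kk) %ₘ gg (det_diagonal): K0 n y = span (range fun a => comp w 0 (G a)).
 homogeneity for w' = wT n b: d = 1 for inl, d = n for inr: let θ := lamW w' : it fixes constants; (uv j).map θ = (uv j).map C, (tv j k).map θ = C X * (tv j k).map C (X = the new variable s), so
   (P.map θ) = C (X ^ d) * P.map C for P = ∑ u t, det t; modByMonic commutes with the factor C (X^d) (smul_modByMonic) and with map: so θ (G a) = X ^ d * C (G a).
 Then radical_of_initial with LP_Y, rad_Y. wOff ≤ wT. -/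

namespace Pool.Agent.LibCQ2

open Polynomial

universe u

private noncomputable def CQ2_B13_G {A : Type*} [CommRing A] {n b : ℕ} (m : A[X]) (P : Fin n → A[X])
    (P' : A[X]) : (Fin n × Fin b) ⊕ Fin b → A
  | Sum.inl kl => (P kl.1 %ₘ m).coeff (kl.2 : ℕ)
  | Sum.inr l => (P' %ₘ m).coeff (l : ℕ)

private theorem CQ2_B13_zero {A : Type*} [CommRing A] [Nontrivial A] {b : ℕ} (m : A[X]) (hm : m.Monic)
    (hd : m.natDegree ≤ b) (P : A[X]) {l : ℕ} (hl : b ≤ l) : (P %ₘ m).coeff l = 0 := by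
  refine coeff_eq_zero_of_degree_lt (lt_of_lt_of_le (degree_modByMonic_lt P hm) ?_)
  exact degree_le_of_natDegree_le (hd.trans hl)

private theorem CQ2_B13_span {A : Type*} [CommRing A] [Nontrivial A] {n b : ℕ} (m : A[X]) (hm : m.Monic)
    (hd : m.natDegree ≤ b) (P : Fin n → A[X]) (P' : A[X]) :
    (⨆ k, remId m (P k)) ⊔ remId m P' =
      Ideal.span (Set.range (CQ2_B13_G m P P' : (Fin n × Fin b) ⊕ Fin b → A)) := by
  refine le_antisymm (sup_le (iSup_le fun k => ?_) ?_) ?_
  · unfold remId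
    rw [Ideal.span_le]
    rintro _ ⟨l, rfl⟩
    by_cases hl : l < b
    · exact Ideal.subset_span ⟨Sum.inl (k, ⟨l, hl⟩), rfl⟩
    · rw [CQ2_B13_zero m hm hd _ (not_lt.1 hl)]
      exact Ideal.zero_mem _
  · unfold remId
    rw [Ideal.span_le]
    rintro _ ⟨l, rfl⟩
    by_cases hl : l < b
    · exact Ideal.subset_span ⟨Sum.inr ⟨l, hl⟩, rfl⟩
    · rw [CQ2_B13_zero m hm hd _ (not_lt.1 hl)]
      exact Ideal.zero_mem _
  · rw [Ideal.span_le]
    rintro _ ⟨a, rfl⟩
    rcases a with ⟨k, l⟩ | l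
    · refine Ideal.mem_sup_left (Ideal.mem_iSup_of_mem k ?_)
      exact Ideal.subset_span ⟨(l : ℕ), rfl⟩
    · refine Ideal.mem_sup_right ?_
      exact Ideal.subset_span ⟨(l : ℕ), rfl⟩

private theorem CQ2_B13_coeff {A B : Type*} [CommRing A] [CommRing B] (φ : A →+* B) (m P : A[X])
    (hm : m.Monic) (l : ℕ) : φ ((P %ₘ m).coeff l) = (P.map φ %ₘ m.map φ).coeff l := by
  rw [← map_modByMonic φ hm, coeff_map]

private theorem CQ2_B13_monic {Y : Type u} [CommRing Y] (n : ℕ) {b : ℕ} (y : Fin b → Y) :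
    (gg n y).Monic := (gP_monic y Finset.univ).map _

private theorem CQ2_B13_deg {Y : Type u} [CommRing Y] [Nontrivial Y] (n : ℕ) {b : ℕ} (y : Fin b → Y) :
    (gg n y).natDegree ≤ b := by
  unfold gg
  refine natDegree_map_le.trans ?_
  rw [gP_natDegree, Finset.card_univ, Fintype.card_fin]

/-- mapping the two families of polynomials -/
private theorem CQ2_B13_map {Y : Type u} [CommRing Y] (n : ℕ) {b : ℕ} {B : Type*} [CommRing B]
    (φ : MvPolynomial (IK n b) Y →+* B) (k : Fin n) :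
    (∑ j, uv Y n b j * tv Y n b j k).map φ = ∑ j, (uv Y n b j).map φ * (tv Y n b j k).map φ := by
  rw [Polynomial.map_sum]
  exact Finset.sum_congr rfl fun j _ => Polynomial.map_mul _

private theorem CQ2_B13_det {Y : Type u} [CommRing Y] (n : ℕ) {b : ℕ} {B : Type*} [CommRing B]
    (φ : MvPolynomial (IK n b) Y →+* B) :
    (tv Y n b).det.map φ = (Matrix.of fun j k => (tv Y n b j k).map φ).det := by
  have h := RingHom.map_det (mapRingHom φ) (tv Y n b)
  rw [coe_mapRingHom] at h
  rw [h]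
  rfl

private theorem CQ2_B13_eps {Y : Type u} [CommRing Y] (n b : ℕ) (w : IK n b → ℕ) :
    ∃ ε : MvPolynomial (IK n b) Y →+* MvPolynomial (IK n b) Y, (∀ F, comp w 0 F = ε F) ∧
      (ε.comp MvPolynomial.C = MvPolynomial.C) ∧
      ∀ x, ε (MvPolynomial.X x) = if w x = 0 then MvPolynomial.X x else 0 := by
  refine ⟨MvPolynomial.eval₂Hom MvPolynomial.C (fun x => if w x = 0 then MvPolynomial.X x else 0),
    fun F => comp_zero_eq w F, ?_, fun x => ?_⟩
  · ext c
    simp
  · rw [MvPolynomial.eval₂Hom_X']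

private theorem CQ2_B13_K0 {Y : Type u} [CommRing Y] [Nontrivial Y] (n : ℕ) {b : ℕ} (y : Fin b → Y) :
    K0 n y = Ideal.span (Set.range fun a : (Fin n × Fin b) ⊕ Fin b => comp (wOff n b) 0
      (CQ2_B13_G (gg n y) (fun k => ∑ j, uv Y n b j * tv Y n b j k) (tv Y n b).det a)) := by
  obtain ⟨ε, h1, h2, h3⟩ := CQ2_B13_eps (Y := Y) n b (wOff n b)
  have hm := CQ2_B13_monic n y
  have hu : ∀ j, (uv Y n b j).map ε = uv Y n b j := by
    intro j
    unfold uv
    rw [pV_map]
    refine congrArg pV (funext fun l => ?_)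
    rw [h3]
    exact if_pos rfl
  have ht : ∀ j k, (tv Y n b j k).map ε = if j = k then tv Y n b j k else 0 := by
    intro j k
    by_cases hjk : j = k
    · rw [if_pos hjk]
      unfold tv
      rw [Matrix.of_apply, pV_map]
      refine congrArg pV (funext fun l => ?_)
      rw [h3]
      exact if_pos (if_pos hjk)
    · rw [if_neg hjk]
      unfold tv
      rw [Matrix.of_apply, pV_map]
      unfold pV
      refine Finset.sum_eq_zero fun l _ => ?_
      beta_reduce
      rw [h3, if_neg, C_0, zero_mul]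
      show ¬ (if j = k then 0 else 1) = 0
      rw [if_neg hjk]
      exact one_ne_zero
  have hg : (gg n y).map ε = gg n y := by
    unfold gg
    rw [Polynomial.map_map, h2]
  have hK : K0 n y = (⨆ k : Fin n, remId (gg n y) (uv Y n b k * tv Y n b k k)) ⊔
      remId (gg n y) (∏ k, tv Y n b k k) := rfl
  rw [hK, CQ2_B13_span (b := b) (gg n y) hm (CQ2_B13_deg n y)]
  refine congrArg Ideal.span (congrArg Set.range (funext fun a => ?_))
  rw [h1]
  rcases a with ⟨k, l⟩ | l
  · show (uv Y n b k * tv Y n b k k %ₘ gg n y).coeff (l : ℕ) =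
      ε (((∑ j, uv Y n b j * tv Y n b j k) %ₘ gg n y).coeff (l : ℕ))
    rw [CQ2_B13_coeff ε _ _ hm, hg, CQ2_B13_map]
    congr 2
    rw [Finset.sum_eq_single k]
    · rw [hu, ht, if_pos rfl]
    · intro j _ hj
      rw [ht, if_neg hj, mul_zero]
    · intro h
      exact absurd (Finset.mem_univ k) h
  · show ((∏ k, tv Y n b k k) %ₘ gg n y).coeff (l : ℕ) = ε (((tv Y n b).det %ₘ gg n y).coeff (l : ℕ))
    rw [CQ2_B13_coeff ε _ _ hm, hg, CQ2_B13_det]
    congr 2
    have hM : (Matrix.of fun j k => (tv Y n b j k).map ε) = Matrix.diagonal fun k => tv Y n b k k := by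
      ext1 j k
      rw [Matrix.of_apply, ht, Matrix.diagonal_apply]
      by_cases hjk : j = k
      · rw [if_pos hjk, if_pos hjk, hjk]
      · rw [if_neg hjk, if_neg hjk]
    rw [hM, Matrix.det_diagonal]

private theorem CQ2_B13_hom {A : Type*} [CommRing A] (θ : A →+* A[X]) (m P : A[X]) (hm : m.Monic)
    (hθ : m.map θ = m.map C) (d : ℕ) (hP : P.map θ = C (X ^ d) * P.map C) (l : ℕ) :
    θ ((P %ₘ m).coeff l) = C ((P %ₘ m).coeff l) * X ^ d := by
  rw [CQ2_B13_coeff θ _ _ hm, hθ, hP, ← smul_eq_C_mul, smul_modByMonic, coeff_smul, smul_eq_mul,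
    ← CQ2_B13_coeff C _ _ hm, mul_comm]

private theorem CQ2_B13_lam {Y : Type u} [CommRing Y] (n : ℕ) {b : ℕ} (y : Fin b → Y)
    (a : (Fin n × Fin b) ⊕ Fin b) :
    ∃ d : ℕ, lamW (wT n b) (CQ2_B13_G (gg n y) (fun k => ∑ j, uv Y n b j * tv Y n b j k)
      (tv Y n b).det a) = C (CQ2_B13_G (gg n y) (fun k => ∑ j, uv Y n b j * tv Y n b j k)
      (tv Y n b).det a) * X ^ d := by
  have hm := CQ2_B13_monic n y
  have h2 : (lamW (wT n b) : MvPolynomial (IK n b) Y →+* _).comp MvPolynomial.C =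
      (C : MvPolynomial (IK n b) Y →+* _).comp MvPolynomial.C := by
    ext c
    unfold lamW
    simp
  have h3 : ∀ x, (lamW (wT n b) : MvPolynomial (IK n b) Y →+* _) (MvPolynomial.X x) =
      C (MvPolynomial.X x) * X ^ wT n b x := by
    intro x
    unfold lamW
    rw [MvPolynomial.eval₂Hom_X']
  have hg : (gg n y).map (lamW (wT n b)) = (gg n y).map C := by
    unfold gg
    rw [Polynomial.map_map, Polynomial.map_map, h2]
  have hu : ∀ j, (uv Y n b j).map (lamW (wT n b)) = (uv Y n b j).map C := by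
    intro j
    unfold uv
    rw [pV_map, pV_map]
    refine congrArg pV (funext fun l => ?_)
    rw [h3]
    show C (MvPolynomial.X (Sum.inl (j, l))) * X ^ 0 = _
    rw [pow_zero, mul_one]
  have ht : ∀ j k, (tv Y n b j k).map (lamW (wT n b)) = C X * (tv Y n b j k).map C := by
    intro j k
    unfold tv
    rw [Matrix.of_apply, pV_map, pV_map]
    unfold pV
    rw [Finset.mul_sum]
    refine Finset.sum_congr rfl fun l _ => ?_
    beta_reduce
    rw [h3]
    show C (C (MvPolynomial.X (Sum.inr (j, k, l))) * X ^ 1) * X ^ (l : ℕ) = _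
    rw [pow_one, map_mul]
    ring
  rcases a with ⟨k, l⟩ | l
  · refine ⟨1, ?_⟩
    refine CQ2_B13_hom (lamW (wT n b)) (gg n y) _ hm hg 1 ?_ (l : ℕ)
    rw [CQ2_B13_map, CQ2_B13_map, Finset.mul_sum]
    refine Finset.sum_congr rfl fun j _ => ?_
    rw [hu, ht, pow_one]
    ring
  · refine ⟨n, ?_⟩
    refine CQ2_B13_hom (lamW (wT n b)) (gg n y) _ hm hg n ?_ (l : ℕ)
    rw [CQ2_B13_det, CQ2_B13_det]
    have hM : (Matrix.of fun j k => (tv Y n b j k).map (lamW (wT n b))) =
        (C X : (MvPolynomial (IK n b) Y)[X][X]) • (Matrix.of fun j k => (tv Y n b j k).map C) := by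
      ext1 j k
      rw [Matrix.smul_apply, Matrix.of_apply, Matrix.of_apply, ht, smul_eq_mul]
    rw [hM, Matrix.det_smul, Fintype.card_fin, ← C_pow]

theorem KI_radical {Y : Type u} [CommRing Y] [IsDomain Y] (n : ℕ) {b : ℕ} (y : Fin b → Y) (hy : Function.Injective y)
    (F : MvPolynomial (IK n b) Y) (m : ℕ) (hF : F ^ m ∈ KI n y) : F ∈ KI n y := by
  have hK : KI n y = Ideal.span (Set.range (CQ2_B13_G (gg n y)
      (fun k => ∑ j, uv Y n b j * tv Y n b j k) (tv Y n b).det :
        (Fin n × Fin b) ⊕ Fin b → MvPolynomial (IK n b) Y)) :=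
    CQ2_B13_span (b := b) (gg n y) (CQ2_B13_monic n y) (CQ2_B13_deg n y) _ _
  have hK0 := CQ2_B13_K0 n y
  rw [hK] at hF ⊢
  refine radical_of_initial (wOff n b) (wT n b) ?_ _ (CQ2_B13_lam n y) ?_ ?_ F m hF
  · rintro (x | x)
    · exact le_rfl
    · show (if x.1 = x.2.1 then 0 else 1) ≤ 1
      split_ifs
      · exact zero_le_one
      · exact le_rfl
  · intro F' hF' e he
    rw [← hK0]
    rw [← hK] at hF'
    exact LP_Y n y hy F' hF' e he
  · intro F' m' hF'
    rw [← hK0] at hF' ⊢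
    exact rad_Y n y hy F' m' hF'

end Pool.Agent.LibCQ2
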