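import Pool.Agent.LibCQ2.B1
import Pool.Agent.LibCQ2.B1p

set_option autoImplicit false

/-! ROW B2 (MEDIUM, Defs + B1, B1p). Generic exactness by a shift.
 exact_coeff: Γ = sum Γ_k X^k. The coefficient of X^(k+1) of (x + c X) Γ = 0 is x Γ_(k+1) + c Γ_k = 0. Downward induction on k (Γ_k = 0 for k > natDegree):
   c^(natDegree Γ + 1 - k) Γ_k = 0: c^(j+1) Γ_k = - x (c^j Γ_(k+1)) = 0. Take k = 0.
 exactStep: F' := if i ∈ E then insert i F else F. B := MvPolynomial (Fin p ⊕ Fin q) A ⧸ sJ .., Φ := Ideal.Quotient.mk; write t l, u l, yy j, ππ for the images of X (inl l), X (inr l),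
   C (y j), π. By sJ_le_ker (Ideal.mk_ker): g_L ∣ t u, g_F ∣ π, g_E ∣ t π, u(y_i) = 0, g_F' ∣ π (g_W = gP yy W). Let e := gP yy (L.erase i), degree L.card - 1 < p (if B is trivial everything is trivial).
   Φ' : MvPolynomial .. →+* B[X] (variable called s), eval₂Hom: C a ↦ C (Φ (C a)), X (inl l) ↦ C (t l) + C (e.coeff l) * X, X (inr l) ↦ C (u l).
   Claim: sI .. ≤ ker Φ' (sI_le_ker): pV (Φ' (X (inl l))) = pV t + s e (as polynomials over B[X]: everything is the image of polynomials over B under C, plus C X * e).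
     g_L ∣ (t + s e) u: g_L ∣ t u; e u: X - y_i ∣ u (dvd_iff_isRoot), so g_L = (z - y_i) e ∣ e u (gP_erase).
     g_F ∣ π clear. g_E ∣ (t + s e) π: g_E ∣ t π; e π: if i ∈ E: g_E ∣ g_(insert i F) * gP (L.erase i) (as E ⊆ F ∪ L: E ⊆ (insert i F) ∪ (L.erase i); gP of a union divides the product) and
     g_(insert i F) ∣ π. If i ∉ E then E = F and g_F ∣ π.
   Hence Φ'(t(y_i) G) = 0: (C (t(y_i)) + C (e(y_i)) X) * Φ' G = 0. exact_coeff: e(y_i)^K (Φ' G).coeff 0 = 0 and (Φ' G).coeff 0 = Φ G (both ring homs, agree on C and X;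
     coeff 0 = eval 0). e(y_i) = ∏_{j ∈ L.erase i} (y_i - y_j). So Φ (C (..)^K * G) = 0, i.e. it lies in sJ (Ideal.Quotient.eq_zero_iff_mem). -/

namespace Pool.Agent.LibCQ2

open Polynomial

universe u

theorem exact_coeff {B : Type*} [CommRing B] (x c : B) (Γ : B[X]) (h : (C x + C c * X) * Γ = 0) :
    ∃ K : ℕ, c ^ K * Γ.coeff 0 = 0 := by
  have key : ∀ j : ℕ, j ≤ Γ.natDegree + 1 → c ^ j * Γ.coeff (Γ.natDegree + 1 - j) = 0 := by
    intro j
    induction j with
    | zero =>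
      intro _
      rw [Nat.sub_zero, coeff_eq_zero_of_natDegree_lt (Nat.lt_succ_self _), mul_zero]
    | succ j ih =>
      intro hj
      have h1 := ih (by omega)
      have h2 : ((C x + C c * X) * Γ).coeff (Γ.natDegree + 1 - (j + 1) + 1) = 0 := by
        rw [h, coeff_zero]
      rw [add_mul, mul_assoc, coeff_add, coeff_C_mul, coeff_C_mul, coeff_X_mul] at h2
      have h3 : Γ.natDegree + 1 - (j + 1) + 1 = Γ.natDegree + 1 - j := by omega
      rw [h3] at h2
      have h4 : c * Γ.coeff (Γ.natDegree + 1 - (j + 1)) = - (x * Γ.coeff (Γ.natDegree + 1 - j)) := by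
        linear_combination h2
      calc c ^ (j + 1) * Γ.coeff (Γ.natDegree + 1 - (j + 1))
          = c ^ j * (c * Γ.coeff (Γ.natDegree + 1 - (j + 1))) := by ring
        _ = - x * (c ^ j * Γ.coeff (Γ.natDegree + 1 - j)) := by rw [h4]; ring
        _ = 0 := by rw [h1, mul_zero]
  refine ⟨Γ.natDegree + 1, ?_⟩
  have := key (Γ.natDegree + 1) le_rfl
  rwa [Nat.sub_self] at this

private theorem B2_union {B : Type*} [CommRing B] {b : ℕ} (y : Fin b → B) (W W' : Finset (Fin b)) :
    gP y (W ∪ W') ∣ gP y W * gP y W' :=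
  Dvd.intro (∏ i ∈ W ∩ W', (X - C (y i))) (Finset.prod_union_inter)

private theorem B2_lin {B : Type*} [CommRing B] {p : ℕ} (t e : Fin p → B) :
    pV (fun l => C (t l) + C (e l) * X) = (pV t).map (C : B →+* B[X]) + C X * (pV e).map (C : B →+* B[X]) := by
  rw [pV_map, pV_map]
  unfold pV
  rw [Finset.mul_sum, ← Finset.sum_add_distrib]
  refine Finset.sum_congr rfl fun l _ => ?_
  rw [C_add, C_mul]
  ring

private theorem B2_main {A : Type u} [CommRing A] {b : ℕ} (y : Fin b → A) (J0 : Ideal A) (π : A[X])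
    (L F E : Finset (Fin b)) (p q : ℕ) (i : Fin b) (hi : i ∈ L) (hEL : E ⊆ F ∪ L)
    (hcase : i ∈ E ∨ E = F) (hp : L.card ≤ p) (G : MvPolynomial (Fin p ⊕ Fin q) A)
    (hG : (tP A p q).eval (MvPolynomial.C (y i)) * G ∈ sI y J0 π L F E p q)
    (F' : Finset (Fin b)) (hF' : F' = if i ∈ E then insert i F else F)
    {B : Type u} [CommRing B] [Nontrivial B] (Φ : MvPolynomial (Fin p ⊕ Fin q) A →+* B)
    (hk : sJ y J0 π L F E p q i F' ≤ RingHom.ker Φ) :
    ∃ K : ℕ, Φ (MvPolynomial.C (∏ j ∈ L.erase i, (y i - y j)) ^ K * G) = 0 := by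
  classical
  obtain ⟨h0, h5, h6⟩ := (sJ_le_ker y J0 π L F E p q i F' Φ).1 hk
  obtain ⟨h1, h2, h3, h4⟩ := (sI_le_ker y J0 π L F E p q Φ).1 h0
  set φ : A →+* B := Φ.comp MvPolynomial.C with hφ
  set yy : Fin b → B := fun i => Φ (MvPolynomial.C (y i)) with hyy
  set t : Fin p → B := fun l => Φ (MvPolynomial.X (Sum.inl l)) with ht
  set u' : Fin q → B := fun l => Φ (MvPolynomial.X (Sum.inr l)) with hu
  set π' : B[X] := π.map φ with hπ
  set e : B[X] := gP yy (L.erase i) with he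
  have hcard : (L.erase i).card < p := by
    rw [Finset.card_erase_of_mem hi]
    have := Finset.card_pos.2 ⟨i, hi⟩
    omega
  have hedeg : e.degree < (p : WithBot ℕ) := by
    have h7 : e.natDegree = (L.erase i).card := gP_natDegree yy _
    rw [degree_eq_natDegree (gP_monic yy _).ne_zero, ← he, h7]
    exact_mod_cast hcard
  have hepV : e = pV (fun l : Fin p => e.coeff l) := exists_pV e hedeg
  have hgL : gP yy L = (X - C (yy i)) * e := gP_erase yy hi
  have hud : (X - C (yy i)) ∣ pV u' := dvd_iff_isRoot.2 h5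
  have heu : gP yy L ∣ e * pV u' := by
    rw [hgL]
    exact (mul_dvd_mul hud (dvd_refl e)).trans (mul_comm _ _).dvd
  have heπ : gP yy E ∣ e * π' := by
    by_cases hiE : i ∈ E
    · have hsub : E ⊆ L.erase i ∪ insert i F := by
        intro j hj
        rw [Finset.mem_union, Finset.mem_erase, Finset.mem_insert]
        by_cases hji : j = i
        · exact Or.inr (Or.inl hji)
        · rcases Finset.mem_union.1 (hEL hj) with h | h
          · exact Or.inr (Or.inr h)
          · exact Or.inl ⟨hji, h⟩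
      have hF'' : F' = insert i F := by rw [hF', if_pos hiE]
      refine (gP_dvd yy hsub).trans ((B2_union yy _ _).trans ?_)
      refine mul_dvd_mul dvd_rfl ?_
      rw [← hF'']
      exact h6
    · have hEF : E = F := hcase.resolve_left hiE
      rw [hEF]
      exact h2.trans (dvd_mul_left _ _)
  -- the shifted homomorphism
  set Ψ : MvPolynomial (Fin p ⊕ Fin q) A →+* B[X] :=
    MvPolynomial.eval₂Hom ((C : B →+* B[X]).comp φ)
      (Sum.elim (fun l => C (t l) + C (e.coeff l) * X) (fun l => C (u' l))) with hΨ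
  have hΨC : ∀ a : A, Ψ (MvPolynomial.C a) = C (φ a) := fun a => by
    rw [hΨ, MvPolynomial.eval₂Hom_C]; rfl
  have hΨl : ∀ l : Fin p, Ψ (MvPolynomial.X (Sum.inl l)) = C (t l) + C (e.coeff l) * X := fun l => by
    rw [hΨ, MvPolynomial.eval₂Hom_X']; rfl
  have hΨr : ∀ l : Fin q, Ψ (MvPolynomial.X (Sum.inr l)) = C (u' l) := fun l => by
    rw [hΨ, MvPolynomial.eval₂Hom_X']; rfl
  have hΨφ : Ψ.comp MvPolynomial.C = (C : B →+* B[X]).comp φ :=
    RingHom.ext fun a => hΨC a
  have hyΨ : ∀ W : Finset (Fin b), gP (fun i => Ψ (MvPolynomial.C (y i))) W =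
      (gP yy W).map (C : B →+* B[X]) := by
    intro W
    rw [gP_map]
    congr 1
    funext j
    exact hΨC (y j)
  have hπΨ : π.map (Ψ.comp MvPolynomial.C) = π'.map (C : B →+* B[X]) := by
    rw [hΨφ, hπ, Polynomial.map_map]
  have htΨ : pV (fun l => Ψ (MvPolynomial.X (Sum.inl l))) =
      (pV t).map (C : B →+* B[X]) + C X * e.map (C : B →+* B[X]) := by
    rw [show (fun l => Ψ (MvPolynomial.X (Sum.inl l))) = fun l : Fin p => C (t l) + C (e.coeff l) * X from
      funext hΨl, B2_lin t (fun l : Fin p => e.coeff l), ← hepV]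
  have huΨ : pV (fun l => Ψ (MvPolynomial.X (Sum.inr l))) = (pV u').map (C : B →+* B[X]) := by
    rw [show (fun l => Ψ (MvPolynomial.X (Sum.inr l))) = fun l : Fin q => C (u' l) from funext hΨr, pV_map]
  have hmain : sI y J0 π L F E p q ≤ RingHom.ker Ψ := by
    refine (sI_le_ker y J0 π L F E p q Ψ).2 ⟨?_, ?_, ?_, ?_⟩
    · intro a ha
      rw [RingHom.mem_ker, RingHom.comp_apply, hΨC]
      have : φ a = 0 := RingHom.mem_ker.1 (h1 ha)
      rw [this, C_0]
    · rw [hyΨ, hπΨ]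
      exact Polynomial.map_dvd _ h2
    · rw [hyΨ, htΨ, huΨ, add_mul, mul_assoc, ← Polynomial.map_mul, ← Polynomial.map_mul]
      exact dvd_add (Polynomial.map_dvd _ h3) ((Polynomial.map_dvd _ heu).trans (dvd_mul_left _ _))
    · rw [hyΨ, htΨ, hπΨ, add_mul, mul_assoc, ← Polynomial.map_mul, ← Polynomial.map_mul]
      exact dvd_add (Polynomial.map_dvd _ h4) ((Polynomial.map_dvd _ heπ).trans (dvd_mul_left _ _))
  have hΨG : Ψ ((tP A p q).eval (MvPolynomial.C (y i))) * Ψ G = 0 := by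
    rw [← map_mul]
    exact RingHom.mem_ker.1 (hmain hG)
  have hev : Ψ ((tP A p q).eval (MvPolynomial.C (y i))) = C ((pV t).eval (yy i)) + C (e.eval (yy i)) * X := by
    have hm : (tP A p q).map Ψ = pV (fun l => Ψ (MvPolynomial.X (Sum.inl l))) := by
      rw [tP, pV_map]
    rw [← Polynomial.eval₂_hom, ← Polynomial.eval_map, hm, htΨ, hΨC]
    rw [eval_add, eval_mul, eval_C, show φ (y i) = yy i from rfl, Polynomial.eval_map, Polynomial.eval_map,
      Polynomial.eval₂_hom, Polynomial.eval₂_hom, mul_comm X]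
  rw [hev] at hΨG
  obtain ⟨K, hK⟩ := exact_coeff _ _ _ hΨG
  refine ⟨K, ?_⟩
  have hcomp : (Polynomial.evalRingHom (0 : B)).comp Ψ = Φ := by
    refine MvPolynomial.ringHom_ext (fun a => ?_) (fun s => ?_)
    · rw [RingHom.comp_apply, hΨC, coe_evalRingHom, eval_C]
      rfl
    · rcases s with l | l
      · rw [RingHom.comp_apply, hΨl, coe_evalRingHom]
        simp only [eval_add, eval_mul, eval_C, eval_X, mul_zero, add_zero]
        rfl
      · rw [RingHom.comp_apply, hΨr, coe_evalRingHom, eval_C]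
  have hc0 : (Ψ G).coeff 0 = Φ G := by
    rw [coeff_zero_eq_eval_zero, ← hcomp]
    rfl
  have hprod : Φ (MvPolynomial.C (∏ j ∈ L.erase i, (y i - y j))) = e.eval (yy i) := by
    rw [he, gP, eval_prod, map_prod, map_prod]
    refine Finset.prod_congr rfl fun j _ => ?_
    rw [eval_sub, eval_X, eval_C, map_sub, map_sub]
  rw [map_mul, map_pow, hprod, ← hc0]
  exact hK

theorem exactStep {A : Type u} [CommRing A] {b : ℕ} (y : Fin b → A) (J0 : Ideal A) (π : A[X])
    (L F E : Finset (Fin b)) (p q : ℕ) (i : Fin b) (hi : i ∈ L) (hFE : F ⊆ E) (hEL : E ⊆ F ∪ L)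
    (hcase : i ∈ E ∨ E = F) (hp : L.card ≤ p) (G : MvPolynomial (Fin p ⊕ Fin q) A)
    (hG : (tP A p q).eval (MvPolynomial.C (y i)) * G ∈ sI y J0 π L F E p q) :
    ∃ K : ℕ, MvPolynomial.C (∏ j ∈ L.erase i, (y i - y j)) ^ K * G ∈
      sJ y J0 π L F E p q i (if i ∈ E then insert i F else F) := by
  classical
  rcases subsingleton_or_nontrivial (MvPolynomial (Fin p ⊕ Fin q) A ⧸
    sJ y J0 π L F E p q i (if i ∈ E then insert i F else F)) with hs | hn
  · exact ⟨0, Ideal.Quotient.eq_zero_iff_mem.1 (Subsingleton.elim _ _)⟩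
  obtain ⟨K, hK⟩ := B2_main y J0 π L F E p q i hi hEL hcase hp G hG _ rfl
    (Ideal.Quotient.mk (sJ y J0 π L F E p q i (if i ∈ E then insert i F else F))) (Ideal.mk_ker).ge
  exact ⟨K, Ideal.Quotient.eq_zero_iff_mem.1 hK⟩

end Pool.Agent.LibCQ2
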