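import Pool.Agent.LibCQ2.B1
import Pool.Agent.LibCQ2.B1p

set_option autoImplicit false

/-! ROW B3 (MEDIUM, Defs + B1, B1p). The quotient by x = t(y_i).
 x := (tP A (p+1) q).eval (C (y i)). To find G': show that Ψ G = 0 for the quotient map Ψ of MvPolynomial (Fin (p+1) ⊕ Fin q) A by sI L F E (p+1) q ⊔ span {x}
   (then G ∈ sI ⊔ span {x}: Submodule.mem_sup, Ideal.mem_span_singleton').
 Let σ : MvPolynomial (Fin (p+1) ⊕ Fin q) A →+* MvPolynomial (Fin p ⊕ Fin q) A be eval₂Hom C with X (inl l) ↦ sft (C (y i)) (fun l => X (inl l)) l  (coefficients of (z - y_i) t''), X (inr l) ↦ X (inr l).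
 (1) sI L F E (p+1) q ≤ (sI (L.erase i) F (E.erase i) p q).comap σ: take Φ'' := mk of sI (L.erase i) F (E.erase i) p q, Φ := Φ''.comp σ; by sI_le_ker we must show, with t'', u, π over the quotient and
     t = (z - y_i) t'' (pV_sft): g_(L.erase i) ∣ t'' u ⟹ g_L ∣ t u (gP_erase); g_F ∣ π; g_E ∣ t π: if i ∈ E then g_(E.erase i) ∣ t'' π and gP_erase; else E = F and g_F ∣ π.
     So C D * σ G = σ (C D * G) ∈ sI (L.erase i) .. and IH gives σ G ∈ sI (L.erase i) F (E.erase i) p q.
 (2) over the quotient by sI ⊔ span {x}: t(y_i) = 0, so t = (z - y_i) pV t'' for some t'' (pV_div). Let Φ'' : MvPolynomial (Fin p ⊕ Fin q) A →+* quotient be eval₂Hom (Ψ.comp C) (t'', u).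
     Then Φ''.comp σ = Ψ (ringHom_ext, pV_sft, pV_inj). And sI (L.erase i) F (E.erase i) p q ≤ ker Φ'': by sI_le_ker: (z - y_i) g_(L.erase i) ∣ (z - y_i) t'' u, cancel the monic factor z - y_i
     ((monic_X_sub_C _).isRegular); g_F ∣ π; g_(E.erase i) ∣ t'' π: if i ∈ E cancel; if i ∉ E: E.erase i = E = F, g_F ∣ π.
     So Ψ G = Φ'' (σ G) = 0. -/

namespace Pool.Agent.LibCQ2

open Polynomial

universe u

private theorem B3_cancel {B : Type*} [CommRing B] (c : B) (a b : B[X])
    (h : (X - C c) * a ∣ (X - C c) * b) : a ∣ b := by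
  obtain ⟨k, hk⟩ := h
  refine ⟨k, (monic_X_sub_C c).isRegular.left ?_⟩
  show (X - C c) * b = (X - C c) * (a * k)
  rw [hk, mul_assoc]

theorem quotStep {A : Type u} [CommRing A] {b : ℕ} (y : Fin b → A) (D : A) (J0 : Ideal A) (π : A[X])
    (L F E : Finset (Fin b)) (p q : ℕ) (i : Fin b) (hi : i ∈ L) (hcase : i ∈ E ∨ E = F)
    (IH : ∀ G : MvPolynomial (Fin p ⊕ Fin q) A,
      MvPolynomial.C D * G ∈ sI y J0 π (L.erase i) F (E.erase i) p q → G ∈ sI y J0 π (L.erase i) F (E.erase i) p q)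
    (G : MvPolynomial (Fin (p + 1) ⊕ Fin q) A) (hG : MvPolynomial.C D * G ∈ sI y J0 π L F E (p + 1) q) :
    ∃ G', G - (tP A (p + 1) q).eval (MvPolynomial.C (y i)) * G' ∈ sI y J0 π L F E (p + 1) q := by
  classical
  set I1 := sI y J0 π L F E (p + 1) q with hI1
  set I0 := sI y J0 π (L.erase i) F (E.erase i) p q with hI0
  set x := (tP A (p + 1) q).eval (MvPolynomial.C (y i)) with hx
  let tt : Fin p → MvPolynomial (Fin p ⊕ Fin q) A := fun l => MvPolynomial.X (Sum.inl l)
  let uu : Fin q → MvPolynomial (Fin p ⊕ Fin q) A := fun l => MvPolynomial.X (Sum.inr l)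
  let σ : MvPolynomial (Fin (p + 1) ⊕ Fin q) A →+* MvPolynomial (Fin p ⊕ Fin q) A :=
    MvPolynomial.eval₂Hom MvPolynomial.C
      (Sum.elim (fun l => sft (MvPolynomial.C (y i)) tt l) uu)
  have hσC : ∀ a : A, σ (MvPolynomial.C a) = MvPolynomial.C a := fun a => MvPolynomial.eval₂Hom_C _ _ _
  have hσl : ∀ l, σ (MvPolynomial.X (Sum.inl l)) = sft (MvPolynomial.C (y i)) tt l := fun l => by
    show MvPolynomial.eval₂Hom _ _ _ = _
    rw [MvPolynomial.eval₂Hom_X']
    rfl
  have hσr : ∀ l, σ (MvPolynomial.X (Sum.inr l)) = uu l := fun l => by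
    show MvPolynomial.eval₂Hom _ _ _ = _
    rw [MvPolynomial.eval₂Hom_X']
    rfl
  -- (1)
  have h1 : σ G ∈ I0 := by
    apply IH
    have hker : I1 ≤ RingHom.ker ((Ideal.Quotient.mk I0).comp σ) := by
      have h0 := (sI_le_ker y J0 π (L.erase i) F (E.erase i) p q (Ideal.Quotient.mk I0)).1
        (by rw [Ideal.mk_ker])
      obtain ⟨hJ, hF, hL, hE⟩ := h0
      rw [hI1, sI_le_ker]
      have e1 : ((Ideal.Quotient.mk I0).comp σ).comp MvPolynomial.C =
          (Ideal.Quotient.mk I0).comp MvPolynomial.C := by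
        ext a
        show (Ideal.Quotient.mk I0) (σ (MvPolynomial.C a)) = _
        rw [hσC]
        rfl
      have e2 : (fun j => ((Ideal.Quotient.mk I0).comp σ) (MvPolynomial.C (y j))) =
          fun j => (Ideal.Quotient.mk I0) (MvPolynomial.C (y j)) := by
        funext j
        show (Ideal.Quotient.mk I0) (σ (MvPolynomial.C (y j))) = _
        rw [hσC]
      have e3 : pV (fun l => ((Ideal.Quotient.mk I0).comp σ) (MvPolynomial.X (Sum.inl l))) =
          (X - C ((Ideal.Quotient.mk I0) (MvPolynomial.C (y i)))) *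
            pV (fun l => (Ideal.Quotient.mk I0) (MvPolynomial.X (Sum.inl l))) := by
        rw [← pV_sft, ← sft_map]
        congr 1
        funext l
        show (Ideal.Quotient.mk I0) (σ (MvPolynomial.X (Sum.inl l))) = _
        rw [hσl]
      have e4 : pV (fun l => ((Ideal.Quotient.mk I0).comp σ) (MvPolynomial.X (Sum.inr l))) =
          pV (fun l => (Ideal.Quotient.mk I0) (MvPolynomial.X (Sum.inr l))) := by
        congr 1
        funext l
        show (Ideal.Quotient.mk I0) (σ (MvPolynomial.X (Sum.inr l))) = _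
        rw [hσr]
      rw [e1, e2, e3, e4]
      refine ⟨hJ, hF, ?_, ?_⟩
      · rw [gP_erase _ hi, mul_assoc]
        exact mul_dvd_mul_left _ hL
      · by_cases hiE : i ∈ E
        · rw [gP_erase _ hiE, mul_assoc]
          exact mul_dvd_mul_left _ hE
        · have hEF := hcase.resolve_left hiE
          rw [hEF]
          exact Dvd.dvd.mul_left hF _
    have h2 : (Ideal.Quotient.mk I0) (σ (MvPolynomial.C D * G)) = 0 := hker hG
    rw [map_mul, hσC] at h2
    exact Ideal.Quotient.eq_zero_iff_mem.1 h2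
  -- (2)
  set I2 : Ideal (MvPolynomial (Fin (p + 1) ⊕ Fin q) A) := I1 ⊔ Ideal.span {x} with hI2
  set Ψ := Ideal.Quotient.mk I2 with hΨ
  have hΨ1 : I1 ≤ RingHom.ker Ψ := by
    rw [hΨ, Ideal.mk_ker]
    exact le_sup_left
  have hΨx : Ψ x = 0 := by
    apply Ideal.Quotient.eq_zero_iff_mem.2
    exact Ideal.mem_sup_right (Ideal.mem_span_singleton_self x)
  have hev : (pV (fun l => Ψ (MvPolynomial.X (Sum.inl l)))).eval (Ψ (MvPolynomial.C (y i))) = 0 := by
    rw [← pV_map, Polynomial.eval_map, Polynomial.eval₂_at_apply]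
    exact hΨx
  obtain ⟨t'', ht''⟩ := pV_div _ _ hev
  have hsft : (fun l => Ψ (MvPolynomial.X (Sum.inl l))) = sft (Ψ (MvPolynomial.C (y i))) t'' := by
    apply pV_inj
    rw [pV_sft, ht'']
  let Φ : MvPolynomial (Fin p ⊕ Fin q) A →+* (MvPolynomial (Fin (p + 1) ⊕ Fin q) A ⧸ I2) :=
    MvPolynomial.eval₂Hom (Ψ.comp MvPolynomial.C)
      (Sum.elim t'' (fun l => Ψ (MvPolynomial.X (Sum.inr l))))
  have hΦC : ∀ a : A, Φ (MvPolynomial.C a) = Ψ (MvPolynomial.C a) := fun a => MvPolynomial.eval₂Hom_C _ _ _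
  have hΦl : ∀ l, Φ (MvPolynomial.X (Sum.inl l)) = t'' l := fun l => by
    show MvPolynomial.eval₂Hom _ _ _ = _
    rw [MvPolynomial.eval₂Hom_X']
    rfl
  have hΦr : ∀ l, Φ (MvPolynomial.X (Sum.inr l)) = Ψ (MvPolynomial.X (Sum.inr l)) := fun l => by
    show MvPolynomial.eval₂Hom _ _ _ = _
    rw [MvPolynomial.eval₂Hom_X']
    rfl
  have hcomp : Φ.comp σ = Ψ := by
    apply MvPolynomial.ringHom_ext
    · intro a
      show Φ (σ (MvPolynomial.C a)) = _
      rw [hσC, hΦC]
    · rintro (l | l)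
      · show Φ (σ (MvPolynomial.X (Sum.inl l))) = _
        rw [hσl]
        have h3 := congrFun (sft_map Φ (MvPolynomial.C (y i)) tt) l
        have h4 := congrFun hsft l
        rw [h4, h3, hΦC]
        congr 1
        funext j
        exact hΦl j
      · show Φ (σ (MvPolynomial.X (Sum.inr l))) = _
        rw [hσr]
        exact hΦr l
  have hk0 : I0 ≤ RingHom.ker Φ := by
    obtain ⟨hJ, hF, hL, hE⟩ := (sI_le_ker y J0 π L F E (p + 1) q Ψ).1 hΨ1
    rw [hI0, sI_le_ker]
    have e1 : Φ.comp MvPolynomial.C = Ψ.comp MvPolynomial.C := by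
      ext a
      exact hΦC a
    have e2 : (fun j => Φ (MvPolynomial.C (y j))) = fun j => Ψ (MvPolynomial.C (y j)) := by
      funext j
      exact hΦC _
    have e3 : (fun l => Φ (MvPolynomial.X (Sum.inl l))) = t'' := by
      funext l
      exact hΦl l
    have e4 : (fun l => Φ (MvPolynomial.X (Sum.inr l))) = fun l => Ψ (MvPolynomial.X (Sum.inr l)) := by
      funext l
      exact hΦr l
    rw [e1, e2, e3, e4]
    refine ⟨hJ, hF, ?_, ?_⟩
    · rw [ht'', gP_erase _ hi, mul_assoc] at hL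
      exact B3_cancel _ _ _ hL
    · by_cases hiE : i ∈ E
      · rw [ht'', gP_erase _ hiE, mul_assoc] at hE
        exact B3_cancel _ _ _ hE
      · have hEF := hcase.resolve_left hiE
        rw [Finset.erase_eq_of_notMem hiE, hEF]
        exact Dvd.dvd.mul_left hF _
  have hΨG : Ψ G = 0 := by
    rw [← hcomp]
    exact hk0 h1
  have hG2 : G ∈ I1 ⊔ Ideal.span {x} := Ideal.Quotient.eq_zero_iff_mem.1 hΨG
  obtain ⟨s, hs, r, hr, hsr⟩ := Submodule.mem_sup.1 hG2
  obtain ⟨G', hG'⟩ := Ideal.mem_span_singleton'.1 hr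
  refine ⟨G', ?_⟩
  have : G - x * G' = s := by
    rw [← hsr, ← hG']
    ring
  rw [this]
  exact hs

end Pool.Agent.LibCQ2
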