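import Pool.Agent.LibCQ2.B1
import Pool.Agent.LibCQ2.B1p

set_option autoImplicit false

/-! ROW B4 (MEDIUM, Defs + B1, B1p). The colon ideal sJ (F' = if i ∈ E then insert i F else F).
 colonStep: as row B3 with u in place of t. σ : MvPolynomial (Fin p ⊕ Fin (q+1)) A →+* MvPolynomial (Fin p ⊕ Fin q) A, X (inl l) ↦ X (inl l), X (inr l) ↦ sft (C (y i)) (X ∘ inr) l.
 (1) sJ L F E p (q+1) i F' ≤ (sI (L.erase i) F' E p q).comap σ: sJ_le_ker + sI_le_ker with u = (z - y_i) u'': g_(L.erase i) ∣ t u'' ⟹ g_L ∣ t u; g_F ∣ g_F' ∣ π (F ⊆ F'); g_E ∣ t π same;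
     u(y_i) = 0; g_F' ∣ π. So σ G is in sI (L.erase i) F' E p q by IH.
 (2) over the quotient Ψ by sJ: u(y_i) = 0, u = (z - y_i) u'' (pV_div), Φ'' := eval₂Hom (Ψ.comp C) (t, u''), Φ''.comp σ = Ψ, sI (L.erase i) F' E p q ≤ ker Φ'': g_(L.erase i) ∣ t u'' by cancelling
     the monic z - y_i; g_F' ∣ π; g_E ∣ t π. So Ψ G = 0, G ∈ sJ.
 x_mul_sJ: sJ = sI ⊔ span {u(y_i)} ⊔ (remId (gP y F') π).map C. Let Φ := mk of sI. It suffices: Φ(x) Φ(G) = 0 for G in each of the three ideals (Submodule.sup_induction / mem_sup, span_induction):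
   sI: clear. u(y_i): g_L ∣ t u and i ∈ L: evaluate at y_i: t(y_i) u(y_i) = 0. Third: the ideal {a : Φ(x) Φ(C a) = 0} of A contains remId (gP y F') π: equivalently (coefficients; remainder commutes with
   multiplication by constants: smul_modByMonic) g_F' ∣ C (t(y_i)) * π over the quotient. If i ∉ E: F' = F. If i ∈ E (so F' = insert i F ⊆ E): π = g_F π1, g_F (z - y_i) ∣ g_E ∣ t g_F π1 [if i ∈ F then
   F' = F and nothing to show], cancel g_F: (z - y_i) ∣ t π1, so t(y_i) π1(y_i) = 0, so (z - y_i) ∣ C (t(y_i)) π1 and g_F' ∣ C (t(y_i)) π. -/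

namespace Pool.Agent.LibCQ2

open Polynomial

universe u

private theorem B4_cancel {B : Type*} [CommRing B] {m P Q : B[X]} (hm : m.Monic)
    (h : m * P ∣ m * Q) : P ∣ Q := by
  obtain ⟨r, hr⟩ := h
  refine ⟨r, ?_⟩
  have h1 : m * Q = m * (P * r) := by rw [hr, mul_assoc]
  exact hm.isRegular.left h1

theorem colonStep {A : Type u} [CommRing A] {b : ℕ} (y : Fin b → A) (D : A) (J0 : Ideal A) (π : A[X])
    (L F F' E : Finset (Fin b)) (hFF : F ⊆ F') (p q : ℕ) (i : Fin b) (hi : i ∈ L)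
    (IH : ∀ G : MvPolynomial (Fin p ⊕ Fin q) A,
      MvPolynomial.C D * G ∈ sI y J0 π (L.erase i) F' E p q → G ∈ sI y J0 π (L.erase i) F' E p q)
    (G : MvPolynomial (Fin p ⊕ Fin (q + 1)) A) (hG : MvPolynomial.C D * G ∈ sJ y J0 π L F E p (q + 1) i F') :
    G ∈ sJ y J0 π L F E p (q + 1) i F' := by
  classical
  obtain ⟨σ, hσ⟩ : ∃ σ : MvPolynomial (Fin p ⊕ Fin (q + 1)) A →+* MvPolynomial (Fin p ⊕ Fin q) A,
      σ = MvPolynomial.eval₂Hom (MvPolynomial.C : A →+* MvPolynomial (Fin p ⊕ Fin q) A)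
        (Sum.elim (fun l => MvPolynomial.X (Sum.inl l))
          (sft (MvPolynomial.C (y i)) (fun l : Fin q => (MvPolynomial.X (Sum.inr l) :
            MvPolynomial (Fin p ⊕ Fin q) A)))) := ⟨_, rfl⟩
  have hσC : ∀ a : A, σ (MvPolynomial.C a) = MvPolynomial.C a := by
    intro a
    rw [hσ, MvPolynomial.eval₂Hom_C]
  have hσl : ∀ l, σ (MvPolynomial.X (Sum.inl l)) = MvPolynomial.X (Sum.inl l) := by
    intro l
    rw [hσ, MvPolynomial.eval₂Hom_X', Sum.elim_inl]
  have hσr : ∀ l, σ (MvPolynomial.X (Sum.inr l)) = sft (MvPolynomial.C (y i))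
      (fun l : Fin q => (MvPolynomial.X (Sum.inr l) : MvPolynomial (Fin p ⊕ Fin q) A)) l := by
    intro l
    rw [hσ, MvPolynomial.eval₂Hom_X', Sum.elim_inr]
  -- first half
  have h1 : σ G ∈ sI y J0 π (L.erase i) F' E p q := by
    apply IH
    obtain ⟨Φ, hΦ⟩ : ∃ Φ : MvPolynomial (Fin p ⊕ Fin q) A →+*
        (MvPolynomial (Fin p ⊕ Fin q) A ⧸ sI y J0 π (L.erase i) F' E p q),
        Φ = Ideal.Quotient.mk (sI y J0 π (L.erase i) F' E p q) := ⟨_, rfl⟩
    have hk : RingHom.ker Φ = sI y J0 π (L.erase i) F' E p q := by rw [hΦ, Ideal.mk_ker]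
    have h2 := (sI_le_ker y J0 π (L.erase i) F' E p q Φ).1 (le_of_eq hk.symm)
    obtain ⟨a1, a2, a3, a4⟩ := h2
    have hCc : (Φ.comp σ).comp MvPolynomial.C = Φ.comp MvPolynomial.C := by
      ext a
      simp only [RingHom.comp_apply, hσC]
    have hur : pV (fun l => (Φ.comp σ) (MvPolynomial.X (Sum.inr l))) =
        (X - C (Φ (MvPolynomial.C (y i)))) * pV (fun l => Φ (MvPolynomial.X (Sum.inr l))) := by
      have h3 : (fun l => (Φ.comp σ) (MvPolynomial.X (Sum.inr l))) =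
          sft (Φ (MvPolynomial.C (y i))) (fun l => Φ (MvPolynomial.X (Sum.inr l))) := by
        rw [← sft_map Φ]
        funext l
        rw [RingHom.comp_apply, hσr]
      rw [h3, pV_sft]
    have h5 : sJ y J0 π L F E p (q + 1) i F' ≤ RingHom.ker (Φ.comp σ) := by
      rw [sJ_le_ker, sI_le_ker]
      simp only [hCc, hur]
      simp only [RingHom.comp_apply, hσC, hσl]
      refine ⟨⟨a1, (gP_dvd _ hFF).trans a2, ?_, a4⟩, ?_, a2⟩
      · rw [gP_erase _ hi]
        obtain ⟨r, hr⟩ := a3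
        refine ⟨r, ?_⟩
        calc pV (fun l => Φ (MvPolynomial.X (Sum.inl l))) *
              ((X - C (Φ (MvPolynomial.C (y i)))) * pV (fun l => Φ (MvPolynomial.X (Sum.inr l))))
            = (X - C (Φ (MvPolynomial.C (y i)))) * (pV (fun l => Φ (MvPolynomial.X (Sum.inl l))) *
              pV (fun l => Φ (MvPolynomial.X (Sum.inr l)))) := by ring
          _ = _ := by rw [hr]; ring
      · rw [eval_mul, eval_sub, eval_X, eval_C, sub_self, zero_mul]
    have h6 := h5 hG
    rw [RingHom.mem_ker, RingHom.comp_apply, map_mul, hσC] at h6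
    rw [← hk, RingHom.mem_ker]
    exact h6
  -- second half
  obtain ⟨Ψ, hΨ⟩ : ∃ Ψ : MvPolynomial (Fin p ⊕ Fin (q + 1)) A →+*
      (MvPolynomial (Fin p ⊕ Fin (q + 1)) A ⧸ sJ y J0 π L F E p (q + 1) i F'),
      Ψ = Ideal.Quotient.mk (sJ y J0 π L F E p (q + 1) i F') := ⟨_, rfl⟩
  have hk : RingHom.ker Ψ = sJ y J0 π L F E p (q + 1) i F' := by rw [hΨ, Ideal.mk_ker]
  have h2 := (sJ_le_ker y J0 π L F E p (q + 1) i F' Ψ).1 (le_of_eq hk.symm)
  obtain ⟨hs, hu, hF'⟩ := h2
  obtain ⟨a1, a2, a3, a4⟩ := (sI_le_ker y J0 π L F E p (q + 1) Ψ).1 hs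
  obtain ⟨u'', hu''⟩ := pV_div _ _ hu
  obtain ⟨Φ, hΦ⟩ : ∃ Φ : MvPolynomial (Fin p ⊕ Fin q) A →+*
      (MvPolynomial (Fin p ⊕ Fin (q + 1)) A ⧸ sJ y J0 π L F E p (q + 1) i F'),
      Φ = MvPolynomial.eval₂Hom (Ψ.comp MvPolynomial.C)
        (Sum.elim (fun l => Ψ (MvPolynomial.X (Sum.inl l))) u'') := ⟨_, rfl⟩
  have hΦC : ∀ a : A, Φ (MvPolynomial.C a) = Ψ (MvPolynomial.C a) := by
    intro a
    rw [hΦ, MvPolynomial.eval₂Hom_C, RingHom.comp_apply]
  have hΦl : ∀ l, Φ (MvPolynomial.X (Sum.inl l)) = Ψ (MvPolynomial.X (Sum.inl l)) := by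
    intro l
    rw [hΦ, MvPolynomial.eval₂Hom_X', Sum.elim_inl]
  have hΦr : ∀ l, Φ (MvPolynomial.X (Sum.inr l)) = u'' l := by
    intro l
    rw [hΦ, MvPolynomial.eval₂Hom_X', Sum.elim_inr]
  have hΦCc : Φ.comp MvPolynomial.C = Ψ.comp MvPolynomial.C := by
    ext a
    simp only [RingHom.comp_apply, hΦC]
  have hcomp : Φ.comp σ = Ψ := by
    apply MvPolynomial.ringHom_ext
    · intro a
      rw [RingHom.comp_apply, hσC, hΦC]
    · rintro (l | l)
      · rw [RingHom.comp_apply, hσl, hΦl]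
      · rw [RingHom.comp_apply, hσr]
        have h3 : (fun l => Φ (sft (MvPolynomial.C (y i))
            (fun l : Fin q => (MvPolynomial.X (Sum.inr l) : MvPolynomial (Fin p ⊕ Fin q) A)) l)) =
            fun l => Ψ (MvPolynomial.X (Sum.inr l)) := by
          apply pV_inj
          rw [sft_map Φ, pV_sft, hu'', hΦC]
          simp only [hΦr]
        exact congrFun h3 l
  have h5 : sI y J0 π (L.erase i) F' E p q ≤ RingHom.ker Φ := by
    rw [sI_le_ker]
    simp only [hΦCc, hΦC, hΦl, hΦr]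
    refine ⟨a1, hF', ?_, a4⟩
    rw [hu'', gP_erase _ hi] at a3
    apply B4_cancel (monic_X_sub_C (Ψ (MvPolynomial.C (y i))))
    refine a3.trans (dvd_of_eq ?_)
    ring
  have h6 := h5 h1
  rw [RingHom.mem_ker, ← RingHom.comp_apply, hcomp] at h6
  rw [← hk, RingHom.mem_ker]
  exact h6

private theorem B4_smul_rem {B : Type*} [CommRing B] {m P : B[X]} (hm : m.Monic) (c : B)
    (h : m ∣ C c * P) (n : ℕ) : c * (P %ₘ m).coeff n = 0 := by
  have h1 : (c • P) %ₘ m = c • (P %ₘ m) := smul_modByMonic c P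
  rw [smul_eq_C_mul, (modByMonic_eq_zero_iff_dvd hm).2 h] at h1
  have h2 := congrArg (fun R : B[X] => R.coeff n) h1
  simp only [coeff_zero, coeff_smul, smul_eq_mul] at h2
  exact h2.symm

theorem x_mul_sJ {A : Type u} [CommRing A] {b : ℕ} (y : Fin b → A) (J0 : Ideal A) (π : A[X])
    (L F E : Finset (Fin b)) (p q : ℕ) (i : Fin b) (hi : i ∈ L) (hFE : F ⊆ E)
    (G : MvPolynomial (Fin p ⊕ Fin q) A)
    (hG : G ∈ sJ y J0 π L F E p q i (if i ∈ E then insert i F else F)) :
    (tP A p q).eval (MvPolynomial.C (y i)) * G ∈ sI y J0 π L F E p q := by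
  classical
  obtain ⟨Φ, hΦ⟩ : ∃ Φ : MvPolynomial (Fin p ⊕ Fin q) A →+*
      (MvPolynomial (Fin p ⊕ Fin q) A ⧸ sI y J0 π L F E p q),
      Φ = Ideal.Quotient.mk (sI y J0 π L F E p q) := ⟨_, rfl⟩
  have hk : RingHom.ker Φ = sI y J0 π L F E p q := by rw [hΦ, Ideal.mk_ker]
  obtain ⟨a1, a2, a3, a4⟩ := (sI_le_ker y J0 π L F E p q Φ).1 (le_of_eq hk.symm)
  obtain ⟨T, hT⟩ : ∃ T, T = (tP A p q).eval (MvPolynomial.C (y i)) := ⟨_, rfl⟩
  have hTe : Φ T = (pV (fun l => Φ (MvPolynomial.X (Sum.inl l)))).eval (Φ (MvPolynomial.C (y i))) := by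
    rw [hT, ← pV_map Φ]
    unfold tP
    rw [eval_map, eval₂_hom]
  have hUe : Φ ((uP A p q).eval (MvPolynomial.C (y i))) =
      (pV (fun l => Φ (MvPolynomial.X (Sum.inr l)))).eval (Φ (MvPolynomial.C (y i))) := by
    rw [← pV_map Φ]
    unfold uP
    rw [eval_map, eval₂_hom]
  rw [← hT]
  have key : sJ y J0 π L F E p q i (if i ∈ E then insert i F else F) ≤
      Submodule.comap (LinearMap.lsmul (MvPolynomial (Fin p ⊕ Fin q) A)
        (MvPolynomial (Fin p ⊕ Fin q) A) T) (sI y J0 π L F E p q) := by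
    unfold sJ
    refine sup_le (sup_le ?_ ?_) ?_
    · intro x hx
      rw [Submodule.mem_comap]
      exact Ideal.mul_mem_left _ T hx
    · rw [Ideal.span_le]
      rintro x hx
      rw [Set.mem_singleton_iff] at hx
      rw [hx, SetLike.mem_coe, Submodule.mem_comap]
      change T * _ ∈ _
      rw [← hk, RingHom.mem_ker, map_mul, hTe, hUe, ← eval_mul]
      rw [gP_erase _ hi] at a3
      have h3 := (Dvd.intro _ rfl).trans a3
      exact (dvd_iff_isRoot.1 h3)
    · rw [Ideal.map_le_iff_le_comap]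
      unfold remId
      rw [Ideal.span_le]
      rintro _ ⟨n, rfl⟩
      rw [SetLike.mem_coe, Ideal.mem_comap, Submodule.mem_comap]
      change T * _ ∈ _
      rw [← hk, RingHom.mem_ker, map_mul]
      have hm : (gP (fun j => Φ (MvPolynomial.C (y j))) (if i ∈ E then insert i F else F)).Monic :=
        gP_monic _ _
      have h4 : Φ (MvPolynomial.C ((π %ₘ gP y (if i ∈ E then insert i F else F)).coeff n)) =
          ((π.map (Φ.comp MvPolynomial.C)) %ₘ
            gP (fun j => Φ (MvPolynomial.C (y j))) (if i ∈ E then insert i F else F)).coeff n := by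
        have h5 := gP_map (Φ.comp MvPolynomial.C) y (if i ∈ E then insert i F else F)
        have h6 : gP (fun j => Φ (MvPolynomial.C (y j))) (if i ∈ E then insert i F else F) =
            (gP y (if i ∈ E then insert i F else F)).map (Φ.comp MvPolynomial.C) := by
          rw [h5]
          rfl
        rw [h6, ← map_modByMonic _ (gP_monic _ _), coeff_map]
        rfl
      rw [h4]
      apply B4_smul_rem hm
      -- divisibility
      obtain ⟨π1, hπ1⟩ := a2
      by_cases hiE : i ∈ E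
      · rw [if_pos hiE]
        by_cases hiF : i ∈ F
        · rw [Finset.insert_eq_of_mem hiF]
          exact (Dvd.intro _ hπ1.symm).mul_left _
        · have h7 : gP (fun j => Φ (MvPolynomial.C (y j))) (insert i F) =
              (X - C (Φ (MvPolynomial.C (y i)))) * gP (fun j => Φ (MvPolynomial.C (y j))) F := by
            rw [gP_erase _ (Finset.mem_insert_self i F), Finset.erase_insert hiF]
          have h8 : insert i F ⊆ E := Finset.insert_subset hiE hFE
          have h9 := (gP_dvd (fun j => Φ (MvPolynomial.C (y j))) h8).trans a4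
          rw [h7, hπ1] at h9
          have h10 : (X - C (Φ (MvPolynomial.C (y i)))) ∣
              pV (fun l => Φ (MvPolynomial.X (Sum.inl l))) * π1 := by
            apply B4_cancel (gP_monic (fun j => Φ (MvPolynomial.C (y j))) F)
            refine (dvd_of_eq ?_).trans (h9.trans (dvd_of_eq ?_)) <;> ring
          have h11 : (X - C (Φ (MvPolynomial.C (y i)))) ∣ C (Φ T) * π1 := by
            rw [dvd_iff_isRoot] at h10 ⊢
            unfold IsRoot at h10 ⊢
            rw [eval_mul] at h10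
            rw [eval_mul, eval_C, hTe]
            exact h10
          rw [h7, hπ1]
          obtain ⟨r, hr⟩ := h11
          refine ⟨r, ?_⟩
          calc C (Φ T) * (gP (fun j => Φ (MvPolynomial.C (y j))) F * π1) =
                (C (Φ T) * π1) * gP (fun j => Φ (MvPolynomial.C (y j))) F := by ring
            _ = _ := by rw [hr]; ring
      · rw [if_neg hiE]
        exact (Dvd.intro _ hπ1.symm).mul_left _
  exact key hG

end Pool.Agent.LibCQ2
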