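import Pool.Agent.LibCQ2.B2
import Pool.Agent.LibCQ2.B3
import Pool.Agent.LibCQ2.B4

set_option autoImplicit false

/-! ROW B5 (MEDIUM, Defs + B1, B2, B3, B4). The Main Lemma: induction on L.card.
 state: for all m L F E p q with L.card = m, F ⊆ E, E ⊆ F ∪ L, E ⊆ S0, Disjoint L F, L.card ≤ p, L.card ≤ q: C D * G ∈ sI L F E p q → G ∈ sI L F E p q.
 m = 0: L = ∅, E = F: sI = (J0 ⊔ remId (gP y F) π).map C [remId ((gP y ∅).map C) _ = remId 1 _ = ⊥ (remId_one); remId ((gP y F).map C) (t * π.map C) ≤ (remId (gP y F) π).map C: by remId_map and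
   remId_le_ker for the quotient map]. MvPolynomial.mem_map_C_iff: all coefficients; coeff of C D * G is D * coeff G; use hTF F.
 m + 1: L nonempty: choose i ∈ L with i ∈ E if L ∩ E is nonempty, otherwise any i ∈ L (then E ⊆ F ∪ L, L ∩ E = ∅ give E = F). So hcase : i ∈ E ∨ E = F. p = p' + 1, q = q' + 1.
   F' := if i ∈ E then insert i F else F; F ⊆ F' ⊆ E; E ⊆ F' ∪ L.erase i; Disjoint (L.erase i) F'. quotient state (L.erase i, F, E.erase i, p', q): F ⊆ E.erase i as i ∉ F; E.erase i ⊆ F ∪ L.erase i.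
   C D * G ∈ sI. quotStep (IH): G - x G' ∈ sI, x = t(y_i). Then x * (C D * G') ∈ sI. exactStep: C e^K * (C D * G') ∈ sJ, e = ∏_{j ∈ L.erase i} (y i - y j) which divides D ^ (L.card) by hD.
   So C D ^ K' * G' ∈ sJ for some K' (multiply). colonStep (IH for (L.erase i, F', E, p, q')) K' times: G' ∈ sJ. x_mul_sJ: x G' ∈ sI. So G ∈ sI. -/

namespace Pool.Agent.LibCQ2

open Polynomial

universe u

theorem B5_base {A : Type u} [CommRing A] {b : ℕ} (y : Fin b → A) (J0 : Ideal A) (π : A[X])
    (F : Finset (Fin b)) (p q : ℕ) :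
    sI y J0 π ∅ F F p q = (J0 ⊔ remId (gP y F) π).map MvPolynomial.C := by
  have h1 : remId ((gP y (∅ : Finset (Fin b))).map MvPolynomial.C) (tP A p q * uP A p q) = ⊥ := by
    have : (gP y (∅ : Finset (Fin b))).map
        (MvPolynomial.C : A →+* MvPolynomial (Fin p ⊕ Fin q) A) = 1 := by
      simp [gP]
    rw [this, remId_one]
  have hm : ((gP y F).map (MvPolynomial.C : A →+* MvPolynomial (Fin p ⊕ Fin q) A)).Monic :=
    (gP_monic y F).map _
  have h2 : remId ((gP y F).map MvPolynomial.C) (tP A p q * π.map MvPolynomial.C)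
      ≤ (J0 ⊔ remId (gP y F) π).map MvPolynomial.C := by
    have h3 : remId ((gP y F).map (MvPolynomial.C : A →+* MvPolynomial (Fin p ⊕ Fin q) A))
        (π.map MvPolynomial.C) ≤ RingHom.ker (Ideal.Quotient.mk
          ((J0 ⊔ remId (gP y F) π).map (MvPolynomial.C : A →+* MvPolynomial (Fin p ⊕ Fin q) A))) := by
      rw [← remId_map _ _ _ (gP_monic y F), Ideal.mk_ker]
      exact Ideal.map_mono le_sup_right
    rw [remId_le_ker _ _ _ hm] at h3
    have h4 : remId ((gP y F).map MvPolynomial.C) (tP A p q * π.map MvPolynomial.C)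
      ≤ RingHom.ker (Ideal.Quotient.mk
          ((J0 ⊔ remId (gP y F) π).map (MvPolynomial.C : A →+* MvPolynomial (Fin p ⊕ Fin q) A))) := by
      rw [remId_le_ker _ _ _ hm, Polynomial.map_mul]
      exact Dvd.dvd.mul_left h3 _
    rwa [Ideal.mk_ker] at h4
  unfold sI
  rw [h1, sup_bot_eq]
  exact sup_eq_left.2 h2

theorem B5_prod_dvd {A : Type u} [CommRing A] {b : ℕ} (y : Fin b → A) (D : A)
    (hD : ∀ i j, i ≠ j → (y i - y j) ∣ D) (L : Finset (Fin b)) (i : Fin b) :
    (∏ j ∈ L.erase i, (y i - y j)) ∣ D ^ (L.erase i).card := by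
  rw [← Finset.prod_const]
  apply Finset.prod_dvd_prod_of_dvd
  intro j hj
  exact hD i j (Finset.ne_of_mem_erase hj).symm

theorem B5_step {A : Type u} [CommRing A] {b : ℕ} (y : Fin b → A) (D : A)
    (hD : ∀ i j, i ≠ j → (y i - y j) ∣ D) (J0 : Ideal A) (π : A[X])
    (L F E : Finset (Fin b)) (p q : ℕ) (i : Fin b) (hi : i ∈ L) (hFE : F ⊆ E) (hEL : E ⊆ F ∪ L)
    (hcase : i ∈ E ∨ E = F) (hp : L.card ≤ p + 1)
    (IH1 : ∀ G : MvPolynomial (Fin p ⊕ Fin (q + 1)) A,
      MvPolynomial.C D * G ∈ sI y J0 π (L.erase i) F (E.erase i) p (q + 1) →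
        G ∈ sI y J0 π (L.erase i) F (E.erase i) p (q + 1))
    (IH2 : ∀ G : MvPolynomial (Fin (p + 1) ⊕ Fin q) A,
      MvPolynomial.C D * G ∈ sI y J0 π (L.erase i) (if i ∈ E then insert i F else F) E (p + 1) q →
        G ∈ sI y J0 π (L.erase i) (if i ∈ E then insert i F else F) E (p + 1) q)
    (G : MvPolynomial (Fin (p + 1) ⊕ Fin (q + 1)) A)
    (hG : MvPolynomial.C D * G ∈ sI y J0 π L F E (p + 1) (q + 1)) :
    G ∈ sI y J0 π L F E (p + 1) (q + 1) := by
  obtain ⟨G', hG'⟩ := quotStep y D J0 π L F E p (q + 1) i hi hcase IH1 G hG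
  have h1 : (tP A (p + 1) (q + 1)).eval (MvPolynomial.C (y i)) * (MvPolynomial.C D * G') ∈
      sI y J0 π L F E (p + 1) (q + 1) := by
    have h2 := Ideal.sub_mem _ hG (Ideal.mul_mem_left _ (MvPolynomial.C D) hG')
    have h3 : (tP A (p + 1) (q + 1)).eval (MvPolynomial.C (y i)) * (MvPolynomial.C D * G') =
      MvPolynomial.C D * G -
        MvPolynomial.C D * (G - (tP A (p + 1) (q + 1)).eval (MvPolynomial.C (y i)) * G') := by ring
    rw [h3]
    exact h2
  obtain ⟨K, hK⟩ := exactStep y J0 π L F E (p + 1) (q + 1) i hi hFE hEL hcase hp _ h1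
  have hdvd := B5_prod_dvd y D hD L i
  have hdvd2 : (∏ j ∈ L.erase i, (y i - y j)) ^ K ∣ (D ^ (L.erase i).card) ^ K := pow_dvd_pow_of_dvd hdvd K
  obtain ⟨c, hc⟩ := hdvd2
  have h4 : MvPolynomial.C D ^ ((L.erase i).card * K + 1) * G' ∈
      sJ y J0 π L F E (p + 1) (q + 1) i (if i ∈ E then insert i F else F) := by
    have h5 := Ideal.mul_mem_left _ (MvPolynomial.C c) hK
    have h6 : MvPolynomial.C D ^ ((L.erase i).card * K + 1) * G' =
        MvPolynomial.C c * (MvPolynomial.C (∏ j ∈ L.erase i, (y i - y j)) ^ K *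
          (MvPolynomial.C D * G')) := by
      have h7 : (MvPolynomial.C D : MvPolynomial (Fin (p + 1) ⊕ Fin (q + 1)) A) ^ ((L.erase i).card * K) =
          MvPolynomial.C (∏ j ∈ L.erase i, (y i - y j)) ^ K * MvPolynomial.C c := by
        rw [← map_pow, ← map_pow, ← map_mul, ← hc, ← pow_mul]
      rw [pow_succ, h7]
      ring
    rw [h6]
    exact h5
  have h8 : ∀ (K' : ℕ) (H : MvPolynomial (Fin (p + 1) ⊕ Fin (q + 1)) A),
      MvPolynomial.C D ^ K' * H ∈
        sJ y J0 π L F E (p + 1) (q + 1) i (if i ∈ E then insert i F else F) →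
      H ∈ sJ y J0 π L F E (p + 1) (q + 1) i (if i ∈ E then insert i F else F) := by
    intro K'
    induction K' with
    | zero => intro H hH; simpa using hH
    | succ K' ih =>
      intro H hH
      apply ih
      apply colonStep y D J0 π L F (if i ∈ E then insert i F else F) E ?_ (p + 1) q i hi IH2
      · have h9 : MvPolynomial.C D * (MvPolynomial.C D ^ K' * H) = MvPolynomial.C D ^ (K' + 1) * H := by
          rw [pow_succ]; ring
        rw [h9]
        exact hH
      · split_ifs
        · exact Finset.subset_insert i F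
        · exact subset_rfl
  have h10 := x_mul_sJ y J0 π L F E (p + 1) (q + 1) i hi hFE G' (h8 _ _ h4)
  have h11 := Ideal.add_mem _ hG' h10
  simpa using h11

theorem state {A : Type u} [CommRing A] {b : ℕ} (y : Fin b → A) (D : A)
    (hD : ∀ i j, i ≠ j → (y i - y j) ∣ D) (J0 : Ideal A) (π : A[X]) (S0 : Finset (Fin b))
    (hTF : ∀ F ⊆ S0, ∀ a : A, D * a ∈ J0 ⊔ remId (gP y F) π → a ∈ J0 ⊔ remId (gP y F) π) :
    ∀ (m : ℕ) (L F E : Finset (Fin b)) (p q : ℕ), L.card = m → F ⊆ E → E ⊆ F ∪ L → E ⊆ S0 → Disjoint L F →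
      L.card ≤ p → L.card ≤ q → ∀ G : MvPolynomial (Fin p ⊕ Fin q) A,
      MvPolynomial.C D * G ∈ sI y J0 π L F E p q → G ∈ sI y J0 π L F E p q := by
  intro m
  induction m with
  | zero =>
    intro L F E p q hL hFE hEL hES _ _ _ G hG
    have hL0 : L = ∅ := Finset.card_eq_zero.1 hL
    subst hL0
    have hEF : E = F := by
      apply Finset.Subset.antisymm _ hFE
      rw [Finset.union_empty] at hEL
      exact hEL
    subst hEF
    rw [B5_base] at hG ⊢
    rw [MvPolynomial.mem_map_C_iff] at hG ⊢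
    intro n
    have h1 := hG n
    rw [MvPolynomial.coeff_C_mul] at h1
    exact hTF E hES _ h1
  | succ m ih =>
    intro L F E p q hL hFE hEL hES hLF hp hq G hG
    obtain ⟨i, hi, hcase⟩ : ∃ i ∈ L, (i ∈ E ∨ E = F) := by
      by_cases h : ∃ i ∈ L, i ∈ E
      · obtain ⟨i, hi, hiE⟩ := h
        exact ⟨i, hi, Or.inl hiE⟩
      · push Not at h
        have hne : L.Nonempty := by
          rw [← Finset.card_pos]; omega
        obtain ⟨i, hi⟩ := hne
        refine ⟨i, hi, Or.inr ?_⟩
        apply Finset.Subset.antisymm _ hFE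
        intro j hj
        rcases Finset.mem_union.1 (hEL hj) with h1 | h1
        · exact h1
        · exact absurd hj (h j h1)
    obtain ⟨p', rfl⟩ : ∃ p', p = p' + 1 := ⟨p - 1, by omega⟩
    obtain ⟨q', rfl⟩ : ∃ q', q = q' + 1 := ⟨q - 1, by omega⟩
    have hiF : i ∉ F := fun h => Finset.disjoint_left.1 hLF hi h
    have hcard : (L.erase i).card = m := by
      rw [Finset.card_erase_of_mem hi]; omega
    apply B5_step y D hD J0 π L F E p' q' i hi hFE hEL hcase hp _ _ G hG
    · apply ih (L.erase i) F (E.erase i) p' (q' + 1) hcard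
      · intro j hj
        exact Finset.mem_erase.2 ⟨fun h => hiF (h ▸ hj), hFE hj⟩
      · intro j hj
        rcases Finset.mem_erase.1 hj with ⟨hji, hjE⟩
        rcases Finset.mem_union.1 (hEL hjE) with h1 | h1
        · exact Finset.mem_union_left _ h1
        · exact Finset.mem_union_right _ (Finset.mem_erase.2 ⟨hji, h1⟩)
      · exact (Finset.erase_subset _ _).trans hES
      · exact Finset.disjoint_of_subset_left (Finset.erase_subset _ _) hLF
      · omega
      · omega
    · apply ih (L.erase i) (if i ∈ E then insert i F else F) E (p' + 1) q' hcard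
      · split_ifs with h
        · intro j hj
          rcases Finset.mem_insert.1 hj with h1 | h1
          · rw [h1]; exact h
          · exact hFE h1
        · exact hFE
      · intro j hj
        rcases Finset.mem_union.1 (hEL hj) with h1 | h1
        · apply Finset.mem_union_left
          split_ifs
          · exact Finset.mem_insert_of_mem h1
          · exact h1
        · by_cases hji : j = i
          · apply Finset.mem_union_left
            rw [hji] at hj
            rw [if_pos hj, hji]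
            exact Finset.mem_insert_self _ _
          · exact Finset.mem_union_right _ (Finset.mem_erase.2 ⟨hji, h1⟩)
      · exact hES
      · have h2 : Disjoint (L.erase i) F := Finset.disjoint_of_subset_left (Finset.erase_subset _ _) hLF
        split_ifs
        · rw [Finset.disjoint_insert_right]
          exact ⟨Finset.notMem_erase i L, h2⟩
        · exact h2
      · omega
      · omega

theorem main_lemma {A : Type u} [CommRing A] {b : ℕ} (y : Fin b → A) (D : A)
    (hD : ∀ i j, i ≠ j → (y i - y j) ∣ D) (J0 : Ideal A) (π : A[X]) (S0 : Finset (Fin b))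
    (hTF : ∀ F ⊆ S0, ∀ a : A, D * a ∈ J0 ⊔ remId (gP y F) π → a ∈ J0 ⊔ remId (gP y F) π)
    (G : MvPolynomial (Fin b ⊕ Fin b) A)
    (hG : MvPolynomial.C D * G ∈ sI y J0 π Finset.univ ∅ S0 b b) : G ∈ sI y J0 π Finset.univ ∅ S0 b b := by
  apply state y D hD J0 π S0 hTF b Finset.univ ∅ S0 b b _ (Finset.empty_subset _) _ subset_rfl _ _ _ G hG
  · simp
  · intro j _
    simp
  · exact Finset.disjoint_empty_right _
  · simp
  · simp

end Pool.Agent.LibCQ2
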