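import Pool.Agent.LibCQ2.B5

set_option autoImplicit false

/-! ROW B6a (MEDIUM, Defs + B1, B5). Torsion freeness for n diagonal entries, by induction on n.
 R_n := MvPolynomial (O ⊕ (Fin n × Bool × Fin b)) Y; DI O n y S = (⨆ j, remId g (u_j t_j)) ⊔ remId g_S (∏ j, t_j).
 n = 0: DJ = ⊥ (iSup over an empty type), the product is 1: for S = ∅ remId 1 1 = ⊥ and C D is a nonzero divisor of the domain R_0; for S nonempty g_S is monic of positive degree,
   1 %ₘ g_S = 1 (modByMonic_eq_self_iff), so DI = ⊤.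
 n + 1: main_lemma with A := R_n, y := C ∘ y, D := C D, J0 := DJ O n y, π := ∏ j, DIt j, S0 := S; hTF F is the induction hypothesis for S := F (gP_map: gP (C ∘ y) F = (gP y F).map C).
   Transport: φ : R_(n+1) →+* MvPolynomial (Fin b ⊕ Fin b) R_n (eval₂Hom (C.comp C)): X (inl o) ↦ C (X (inl o)); X (inr (j, β, l)) ↦ for j = Fin.last n: β = false: X (inr l), β = true: X (inl l);
   for j = castSucc j': C (X (inr (j', β, l))) (Fin.lastCases). ψ back (eval₂Hom (rename ..) ..). ψ ∘ φ = id. φ maps DI O (n+1) y S into sI (C∘y) (DJ O n y) π univ ∅ S b b and ψ maps sI .. into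
   DI O (n+1) y S: for both use: I ≤ comap iff I ≤ ker (mk.comp _), remId_le_ker / sI_le_ker, iSup_le; gP y ∅ = 1 so remId (gP y ∅) π = ⊥; ∏ over Fin (n+1) = Fin.prod_univ_castSucc. -/

namespace Pool.Agent.LibCQ2

open Polynomial

universe u

private theorem B6a_DJ {Y : Type u} [CommRing Y] {b : ℕ} (y : Fin b → Y) (O : Type) (n : ℕ)
    {B : Type u} [CommRing B] (Φ : MvPolynomial (O ⊕ (Fin n × Bool × Fin b)) Y →+* B) :
    DJ O n y ≤ RingHom.ker Φ ↔ ∀ j : Fin n, gP (fun i => Φ (MvPolynomial.C (y i))) Finset.univ ∣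
      pV (fun l => Φ (MvPolynomial.X (Sum.inr (j, false, l)))) *
        pV (fun l => Φ (MvPolynomial.X (Sum.inr (j, true, l)))) := by
  unfold DJ
  rw [iSup_le_iff]
  refine forall_congr' fun j => ?_
  rw [remId_le_ker Φ _ _ ((gP_monic y _).map _), Polynomial.map_map, gP_map, Polynomial.map_mul]
  unfold DIu DIt
  rw [pV_map, pV_map]
  rfl

private theorem B6a_DI {Y : Type u} [CommRing Y] {b : ℕ} (y : Fin b → Y) (O : Type) (n : ℕ)
    (S : Finset (Fin b)) {B : Type u} [CommRing B]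
    (Φ : MvPolynomial (O ⊕ (Fin n × Bool × Fin b)) Y →+* B) :
    DI O n y S ≤ RingHom.ker Φ ↔ (∀ j : Fin n,
      gP (fun i => Φ (MvPolynomial.C (y i))) Finset.univ ∣
        pV (fun l => Φ (MvPolynomial.X (Sum.inr (j, false, l)))) *
          pV (fun l => Φ (MvPolynomial.X (Sum.inr (j, true, l))))) ∧
      gP (fun i => Φ (MvPolynomial.C (y i))) S ∣
        ∏ j : Fin n, pV (fun l => Φ (MvPolynomial.X (Sum.inr (j, true, l)))) := by
  unfold DI
  rw [sup_le_iff, B6a_DJ]
  refine and_congr Iff.rfl ?_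
  rw [remId_le_ker Φ _ _ ((gP_monic y _).map _), Polynomial.map_map, gP_map, Polynomial.map_prod]
  unfold DIt
  simp only [pV_map]
  rfl

private theorem B6a_iff {Y : Type u} [CommRing Y] {b : ℕ} (y : Fin b → Y) (O : Type) (n : ℕ)
    (S : Finset (Fin b)) {B : Type u} [CommRing B]
    (Φ : MvPolynomial (O ⊕ (Fin (n + 1) × Bool × Fin b)) Y →+* B)
    (Θ : MvPolynomial (Fin b ⊕ Fin b) (MvPolynomial (O ⊕ (Fin n × Bool × Fin b)) Y) →+* B)
    (hC : ∀ c, Φ (MvPolynomial.C c) = Θ (MvPolynomial.C (MvPolynomial.C c)))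
    (hcs : ∀ (j : Fin n) (β : Bool) (l : Fin b), Φ (MvPolynomial.X (Sum.inr (j.castSucc, β, l))) =
      Θ (MvPolynomial.C (MvPolynomial.X (Sum.inr (j, β, l)))))
    (ht : ∀ l : Fin b, Φ (MvPolynomial.X (Sum.inr (Fin.last n, true, l))) =
      Θ (MvPolynomial.X (Sum.inl l)))
    (hu : ∀ l : Fin b, Φ (MvPolynomial.X (Sum.inr (Fin.last n, false, l))) =
      Θ (MvPolynomial.X (Sum.inr l))) :
    DI O (n + 1) y S ≤ RingHom.ker Φ ↔
      sI (fun i => MvPolynomial.C (y i)) (DJ O n y) (∏ j, DIt Y O n b j) Finset.univ ∅ S b b ≤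
        RingHom.ker Θ := by
  rw [B6a_DI, sI_le_ker, B6a_DJ, Fin.forall_fin_succ', Fin.prod_univ_castSucc]
  have h1 : (fun i => Φ (MvPolynomial.C (y i))) = fun i => Θ (MvPolynomial.C (MvPolynomial.C (y i))) :=
    funext fun i => hC (y i)
  have h2 : ∀ (j : Fin n) (β : Bool),
      (fun l => Φ (MvPolynomial.X (Sum.inr (j.castSucc, β, l)))) =
        fun l => Θ (MvPolynomial.C (MvPolynomial.X (Sum.inr (j, β, l)))) :=
    fun j β => funext fun l => hcs j β l
  have h3 : (fun l => Φ (MvPolynomial.X (Sum.inr (Fin.last n, true, l)))) =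
      fun l => Θ (MvPolynomial.X (Sum.inl l)) := funext ht
  have h4 : (fun l => Φ (MvPolynomial.X (Sum.inr (Fin.last n, false, l)))) =
      fun l => Θ (MvPolynomial.X (Sum.inr l)) := funext hu
  have h5 : (∏ j, DIt Y O n b j).map (Θ.comp MvPolynomial.C) =
      ∏ j : Fin n, pV (fun l => Θ (MvPolynomial.C (MvPolynomial.X (Sum.inr (j, true, l))))) := by
    rw [Polynomial.map_prod]
    unfold DIt
    simp only [pV_map]
    rfl
  have h6 : gP (fun i => Θ (MvPolynomial.C (MvPolynomial.C (y i)))) (∅ : Finset (Fin b)) = 1 := by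
    unfold gP
    exact Finset.prod_empty
  rw [h1, h3, h4, h5, h6]
  simp only [h2]
  constructor
  · rintro ⟨⟨ha, hb⟩, hc⟩
    exact ⟨fun j => ha j, one_dvd _, by rwa [mul_comm], by rwa [mul_comm]⟩
  · rintro ⟨ha, -, hb, hc⟩
    exact ⟨⟨fun j => ha j, by rwa [mul_comm]⟩, by rwa [mul_comm]⟩

/-- the variables of `R_(n+1)` over `R_n` -/
private noncomputable def B6a_v (Y : Type u) [CommRing Y] (b : ℕ) (O : Type) (n : ℕ) :
    (O ⊕ (Fin (n + 1) × Bool × Fin b)) →
      MvPolynomial (Fin b ⊕ Fin b) (MvPolynomial (O ⊕ (Fin n × Bool × Fin b)) Y)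
  | Sum.inl o => MvPolynomial.C (MvPolynomial.X (Sum.inl o))
  | Sum.inr p => if h : (p.1 : ℕ) < n then
      MvPolynomial.C (MvPolynomial.X (Sum.inr (⟨p.1, h⟩, p.2.1, p.2.2)))
      else if p.2.1 then MvPolynomial.X (Sum.inl p.2.2) else MvPolynomial.X (Sum.inr p.2.2)

private noncomputable def B6a_w (Y : Type u) [CommRing Y] (b : ℕ) (O : Type) (n : ℕ) :
    Fin b ⊕ Fin b → MvPolynomial (O ⊕ (Fin (n + 1) × Bool × Fin b)) Y
  | Sum.inl l => MvPolynomial.X (Sum.inr (Fin.last n, true, l))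
  | Sum.inr l => MvPolynomial.X (Sum.inr (Fin.last n, false, l))

private noncomputable def B6a_g (b : ℕ) (O : Type) (n : ℕ) :
    (O ⊕ (Fin n × Bool × Fin b)) → (O ⊕ (Fin (n + 1) × Bool × Fin b))
  | Sum.inl o => Sum.inl o
  | Sum.inr p => Sum.inr (p.1.castSucc, p.2.1, p.2.2)

private noncomputable def B6a_phi (Y : Type u) [CommRing Y] (b : ℕ) (O : Type) (n : ℕ) :
    MvPolynomial (O ⊕ (Fin (n + 1) × Bool × Fin b)) Y →+*
      MvPolynomial (Fin b ⊕ Fin b) (MvPolynomial (O ⊕ (Fin n × Bool × Fin b)) Y) :=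
  MvPolynomial.eval₂Hom ((MvPolynomial.C (σ := Fin b ⊕ Fin b)
    (R := MvPolynomial (O ⊕ (Fin n × Bool × Fin b)) Y)).comp MvPolynomial.C) (B6a_v Y b O n)

private noncomputable def B6a_psi (Y : Type u) [CommRing Y] (b : ℕ) (O : Type) (n : ℕ) :
    MvPolynomial (Fin b ⊕ Fin b) (MvPolynomial (O ⊕ (Fin n × Bool × Fin b)) Y) →+*
      MvPolynomial (O ⊕ (Fin (n + 1) × Bool × Fin b)) Y :=
  MvPolynomial.eval₂Hom ((MvPolynomial.rename (B6a_g b O n) :
    MvPolynomial (O ⊕ (Fin n × Bool × Fin b)) Y →ₐ[Y] _) :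
      MvPolynomial (O ⊕ (Fin n × Bool × Fin b)) Y →+* _) (B6a_w Y b O n)

private theorem B6a_phi_C (Y : Type u) [CommRing Y] (b : ℕ) (O : Type) (n : ℕ) (c : Y) :
    B6a_phi Y b O n (MvPolynomial.C c) = MvPolynomial.C (MvPolynomial.C c) := by
  unfold B6a_phi
  rw [MvPolynomial.coe_eval₂Hom, MvPolynomial.eval₂_C]
  rfl

private theorem B6a_phi_X (Y : Type u) [CommRing Y] (b : ℕ) (O : Type) (n : ℕ)
    (v : O ⊕ (Fin (n + 1) × Bool × Fin b)) :
    B6a_phi Y b O n (MvPolynomial.X v) = B6a_v Y b O n v := by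
  unfold B6a_phi
  rw [MvPolynomial.coe_eval₂Hom, MvPolynomial.eval₂_X]

private theorem B6a_v_cs (Y : Type u) [CommRing Y] (b : ℕ) (O : Type) (n : ℕ) (j : Fin n) (β : Bool)
    (l : Fin b) : B6a_v Y b O n (Sum.inr (j.castSucc, β, l)) =
      MvPolynomial.C (MvPolynomial.X (Sum.inr (j, β, l))) := by
  rw [B6a_v]
  exact dif_pos (show ((j.castSucc : Fin (n + 1)) : ℕ) < n from j.2)

private theorem B6a_v_last (Y : Type u) [CommRing Y] (b : ℕ) (O : Type) (n : ℕ) (β : Bool)
    (l : Fin b) : B6a_v Y b O n (Sum.inr (Fin.last n, β, l)) =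
      if β then MvPolynomial.X (Sum.inl l) else MvPolynomial.X (Sum.inr l) := by
  rw [B6a_v]
  exact dif_neg (show ¬ ((Fin.last n : Fin (n + 1)) : ℕ) < n from by simp)

private theorem B6a_psi_CC (Y : Type u) [CommRing Y] (b : ℕ) (O : Type) (n : ℕ)
    (a : MvPolynomial (O ⊕ (Fin n × Bool × Fin b)) Y) :
    B6a_psi Y b O n (MvPolynomial.C a) = MvPolynomial.rename (B6a_g b O n) a := by
  unfold B6a_psi
  rw [MvPolynomial.coe_eval₂Hom, MvPolynomial.eval₂_C]
  rfl

private theorem B6a_psi_X (Y : Type u) [CommRing Y] (b : ℕ) (O : Type) (n : ℕ)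
    (v : Fin b ⊕ Fin b) : B6a_psi Y b O n (MvPolynomial.X v) = B6a_w Y b O n v := by
  unfold B6a_psi
  rw [MvPolynomial.coe_eval₂Hom, MvPolynomial.eval₂_X]

private theorem B6a_psi_phi (Y : Type u) [CommRing Y] (b : ℕ) (O : Type) (n : ℕ)
    (G : MvPolynomial (O ⊕ (Fin (n + 1) × Bool × Fin b)) Y) :
    B6a_psi Y b O n (B6a_phi Y b O n G) = G := by
  have h : (B6a_psi Y b O n).comp (B6a_phi Y b O n) = RingHom.id _ := by
    apply MvPolynomial.ringHom_ext
    · intro c
      rw [RingHom.comp_apply, B6a_phi_C, B6a_psi_CC, MvPolynomial.rename_C]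
      rfl
    · intro v
      rw [RingHom.comp_apply, B6a_phi_X, RingHom.id_apply]
      rcases v with o | ⟨j, β, l⟩
      · change B6a_psi Y b O n (MvPolynomial.C (MvPolynomial.X (Sum.inl o))) = _
        rw [B6a_psi_CC, MvPolynomial.rename_X]
        rfl
      · refine Fin.lastCases ?_ (fun j' => ?_) j
        · rw [B6a_v_last]
          cases β
          · rw [if_neg (by decide), B6a_psi_X]
            rfl
          · rw [if_pos rfl, B6a_psi_X]
            rfl
        · rw [B6a_v_cs, B6a_psi_CC, MvPolynomial.rename_X]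
          rfl
  exact congrArg (fun f : MvPolynomial (O ⊕ (Fin (n + 1) × Bool × Fin b)) Y →+* _ => f G) h

theorem TFn {Y : Type u} [CommRing Y] [IsDomain Y] {b : ℕ} (y : Fin b → Y) (D : Y) (hD0 : D ≠ 0)
    (hD : ∀ i j, i ≠ j → (y i - y j) ∣ D) (O : Type) :
    ∀ (n : ℕ) (S : Finset (Fin b)) (G : MvPolynomial (O ⊕ (Fin n × Bool × Fin b)) Y),
      MvPolynomial.C D * G ∈ DI O n y S → G ∈ DI O n y S := by
  intro n
  induction n with
  | zero =>
    intro S G hG
    have hJ : DJ O 0 y = ⊥ := by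
      unfold DJ
      exact iSup_of_empty _
    unfold DI at hG ⊢
    rw [hJ, bot_sup_eq, Fin.prod_univ_zero] at hG ⊢
    rcases S.eq_empty_or_nonempty with rfl | hS
    · have h1 : (gP y (∅ : Finset (Fin b))).map (MvPolynomial.C : Y →+*
          MvPolynomial (O ⊕ (Fin 0 × Bool × Fin b)) Y) = 1 := by
        unfold gP
        rw [Finset.prod_empty, Polynomial.map_one]
      rw [h1, remId_one, Ideal.mem_bot] at hG ⊢
      have h2 : (MvPolynomial.C D : MvPolynomial (O ⊕ (Fin 0 × Bool × Fin b)) Y) ≠ 0 := by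
        intro h3
        apply hD0
        exact MvPolynomial.C_injective _ _ (by rw [h3, map_zero])
      exact (mul_eq_zero.1 hG).resolve_left h2
    · have h1 : (1 : (MvPolynomial (O ⊕ (Fin 0 × Bool × Fin b)) Y)[X]) %ₘ
          ((gP y S).map MvPolynomial.C) = 1 := by
        rw [Polynomial.modByMonic_eq_self_iff ((gP_monic y S).map _), Polynomial.degree_one]
        have h2 : 0 < ((gP y S).map (MvPolynomial.C : Y →+*
          MvPolynomial (O ⊕ (Fin 0 × Bool × Fin b)) Y)).natDegree := by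
          rw [(gP_monic y S).natDegree_map, gP_natDegree]
          exact hS.card_pos
        exact Polynomial.natDegree_pos_iff_degree_pos.1 h2
      have h2 : remId ((gP y S).map (MvPolynomial.C : Y →+*
          MvPolynomial (O ⊕ (Fin 0 × Bool × Fin b)) Y)) 1 = ⊤ := by
        rw [Ideal.eq_top_iff_one]
        unfold remId
        rw [h1]
        exact Ideal.subset_span ⟨0, Polynomial.coeff_one_zero⟩
      rw [h2]
      exact Submodule.mem_top
  | succ n ih =>
    intro S G hG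
    set I' : Ideal (MvPolynomial (Fin b ⊕ Fin b) (MvPolynomial (O ⊕ (Fin n × Bool × Fin b)) Y)) :=
      sI (fun i => MvPolynomial.C (y i)) (DJ O n y) (∏ j, DIt Y O n b j) Finset.univ ∅ S b b with hI'
    have hA : DI O (n + 1) y S ≤ RingHom.ker ((Ideal.Quotient.mk I').comp (B6a_phi Y b O n)) := by
      refine (B6a_iff y O n S (B := MvPolynomial (Fin b ⊕ Fin b)
        (MvPolynomial (O ⊕ (Fin n × Bool × Fin b)) Y) ⧸ I')
        ((Ideal.Quotient.mk I').comp (B6a_phi Y b O n)) (Ideal.Quotient.mk I') ?_ ?_ ?_ ?_).2 ?_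
      rotate_left 4
      · rw [Ideal.mk_ker]
      · intro c
        rw [RingHom.comp_apply, B6a_phi_C]
      · intro j β l
        rw [RingHom.comp_apply, B6a_phi_X, B6a_v_cs]
      · intro l
        rw [RingHom.comp_apply, B6a_phi_X, B6a_v_last, if_pos rfl]
      · intro l
        rw [RingHom.comp_apply, B6a_phi_X, B6a_v_last, if_neg (by decide)]
    have hB : I' ≤ RingHom.ker ((Ideal.Quotient.mk (DI O (n + 1) y S)).comp (B6a_psi Y b O n)) := by
      refine (B6a_iff y O n S (B := MvPolynomial (O ⊕ (Fin (n + 1) × Bool × Fin b)) Y ⧸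
        DI O (n + 1) y S) (Ideal.Quotient.mk (DI O (n + 1) y S))
        ((Ideal.Quotient.mk (DI O (n + 1) y S)).comp (B6a_psi Y b O n)) ?_ ?_ ?_ ?_).1 ?_
      rotate_left 4
      · rw [Ideal.mk_ker]
      · intro c
        rw [RingHom.comp_apply, B6a_psi_CC, MvPolynomial.rename_C]
      · intro j β l
        rw [RingHom.comp_apply, B6a_psi_CC, MvPolynomial.rename_X]
        rfl
      · intro l
        rw [RingHom.comp_apply, B6a_psi_X]
        rfl
      · intro l
        rw [RingHom.comp_apply, B6a_psi_X]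
        rfl
    have h1 : MvPolynomial.C (MvPolynomial.C D) * B6a_phi Y b O n G ∈ I' := by
      have h2 := hA hG
      rw [RingHom.mem_ker, RingHom.comp_apply, Ideal.Quotient.eq_zero_iff_mem, map_mul,
        B6a_phi_C] at h2
      exact h2
    have h2 : B6a_phi Y b O n G ∈ I' := by
      refine main_lemma (fun i => MvPolynomial.C (y i)) (MvPolynomial.C D) ?_ (DJ O n y)
        (∏ j, DIt Y O n b j) S ?_ _ h1
      · intro i j hij
        have h3 := map_dvd (MvPolynomial.C : Y →+* MvPolynomial (O ⊕ (Fin n × Bool × Fin b)) Y)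
          (hD i j hij)
        rwa [map_sub] at h3
      · intro F _ a ha
        have h3 := ih F a
        unfold DI at h3
        rw [gP_map] at h3
        exact h3 ha
    have h3 := hB h2
    rw [RingHom.mem_ker, RingHom.comp_apply, B6a_psi_phi, Ideal.Quotient.eq_zero_iff_mem] at h3
    exact h3

end Pool.Agent.LibCQ2
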