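import Pool.Agent.LibCQ2.B6a

set_option autoImplicit false

/-! ROW B6b (SHORT/MEDIUM, Defs + B1, B6a). Torsion freeness of K0.
 O := {q : Fin n × Fin n × Fin b // q.1 ≠ q.2.1} (the off-diagonal variables). ρ : O ⊕ (Fin n × Bool × Fin b) → IK n b: inl o ↦ inr o.1; inr (j, false, l) ↦ inl (j, l); inr (j, true, l) ↦ inr (j, j, l).
 This is a bijection; θ : IK n b → O ⊕ .. its inverse: inl (j, l) ↦ inr (j, false, l); inr q ↦ if h : q.1 = q.2.1 then inr (q.1, true, q.2.2) else inl ⟨q, h⟩. rename ρ and rename θ are inverse to each other.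
 (K0 n y) ≤ (DI O n y univ).comap (rename θ), (DI O n y univ) ≤ (K0 n y).comap (rename ρ): remId_map / remId_le_ker (map_rename of pV: pV_map), iSup_le. So D G ∈ K0 ⟹ D (rename θ G) ∈ DI ⟹ (TFn)
 rename θ G ∈ DI ⟹ G = rename ρ (rename θ G) ∈ K0. -/

namespace Pool.Agent.LibCQ2

open Polynomial

universe u

/-- off-diagonal variables -/
abbrev B6b_O (n b : ℕ) : Type := {q : Fin n × Fin n × Fin b // q.1 ≠ q.2.1}

/-- the renaming of variables -/
def B6b_th (n b : ℕ) : IK n b → B6b_O n b ⊕ (Fin n × Bool × Fin b)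
  | Sum.inl p => Sum.inr (p.1, false, p.2)
  | Sum.inr q => if h : q.1 = q.2.1 then Sum.inr (q.1, true, q.2.2) else Sum.inl ⟨q, h⟩

/-- the inverse renaming of variables -/
def B6b_rho (n b : ℕ) : B6b_O n b ⊕ (Fin n × Bool × Fin b) → IK n b
  | Sum.inl o => Sum.inr o.1
  | Sum.inr (j, false, l) => Sum.inl (j, l)
  | Sum.inr (j, true, l) => Sum.inr (j, j, l)

theorem B6b_rho_th (n b : ℕ) (x : IK n b) : B6b_rho n b (B6b_th n b x) = x := by
  rcases x with ⟨j, l⟩ | ⟨j, k, l⟩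
  · rfl
  · by_cases h : j = k
    · subst h
      simp [B6b_th, B6b_rho]
    · simp [B6b_th, B6b_rho, h]

theorem B6b_th_inl (n b : ℕ) (j : Fin n) (l : Fin b) :
    B6b_th n b (Sum.inl (j, l)) = Sum.inr (j, false, l) := rfl

theorem B6b_th_diag (n b : ℕ) (j : Fin n) (l : Fin b) :
    B6b_th n b (Sum.inr (j, j, l)) = Sum.inr (j, true, l) := by
  simp [B6b_th]

theorem B6b_ggmap {Y : Type u} [CommRing Y] {b : ℕ} (y : Fin b → Y) {σ τ : Type*} (f : σ → τ)
    (S : Finset (Fin b)) :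
    ((gP y S).map (MvPolynomial.C : Y →+* MvPolynomial σ Y)).map
      ((MvPolynomial.rename f : MvPolynomial σ Y →ₐ[Y] MvPolynomial τ Y) : MvPolynomial σ Y →+* MvPolynomial τ Y) =
      (gP y S).map (MvPolynomial.C : Y →+* MvPolynomial τ Y) := by
  rw [Polynomial.map_map]
  congr 1
  ext a
  simp

theorem B6b_pv {Y : Type u} [CommRing Y] {b : ℕ} {σ τ : Type*} (f : σ → τ) (t : Fin b → σ) :
    (pV (fun l => (MvPolynomial.X (t l) : MvPolynomial σ Y))).map
      ((MvPolynomial.rename f : MvPolynomial σ Y →ₐ[Y] MvPolynomial τ Y) : MvPolynomial σ Y →+* MvPolynomial τ Y) =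
      pV (fun l => (MvPolynomial.X (f (t l)) : MvPolynomial τ Y)) := by
  rw [pV_map]
  simp

theorem B6b_K0_map {Y : Type u} [CommRing Y] (n : ℕ) {b : ℕ} (y : Fin b → Y) :
    (K0 n y).map ((MvPolynomial.rename (B6b_th n b) : MvPolynomial (IK n b) Y →ₐ[Y] _) :
      MvPolynomial (IK n b) Y →+* MvPolynomial (B6b_O n b ⊕ (Fin n × Bool × Fin b)) Y) =
      DI (B6b_O n b) n y Finset.univ := by
  have hm : (gg n y : (MvPolynomial (IK n b) Y)[X]).Monic := (gP_monic y Finset.univ).map _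
  have hu : ∀ k : Fin n, (uv Y n b k).map
      ((MvPolynomial.rename (B6b_th n b) : MvPolynomial (IK n b) Y →ₐ[Y] _) :
      MvPolynomial (IK n b) Y →+* MvPolynomial (B6b_O n b ⊕ (Fin n × Bool × Fin b)) Y) =
      DIu Y (B6b_O n b) n b k := by
    intro k
    unfold uv DIu
    rw [B6b_pv]
    rfl
  have ht : ∀ k : Fin n, (tv Y n b k k).map
      ((MvPolynomial.rename (B6b_th n b) : MvPolynomial (IK n b) Y →ₐ[Y] _) :
      MvPolynomial (IK n b) Y →+* MvPolynomial (B6b_O n b ⊕ (Fin n × Bool × Fin b)) Y) =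
      DIt Y (B6b_O n b) n b k := by
    intro k
    unfold tv DIt
    rw [Matrix.of_apply, B6b_pv]
    simp only [B6b_th_diag]
  unfold K0 DI DJ
  rw [Ideal.map_sup, Ideal.map_iSup, remId_map _ _ _ hm]
  congr 1
  · congr 1
    ext1 k
    rw [remId_map _ _ _ hm, Polynomial.map_mul, hu, ht]
    unfold gg
    rw [B6b_ggmap]
  · rw [Polynomial.map_prod]
    simp only [ht]
    unfold gg
    rw [B6b_ggmap]

theorem K0_TF {Y : Type u} [CommRing Y] [IsDomain Y] (n : ℕ) {b : ℕ} (y : Fin b → Y) (D : Y) (hD0 : D ≠ 0)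
    (hD : ∀ i j, i ≠ j → (y i - y j) ∣ D) (G : MvPolynomial (IK n b) Y)
    (hG : MvPolynomial.C D * G ∈ K0 n y) : G ∈ K0 n y := by
  have h1 : MvPolynomial.C D * MvPolynomial.rename (B6b_th n b) G ∈ DI (B6b_O n b) n y Finset.univ := by
    rw [← B6b_K0_map]
    have := Ideal.mem_map_of_mem ((MvPolynomial.rename (B6b_th n b) : MvPolynomial (IK n b) Y →ₐ[Y] _) :
      MvPolynomial (IK n b) Y →+* MvPolynomial (B6b_O n b ⊕ (Fin n × Bool × Fin b)) Y) hG
    simpa using this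
  have h2 := TFn y D hD0 hD (B6b_O n b) n Finset.univ _ h1
  rw [← B6b_K0_map] at h2
  have h3 := Ideal.mem_map_of_mem ((MvPolynomial.rename (B6b_rho n b) : MvPolynomial (B6b_O n b ⊕ (Fin n × Bool × Fin b)) Y →ₐ[Y] _) :
      MvPolynomial (B6b_O n b ⊕ (Fin n × Bool × Fin b)) Y →+* MvPolynomial (IK n b) Y) h2
  rw [Ideal.map_map] at h3
  have hid : ((MvPolynomial.rename (B6b_rho n b) : MvPolynomial (B6b_O n b ⊕ (Fin n × Bool × Fin b)) Y →ₐ[Y] _) :
      MvPolynomial (B6b_O n b ⊕ (Fin n × Bool × Fin b)) Y →+* MvPolynomial (IK n b) Y).comp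
      ((MvPolynomial.rename (B6b_th n b) : MvPolynomial (IK n b) Y →ₐ[Y] _) :
      MvPolynomial (IK n b) Y →+* MvPolynomial (B6b_O n b ⊕ (Fin n × Bool × Fin b)) Y) = RingHom.id _ := by
    apply MvPolynomial.ringHom_ext
    · intro a
      simp
    · intro i
      simp [B6b_rho_th]
  rw [hid, Ideal.map_id] at h3
  have h4 : MvPolynomial.rename (B6b_rho n b) (MvPolynomial.rename (B6b_th n b) G) = G := by
    have := congrArg (fun f : MvPolynomial (IK n b) Y →+* MvPolynomial (IK n b) Y => f G) hid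
    simpa using this
  have h5 : MvPolynomial.rename (B6b_rho n b) (MvPolynomial.rename (B6b_th n b) G) ∈ K0 n y := h3
  rwa [h4] at h5

end Pool.Agent.LibCQ2
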