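import Mathlib

set_option autoImplicit false

/-! ROW B7 (MEDIUM, only Mathlib). Syzygies of monomials are generated by the pairwise ones.
 e : I → (σ →₀ ℕ) (I finite), Z a submodule of I → MvPolynomial σ R containing all pairwise syzygies; every c with ∑ c_a x^(e a) = 0 is in Z.
 For a monomial μ and a ∈ I let r a μ := coeff (μ - e a) (c a) if e a ≤ μ, else 0 (this is the coefficient of μ in c_a x^(e a): MvPolynomial.coeff_mul_monomial'). So ∑_a r a μ = 0 for all μ.
 c = ∑_{μ ∈ T} c^μ for a finite set T of monomials, c^μ := fun a => if e a ≤ μ then monomial (μ - e a) (r a μ) else 0 (T = union over a of the supports of c a, shifted by e a).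
 Each c^μ is in Z: let S = {a : e a ≤ μ}; if S = ∅ then c^μ = 0. Otherwise choose a0 ∈ S: since ∑_{a ∈ S} r a μ = 0:
   c^μ = ∑_{a ∈ S} r a μ • (x^(μ - e a) ε_a - x^(μ - e a0) ε_a0), ε_a = Pi.single a 1,
   and x^(μ - e a) ε_a - x^(μ - e a0) ε_a0 = x^(μ - (e a ⊔ e a0)) • (x^((e a ⊔ e a0) - e a) ε_a - x^((e a ⊔ e a0) - e a0) ε_a0) because e a ⊔ e a0 ≤ μ. -/

namespace Pool.Agent.LibCQ2

private theorem CQ2_B7_split {σ R I : Type*} [CommRing R] [Fintype I] [DecidableEq I]
    [DecidableEq (σ →₀ ℕ)] (e : I → σ →₀ ℕ) (c : I → MvPolynomial σ R) (T : Finset (σ →₀ ℕ))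
    (a : I) (hT : (c a).support.image (fun ν => ν + e a) ⊆ T) :
    ∑ μ ∈ T, (if e a ≤ μ then Pi.single a
      (MvPolynomial.monomial (μ - e a) (MvPolynomial.coeff (μ - e a) (c a))) else 0 :
        I → MvPolynomial σ R) = Pi.single a (c a) := by
  have h1 : ∑ μ ∈ (c a).support.image (fun ν => ν + e a), (if e a ≤ μ then Pi.single a
      (MvPolynomial.monomial (μ - e a) (MvPolynomial.coeff (μ - e a) (c a))) else 0 :
        I → MvPolynomial σ R) = ∑ μ ∈ T, (if e a ≤ μ then Pi.single a
      (MvPolynomial.monomial (μ - e a) (MvPolynomial.coeff (μ - e a) (c a))) else 0 :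
        I → MvPolynomial σ R) := by
    refine Finset.sum_subset hT fun μ _ hμ => ?_
    by_cases h : e a ≤ μ
    · rw [if_pos h]
      have h2 : MvPolynomial.coeff (μ - e a) (c a) = 0 := by
        by_contra h3
        apply hμ
        rw [Finset.mem_image]
        exact ⟨μ - e a, MvPolynomial.mem_support_iff.2 h3, tsub_add_cancel_of_le h⟩
      rw [h2, map_zero, Pi.single_zero]
    · rw [if_neg h]
  rw [← h1, Finset.sum_image (fun x _ y _ hxy => add_right_cancel hxy)]
  have h2 : ∀ ν ∈ (c a).support, (if e a ≤ ν + e a then Pi.single a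
      (MvPolynomial.monomial (ν + e a - e a) (MvPolynomial.coeff (ν + e a - e a) (c a))) else 0 :
        I → MvPolynomial σ R) =
      Pi.single a (MvPolynomial.monomial ν (MvPolynomial.coeff ν (c a))) := by
    intro ν _
    rw [if_pos le_add_self, add_tsub_cancel_right]
  rw [Finset.sum_congr rfl h2]
  have h3 : ∑ ν ∈ (c a).support, (Pi.single a
      (MvPolynomial.monomial ν (MvPolynomial.coeff ν (c a))) : I → MvPolynomial σ R) =
      Pi.single a (∑ ν ∈ (c a).support, MvPolynomial.monomial ν (MvPolynomial.coeff ν (c a))) := by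
    exact (map_sum (AddMonoidHom.single (fun _ : I => MvPolynomial σ R) a) _ _).symm
  rw [h3, MvPolynomial.support_sum_monomial_coeff]

private theorem CQ2_B7_term {σ R I : Type*} [CommRing R] [DecidableEq I] (e : I → σ →₀ ℕ)
    (Z : Submodule (MvPolynomial σ R) (I → MvPolynomial σ R))
    (hZ : ∀ a a' : I, (Pi.single a (MvPolynomial.monomial (e a ⊔ e a' - e a) (1 : R)) -
      Pi.single a' (MvPolynomial.monomial (e a ⊔ e a' - e a') (1 : R)) : I → MvPolynomial σ R) ∈ Z)
    (μ : σ →₀ ℕ) (a a0 : I) (ha : e a ≤ μ) (ha0 : e a0 ≤ μ) (r : R) :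
    (Pi.single a (MvPolynomial.monomial (μ - e a) r) -
      Pi.single a0 (MvPolynomial.monomial (μ - e a0) r) : I → MvPolynomial σ R) ∈ Z := by
  have h1 := Z.smul_mem (MvPolynomial.monomial (μ - (e a ⊔ e a0)) r) (hZ a a0)
  have hs : e a ⊔ e a0 ≤ μ := sup_le ha ha0
  rw [smul_sub, ← Pi.single_smul, ← Pi.single_smul, smul_eq_mul, smul_eq_mul,
    MvPolynomial.monomial_mul, MvPolynomial.monomial_mul, mul_one,
    tsub_add_tsub_cancel hs le_sup_left, tsub_add_tsub_cancel hs le_sup_right] at h1
  exact h1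

theorem mono_syz {σ R I : Type*} [CommRing R] [Fintype I] [DecidableEq I] (e : I → σ →₀ ℕ)
    (Z : Submodule (MvPolynomial σ R) (I → MvPolynomial σ R))
    (hZ : ∀ a a' : I, (Pi.single a (MvPolynomial.monomial (e a ⊔ e a' - e a) (1 : R)) -
      Pi.single a' (MvPolynomial.monomial (e a ⊔ e a' - e a') (1 : R)) : I → MvPolynomial σ R) ∈ Z)
    (c : I → MvPolynomial σ R) (hc : ∑ a, c a * MvPolynomial.monomial (e a) (1 : R) = 0) : c ∈ Z := by
  classical
  set T : Finset (σ →₀ ℕ) :=
    Finset.univ.biUnion (fun a => (c a).support.image (fun ν => ν + e a)) with hT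
  have h1 : c = ∑ μ ∈ T, ∑ a, (if e a ≤ μ then Pi.single a
      (MvPolynomial.monomial (μ - e a) (MvPolynomial.coeff (μ - e a) (c a))) else 0 :
        I → MvPolynomial σ R) := by
    rw [Finset.sum_comm]
    have h2 : ∀ a ∈ (Finset.univ : Finset I), ∑ μ ∈ T, (if e a ≤ μ then Pi.single a
      (MvPolynomial.monomial (μ - e a) (MvPolynomial.coeff (μ - e a) (c a))) else 0 :
        I → MvPolynomial σ R) = Pi.single a (c a) := by
      intro a _
      refine CQ2_B7_split e c T a ?_
      rw [hT]
      exact Finset.subset_biUnion_of_mem (fun a => (c a).support.image (fun ν => ν + e a))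
        (Finset.mem_univ a)
    rw [Finset.sum_congr rfl h2]
    exact (Finset.univ_sum_single c).symm
  rw [h1]
  refine Z.sum_mem fun μ _ => ?_
  have hr : ∑ a, (if e a ≤ μ then MvPolynomial.coeff (μ - e a) (c a) else 0) = 0 := by
    have h2 := congrArg (MvPolynomial.coeff μ) hc
    rw [MvPolynomial.coeff_sum, MvPolynomial.coeff_zero] at h2
    refine Eq.trans (Finset.sum_congr rfl fun a _ => ?_) h2
    rw [MvPolynomial.coeff_mul_monomial']
    by_cases h : e a ≤ μ
    · rw [if_pos h, if_pos h, mul_one]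
    · rw [if_neg h, if_neg h]
  by_cases hne : ∃ a0, e a0 ≤ μ
  · obtain ⟨a0, ha0⟩ := hne
    have h3 : ∑ a, (Pi.single a0 (MvPolynomial.monomial (μ - e a0)
        (if e a ≤ μ then MvPolynomial.coeff (μ - e a) (c a) else 0)) : I → MvPolynomial σ R) = 0 := by
      have h4 := map_sum (AddMonoidHom.single (fun _ : I => MvPolynomial σ R) a0)
        (fun a => MvPolynomial.monomial (μ - e a0)
          (if e a ≤ μ then MvPolynomial.coeff (μ - e a) (c a) else 0)) Finset.univ
      refine h4.symm.trans ?_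
      rw [← map_sum, hr, map_zero, map_zero]
    have h5 : ∑ a, (if e a ≤ μ then Pi.single a
      (MvPolynomial.monomial (μ - e a) (MvPolynomial.coeff (μ - e a) (c a))) else 0 :
        I → MvPolynomial σ R) = ∑ a, ((if e a ≤ μ then Pi.single a
      (MvPolynomial.monomial (μ - e a) (MvPolynomial.coeff (μ - e a) (c a))) else 0 :
        I → MvPolynomial σ R) - Pi.single a0 (MvPolynomial.monomial (μ - e a0)
        (if e a ≤ μ then MvPolynomial.coeff (μ - e a) (c a) else 0))) := by
      rw [Finset.sum_sub_distrib, h3, sub_zero]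
    rw [h5]
    refine Z.sum_mem fun a _ => ?_
    by_cases h : e a ≤ μ
    · rw [if_pos h, if_pos h]
      exact CQ2_B7_term e Z hZ μ a a0 h ha0 _
    · rw [if_neg h, if_neg h, map_zero, Pi.single_zero, sub_zero]
      exact Z.zero_mem
  · have h3 : ∑ a, (if e a ≤ μ then Pi.single a
      (MvPolynomial.monomial (μ - e a) (MvPolynomial.coeff (μ - e a) (c a))) else 0 :
        I → MvPolynomial σ R) = 0 := by
      refine Finset.sum_eq_zero fun a _ => ?_
      rw [if_neg (fun h => hne ⟨a, h⟩)]
    rw [h3]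
    exact Z.zero_mem

end Pool.Agent.LibCQ2
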