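import Pool.Agent.LibCQ2.G0
import Pool.Agent.LibCQ2.B7

set_option autoImplicit false

/-! ROW B8a (MEDIUM, Defs + G0, B7). Lifting syzygies implies: lowest components lie in the initial ideal.
 A := MvPolynomial σ R, Gs a := lamW w (G a) ∈ A[X], (Gs a).coeff 0 = comp w 0 (G a) = monomial (e a) 1 =: m a.
 (1) every c : I → A with ∑ c a * m a = 0 has a lift: c' : I → A[X], ∑ c' a * Gs a = 0 and (c' a).coeff 0 = c a. The set Z of such c is a submodule (scalar r: multiply c' by C r); it contains the pairwise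
     syzygies by hlift; use mono_syz.
 (2) if X * H ∈ span (range Gs) in A[X] then H ∈ span (range Gs): X H = ∑ c a * Gs a (Ideal.mem_span_range_iff_exists_fun or similar); coeff 0: ∑ (c a).coeff 0 * m a = 0; lift to c'; c a - c' a has
     coeff 0 = 0 so = X * d a (Polynomial.X_dvd_iff); X H = X ∑ d a Gs a, cancel X. Iterate: X ^ e * H ∈ span ⟹ H ∈ span.
 (3) F ∈ span (range G): lamW w F ∈ span (range Gs). ordGE w e F: lamW w F = X ^ e * H (ordGE_iff_dvd), H ∈ span (range Gs), H.coeff 0 = (lamW w F).coeff e = comp w e F, and H = ∑ c a Gs a gives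
     H.coeff 0 = ∑ (c a).coeff 0 * m a. -/

namespace Pool.Agent.LibCQ2

open Polynomial

theorem B8a_lift {σ R I : Type*} [CommRing R] [Fintype I] [DecidableEq I] (w : σ → ℕ)
    (G : I → MvPolynomial σ R) (e : I → σ →₀ ℕ)
    (hlift : ∀ a a' : I, ∃ c' : I → (MvPolynomial σ R)[X], (∑ a'', c' a'' * lamW w (G a'')) = 0 ∧
      ∀ a'', (c' a'').coeff 0 = (Pi.single a (MvPolynomial.monomial (e a ⊔ e a' - e a) (1 : R)) -
        Pi.single a' (MvPolynomial.monomial (e a ⊔ e a' - e a') (1 : R)) : I → MvPolynomial σ R) a'')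
    (c : I → MvPolynomial σ R) (hc : ∑ a, c a * MvPolynomial.monomial (e a) (1 : R) = 0) :
    ∃ c' : I → (MvPolynomial σ R)[X], (∑ a, c' a * lamW w (G a)) = 0 ∧ ∀ a, (c' a).coeff 0 = c a := by
  let Z : Submodule (MvPolynomial σ R) (I → MvPolynomial σ R) :=
    { carrier := {c | ∃ c' : I → (MvPolynomial σ R)[X],
        (∑ a, c' a * lamW w (G a)) = 0 ∧ ∀ a, (c' a).coeff 0 = c a}
      add_mem' := by
        rintro c d ⟨c', h1, h2⟩ ⟨d', h3, h4⟩
        refine ⟨fun a => c' a + d' a, ?_, fun a => ?_⟩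
        · simp only [add_mul, Finset.sum_add_distrib, h1, h3, add_zero]
        · simp [h2, h4]
      zero_mem' := ⟨fun _ => 0, by simp, by simp⟩
      smul_mem' := by
        rintro r c ⟨c', h1, h2⟩
        refine ⟨fun a => C r * c' a, ?_, fun a => ?_⟩
        · simp only [mul_assoc, ← Finset.mul_sum, h1, mul_zero]
        · simp [h2] }
  exact mono_syz e Z (fun a a' => hlift a a') c hc

theorem B8a_cancel {σ R I : Type*} [CommRing R] [Fintype I] [DecidableEq I] (w : σ → ℕ)
    (G : I → MvPolynomial σ R) (e : I → σ →₀ ℕ)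
    (hG : ∀ a, comp w 0 (G a) = MvPolynomial.monomial (e a) (1 : R))
    (hlift : ∀ a a' : I, ∃ c' : I → (MvPolynomial σ R)[X], (∑ a'', c' a'' * lamW w (G a'')) = 0 ∧
      ∀ a'', (c' a'').coeff 0 = (Pi.single a (MvPolynomial.monomial (e a ⊔ e a' - e a) (1 : R)) -
        Pi.single a' (MvPolynomial.monomial (e a ⊔ e a' - e a') (1 : R)) : I → MvPolynomial σ R) a'')
    (H : (MvPolynomial σ R)[X]) (h : X * H ∈ Ideal.span (Set.range fun a => lamW w (G a))) :
    H ∈ Ideal.span (Set.range fun a => lamW w (G a)) := by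
  rw [Ideal.mem_span_range_iff_exists_fun] at h
  obtain ⟨c, hc⟩ := h
  have h0 : ∑ a, (c a).coeff 0 * MvPolynomial.monomial (e a) (1 : R) = 0 := by
    have := congrArg (fun p => Polynomial.coeff p 0) hc
    simp only [Polynomial.finsetSum_coeff, Polynomial.mul_coeff_zero, coeff_X_zero, zero_mul,
      lamW_coeff, hG] at this
    exact this
  obtain ⟨c', h1, h2⟩ := B8a_lift w G e hlift _ h0
  have h5 : ∀ a, ∃ d, c a - c' a = X * d := fun a => by
    have : X ∣ c a - c' a := by
      rw [X_dvd_iff]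
      simp [h2]
    exact this
  choose d hd using h5
  have h3 : X * H = X * ∑ a, d a * lamW w (G a) := by
    rw [← hc, Finset.mul_sum]
    have : ∑ a, c a * lamW w (G a) = ∑ a, (c a - c' a) * lamW w (G a) := by
      simp only [sub_mul, Finset.sum_sub_distrib, h1, sub_zero]
    rw [this]
    refine Finset.sum_congr rfl fun a _ => ?_
    rw [hd]
    ring
  have h4 : H = ∑ a, d a * lamW w (G a) := (monic_X.isRegular).left h3
  rw [Ideal.mem_span_range_iff_exists_fun]
  exact ⟨d, h4.symm⟩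

theorem B8a_pow {σ R I : Type*} [CommRing R] [Fintype I] [DecidableEq I] (w : σ → ℕ)
    (G : I → MvPolynomial σ R) (e : I → σ →₀ ℕ)
    (hG : ∀ a, comp w 0 (G a) = MvPolynomial.monomial (e a) (1 : R))
    (hlift : ∀ a a' : I, ∃ c' : I → (MvPolynomial σ R)[X], (∑ a'', c' a'' * lamW w (G a'')) = 0 ∧
      ∀ a'', (c' a'').coeff 0 = (Pi.single a (MvPolynomial.monomial (e a ⊔ e a' - e a) (1 : R)) -
        Pi.single a' (MvPolynomial.monomial (e a ⊔ e a' - e a') (1 : R)) : I → MvPolynomial σ R) a'')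
    (i : ℕ) (H : (MvPolynomial σ R)[X]) (h : X ^ i * H ∈ Ideal.span (Set.range fun a => lamW w (G a))) :
    H ∈ Ideal.span (Set.range fun a => lamW w (G a)) := by
  induction i with
  | zero => simpa using h
  | succ i ih =>
    refine ih (B8a_cancel w G e hG hlift _ ?_)
    rw [← mul_assoc, ← pow_succ']
    exact h

theorem LP_of_lift {σ R I : Type*} [CommRing R] [Fintype I] [DecidableEq I] (w : σ → ℕ)
    (G : I → MvPolynomial σ R) (e : I → σ →₀ ℕ)
    (hG : ∀ a, comp w 0 (G a) = MvPolynomial.monomial (e a) (1 : R))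
    (hlift : ∀ a a' : I, ∃ c' : I → (MvPolynomial σ R)[X], (∑ a'', c' a'' * lamW w (G a'')) = 0 ∧
      ∀ a'', (c' a'').coeff 0 = (Pi.single a (MvPolynomial.monomial (e a ⊔ e a' - e a) (1 : R)) -
        Pi.single a' (MvPolynomial.monomial (e a ⊔ e a' - e a') (1 : R)) : I → MvPolynomial σ R) a'')
    (F : MvPolynomial σ R) (hF : F ∈ Ideal.span (Set.range G)) (i : ℕ) (hi : ordGE w i F) :
    comp w i F ∈ Ideal.span (Set.range fun a => (MvPolynomial.monomial (e a) (1 : R) : MvPolynomial σ R)) := by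
  have h1 : lamW w F ∈ Ideal.span (Set.range fun a => lamW w (G a)) := by
    have h2 := Ideal.mem_map_of_mem (lamW w) hF
    rw [Ideal.map_span, ← Set.range_comp] at h2
    exact h2
  obtain ⟨H, hH⟩ := (ordGE_iff_dvd w i F).1 hi
  rw [hH] at h1
  have h3 := B8a_pow w G e hG hlift i H h1
  have h4 : H.coeff 0 = comp w i F := by
    rw [← lamW_coeff, hH, coeff_X_pow_mul', if_pos le_rfl, Nat.sub_self]
  rw [Ideal.mem_span_range_iff_exists_fun] at h3
  obtain ⟨c, hc⟩ := h3
  rw [← h4, ← hc]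
  simp only [Polynomial.finsetSum_coeff, Polynomial.mul_coeff_zero, lamW_coeff, hG]
  exact Ideal.sum_mem _ fun a _ => Ideal.mul_mem_left _ _ (Ideal.subset_span ⟨a, rfl⟩)

end Pool.Agent.LibCQ2
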