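import Mathlib

set_option autoImplicit false

/-! ROW C1 (MEDIUM, only Mathlib). Lemma L: A reduced, P monic, P ∣ G ^ m ⟹ P ∣ P' G.
 Field case, K algebraically closed: P = ∏ (X - a_i)^{m_i}; write it as: for every root a, rootMultiplicity a P ≤ rootMultiplicity a (P' * G): G(a) = 0 since (X - a) ∣ P ∣ G^m, and (X - a)^(mult - 1) ∣ P' (Polynomial: derivative of
   (X-a)^m Q). P splits, so P ∣ P' G (P = product over roots, or Polynomial.Splits.dvd_of_roots_le.. / dvd via roots multiset: Splits, roots P ≤ roots (P' G)). If P' G = 0 it is clear. Over a general field pass to AlgebraicClosure: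
   divisibility by a monic polynomial descends (map_dvd_map' / modByMonic and injectivity).
 General A reduced: R := (P' * G) %ₘ P; show R = 0: every coefficient c is nilpotent: for every prime q of A, φ : A → FractionRing (A ⧸ q): R.map φ = (P' G).map φ %ₘ P.map φ = 0, so c ∈ q; c in all primes (nilradical_eq_sInf / mem_nilradical), so c = 0.
 lemL_loc: A arbitrary, Q prime, every nilpotent a is killed by an element outside Q. Then A_Q := Localization.AtPrime Q is reduced (a/s nilpotent: t a^k = 0, (t a)^k = 0, so t a is killed by h ∉ Q; t, h units). Apply lemL over A_Q: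
   R := (P' G) %ₘ P maps to 0 in A_Q[X], so each of its finitely many coefficients is killed by an element outside Q; h := product; C h * R = 0, so P ∣ C h * (P' G) (modByMonic_add_div). -/

namespace Pool.Agent.LibCQ2

open Polynomial

private theorem C1_alg {K : Type*} [Field K] [IsAlgClosed K] (P : K[X]) (hP : P ≠ 0) (G : K[X]) (m : ℕ)
    (h : P ∣ G ^ m) : P ∣ derivative P * G := by
  classical
  by_cases h0 : derivative P * G = 0
  · rw [h0]; exact dvd_zero _
  rw [(IsAlgClosed.splits P).dvd_iff_roots_le_roots hP h0, Multiset.le_iff_count]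
  intro a
  rw [count_roots, count_roots]
  by_cases ha : rootMultiplicity a P = 0
  · rw [ha]; exact Nat.zero_le _
  obtain ⟨k, hk⟩ := Nat.exists_eq_succ_of_ne_zero ha
  have h1 : (X - C a) ^ (rootMultiplicity a P) ∣ P := pow_rootMultiplicity_dvd P a
  have h2 : (X - C a) ^ (rootMultiplicity a P - 1) ∣ derivative P :=
    pow_sub_one_dvd_derivative_of_pow_dvd h1
  have h3 : (X - C a) ∣ G := by
    have h4 : (X - C a) ∣ P := dvd_trans (dvd_pow_self _ ha) h1
    exact (prime_X_sub_C a).dvd_of_dvd_pow (dvd_trans h4 h)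
  rw [le_rootMultiplicity_iff h0]
  have h5 : (X - C a) ^ (rootMultiplicity a P - 1) * (X - C a) ∣ derivative P * G := mul_dvd_mul h2 h3
  rw [← pow_succ] at h5
  have h6 : rootMultiplicity a P - 1 + 1 = rootMultiplicity a P := by omega
  rw [h6] at h5
  exact h5

private theorem C1_aux {A : Type*} [CommRing A] (P : A[X]) (hP : P.Monic) (G : A[X]) (m : ℕ) (h : P ∣ G ^ m)
    (i : ℕ) (q : Ideal A) (hq' : q.IsPrime) : ((derivative P * G) %ₘ P).coeff i ∈ q := by
  let φ : A →+* AlgebraicClosure (FractionRing (A ⧸ q)) :=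
    (algebraMap (FractionRing (A ⧸ q)) (AlgebraicClosure (FractionRing (A ⧸ q)))).comp
      ((algebraMap (A ⧸ q) (FractionRing (A ⧸ q))).comp (Ideal.Quotient.mk q))
  have hPφ : (P.map φ).Monic := hP.map φ
  have hd : P.map φ ∣ (G.map φ) ^ m := by
    rw [← Polynomial.map_pow]
    exact _root_.map_dvd (mapRingHom φ) h
  have hd2 := C1_alg (P.map φ) hPφ.ne_zero (G.map φ) m hd
  rw [derivative_map, ← Polynomial.map_mul, ← modByMonic_eq_zero_iff_dvd hPφ,
    ← map_modByMonic φ hP] at hd2
  have h3 : φ (((derivative P * G) %ₘ P).coeff i) = 0 := by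
    rw [← coeff_map, hd2, coeff_zero]
  have h4 : (Ideal.Quotient.mk q) (((derivative P * G) %ₘ P).coeff i) = 0 := by
    have h5 : Function.Injective (algebraMap (FractionRing (A ⧸ q)) (AlgebraicClosure (FractionRing (A ⧸ q)))) :=
      FaithfulSMul.algebraMap_injective _ _
    have h6 : Function.Injective (algebraMap (A ⧸ q) (FractionRing (A ⧸ q))) :=
      IsFractionRing.injective (A ⧸ q) (FractionRing (A ⧸ q))
    apply h6
    apply h5
    rw [map_zero, map_zero]
    exact h3
  exact Ideal.Quotient.eq_zero_iff_mem.mp h4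

theorem lemL {A : Type*} [CommRing A] [IsReduced A] (P : A[X]) (hP : P.Monic) (G : A[X]) (m : ℕ) (h : P ∣ G ^ m) :
    P ∣ derivative P * G := by
  rw [← modByMonic_eq_zero_iff_dvd hP]
  ext i
  rw [coeff_zero]
  have key : ((derivative P * G) %ₘ P).coeff i ∈ nilradical A := by
    rw [nilradical_eq_sInf, Submodule.mem_sInf]
    intro q hq
    exact C1_aux P hP G m h i q hq
  rw [nilradical_eq_zero] at key
  exact key

theorem lemL_loc {A : Type*} [CommRing A] (Q : Ideal A) [Q.IsPrime]
    (hQ : ∀ a : A, IsNilpotent a → ∃ h : A, h ∉ Q ∧ h * a = 0) (P : A[X]) (hP : P.Monic) (G : A[X]) (m : ℕ)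
    (hG : P ∣ G ^ m) : ∃ h : A, h ∉ Q ∧ P ∣ C h * (derivative P * G) := by
  classical
  let L := Localization.AtPrime Q
  have hred : IsReduced L := by
    constructor
    intro x hx
    obtain ⟨⟨a, s⟩, hs⟩ := IsLocalization.surj Q.primeCompl x
    obtain ⟨k, hk⟩ := hx
    have h1 : algebraMap A L (a ^ k) = 0 := by
      rw [map_pow]
      have : algebraMap A L a = x * algebraMap A L (s : A) := hs.symm
      rw [this, mul_pow, hk, zero_mul]
    obtain ⟨t, ht⟩ := (IsLocalization.map_eq_zero_iff Q.primeCompl L (a ^ k)).mp h1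
    have h2 : IsNilpotent ((t : A) * a) := by
      refine ⟨k + 1, ?_⟩
      rw [mul_pow, pow_succ (t : A) k, pow_succ a k]
      calc (t : A) ^ k * t * (a ^ k * a) = (t : A) ^ k * (t * a ^ k) * a := by ring
        _ = 0 := by rw [ht]; ring
    obtain ⟨h, hh, hh2⟩ := hQ _ h2
    have h3 : algebraMap A L a = 0 := by
      rw [IsLocalization.map_eq_zero_iff Q.primeCompl L a]
      have hht : h * (t : A) ∈ Q.primeCompl := Q.primeCompl.mul_mem hh t.2
      exact ⟨⟨h * t, hht⟩, by show h * (t : A) * a = 0; rw [mul_assoc]; exact hh2⟩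
    have h4 : IsUnit (algebraMap A L (s : A)) := IsLocalization.map_units L s
    have h5 : x * algebraMap A L (s : A) = 0 := by
      have : x * algebraMap A L (s : A) = algebraMap A L a := hs
      rw [this, h3]
    exact (h4.mul_left_eq_zero).mp h5
  let ψ : A →+* L := algebraMap A L
  have hPψ : (P.map ψ).Monic := hP.map ψ
  have hd : P.map ψ ∣ (G.map ψ) ^ m := by
    rw [← Polynomial.map_pow]
    exact _root_.map_dvd (mapRingHom ψ) hG
  have hd2 := lemL (P.map ψ) hPψ (G.map ψ) m hd
  rw [derivative_map, ← Polynomial.map_mul, ← modByMonic_eq_zero_iff_dvd hPψ,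
    ← map_modByMonic ψ hP] at hd2
  set R := (derivative P * G) %ₘ P with hR
  have hc : ∀ i : ℕ, ∃ h : A, h ∉ Q ∧ h * R.coeff i = 0 := by
    intro i
    have h1 : ψ (R.coeff i) = 0 := by rw [← coeff_map, hd2, coeff_zero]
    obtain ⟨t, ht⟩ := (IsLocalization.map_eq_zero_iff Q.primeCompl L (R.coeff i)).mp h1
    exact ⟨t, t.2, ht⟩
  choose f hf hf2 using hc
  let g : A := ∏ i ∈ Finset.range (R.natDegree + 1), f i
  have hg : g ∉ Q := by
    have : g ∈ Q.primeCompl := Q.primeCompl.prod_mem (fun i _ => hf i)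
    exact this
  refine ⟨g, hg, ?_⟩
  have hgR : C g * R = 0 := by
    ext i
    rw [coeff_C_mul, coeff_zero]
    by_cases hi : i < R.natDegree + 1
    · have : f i ∣ g := Finset.dvd_prod_of_mem f (Finset.mem_range.mpr hi)
      obtain ⟨c, hc⟩ := this
      rw [hc]
      calc f i * c * R.coeff i = c * (f i * R.coeff i) := by ring
        _ = 0 := by rw [hf2 i, mul_zero]
    · rw [coeff_eq_zero_of_natDegree_lt (by omega), mul_zero]
  have h1 : derivative P * G = R + P * ((derivative P * G) /ₘ P) := (modByMonic_add_div _ P).symm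
  rw [h1, mul_add, hgR, zero_add]
  exact ⟨C g * ((derivative P * G) /ₘ P), by ring⟩

end Pool.Agent.LibCQ2
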