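import Mathlib

set_option autoImplicit false

/-! ROW C2 (SHORT/MEDIUM, only Mathlib). The quotient of R^(n+1) by an eigenvector. κ : n ⊕ Unit → R with (Y - t) κ = 0, κ_last * c = 1, the n x n block of Y - t invertible, X Y = Y X. qM κ c Z i j := Z (inl i) (inl j) - κ (inl i) * c * Z (inr ()) (inl j).
 Let J := the (n+1) x n matrix (1; 0), Π := the n x (n+1) matrix (1 | -κ' c): qM κ c Z = Π * Z * J, J * Π = 1 - κ ⊗ (c e_last), Π *ᵥ κ = 0.
 ker: z with (Y - t) z = 0: z - (z_last c) κ =: z' has z'_last = 0 and (Y - t) z' = 0, so (block) z'|n = 0, z' = 0. So X κ = a κ with a = (X κ)_last c, because (Y - t) X κ = X (Y - t) κ = 0. Same for Y κ = t κ.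
 qM X * qM Y = Π X J Π Y J = Π X Y J - Π (X κ) (c e_last) Y J = Π X Y J = qM (X Y), and the same for Y X. -/

namespace Pool.Agent.LibCQ2

open Matrix

/-- the operator induced by `Z` on `R^(n+1)/κ`, `κ_last * c = 1` -/
def qM {R : Type*} [CommRing R] {n : Type*} (κ : n ⊕ Unit → R) (c : R) (Z : Matrix (n ⊕ Unit) (n ⊕ Unit) R) :
    Matrix n n R :=
  Matrix.of fun i j => Z (Sum.inl i) (Sum.inl j) - κ (Sum.inl i) * c * Z (Sum.inr ()) (Sum.inl j)

private theorem C2_mul {R : Type*} [CommRing R] {n : Type*} [Fintype n]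
    (X Y : Matrix (n ⊕ Unit) (n ⊕ Unit) R) (κ : n ⊕ Unit → R) (c a : R)
    (hc : κ (Sum.inr ()) * c = 1) (hX : X.mulVec κ = a • κ) :
    qM κ c X * qM κ c Y = qM κ c (X * Y) := by
  ext i j
  have e1 : ∑ k, X (Sum.inl i) (Sum.inl k) * κ (Sum.inl k) =
      a * κ (Sum.inl i) - X (Sum.inl i) (Sum.inr ()) * κ (Sum.inr ()) := by
    have h := congrFun hX (Sum.inl i)
    simp only [Matrix.mulVec, dotProduct, Fintype.sum_sum_type, Finset.univ_unique,
      Finset.sum_singleton, Pi.smul_apply, smul_eq_mul] at h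
    exact eq_sub_of_add_eq h
  have e2 : ∑ k, X (Sum.inr ()) (Sum.inl k) * κ (Sum.inl k) =
      a * κ (Sum.inr ()) - X (Sum.inr ()) (Sum.inr ()) * κ (Sum.inr ()) := by
    have h := congrFun hX (Sum.inr ())
    simp only [Matrix.mulVec, dotProduct, Fintype.sum_sum_type, Finset.univ_unique,
      Finset.sum_singleton, Pi.smul_apply, smul_eq_mul] at h
    exact eq_sub_of_add_eq h
  have e3 : ∑ k, (X (Sum.inl i) (Sum.inl k) - κ (Sum.inl i) * c * X (Sum.inr ()) (Sum.inl k)) *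
      (Y (Sum.inl k) (Sum.inl j) - κ (Sum.inl k) * c * Y (Sum.inr ()) (Sum.inl j)) =
      (∑ k, X (Sum.inl i) (Sum.inl k) * Y (Sum.inl k) (Sum.inl j)) -
      κ (Sum.inl i) * c * (∑ k, X (Sum.inr ()) (Sum.inl k) * Y (Sum.inl k) (Sum.inl j)) -
      (∑ k, X (Sum.inl i) (Sum.inl k) * κ (Sum.inl k)) * (c * Y (Sum.inr ()) (Sum.inl j)) +
      κ (Sum.inl i) * c * (∑ k, X (Sum.inr ()) (Sum.inl k) * κ (Sum.inl k)) *
        (c * Y (Sum.inr ()) (Sum.inl j)) := by
    rw [Finset.mul_sum, Finset.mul_sum, Finset.sum_mul, Finset.sum_mul, ← Finset.sum_sub_distrib,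
      ← Finset.sum_sub_distrib, ← Finset.sum_add_distrib]
    refine Finset.sum_congr rfl fun k _ => ?_
    ring
  have e4 : (qM κ c X * qM κ c Y) i j =
      ∑ k, (X (Sum.inl i) (Sum.inl k) - κ (Sum.inl i) * c * X (Sum.inr ()) (Sum.inl k)) *
      (Y (Sum.inl k) (Sum.inl j) - κ (Sum.inl k) * c * Y (Sum.inr ()) (Sum.inl j)) := by
    simp only [Matrix.mul_apply, qM, Matrix.of_apply]
  have e5 : qM κ c (X * Y) i j =
      (∑ k, X (Sum.inl i) (Sum.inl k) * Y (Sum.inl k) (Sum.inl j)) +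
        X (Sum.inl i) (Sum.inr ()) * Y (Sum.inr ()) (Sum.inl j) -
      κ (Sum.inl i) * c * ((∑ k, X (Sum.inr ()) (Sum.inl k) * Y (Sum.inl k) (Sum.inl j)) +
        X (Sum.inr ()) (Sum.inr ()) * Y (Sum.inr ()) (Sum.inl j)) := by
    simp only [Matrix.mul_apply, qM, Matrix.of_apply, Fintype.sum_sum_type, Finset.univ_unique,
      Finset.sum_singleton]
  rw [e4, e3, e1, e2, e5]
  linear_combination (a * κ (Sum.inl i) * c * Y (Sum.inr ()) (Sum.inl j) +
    X (Sum.inl i) (Sum.inr ()) * Y (Sum.inr ()) (Sum.inl j) -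
    κ (Sum.inl i) * c * X (Sum.inr ()) (Sum.inr ()) * Y (Sum.inr ()) (Sum.inl j)) * hc

private theorem C2_eig {R : Type*} [CommRing R] {n : Type*} [Fintype n] [DecidableEq n]
    (X A : Matrix (n ⊕ Unit) (n ⊕ Unit) R) (hXA : X * A = A * X) (κ : n ⊕ Unit → R)
    (hκ : A.mulVec κ = 0) (c : R) (hc : κ (Sum.inr ()) * c = 1)
    (hdet : IsUnit (A.toBlocks₁₁).det) :
    X.mulVec κ = (X.mulVec κ (Sum.inr ()) * c) • κ := by
  have h1 : A.mulVec (X.mulVec κ) = 0 := by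
    rw [Matrix.mulVec_mulVec, ← hXA, ← Matrix.mulVec_mulVec, hκ, Matrix.mulVec_zero]
  have h2 : A.mulVec (X.mulVec κ - (X.mulVec κ (Sum.inr ()) * c) • κ) = 0 := by
    rw [Matrix.mulVec_sub, h1, Matrix.mulVec_smul, hκ, smul_zero, sub_zero]
  generalize hz : X.mulVec κ - (X.mulVec κ (Sum.inr ()) * c) • κ = z at h2
  have h3 : z (Sum.inr ()) = 0 := by
    rw [← hz]
    simp only [Pi.sub_apply, Pi.smul_apply, smul_eq_mul]
    linear_combination (-(X.mulVec κ (Sum.inr ()))) * hc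
  have h4 : (A.toBlocks₁₁).mulVec (fun i => z (Sum.inl i)) = 0 := by
    funext i
    have h := congrFun h2 (Sum.inl i)
    simp only [Matrix.mulVec, dotProduct, Fintype.sum_sum_type, Finset.univ_unique,
      Finset.sum_singleton, Pi.zero_apply] at h
    have h5 : A (Sum.inl i) (Sum.inr default) * z (Sum.inr default) = 0 := by
      have h6 : z (Sum.inr default) = 0 := h3
      rw [h6, mul_zero]
    rw [h5, add_zero] at h
    exact h
  have h5 : (fun i => z (Sum.inl i)) = 0 := by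
    have h6 : (A.toBlocks₁₁)⁻¹.mulVec ((A.toBlocks₁₁).mulVec (fun i => z (Sum.inl i))) =
        fun i => z (Sum.inl i) := by
      rw [Matrix.mulVec_mulVec, Matrix.nonsing_inv_mul _ hdet, Matrix.one_mulVec]
    rw [← h6, h4, Matrix.mulVec_zero]
  have h6 : z = 0 := by
    funext x
    rcases x with i | u
    · exact congrFun h5 i
    · exact h3
  rw [← sub_eq_zero, hz, h6]

theorem qM_comm {R : Type*} [CommRing R] {n : Type*} [Fintype n] [DecidableEq n]
    (X Y : Matrix (n ⊕ Unit) (n ⊕ Unit) R) (hXY : X * Y = Y * X) (t : R) (κ : n ⊕ Unit → R)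
    (hκ : (Y - t • (1 : Matrix (n ⊕ Unit) (n ⊕ Unit) R)).mulVec κ = 0) (c : R) (hc : κ (Sum.inr ()) * c = 1)
    (hdet : IsUnit ((Y - t • (1 : Matrix (n ⊕ Unit) (n ⊕ Unit) R)).toBlocks₁₁).det) :
    qM κ c X * qM κ c Y = qM κ c Y * qM κ c X := by
  have hY : (Y - t • (1 : Matrix (n ⊕ Unit) (n ⊕ Unit) R)).mulVec κ = Y.mulVec κ - t • κ := by
    rw [Matrix.sub_mulVec, Matrix.smul_mulVec, Matrix.one_mulVec]
  have hY1 : Y.mulVec κ = t • κ := by
    rw [hY] at hκ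
    exact sub_eq_zero.1 hκ
  have hX1 := C2_eig X (Y - t • (1 : Matrix (n ⊕ Unit) (n ⊕ Unit) R))
    (by rw [mul_sub, sub_mul, hXY, mul_smul_comm, smul_mul_assoc, mul_one, one_mul]) κ hκ c hc hdet
  rw [C2_mul X Y κ c _ hc hX1, C2_mul Y X κ c t hc hY1, hXY]

end Pool.Agent.LibCQ2
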