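import Pool.Agent.LibCQ2.Defs
import Pool.Agent.LibCQ2.A11
import Pool.Agent.LibCQ2.C1
import Pool.Agent.LibCQ2.C2

set_option autoImplicit false

/-! ROW C3 (MEDIUM/STRONG, Defs + A11 (ev_map, ev_comm), C1, C2). Adding a point: Red at (X0 ⊕ s0, Y0 ⊕ t0) implies Red at (X0, Y0), if t0 is not an eigenvalue of Y0.
 A := CP k (n ⊕ Unit) ⧸ cI, x~, y~ the commuting classes of the generic matrices. P := charpoly y~ ∈ A[T] (monic, P.derivative). Om := A[T] ⧸ span {P} (or AdjoinRoot P), t := class of T. κ := (adjugate (y~ - t)) e_last, i.e. κ i = adjugate i (inr ()):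
   (y~ - t) κ = det (y~ - t) e_last = ± P(t) e_last = 0. κ_last = det of the block toBlocks₁₁ of y~ - t (adjugate_apply / cofactor: det (updateRow .. last (Pi.single last 1)) = det of the block: det_fromBlocks_zero..). Om' := Localization.Away κ_last,
   c := inverse of κ_last. By C2: qM κ c x~, qM κ c y~ commute over Om': ψ := ev of them kills cI k n (ev_comm).
 F ∈ CP k n, F ^ m ∈ cI k n. ψ F ∈ Om' has ψ(F)^m = 0. So there are N1 and G ∈ A[T] with (class of G in Om') = κ_last^N1 ψ(F), and (after increasing N1) G^m ∈ span {P} in A[T], i.e. P ∣ G ^ m  (IsLocalization.surj, map_eq_zero_iff).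
 lemL_loc with Q := kernel of the point A → k (ev (fromBlocks X0 0 0 s0) (fromBlocks Y0 0 0 t0); these matrices commute if X0 Y0 = Y0 X0; if X0 Y0 ≠ Y0 X0 then cI has an element not vanishing at (X0, Y0): take it as h and we are done).
   hQ from the hypothesis (a nilpotent a = class of F~, F~^k ∈ cI; h~ from Red). Result: h ∈ A, h(pt) ≠ 0, P ∣ C h * (P' * G) in A[T].
 ι : Om' → B := (CP k n ⧸ cI)-algebra: B := Localization.Away (det (t - y)) of (CP k n ⧸ cI)[..]; SIMPLER: fix s = s0, t = t0 from the start: ι : A → C := CP k n ⧸ cI k n, x~ ↦ fromBlocks x 0 0 s0, y~ ↦ fromBlocks y 0 0 t0 (constants), T ↦ t0;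
   P = charpoly y~ ↦ (charpoly y) * (T - t0) (charpoly of block diagonal), so P(t0) ↦ 0: defined on Om; κ ↦ adjugate (fromBlocks (y - t0) 0 0 0) e_last = (0, .., 0, det (y - t0)); so ι extends to Om' → C' := Localization.Away δ, δ := det (y - t0);
   ι(qM κ c x~) = x, ι (qM κ c y~) = y: ι ∘ ψ = algebraMap C C'. Apply ι to h P'(t) G(t) = 0 (in Om): P'(t0) ↦ eval t0 of derivative ((charpoly y)(T - t0)) = (charpoly y)(t0) = ± det (y - t0) = ± δ. So ι(h) * (± δ) * δ^N1 * F = 0 in C',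
   so δ^M * ι(h) * F = 0 in C. ι(h) is the class of the polynomial h~(fromBlocks x 0 0 s0, ..); its value at (X0, Y0) is h(pt) ≠ 0 and δ(X0, Y0) = det (Y0 - t0) ≠ 0. -/

namespace Pool.Agent.LibCQ2

universe u

open Polynomial in
private theorem C3_ev_map {k : Type u} [CommRing k] {n : Type} {R R' : Type u} [CommRing R] [Algebra k R]
    [CommRing R'] [Algebra k R'] (φ : R →+* R') (hφ : ∀ a : k, φ (algebraMap k R a) = algebraMap k R' a)
    (X Y : Matrix n n R) (F : MvPolynomial (Fin 2 × n × n) k) :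
    φ (ev X Y F) = ev (X.map φ) (Y.map φ) F := by
  induction F using MvPolynomial.induction_on with
  | C a => simp [ev, hφ]
  | add p q hp hq => rw [map_add, map_add, map_add, hp, hq]
  | mul_X p i hp =>
    rw [map_mul, map_mul, map_mul, hp]
    congr 1
    simp only [ev, MvPolynomial.aeval_X, Matrix.map_apply]
    split_ifs <;> rfl

private theorem C3_ev_X {k : Type u} [CommRing k] {n : Type} {R : Type u} [CommRing R] [Algebra k R]
    (X Y : Matrix n n R) (s : Fin 2) (i j : n) :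
    ev (k := k) X Y (MvPolynomial.X (s, i, j)) = if s = 0 then X i j else Y i j := by
  simp [ev]

private theorem C3_adj {R : Type*} [CommRing R] {n : Type*} [Fintype n] [DecidableEq n]
    (M : Matrix (n ⊕ Unit) (n ⊕ Unit) R) (hM : M.det = 0) :
    M.mulVec (fun i => M.adjugate i (Sum.inr ())) = 0 := by
  funext i
  have h := congrFun (congrFun (Matrix.mul_adjugate M) i) (Sum.inr ())
  rw [hM, zero_smul] at h
  exact h

private theorem C3_last {R : Type*} [CommRing R] {n : Type*} [Fintype n] [DecidableEq n]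
    (M : Matrix (n ⊕ Unit) (n ⊕ Unit) R) :
    M.adjugate (Sum.inr ()) (Sum.inr ()) = M.toBlocks₁₁.det := by
  rw [Matrix.adjugate_apply]
  have h : M.updateRow (Sum.inr ()) (Pi.single (Sum.inr ()) 1) =
      Matrix.fromBlocks M.toBlocks₁₁ M.toBlocks₁₂ 0 1 := by
    ext i j
    rcases i with i | i <;> rcases j with j | j <;>
      simp [Matrix.updateRow_apply, Matrix.toBlocks₁₁, Matrix.toBlocks₁₂]
  rw [h, Matrix.det_fromBlocks_zero₂₁, Matrix.det_one, mul_one]

private theorem C3_inl {R : Type*} [CommRing R] {n : Type*} [Fintype n] [DecidableEq n]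
    (B : Matrix n n R) (i : n) :
    (Matrix.fromBlocks B 0 0 (0 : Matrix Unit Unit R)).adjugate (Sum.inl i) (Sum.inr ()) = 0 := by
  rw [Matrix.adjugate_apply]
  refine Matrix.det_eq_zero_of_column_eq_zero (Sum.inr ()) fun j => ?_
  rcases j with j | j
  · simp [Matrix.updateRow_apply]
  · simp [Matrix.updateRow_apply]

open Polynomial in
private theorem C3_eval {R : Type*} [CommRing R] {n : Type*} [Fintype n] [DecidableEq n]
    (B : Matrix n n R) (t : R) :
    (Matrix.fromBlocks B 0 0 (fun _ _ => t : Matrix Unit Unit R)).charpoly =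
      B.charpoly * (X - C t) := by
  rw [Matrix.charpoly_fromBlocks_zero₁₂]
  congr 1
  rw [Matrix.charpoly, Matrix.det_unique, Matrix.charmatrix_apply_eq]

open Polynomial in
private theorem C3_main {k : Type u} [Field k] {n : Type} [Fintype n] [DecidableEq n] {A : Type u} [CommRing A]
    [Algebra k A] (x y : Matrix (n ⊕ Unit) (n ⊕ Unit) A) (hxy : x * y = y * x) (F : CP k n) (m : ℕ)
    (hF : F ^ (m + 1) ∈ cI k n) :
    ∃ (N : ℕ) (G : A[X]), y.charpoly ∣ G ^ (m + 1) ∧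
      ∀ (C : Type u) [CommRing C] [Algebra k C] (ι : A →+* C)
        (_ : ∀ a : k, ι (algebraMap k A a) = algebraMap k C a) (xb yb : Matrix n n C) (s t : C),
        x.map ι = Matrix.fromBlocks xb 0 0 (fun _ _ => s) → y.map ι = Matrix.fromBlocks yb 0 0 (fun _ _ => t) →
        ∃ M : ℕ, (yb - t • (1 : Matrix n n C)).det ^ M * G.eval₂ ι t =
          (yb - t • (1 : Matrix n n C)).det ^ M * ((yb - t • (1 : Matrix n n C)).det ^ N * ev xb yb F) := by
  classical
  obtain ⟨P, hP⟩ : ∃ P, P = y.charpoly := ⟨_, rfl⟩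
  rw [← hP]
  -- the ring O
  let of' : A →+* AdjoinRoot P := AdjoinRoot.of P
  obtain ⟨r, hr⟩ : ∃ r, r = AdjoinRoot.root P := ⟨_, rfl⟩
  obtain ⟨Mt, hMt⟩ : ∃ Mt : Matrix (n ⊕ Unit) (n ⊕ Unit) (AdjoinRoot P),
    Mt = y.map of' - r • (1 : Matrix (n ⊕ Unit) (n ⊕ Unit) (AdjoinRoot P)) := ⟨_, rfl⟩
  have hdet0 : Mt.det = 0 := by
    have h1 : (Matrix.scalar (n ⊕ Unit) r - y.map of').det = 0 := by
      rw [← Matrix.eval_charpoly, Matrix.charpoly_map, ← hP, Polynomial.eval_map, hr]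
      exact AdjoinRoot.eval₂_root P
    have h2 : Mt = -(Matrix.scalar (n ⊕ Unit) r - y.map of') := by
      rw [hMt, neg_sub]
      congr 1
      rw [Matrix.smul_one_eq_diagonal]
      rfl
    rw [h2, Matrix.det_neg, h1, mul_zero]
  obtain ⟨κ, hκ⟩ : ∃ κ : n ⊕ Unit → AdjoinRoot P, κ = fun i => Mt.adjugate i (Sum.inr ()) := ⟨_, rfl⟩
  obtain ⟨κl, hκl⟩ : ∃ κl : AdjoinRoot P, κl = κ (Sum.inr ()) := ⟨_, rfl⟩
  have hκlast : κl = Mt.toBlocks₁₁.det := by
    rw [hκl, hκ]
    exact C3_last Mt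
  have hκ0 : Mt.mulVec κ = 0 := by
    rw [hκ]
    exact C3_adj Mt hdet0
  -- the localization
  let L := Localization.Away κl
  let al : AdjoinRoot P →+* L := algebraMap (AdjoinRoot P) L
  obtain ⟨c, hc⟩ : ∃ c : L, al κl * c = 1 := ⟨IsLocalization.Away.invSelf κl, IsLocalization.Away.mul_invSelf κl⟩
  obtain ⟨X', hX'⟩ : ∃ X' : Matrix (n ⊕ Unit) (n ⊕ Unit) L, X' = (x.map of').map al := ⟨_, rfl⟩
  obtain ⟨Y', hY'⟩ : ∃ Y' : Matrix (n ⊕ Unit) (n ⊕ Unit) L, Y' = (y.map of').map al := ⟨_, rfl⟩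
  obtain ⟨κ', hκ'⟩ : ∃ κ' : n ⊕ Unit → L, κ' = fun i => al (κ i) := ⟨_, rfl⟩
  have hYM : Y' - al r • (1 : Matrix (n ⊕ Unit) (n ⊕ Unit) L) = Mt.map al := by
    ext i j
    rw [hY', hMt]
    simp only [Matrix.sub_apply, Matrix.map_apply, Matrix.smul_apply, smul_eq_mul, map_sub, map_mul]
    congr 2
    by_cases hij : i = j
    · subst hij
      rw [Matrix.one_apply_eq, Matrix.one_apply_eq, map_one]
    · rw [Matrix.one_apply_ne hij, Matrix.one_apply_ne hij, map_zero]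
  have hXY' : X' * Y' = Y' * X' := by
    have h1 := congrArg (fun M : Matrix (n ⊕ Unit) (n ⊕ Unit) A => (M.map of').map al) hxy
    simp only [Matrix.map_mul] at h1
    rw [hX', hY']
    exact h1
  have hκ'0 : (Y' - al r • (1 : Matrix (n ⊕ Unit) (n ⊕ Unit) L)).mulVec κ' = 0 := by
    rw [hYM]
    funext i
    have h1 := RingHom.map_mulVec al Mt κ i
    rw [hκ0] at h1
    have h2 : (Mt.map al).mulVec κ' i = al ((0 : n ⊕ Unit → AdjoinRoot P) i) := by
      rw [h1, hκ']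
      rfl
    rw [h2]
    exact map_zero al
  have hc' : κ' (Sum.inr ()) * c = 1 := by
    rw [hκ']
    change al (κ (Sum.inr ())) * c = 1
    rw [← hκl]
    exact hc
  have hblk : (Mt.map al).toBlocks₁₁ = Mt.toBlocks₁₁.map al := by
    ext i j
    rfl
  have hunit : IsUnit ((Y' - al r • (1 : Matrix (n ⊕ Unit) (n ⊕ Unit) L)).toBlocks₁₁).det := by
    rw [hYM, hblk]
    have h1 : (Mt.toBlocks₁₁.map al).det = al Mt.toBlocks₁₁.det := (RingHom.map_det al _).symm
    rw [h1, ← hκlast]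
    exact IsUnit.of_mul_eq_one _ hc
  have hQ := qM_comm X' Y' hXY' (al r) κ' hκ'0 c hc' hunit
  obtain ⟨QX, hQX⟩ : ∃ QX, QX = qM κ' c X' := ⟨_, rfl⟩
  obtain ⟨QY, hQY⟩ : ∃ QY, QY = qM κ' c Y' := ⟨_, rfl⟩
  rw [← hQX, ← hQY] at hQ
  have hψ : ev QX QY F ^ (m + 1) = 0 := by
    rw [← map_pow]
    exact ev_comm QX QY hQ _ hF
  obtain ⟨⟨g, ⟨_, N1, rfl⟩⟩, hg⟩ := IsLocalization.surj (Submonoid.powers κl) (ev QX QY F)
  have hg' : ev QX QY F * al (κl ^ N1) = al g := hg
  have hgm : al (g ^ (m + 1)) = 0 := by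
    rw [map_pow, ← hg', mul_pow, hψ, zero_mul]
  obtain ⟨⟨_, N2, rfl⟩, hN2⟩ := (IsLocalization.map_eq_zero_iff (Submonoid.powers κl) L (g ^ (m + 1))).1 hgm
  have hN2' : κl ^ N2 * g ^ (m + 1) = 0 := hN2
  obtain ⟨G, hG⟩ := AdjoinRoot.mk_surjective (κl ^ N2 * g)
  refine ⟨N1 + N2, G, ?_, ?_⟩
  · rw [← AdjoinRoot.mk_eq_zero, map_pow, hG]
    calc (κl ^ N2 * g) ^ (m + 1) = (κl ^ N2) ^ m * (κl ^ N2 * g ^ (m + 1)) := by ring
      _ = 0 := by rw [hN2', mul_zero]
  intro C _ _ ι hι xb yb s t hx hy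
  obtain ⟨δ, hδ⟩ : ∃ δ : C, δ = (yb - t • (1 : Matrix n n C)).det := ⟨_, rfl⟩
  rw [← hδ]
  have h0 : P.eval₂ ι t = 0 := by
    rw [← Polynomial.eval_map, hP, ← Matrix.charpoly_map, hy, C3_eval, Polynomial.eval_mul,
      Polynomial.eval_sub, Polynomial.eval_X, Polynomial.eval_C, sub_self, mul_zero]
  obtain ⟨jO, hjO⟩ : ∃ jO : AdjoinRoot P →+* C, jO = AdjoinRoot.lift ι t h0 := ⟨_, rfl⟩
  have hjmk : ∀ q : A[X], jO (AdjoinRoot.mk P q) = q.eval₂ ι t := by
    intro q
    rw [hjO]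
    exact AdjoinRoot.lift_mk h0 q
  have hjof : ∀ a : A, jO (of' a) = ι a := by
    intro a
    rw [hjO]
    exact AdjoinRoot.lift_of h0
  have hjr : jO r = t := by
    rw [hjO, hr]
    exact AdjoinRoot.lift_root h0
  have hjM : Mt.map jO = Matrix.fromBlocks (yb - t • (1 : Matrix n n C)) 0 0 (0 : Matrix Unit Unit C) := by
    have h1 : Mt.map jO = Matrix.fromBlocks yb 0 0 (fun _ _ => t : Matrix Unit Unit C) -
        t • (1 : Matrix (n ⊕ Unit) (n ⊕ Unit) C) := by
      rw [← hy]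
      ext i j
      rw [hMt]
      simp only [Matrix.sub_apply, Matrix.map_apply, Matrix.smul_apply, smul_eq_mul, map_sub, map_mul,
        hjof, hjr]
      congr 2
      by_cases hij : i = j
      · subst hij
        rw [Matrix.one_apply_eq, Matrix.one_apply_eq, map_one]
      · rw [Matrix.one_apply_ne hij, Matrix.one_apply_ne hij, map_zero]
    rw [h1]
    ext i j
    rcases i with i | i <;> rcases j with j | j
    · simp [Matrix.one_apply]
    · simp [Matrix.one_apply]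
    · simp [Matrix.one_apply]
    · simp
  have hjκ : ∀ i, jO (κ i) = (Matrix.fromBlocks (yb - t • (1 : Matrix n n C)) 0 0
      (0 : Matrix Unit Unit C)).adjugate i (Sum.inr ()) := by
    intro i
    rw [← hjM, hκ]
    exact congrFun (congrFun (RingHom.map_adjugate jO Mt) i) (Sum.inr ())
  have hjl : jO κl = δ := by
    rw [hκl, hjκ, C3_last, Matrix.toBlocks_fromBlocks₁₁, hδ]
  have hji : ∀ i : n, jO (κ (Sum.inl i)) = 0 := by
    intro i
    rw [hjκ]
    exact C3_inl _ i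
  let C' := Localization.Away δ
  let a' : C →+* C' := algebraMap C C'
  have hu : IsUnit ((a'.comp jO) κl) := by
    rw [RingHom.comp_apply, hjl]
    exact IsLocalization.Away.algebraMap_isUnit δ
  obtain ⟨j', hj'⟩ : ∃ j' : L →+* C', ∀ o : AdjoinRoot P, j' (al o) = a' (jO o) :=
    ⟨IsLocalization.Away.lift κl hu, fun o => IsLocalization.Away.lift_eq κl hu o⟩
  have hj'k : ∀ a : k, j' (algebraMap k L a) = algebraMap k C' a := by
    intro a
    rw [IsScalarTower.algebraMap_apply k (AdjoinRoot P) L, IsScalarTower.algebraMap_apply k C C', ← hι a]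
    have h1 : algebraMap k (AdjoinRoot P) a = of' (algebraMap k A a) := by
      rw [AdjoinRoot.algebraMap_eq']
      rfl
    rw [h1]
    refine (hj' _).trans ?_
    rw [hjof]
  have hQ1 : ∀ (Z : Matrix (n ⊕ Unit) (n ⊕ Unit) A) (zb : Matrix n n C) (w : C),
      Z.map ι = Matrix.fromBlocks zb 0 0 (fun _ _ => w) →
      (qM κ' c ((Z.map of').map al)).map j' = zb.map a' := by
    intro Z zb w hZ
    ext i j
    have e1 : ∀ p q, j' (((Z.map of').map al) p q) =
        a' ((Matrix.fromBlocks zb 0 0 (fun _ _ => w : Matrix Unit Unit C)) p q) := by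
      intro p q
      rw [← hZ]
      refine (hj' _).trans ?_
      change a' (jO (of' (Z p q))) = a' (ι (Z p q))
      rw [hjof]
    have e2 : j' (κ' (Sum.inl i)) = 0 := by
      rw [hκ']
      refine (hj' _).trans ?_
      rw [hji, map_zero]
    change j' (((Z.map of').map al) (Sum.inl i) (Sum.inl j) -
      κ' (Sum.inl i) * c * ((Z.map of').map al) (Sum.inr ()) (Sum.inl j)) = a' (zb i j)
    rw [map_sub, map_mul, map_mul, e2, zero_mul, zero_mul, sub_zero, e1]
    rfl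
  have hev : j' (ev QX QY F) = a' (ev xb yb F) := by
    rw [C3_ev_map j' hj'k, hQX, hQY, hX', hY', hQ1 x xb s hx, hQ1 y yb t hy]
    exact (C3_ev_map a' (fun a => (IsScalarTower.algebraMap_apply k C C' a).symm) xb yb F).symm
  have hfin : a' (G.eval₂ ι t) = a' (δ ^ (N1 + N2) * ev xb yb F) := by
    have h1 := congrArg j' hg'
    rw [map_mul, hev] at h1
    have h2 : j' (al (κl ^ N1)) = a' (δ ^ N1) := by
      rw [hj', map_pow, hjl]
    have h3 : j' (al g) = a' (jO g) := hj' g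
    rw [h2, h3] at h1
    rw [← hjmk, hG, map_mul, map_pow, hjl, map_mul, ← h1, ← map_mul, ← map_mul]
    congr 1
    ring
  obtain ⟨⟨_, M, rfl⟩, hM⟩ := (IsLocalization.eq_iff_exists (Submonoid.powers δ) C').1 hfin
  exact ⟨M, hM⟩

private theorem C3_cm_comm {k : Type u} [CommRing k] {n : Type} [Fintype n] [DecidableEq n] :
    (cm k n 0).map (Ideal.Quotient.mk (cI k n)) * (cm k n 1).map (Ideal.Quotient.mk (cI k n)) =
      (cm k n 1).map (Ideal.Quotient.mk (cI k n)) * (cm k n 0).map (Ideal.Quotient.mk (cI k n)) := by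
  rw [← Matrix.map_mul, ← Matrix.map_mul]
  ext i j
  rw [Matrix.map_apply, Matrix.map_apply, Ideal.Quotient.eq]
  exact Ideal.subset_span ⟨(i, j), rfl⟩

private theorem C3_evcm {k : Type u} [CommRing k] {n : Type} [Fintype n] [DecidableEq n] {R : Type u}
    [CommRing R] [Algebra k R] (X Y : Matrix n n R) :
    (∀ i j, ev X Y (cm k n 0 i j) = X i j) ∧ ∀ i j, ev X Y (cm k n 1 i j) = Y i j := by
  constructor
  · intro i j
    change ev X Y (MvPolynomial.X (0, i, j)) = X i j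
    rw [C3_ev_X, if_pos rfl]
  · intro i j
    change ev X Y (MvPolynomial.X (1, i, j)) = Y i j
    rw [C3_ev_X, if_neg one_ne_zero]

/-- evaluation on the quotient -/
private theorem C3_evQ {k : Type u} [CommRing k] {n : Type} [Fintype n] [DecidableEq n] {R : Type u}
    [CommRing R] [Algebra k R] (X Y : Matrix n n R) (h : X * Y = Y * X) :
    ∃ φ : (CP k n ⧸ cI k n) →ₐ[k] R, ∀ F : CP k n, φ (Ideal.Quotient.mk (cI k n) F) = ev X Y F :=
  ⟨Ideal.Quotient.liftₐ (cI k n) (ev X Y) (fun a ha => ev_comm X Y h a ha), fun _ => rfl⟩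

theorem addPoint {k : Type u} [Field k] {n : Type} [Fintype n] [DecidableEq n] (X0 Y0 : Matrix n n k) (s0 t0 : k)
    (ht : (Y0 - t0 • (1 : Matrix n n k)).det ≠ 0)
    (h : Red k (n ⊕ Unit) (Matrix.fromBlocks X0 0 0 (fun _ _ => s0)) (Matrix.fromBlocks Y0 0 0 (fun _ _ => t0))) :
    Red k n X0 Y0 := by
  classical
  rintro F ⟨m, hFm⟩
  have hF : F ^ (m + 1) ∈ cI k n := by
    rw [pow_succ]
    exact Ideal.mul_mem_right _ _ hFm
  by_cases hc : X0 * Y0 = Y0 * X0
  swap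
  · obtain ⟨i, j, hij⟩ : ∃ i j, (X0 * Y0) i j ≠ (Y0 * X0) i j := by
      by_contra hcon
      push Not at hcon
      exact hc (Matrix.ext hcon)
    refine ⟨(cm k n 0 * cm k n 1 - cm k n 1 * cm k n 0) i j, ?_, ?_⟩
    · have h1 : ev X0 Y0 ((cm k n 0 * cm k n 1 - cm k n 1 * cm k n 0) i j) =
          (X0 * Y0) i j - (Y0 * X0) i j := by
        rw [Matrix.sub_apply, map_sub, Matrix.mul_apply, Matrix.mul_apply, Matrix.mul_apply,
          Matrix.mul_apply, map_sum, map_sum]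
        simp only [map_mul, (C3_evcm (k := k) X0 Y0).1, (C3_evcm (k := k) X0 Y0).2]
      rw [h1]
      exact sub_ne_zero.2 hij
    · exact Ideal.mul_mem_right _ _ (Ideal.subset_span ⟨(i, j), rfl⟩)
  -- the point
  obtain ⟨XX, hXX⟩ : ∃ XX : Matrix (n ⊕ Unit) (n ⊕ Unit) k,
    XX = Matrix.fromBlocks X0 0 0 (fun _ _ => s0) := ⟨_, rfl⟩
  obtain ⟨YY, hYY⟩ : ∃ YY : Matrix (n ⊕ Unit) (n ⊕ Unit) k,
    YY = Matrix.fromBlocks Y0 0 0 (fun _ _ => t0) := ⟨_, rfl⟩
  rw [← hXX, ← hYY] at h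
  have hblock : ∀ {R : Type u} [CommRing R] (a b : Matrix n n R) (s t : R), a * b = b * a →
      Matrix.fromBlocks a 0 0 (fun _ _ => s : Matrix Unit Unit R) *
        Matrix.fromBlocks b 0 0 (fun _ _ => t : Matrix Unit Unit R) =
      Matrix.fromBlocks b 0 0 (fun _ _ => t : Matrix Unit Unit R) *
        Matrix.fromBlocks a 0 0 (fun _ _ => s : Matrix Unit Unit R) := by
    intro R _ a b s t hab
    rw [Matrix.fromBlocks_multiply, Matrix.fromBlocks_multiply, hab]
    congr 1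
    · simp
    · simp
    · ext i j
      simp [Matrix.mul_apply, mul_comm]
  have hXY : XX * YY = YY * XX := by
    rw [hXX, hYY]
    exact hblock X0 Y0 s0 t0 hc
  obtain ⟨evA, hevA⟩ := C3_evQ (k := k) XX YY hXY
  obtain ⟨Q, hQdef⟩ : ∃ Q : Ideal (CP k (n ⊕ Unit) ⧸ cI k (n ⊕ Unit)),
    Q = RingHom.ker (evA : (CP k (n ⊕ Unit) ⧸ cI k (n ⊕ Unit)) →+* k) := ⟨_, rfl⟩
  have hQp : Q.IsPrime := by
    rw [hQdef]
    exact RingHom.ker_isPrime _
  have hQmem : ∀ a, a ∈ Q ↔ evA a = 0 := by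
    intro a
    rw [hQdef, RingHom.mem_ker]
    rfl
  have hQ : ∀ a : CP k (n ⊕ Unit) ⧸ cI k (n ⊕ Unit), IsNilpotent a →
      ∃ h : CP k (n ⊕ Unit) ⧸ cI k (n ⊕ Unit), h ∉ Q ∧ h * a = 0 := by
    rintro a ⟨q, hq⟩
    obtain ⟨f, rfl⟩ := Ideal.Quotient.mk_surjective a
    rw [← map_pow, Ideal.Quotient.eq_zero_iff_mem] at hq
    obtain ⟨g, hg1, hg2⟩ := h f ⟨q, hq⟩
    refine ⟨Ideal.Quotient.mk _ g, ?_, ?_⟩
    · rw [hQmem, hevA]
      exact hg1
    · rw [← map_mul, Ideal.Quotient.eq_zero_iff_mem]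
      exact hg2
  obtain ⟨x, hx⟩ : ∃ x, x = (cm k (n ⊕ Unit) 0).map (Ideal.Quotient.mk (cI k (n ⊕ Unit))) := ⟨_, rfl⟩
  obtain ⟨y, hy⟩ : ∃ y, y = (cm k (n ⊕ Unit) 1).map (Ideal.Quotient.mk (cI k (n ⊕ Unit))) := ⟨_, rfl⟩
  have hxy : x * y = y * x := by
    rw [hx, hy]
    exact C3_cm_comm
  obtain ⟨N, G, hPG, hspec⟩ := C3_main (k := k) x y hxy F m hF
  obtain ⟨a, haQ, hdiv⟩ := lemL_loc Q hQ y.charpoly (Matrix.charpoly_monic y) G (m + 1) hPG
  -- the specialisation
  obtain ⟨xb, hxb⟩ : ∃ xb, xb = (cm k n 0).map (Ideal.Quotient.mk (cI k n)) := ⟨_, rfl⟩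
  obtain ⟨yb, hyb⟩ : ∃ yb, yb = (cm k n 1).map (Ideal.Quotient.mk (cI k n)) := ⟨_, rfl⟩
  have hxyb : xb * yb = yb * xb := by
    rw [hxb, hyb]
    exact C3_cm_comm
  obtain ⟨s, hs⟩ : ∃ s, s = algebraMap k (CP k n ⧸ cI k n) s0 := ⟨_, rfl⟩
  obtain ⟨t, ht'⟩ : ∃ t, t = algebraMap k (CP k n ⧸ cI k n) t0 := ⟨_, rfl⟩
  obtain ⟨ι, hι⟩ := C3_evQ (k := k) _ _ (hblock xb yb s t hxyb)
  have hιx : x.map (ι : (CP k (n ⊕ Unit) ⧸ cI k (n ⊕ Unit)) →+* (CP k n ⧸ cI k n)) =
      Matrix.fromBlocks xb 0 0 (fun _ _ => s) := by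
    ext i j
    rw [hx]
    change ι (Ideal.Quotient.mk _ (cm k (n ⊕ Unit) 0 i j)) = _
    rw [hι, (C3_evcm (k := k) _ _).1]
  have hιy : y.map (ι : (CP k (n ⊕ Unit) ⧸ cI k (n ⊕ Unit)) →+* (CP k n ⧸ cI k n)) =
      Matrix.fromBlocks yb 0 0 (fun _ _ => t) := by
    ext i j
    rw [hy]
    change ι (Ideal.Quotient.mk _ (cm k (n ⊕ Unit) 1 i j)) = _
    rw [hι, (C3_evcm (k := k) _ _).2]
  obtain ⟨M, hM⟩ := hspec (CP k n ⧸ cI k n) (ι : (CP k (n ⊕ Unit) ⧸ cI k (n ⊕ Unit)) →+* (CP k n ⧸ cI k n))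
    (fun a => ι.commutes a) xb yb s t hιx hιy
  obtain ⟨ιr, hιr⟩ : ∃ ιr : (CP k (n ⊕ Unit) ⧸ cI k (n ⊕ Unit)) →+* (CP k n ⧸ cI k n),
    ιr = (ι : (CP k (n ⊕ Unit) ⧸ cI k (n ⊕ Unit)) →+* (CP k n ⧸ cI k n)) := ⟨_, rfl⟩
  rw [← hιr] at hιx hιy hM
  obtain ⟨δ, hδ⟩ : ∃ δ, δ = (yb - t • (1 : Matrix n n (CP k n ⧸ cI k n))).det := ⟨_, rfl⟩
  rw [← hδ] at hM
  have hP0 : y.charpoly.eval₂ ιr t = 0 := by
    rw [← Polynomial.eval_map, ← Matrix.charpoly_map, hιy, C3_eval, Polynomial.eval_mul,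
      Polynomial.eval_sub, Polynomial.eval_X, Polynomial.eval_C, sub_self, mul_zero]
  obtain ⟨ε, hε⟩ : ∃ ε, ε = (Matrix.scalar n t - yb).det := ⟨_, rfl⟩
  have hP1 : (Polynomial.derivative y.charpoly).eval₂ ιr t = ε := by
    rw [← Polynomial.eval_map, ← Polynomial.derivative_map, ← Matrix.charpoly_map, hιy, C3_eval,
      Polynomial.derivative_mul, Polynomial.derivative_sub, Polynomial.derivative_X, Polynomial.derivative_C,
      Polynomial.eval_add, Polynomial.eval_mul, Polynomial.eval_mul, Polynomial.eval_sub, Polynomial.eval_X,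
      Polynomial.eval_C, sub_self, mul_zero, zero_add, sub_zero, Polynomial.eval_one, mul_one,
      Matrix.eval_charpoly, hε]
  have hkill : ιr a * (ε * G.eval₂ ιr t) = 0 := by
    obtain ⟨W, hW⟩ := hdiv
    have h1 := congrArg (Polynomial.eval₂ ιr t) hW
    rw [Polynomial.eval₂_mul, Polynomial.eval₂_mul, Polynomial.eval₂_mul, Polynomial.eval₂_C, hP0,
      hP1, zero_mul] at h1
    exact h1
  have hevF : ev xb yb F = Ideal.Quotient.mk (cI k n) F := by
    have h1 := C3_ev_map (k := k) (R := CP k n) (R' := CP k n ⧸ cI k n) (Ideal.Quotient.mk (cI k n))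
      (fun _ => rfl) (cm k n 0) (cm k n 1) F
    rw [hxb, hyb]
    rw [← h1]
    congr 1
    have h2 : ∀ p : Fin 2 × n × n, (if p.1 = 0 then cm k n 0 p.2.1 p.2.2 else cm k n 1 p.2.1 p.2.2) =
        (MvPolynomial.X p : CP k n) := by
      rintro ⟨a, i, j⟩
      fin_cases a
      · rfl
      · rfl
    change MvPolynomial.aeval (fun p : Fin 2 × n × n => if p.1 = 0 then cm k n 0 p.2.1 p.2.2
      else cm k n 1 p.2.1 p.2.2) F = F
    rw [funext h2]
    exact MvPolynomial.aeval_X_left_apply F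
  obtain ⟨H, hH⟩ := Ideal.Quotient.mk_surjective (I := cI k n) (ιr a * ε * δ ^ M * δ ^ N)
  obtain ⟨evC, hevC⟩ := C3_evQ (k := k) X0 Y0 hc
  refine ⟨H, ?_, ?_⟩
  · rw [← hevC, hH, map_mul, map_mul, map_mul, map_pow, map_pow]
    have hym : yb.map evC = Y0 := by
      ext i j
      rw [hyb]
      change evC (Ideal.Quotient.mk _ (cm k n 1 i j)) = _
      rw [hevC, (C3_evcm (k := k) _ _).2]
    have hxm : xb.map evC = X0 := by
      ext i j
      rw [hxb]
      change evC (Ideal.Quotient.mk _ (cm k n 0 i j)) = _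
      rw [hevC, (C3_evcm (k := k) _ _).1]
    have htm : evC t = t0 := by
      rw [ht']
      exact evC.commutes t0
    have hsm : evC s = s0 := by
      rw [hs]
      exact evC.commutes s0
    have hδ' : evC δ = (Y0 - t0 • (1 : Matrix n n k)).det := by
      rw [hδ]
      have h1 : evC (yb - t • (1 : Matrix n n (CP k n ⧸ cI k n))).det =
          ((yb - t • (1 : Matrix n n (CP k n ⧸ cI k n))).map evC).det :=
        RingHom.map_det (evC : (CP k n ⧸ cI k n) →+* k) _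
      rw [h1]
      congr 1
      rw [← hym, ← htm]
      ext i j
      simp only [Matrix.sub_apply, Matrix.map_apply, Matrix.smul_apply, smul_eq_mul, map_sub, map_mul]
      congr 2
      by_cases hij : i = j
      · subst hij
        rw [Matrix.one_apply_eq, Matrix.one_apply_eq, map_one]
      · rw [Matrix.one_apply_ne hij, Matrix.one_apply_ne hij, map_zero]
    have hεδ : ε = (-1) ^ Fintype.card n * δ := by
      rw [hε, hδ, ← Matrix.det_neg, neg_sub]
      congr 2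
      rw [Matrix.smul_one_eq_diagonal]
      rfl
    have hε' : evC ε ≠ 0 := by
      rw [hεδ, map_mul, map_pow, map_neg, map_one, hδ']
      exact mul_ne_zero (pow_ne_zero _ (neg_ne_zero.2 one_ne_zero)) ht
    have hδ0 : evC δ ≠ 0 := by
      rw [hδ']
      exact ht
    have ha : evC (ιr a) ≠ 0 := by
      obtain ⟨f, rfl⟩ := Ideal.Quotient.mk_surjective a
      rw [hQmem, hevA] at haQ
      have h1 : ιr (Ideal.Quotient.mk _ f) = ev (Matrix.fromBlocks xb 0 0 (fun _ _ => s))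
          (Matrix.fromBlocks yb 0 0 (fun _ _ => t)) f := by
        rw [hιr]
        exact hι f
      rw [h1]
      have h2 := C3_ev_map (k := k) (evC : (CP k n ⧸ cI k n) →+* k) (fun a => evC.commutes a)
        (Matrix.fromBlocks xb 0 0 (fun _ _ => s)) (Matrix.fromBlocks yb 0 0 (fun _ _ => t)) f
      have h3 : (Matrix.fromBlocks xb 0 0 (fun _ _ => s : Matrix Unit Unit (CP k n ⧸ cI k n))).map
          (evC : (CP k n ⧸ cI k n) →+* k) = XX := by
        rw [hXX, ← hxm, ← hsm]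
        ext i j
        rcases i with i | i <;> rcases j with j | j
        · rfl
        · exact map_zero evC
        · exact map_zero evC
        · rfl
      have h4 : (Matrix.fromBlocks yb 0 0 (fun _ _ => t : Matrix Unit Unit (CP k n ⧸ cI k n))).map
          (evC : (CP k n ⧸ cI k n) →+* k) = YY := by
        rw [hYY, ← hym, ← htm]
        ext i j
        rcases i with i | i <;> rcases j with j | j
        · rfl
        · exact map_zero evC
        · exact map_zero evC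
        · rfl
      rw [h3, h4] at h2
      intro h5
      exact haQ (h2.symm.trans h5)
    exact mul_ne_zero (mul_ne_zero (mul_ne_zero ha hε') (pow_ne_zero _ hδ0)) (pow_ne_zero _ hδ0)
  · rw [← Ideal.Quotient.eq_zero_iff_mem, map_mul, hH, ← hevF]
    calc ιr a * ε * δ ^ M * δ ^ N * ev xb yb F = ιr a * ε * (δ ^ M * (δ ^ N * ev xb yb F)) := by ring
      _ = δ ^ M * (ιr a * (ε * G.eval₂ ιr t)) := by rw [← hM]; ring
      _ = 0 := by rw [hkill, mul_zero]

end Pool.Agent.LibCQ2
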