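import Pool.Agent.LibCQ2.Defs

set_option autoImplicit false

/-! ROW C4a (MEDIUM, only Mathlib + Defs). Adding a point keeps the spanning property. k infinite field. Columns of GM (dv N b) Y0 (gam N X0 v w): index κ = ⟨i, j⟩: Y0^j X0^i v (i < N), Y0^j w (i = N).
 The columns span k^n and card n < card (KIx N b): a nonzero relation c : KIx → k, GM *ᵥ c = 0 (exists_mulVec_eq_zero / finrank). For a point (s, t, τ) let val κ := t^j s^i (i < N), t^j τ (i = N); the new columns (for fromBlocks X0 0 0 s, fromBlocks Y0 0 0 t,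
   Sum.elim v 1, Sum.elim w τ) are (old column, val κ) (powers of block diagonal matrices: fromBlocks_diagonal_pow or induction). Choose (s, t, τ) with ∑ c κ val κ ≠ 0 and det (Y0 - t) ≠ 0: the polynomial ∑ c κ val κ in (s, t, τ) is nonzero
   (different monomials), times det (Y0 - t) = ± charpoly(t) nonzero; MvPolynomial over an infinite field: exists a point where the product does not vanish (MvPolynomial.funext) -- or stepwise with Polynomial.
   Then the new columns span: GM' *ᵥ c = (0, ≠ 0) gives e_last; the others project onto k^n. -/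

namespace Pool.Agent.LibCQ2

universe u

private noncomputable def C4a_m (N b : ℕ) (κ : KIx N b) : Fin 3 →₀ ℕ :=
  if ((κ.1 : Fin (N + 1)) : ℕ) < N then
    Finsupp.single 0 ((κ.1 : Fin (N + 1)) : ℕ) + Finsupp.single 1 (κ.2 : ℕ)
  else Finsupp.single 2 1 + Finsupp.single 1 (κ.2 : ℕ)

private theorem C4a_m_inj (N b : ℕ) : Function.Injective (C4a_m N b) := by
  rintro ⟨i, j⟩ ⟨i', j'⟩ h
  have h0 := DFunLike.congr_fun h 0
  have h1 := DFunLike.congr_fun h 1
  have h2 := DFunLike.congr_fun h 2
  simp only [C4a_m] at h0 h1 h2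
  have hi : i = i' := by
    by_cases a : (i : ℕ) < N <;> by_cases a' : (i' : ℕ) < N <;>
      simp [a, a'] at h0 h2
    · exact Fin.ext h0
    · apply Fin.ext
      have := i.2
      have := i'.2
      omega
  subst hi
  have hj : (j : ℕ) = j' := by
    by_cases a : (i : ℕ) < N <;> simp [a] at h1
    · exact h1
    · exact h1
  have : j = j' := Fin.ext hj
  subst this
  rfl

private def C4a_val {k : Type u} [Field k] (N b : ℕ) (x : Fin 3 → k) (κ : KIx N b) : k :=
  if ((κ.1 : Fin (N + 1)) : ℕ) < N then x 1 ^ (κ.2 : ℕ) * x 0 ^ ((κ.1 : Fin (N + 1)) : ℕ)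
  else x 1 ^ (κ.2 : ℕ) * x 2

private theorem C4a_eval {k : Type u} [Field k] (N b : ℕ) (x : Fin 3 → k) (κ : KIx N b) :
    MvPolynomial.eval x (MvPolynomial.monomial (C4a_m N b κ) (1 : k)) = C4a_val N b x κ := by
  rw [MvPolynomial.eval_monomial]
  unfold C4a_m C4a_val
  split_ifs with h
  · rw [Finsupp.prod_add_index' (by intros; simp) (by intros; rw [pow_add])]
    simp [Finsupp.prod_single_index]
    ring
  · rw [Finsupp.prod_add_index' (by intros; simp) (by intros; rw [pow_add])]
    simp [Finsupp.prod_single_index]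
    ring

private theorem C4a_point {k : Type u} [Field k] [Infinite k] {n : Type} [Fintype n] [DecidableEq n]
    (N b : ℕ) (Y0 : Matrix n n k) (c : KIx N b → k) (hc : c ≠ 0) :
    ∃ x : Fin 3 → k, (∑ κ, c κ * C4a_val N b x κ) ≠ 0 ∧ (Y0 - x 1 • (1 : Matrix n n k)).det ≠ 0 := by
  classical
  let p : MvPolynomial (Fin 3) k := ∑ κ, MvPolynomial.monomial (C4a_m N b κ) (c κ)
  let q : MvPolynomial (Fin 3) k := Polynomial.aeval (MvPolynomial.X 1) Y0.charpoly
  have hp : p ≠ 0 := by
    obtain ⟨κ0, hκ0⟩ : ∃ κ0, c κ0 ≠ 0 := by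
      by_contra hne
      push Not at hne
      exact hc (funext hne)
    intro h0
    apply hκ0
    have h1 : MvPolynomial.coeff (C4a_m N b κ0) p = c κ0 := by
      simp only [p, MvPolynomial.coeff_sum, MvPolynomial.coeff_monomial]
      rw [Finset.sum_eq_single κ0]
      · simp
      · intro κ _ hne
        rw [if_neg]
        intro h
        exact hne (C4a_m_inj N b h)
      · intro h
        exact absurd (Finset.mem_univ _) h
    rw [← h1, h0, MvPolynomial.coeff_zero]
  have hqe : ∀ x : Fin 3 → k, MvPolynomial.eval x q = (x 1 • (1 : Matrix n n k) - Y0).det := by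
    intro x
    have h1 : MvPolynomial.eval x q = Y0.charpoly.eval (x 1) := by
      simp only [q]
      have h2 := Polynomial.aeval_algHom_apply (MvPolynomial.aeval x : MvPolynomial (Fin 3) k →ₐ[k] k)
        (MvPolynomial.X 1) Y0.charpoly
      rw [MvPolynomial.aeval_X] at h2
      rw [Polynomial.coe_aeval_eq_eval] at h2
      rw [h2]
      rfl
    rw [h1, Matrix.eval_charpoly]
    congr 1
    ext i j
    simp [Matrix.scalar_apply, Matrix.diagonal_apply, Matrix.one_apply]
  have hq : q ≠ 0 := by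
    obtain ⟨t, ht⟩ : ∃ t : k, Y0.charpoly.eval t ≠ 0 := by
      by_contra hne
      push Not at hne
      have : Y0.charpoly = 0 := Polynomial.funext (by intro r; rw [hne r]; simp)
      exact (Matrix.charpoly_monic Y0).ne_zero this
    intro h0
    apply ht
    have h1 := hqe (fun _ => t)
    rw [h0, map_zero] at h1
    rw [Matrix.eval_charpoly]
    rw [h1]
    congr 1
    ext i j
    simp [Matrix.scalar_apply, Matrix.diagonal_apply, Matrix.one_apply]
  have hpq : p * q ≠ 0 := mul_ne_zero hp hq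
  obtain ⟨x, hx⟩ : ∃ x : Fin 3 → k, MvPolynomial.eval x (p * q) ≠ 0 := by
    by_contra hne
    push Not at hne
    exact hpq (MvPolynomial.funext (by intro y; rw [hne y]; simp))
  rw [map_mul] at hx
  refine ⟨x, ?_, ?_⟩
  · have h1 := left_ne_zero_of_mul hx
    simp only [p, map_sum] at h1
    have h2 : ∀ κ : KIx N b, MvPolynomial.eval x (MvPolynomial.monomial (C4a_m N b κ) (c κ)) = c κ * C4a_val N b x κ := by
      intro κ
      rw [← C4a_eval, ← mul_one (c κ), ← MvPolynomial.C_mul_monomial, map_mul, MvPolynomial.eval_C, mul_one]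
    simpa only [h2] using h1
  · have h1 := right_ne_zero_of_mul hx
    rw [hqe] at h1
    intro h0
    apply h1
    have : x 1 • (1 : Matrix n n k) - Y0 = -(Y0 - x 1 • (1 : Matrix n n k)) := by abel
    rw [this, Matrix.det_neg, h0, mul_zero]

private def C4a_D {k : Type u} [Field k] (a : k) : Matrix Unit Unit k := fun _ _ => a

private theorem C4a_pow {k : Type u} [Field k] {n : Type} [Fintype n] [DecidableEq n]
    (A : Matrix n n k) (a : k) (m : ℕ) :
    (Matrix.fromBlocks A 0 0 (C4a_D a) : Matrix (n ⊕ Unit) (n ⊕ Unit) k) ^ m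
      = Matrix.fromBlocks (A ^ m) 0 0 (C4a_D (a ^ m)) := by
  induction m with
  | zero =>
    rw [pow_zero, pow_zero, ← Matrix.fromBlocks_one]
    congr 1
    ext i j
    simp [C4a_D]
  | succ m ih =>
    rw [pow_succ, ih, Matrix.fromBlocks_multiply, pow_succ]
    congr 1
    · simp
    · simp
    · simp
    · ext i j
      simp [Matrix.mul_apply, pow_succ, C4a_D]

private theorem C4a_mul {k : Type u} [Field k] {n : Type} [Fintype n] [DecidableEq n]
    (A : Matrix n n k) (a : k) (m : ℕ) (z : n → k) (y : k) :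
    ((Matrix.fromBlocks A 0 0 (C4a_D a) : Matrix (n ⊕ Unit) (n ⊕ Unit) k) ^ m).mulVec
      (Sum.elim z (fun _ => y)) = Sum.elim ((A ^ m).mulVec z) (fun _ => a ^ m * y) := by
  rw [C4a_pow, Matrix.fromBlocks_mulVec]
  funext i
  rcases i with i | i
  · simp
  · simp [Matrix.mulVec, dotProduct, C4a_D]

theorem add_span {k : Type u} [Field k] [Infinite k] {n : Type} [Fintype n] [DecidableEq n] {N b : ℕ}
    (X0 Y0 : Matrix n n k) (v w : n → k) (hcard : Fintype.card n < Fintype.card (KIx N b))
    (hs : Submodule.span k (Set.range fun κ : KIx N b => fun i => GM (dv N b) Y0 (gam N X0 v w) i κ) = ⊤) :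
    ∃ s t τ : k, (Y0 - t • (1 : Matrix n n k)).det ≠ 0 ∧
      Submodule.span k (Set.range fun κ : KIx N b => fun i =>
        GM (dv N b) (Matrix.fromBlocks Y0 0 0 (fun _ _ => t) : Matrix (n ⊕ Unit) (n ⊕ Unit) k)
          (gam N (Matrix.fromBlocks X0 0 0 (fun _ _ => s) : Matrix (n ⊕ Unit) (n ⊕ Unit) k)
            (Sum.elim v (fun _ => 1)) (Sum.elim w (fun _ => τ))) i κ) = ⊤ := by
  classical
  set G : Matrix n (KIx N b) k := GM (dv N b) Y0 (gam N X0 v w) with hG
  obtain ⟨c, hc0, hc⟩ : ∃ c : KIx N b → k, c ≠ 0 ∧ G.mulVec c = 0 := by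
    have h1 : Module.finrank k (n → k) < Module.finrank k (KIx N b → k) := by
      simpa using hcard
    have h2 := LinearMap.ker_ne_bot_of_finrank_lt (f := G.mulVecLin) h1
    obtain ⟨c, hc, hne⟩ := Submodule.exists_mem_ne_zero_of_ne_bot h2
    exact ⟨c, hne, by simpa using hc⟩
  obtain ⟨x, hx, hdet⟩ := C4a_point N b Y0 c hc0
  refine ⟨x 0, x 1, x 2, hdet, ?_⟩
  have hcol : (fun κ : KIx N b => (fun i => GM (dv N b) (Matrix.fromBlocks Y0 0 0 (C4a_D (x 1)) : Matrix (n ⊕ Unit) (n ⊕ Unit) k)
        (gam N (Matrix.fromBlocks X0 0 0 (C4a_D (x 0)) : Matrix (n ⊕ Unit) (n ⊕ Unit) k)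
          (Sum.elim v (fun _ => 1)) (Sum.elim w (fun _ => x 2))) i κ : n ⊕ Unit → k))
      = fun κ => Sum.elim (fun i => G i κ) (fun _ => C4a_val N b x κ) := by
    funext κ i
    simp only [GM, Matrix.of_apply, gam, hG]
    unfold C4a_val
    split_ifs with h
    · rw [C4a_mul, C4a_mul]
      rcases i with i | i <;> simp
    · rw [C4a_mul]
  change Submodule.span k (Set.range (fun κ : KIx N b => (fun i => GM (dv N b) (Matrix.fromBlocks Y0 0 0 (C4a_D (x 1)) : Matrix (n ⊕ Unit) (n ⊕ Unit) k)
        (gam N (Matrix.fromBlocks X0 0 0 (C4a_D (x 0)) : Matrix (n ⊕ Unit) (n ⊕ Unit) k)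
          (Sum.elim v (fun _ => 1)) (Sum.elim w (fun _ => x 2))) i κ : n ⊕ Unit → k))) = ⊤
  rw [hcol, eq_top_iff]
  intro z _
  have hlast : (Sum.elim (fun _ => 0) (fun _ => 1) : n ⊕ Unit → k) ∈
      Submodule.span k (Set.range fun κ : KIx N b => (Sum.elim (fun i => G i κ) (fun _ => C4a_val N b x κ) : n ⊕ Unit → k)) := by
    rw [Submodule.mem_span_range_iff_exists_fun]
    refine ⟨fun κ => (∑ κ, c κ * C4a_val N b x κ)⁻¹ * c κ, ?_⟩
    funext i
    rw [Finset.sum_apply]
    rcases i with i | i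
    · simp only [Pi.smul_apply, Sum.elim_inl, smul_eq_mul, mul_assoc]
      rw [← Finset.mul_sum]
      have := congrFun hc i
      simp only [Matrix.mulVec, dotProduct, Pi.zero_apply] at this
      have h2 : ∑ κ, c κ * G i κ = 0 := by
        rw [← this]
        exact Finset.sum_congr rfl fun κ _ => mul_comm _ _
      rw [h2, mul_zero]
    · simp only [Pi.smul_apply, Sum.elim_inr, smul_eq_mul, mul_assoc]
      rw [← Finset.mul_sum, inv_mul_cancel₀ hx]
  have hz : (fun i => z (Sum.inl i)) ∈ Submodule.span k (Set.range fun κ : KIx N b => fun i => G i κ) := by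
    rw [hs]; trivial
  rw [Submodule.mem_span_range_iff_exists_fun] at hz
  obtain ⟨d, hd⟩ := hz
  have hz2 : z = (∑ κ, d κ • (Sum.elim (fun i => G i κ) (fun _ => C4a_val N b x κ) : n ⊕ Unit → k))
      + (z (Sum.inr ()) - ∑ κ, d κ * C4a_val N b x κ) • (Sum.elim (fun _ => 0) (fun _ => 1) : n ⊕ Unit → k) := by
    funext i
    rw [Pi.add_apply, Finset.sum_apply]
    rcases i with i | i
    · have := congrFun hd i
      rw [Finset.sum_apply] at this
      simp only [Pi.smul_apply, Sum.elim_inl, smul_eq_mul, mul_zero, add_zero] at this ⊢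
      rw [this]
    · simp only [Pi.smul_apply, Sum.elim_inr, smul_eq_mul, mul_one]
      ring
  rw [hz2]
  refine Submodule.add_mem _ (Submodule.sum_mem _ fun κ _ => Submodule.smul_mem _ _ (Submodule.subset_span ⟨κ, rfl⟩))
    (Submodule.smul_mem _ _ hlast)

end Pool.Agent.LibCQ2
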