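import Pool.Agent.LibCQ2.A16
import Pool.Agent.LibCQ2.C3
import Pool.Agent.LibCQ2.C4a

set_option autoImplicit false

/-! ROW C4b (SHORT/MEDIUM, Defs + A16, C3, C4a). Descent.
 red_of_span: induction on card (KIx N b) - card n (spanning gives card n ≤ card KIx). Equal: the spanning family is a basis: HB (two-sided inverse: the linear map KIx → k to n → k is surjective between spaces of equal dimension;
   Matrix.mul_eq_one_comm_of_card_eq or an equivalence), red_special. Less: add_span, addPoint, induction for n ⊕ Unit.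
 red_of_gen: from the generating hypothesis choose m ≥ 1 such that the X0^i Y0^j v (i, j < m), Y0^j w (j < m) span (finitely many generators suffice: the space is finite dimensional; use the Krylov bound m := max 1 (card n): X0^i for i ≥ card n is a
   combination of lower powers (Cayley-Hamilton), or: directed union of submodules S_m (m ↦ span of those with i, j < m) is ⊤, so S_m = ⊤ for some m by finite dimension). X0 Y0 = Y0 X0 is needed to write Y0^j X0^i v. With N := m, b := m: i, j < m implies j < b (N - i)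
   (m i + j ≤ m (m-1) + m - 1 < m m), and j < b. So red_of_span applies. -/

namespace Pool.Agent.LibCQ2

universe u

private theorem C4b_HB {k : Type u} [Field k] {N b : ℕ} {n : Type} [Fintype n] [DecidableEq n]
    (X0 Y0 : Matrix n n k) (v w : n → k) (hc : Fintype.card n = Fintype.card (KIx N b))
    (hs : Submodule.span k (Set.range fun κ : KIx N b => fun i => GM (dv N b) Y0 (gam N X0 v w) i κ) = ⊤) :
    HB (dv N b) Y0 (gam N X0 v w) := by
  set M : Matrix n (KIx N b) k := GM (dv N b) Y0 (gam N X0 v w) with hM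
  have hr : LinearMap.range M.mulVecLin = ⊤ := by
    rw [Matrix.range_mulVecLin]
    exact hs
  have hsurj : Function.Surjective M.mulVecLin := LinearMap.range_eq_top.1 hr
  choose f hf using fun i : n => hsurj (Pi.single i 1)
  have h1 : M * (Matrix.of fun κ i => f i κ) = 1 := by
    ext i j
    have h2 := congrFun (hf j) i
    rw [Matrix.mulVecLin_apply] at h2
    rw [Matrix.mul_apply, Matrix.one_apply]
    rw [Matrix.mulVec, dotProduct] at h2
    rw [Pi.single_apply] at h2
    exact h2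
  exact ⟨Matrix.of fun κ i => f i κ, h1, (Matrix.mul_eq_one_comm_of_card_eq _ _ _ hc).1 h1⟩

theorem red_of_span {k : Type u} [Field k] [Infinite k] {N b : ℕ} (hN : 1 ≤ N) (hb : 1 ≤ b) :
    ∀ (s : ℕ) {n : Type} [Fintype n] [DecidableEq n] (X0 Y0 : Matrix n n k) (v w : n → k),
      Fintype.card n + s = Fintype.card (KIx N b) →
      Submodule.span k (Set.range fun κ : KIx N b => fun i => GM (dv N b) Y0 (gam N X0 v w) i κ) = ⊤ →
      Red k n X0 Y0 := by
  intro s
  induction s with
  | zero =>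
    intro n _ _ X0 Y0 v w hc hs
    exact red_special hN hb X0 Y0 v w (C4b_HB X0 Y0 v w (by simpa using hc) hs)
  | succ s ih =>
    intro n _ _ X0 Y0 v w hc hs
    obtain ⟨s0, t0, τ, hdet, hs'⟩ := add_span (N := N) (b := b) X0 Y0 v w (by omega) hs
    refine addPoint X0 Y0 s0 t0 hdet ?_
    refine ih _ _ _ _ ?_ hs'
    rw [Fintype.card_sum, Fintype.card_unit]
    omega

private def C4b_S {k : Type u} [Field k] {n : Type} [Fintype n] [DecidableEq n]
    (X0 Y0 : Matrix n n k) (v w : n → k) (m : ℕ) : Submodule k (n → k) :=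
  Submodule.span k ({x | ∃ i j : ℕ, i < m ∧ j < m ∧ x = (X0 ^ i * Y0 ^ j).mulVec v} ∪
    {x | ∃ j : ℕ, j < m ∧ x = (Y0 ^ j).mulVec w})

private theorem C4b_mono {k : Type u} [Field k] {n : Type} [Fintype n] [DecidableEq n]
    (X0 Y0 : Matrix n n k) (v w : n → k) : Monotone (C4b_S X0 Y0 v w) := by
  intro a b hab
  refine Submodule.span_mono ?_
  rintro x (⟨i, j, hi, hj, rfl⟩ | ⟨j, hj, rfl⟩)
  · exact Or.inl ⟨i, j, hi.trans_le hab, hj.trans_le hab, rfl⟩
  · exact Or.inr ⟨j, hj.trans_le hab, rfl⟩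

private theorem C4b_exists {k : Type u} [Field k] {n : Type} [Fintype n] [DecidableEq n]
    (X0 Y0 : Matrix n n k) (v w : n → k)
    (h : Submodule.span k ({x | ∃ i j : ℕ, x = (X0 ^ i * Y0 ^ j).mulVec v} ∪ {x | ∃ j : ℕ, x = (Y0 ^ j).mulVec w}) = ⊤) :
    ∃ m : ℕ, 1 ≤ m ∧ C4b_S X0 Y0 v w m = ⊤ := by
  obtain ⟨m, hm⟩ := monotone_stabilizes_iff_noetherian.mpr (inferInstance : IsNoetherian k (n → k))
    ⟨C4b_S X0 Y0 v w, C4b_mono X0 Y0 v w⟩
  have hm' : ∀ m', m ≤ m' → C4b_S X0 Y0 v w m = C4b_S X0 Y0 v w m' := fun m' h => hm m' h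
  have hle : ∀ m', C4b_S X0 Y0 v w m' ≤ C4b_S X0 Y0 v w m := by
    intro m'
    rcases le_total m m' with h1 | h1
    · exact (hm' m' h1).ge
    · exact C4b_mono X0 Y0 v w h1
  have htop : C4b_S X0 Y0 v w m = ⊤ := by
    rw [eq_top_iff, ← h]
    refine Submodule.span_le.2 ?_
    rintro x (⟨i, j, rfl⟩ | ⟨j, rfl⟩)
    · refine hle (max i j + 1) (Submodule.subset_span (Or.inl ⟨i, j, ?_, ?_, rfl⟩))
      · exact Nat.lt_succ_of_le (le_max_left _ _)
      · exact Nat.lt_succ_of_le (le_max_right _ _)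
    · exact hle (j + 1) (Submodule.subset_span (Or.inr ⟨j, Nat.lt_succ_self _, rfl⟩))
  refine ⟨max m 1, le_max_right _ _, ?_⟩
  rw [← hm' (max m 1) (le_max_left _ _)]
  exact htop

private theorem C4b_top {k : Type u} [Field k] {n : Type} [Fintype n] [DecidableEq n]
    (X0 Y0 : Matrix n n k) (hXY : X0 * Y0 = Y0 * X0) (v w : n → k) (m : ℕ)
    (hm : C4b_S X0 Y0 v w m = ⊤) :
    Submodule.span k (Set.range fun κ : KIx m m => fun i => GM (dv m m) Y0 (gam m X0 v w) i κ) = ⊤ := by
  rw [eq_top_iff, ← hm]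
  refine Submodule.span_le.2 ?_
  have hcol : ∀ κ : KIx m m, (Y0 ^ (κ.2 : ℕ)).mulVec (gam m X0 v w κ.1) ∈
      Submodule.span k (Set.range fun κ : KIx m m => fun i => GM (dv m m) Y0 (gam m X0 v w) i κ) :=
    fun κ => Submodule.subset_span ⟨κ, rfl⟩
  rintro x (⟨i, j, hi, hj, rfl⟩ | ⟨j, hj, rfl⟩)
  · have hlt : j < dv m m ⟨i, by omega⟩ := by
      unfold dv
      rw [if_pos (by exact hi)]
      have h1 : 1 ≤ m - i := by omega
      calc j < m := hj
        _ = m * 1 := (mul_one m).symm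
        _ ≤ m * (m - i) := Nat.mul_le_mul_left m h1
    have h2 := hcol ⟨⟨i, by omega⟩, ⟨j, hlt⟩⟩
    have h3 : gam m X0 v w ⟨i, by omega⟩ = (X0 ^ i).mulVec v := by
      unfold gam
      rw [if_pos (by exact hi)]
    rw [h3] at h2
    have h4 : (X0 ^ i * Y0 ^ j).mulVec v = (Y0 ^ j).mulVec ((X0 ^ i).mulVec v) := by
      rw [Matrix.mulVec_mulVec]
      have hc : Commute X0 Y0 := hXY
      rw [(hc.pow_pow i j).eq]
    show (X0 ^ i * Y0 ^ j).mulVec v ∈ _
    rw [h4]
    exact h2
  · have hlt : j < dv m m ⟨m, by omega⟩ := by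
      unfold dv
      rw [if_neg (by exact lt_irrefl m)]
      exact hj
    have h2 := hcol ⟨⟨m, by omega⟩, ⟨j, hlt⟩⟩
    have h3 : gam m X0 v w ⟨m, by omega⟩ = w := by
      unfold gam
      rw [if_neg (by exact lt_irrefl m)]
    rw [h3] at h2
    exact h2

theorem red_of_gen {k : Type u} [Field k] [Infinite k] {n : Type} [Fintype n] [DecidableEq n]
    (X0 Y0 : Matrix n n k) (hXY : X0 * Y0 = Y0 * X0) (v w : n → k)
    (h : Submodule.span k ({x | ∃ i j : ℕ, x = (X0 ^ i * Y0 ^ j).mulVec v} ∪ {x | ∃ j : ℕ, x = (Y0 ^ j).mulVec w}) = ⊤) :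
    Red k n X0 Y0 := by
  obtain ⟨m, hm1, hm⟩ := C4b_exists X0 Y0 v w h
  have hs := C4b_top X0 Y0 hXY v w m hm
  have hcard : Fintype.card n ≤ Fintype.card (KIx m m) := by
    have h1 := finrank_range_le_card (R := k)
      (fun κ : KIx m m => fun i => GM (dv m m) Y0 (gam m X0 v w) i κ)
    rw [Set.finrank, hs, finrank_top, Module.finrank_fintype_fun_eq_card] at h1
    exact h1
  exact red_of_span hm1 hm1 (Fintype.card (KIx m m) - Fintype.card n) X0 Y0 v w (by omega) hs

end Pool.Agent.LibCQ2
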