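import Pool.Agent.LibCQ2.Defs
import Pool.Agent.LibCQ2.A11

set_option autoImplicit false

/-! ROW C5 (SHORT/MEDIUM, Defs + A11 (ev_map, ev_comm)). Linear changes and transposition.
 red_lin: α δ - β γ = 1. Let θ : CP k n →ₐ[k] CP k n be ev (δ • x - β • y) (α • y - γ • x)  (x = cm 0, y = cm 1) and θ' := ev (α • x + β • y) (γ • x + δ • y). θ' ∘ θ = id = θ ∘ θ'. Both map cI into cI (the commutator is multiplied by
   αδ - βγ = 1: ev into the quotient CP ⧸ cI kills cI by ev_comm). ev (X0, Y0) ∘ θ' = ev (α X0 + β Y0, γ X0 + δ Y0). Given F with F^m ∈ cI: θ F has (θ F)^m ∈ cI, so h (θ F) ∈ cI with ev (α X0 + β Y0, ..) h ≠ 0; apply θ':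
   (θ' h) F ∈ cI, ev (X0, Y0) (θ' h) ≠ 0.
 red_transpose: the same with θ : cm s ↦ (cm s)ᵀ (rename (s, i, j) ↦ (s, j, i)), θ² = id, (X Y - Y X)ᵀ = Yᵀ Xᵀ - Xᵀ Yᵀ. -/

namespace Pool.Agent.LibCQ2

universe u

private theorem C5_transfer {k : Type u} [Field k] {n : Type} [Fintype n] [DecidableEq n] (X0 Y0 X1 Y1 : Matrix n n k)
    (θ θ' : CP k n →ₐ[k] CP k n) (hinv : ∀ F, θ' (θ F) = F) (hθ : ∀ F ∈ cI k n, θ F ∈ cI k n)
    (hθ' : ∀ F ∈ cI k n, θ' F ∈ cI k n) (hev : ∀ F : CP k n, ev X0 Y0 (θ' F) = ev X1 Y1 F)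
    (h : Red k n X1 Y1) : Red k n X0 Y0 := by
  rintro F ⟨m, hF⟩
  obtain ⟨a, ha, hb⟩ := h (θ F) ⟨m, by rw [← map_pow]; exact hθ _ hF⟩
  refine ⟨θ' a, by rw [hev]; exact ha, ?_⟩
  have h1 := hθ' _ hb
  rwa [map_mul, hinv] at h1

private theorem C5_quot_comm (k : Type u) [Field k] (n : Type) [Fintype n] [DecidableEq n] :
    (cm k n 0).map (Ideal.Quotient.mkₐ k (cI k n)) * (cm k n 1).map (Ideal.Quotient.mkₐ k (cI k n))
      = (cm k n 1).map (Ideal.Quotient.mkₐ k (cI k n)) * (cm k n 0).map (Ideal.Quotient.mkₐ k (cI k n)) := by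
  have h1 : (cm k n 0 * cm k n 1 - cm k n 1 * cm k n 0).map (Ideal.Quotient.mkₐ k (cI k n)) = 0 := by
    ext i j
    rw [Matrix.map_apply, Matrix.zero_apply, Ideal.Quotient.mkₐ_eq_mk, Ideal.Quotient.eq_zero_iff_mem]
    exact Ideal.subset_span ⟨(i, j), rfl⟩
  rw [Matrix.map_sub _ (fun a b => map_sub _ a b), sub_eq_zero] at h1
  rwa [Matrix.map_mul, Matrix.map_mul] at h1

private theorem C5_cI {k : Type u} [Field k] {n : Type} [Fintype n] [DecidableEq n] (X Y : Matrix n n (CP k n))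
    (h : X.map (Ideal.Quotient.mkₐ k (cI k n)) * Y.map (Ideal.Quotient.mkₐ k (cI k n))
      = Y.map (Ideal.Quotient.mkₐ k (cI k n)) * X.map (Ideal.Quotient.mkₐ k (cI k n)))
    (F : CP k n) (hF : F ∈ cI k n) : (ev X Y F : CP k n) ∈ cI k n := by
  have h1 := ev_comm _ _ h F hF
  rw [← ev_map (Ideal.Quotient.mkₐ k (cI k n)) X Y F, Ideal.Quotient.mkₐ_eq_mk,
    Ideal.Quotient.eq_zero_iff_mem] at h1
  exact h1

private theorem C5_ev_cm0 {k : Type u} [Field k] {n : Type} {R : Type u} [CommRing R] [Algebra k R]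
    [Fintype n] [DecidableEq n] (X Y : Matrix n n R) : (cm k n 0).map (ev X Y : CP k n →ₐ[k] R) = X := by
  ext i j
  simp [cm, ev]

private theorem C5_ev_cm1 {k : Type u} [Field k] {n : Type} {R : Type u} [CommRing R] [Algebra k R]
    [Fintype n] [DecidableEq n] (X Y : Matrix n n R) : (cm k n 1).map (ev X Y : CP k n →ₐ[k] R) = Y := by
  ext i j
  simp [cm, ev]

private theorem C5_ev_id {k : Type u} [Field k] {n : Type} [Fintype n] [DecidableEq n] (F : CP k n) :
    ev (cm k n 0) (cm k n 1) F = F := by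
  have h1 : (ev (cm k n 0) (cm k n 1) : CP k n →ₐ[k] CP k n) = AlgHom.id k (CP k n) := by
    apply MvPolynomial.algHom_ext
    rintro ⟨s, i, j⟩
    fin_cases s
    · simp [cm, ev]
    · simp [cm, ev]
  rw [h1, AlgHom.id_apply]

private theorem C5_map_lin {k : Type u} [Field k] {n : Type} {R R' : Type u} [CommRing R] [Algebra k R] [CommRing R']
    [Algebra k R'] (φ : R →ₐ[k] R') (X Y : Matrix n n R) (a b : k) :
    (a • X + b • Y).map φ = a • X.map φ + b • Y.map φ := by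
  ext i j
  simp [Matrix.map_apply]

private theorem C5_comm_lin {k : Type u} [Field k] {n : Type} [Fintype n] [DecidableEq n] {R : Type u} [CommRing R]
    [Algebra k R] (X Y : Matrix n n R) (a b c d : k) (h : X * Y = Y * X) :
    (a • X + b • Y) * (c • X + d • Y) = (c • X + d • Y) * (a • X + b • Y) := by
  simp only [add_mul, mul_add, smul_mul_assoc, mul_smul_comm, h]
  module

theorem red_lin {k : Type u} [Field k] {n : Type} [Fintype n] [DecidableEq n] (X0 Y0 : Matrix n n k) (α β γ δ : k)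
    (hdet : α * δ - β * γ = 1) (h : Red k n (α • X0 + β • Y0) (γ • X0 + δ • Y0)) : Red k n X0 Y0 := by
  refine C5_transfer X0 Y0 _ _
    (ev (δ • cm k n 0 + (-β) • cm k n 1) ((-γ) • cm k n 0 + α • cm k n 1))
    (ev (α • cm k n 0 + β • cm k n 1) (γ • cm k n 0 + δ • cm k n 1)) ?_ ?_ ?_ ?_ h
  · intro F
    rw [ev_map, C5_map_lin, C5_map_lin, C5_ev_cm0, C5_ev_cm1]
    have e1 : δ • (α • cm k n 0 + β • cm k n 1) + (-β) • (γ • cm k n 0 + δ • cm k n 1) = cm k n 0 := by
      have : δ • (α • cm k n 0 + β • cm k n 1) + (-β) • (γ • cm k n 0 + δ • cm k n 1)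
        = (α * δ - β * γ) • cm k n 0 := by module
      rw [this, hdet, one_smul]
    have e2 : (-γ) • (α • cm k n 0 + β • cm k n 1) + α • (γ • cm k n 0 + δ • cm k n 1) = cm k n 1 := by
      have : (-γ) • (α • cm k n 0 + β • cm k n 1) + α • (γ • cm k n 0 + δ • cm k n 1)
        = (α * δ - β * γ) • cm k n 1 := by module
      rw [this, hdet, one_smul]
    rw [e1, e2]
    exact C5_ev_id F
  · intro F hF
    refine C5_cI _ _ ?_ F hF
    rw [C5_map_lin, C5_map_lin]
    exact C5_comm_lin _ _ _ _ _ _ (C5_quot_comm k n)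
  · intro F hF
    refine C5_cI _ _ ?_ F hF
    rw [C5_map_lin, C5_map_lin]
    exact C5_comm_lin _ _ _ _ _ _ (C5_quot_comm k n)
  · intro F
    rw [ev_map, C5_map_lin, C5_map_lin, C5_ev_cm0, C5_ev_cm1]

theorem red_transpose {k : Type u} [Field k] {n : Type} [Fintype n] [DecidableEq n] (X0 Y0 : Matrix n n k)
    (h : Red k n X0.transpose Y0.transpose) : Red k n X0 Y0 := by
  have key : ∀ F ∈ cI k n, (ev (cm k n 0).transpose (cm k n 1).transpose F : CP k n) ∈ cI k n := by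
    intro F hF
    refine C5_cI _ _ ?_ F hF
    rw [Matrix.transpose_map, Matrix.transpose_map, ← Matrix.transpose_mul, ← Matrix.transpose_mul,
      C5_quot_comm]
  refine C5_transfer X0 Y0 _ _ (ev (cm k n 0).transpose (cm k n 1).transpose)
    (ev (cm k n 0).transpose (cm k n 1).transpose) ?_ key key ?_ h
  · intro F
    rw [ev_map, Matrix.transpose_map, Matrix.transpose_map, C5_ev_cm0, C5_ev_cm1,
      Matrix.transpose_transpose, Matrix.transpose_transpose]
    exact C5_ev_id F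
  · intro F
    rw [ev_map, Matrix.transpose_map, Matrix.transpose_map, C5_ev_cm0, C5_ev_cm1]

end Pool.Agent.LibCQ2
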