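import Pool.Agent.LibCQ2.Defs
import Pool.Agent.LibCQ2.A11

set_option autoImplicit false

/-! ROW C6 (MEDIUM, Defs + A11 (ev_map, ev_comm)). From Red to the coordinate ring with r vectors and to local rings.
 red_vec: A := MvPolynomial (Vx r d) k ⧸ Ic k r d is MvPolynomial (Fin r × Fin d) (CP k (Fin d) ⧸ cI) (sumRingEquiv / sumAlgEquiv, quotient; or work with polynomials: x = mk P, P ∈ MvPolynomial (Vx) k ≃ MvPolynomial (Fin r × Fin d) (CP k (Fin d))
   (sumAlgEquiv after swapping), P^m ∈ Ic = (cI).map C ⟺ all coefficients..). x nilpotent ⟹ all coefficients are nilpotent modulo cI (MvPolynomial.isNilpotent_iff: nilpotent iff all coefficients nilpotent; over CP ⧸ cI). Each of the finitely many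
   coefficients c is killed by h_c (Red), h := ∏ h_c: h x = 0. h is viewed in MvPolynomial (Vx r d) k by rename Sum.inl.
 local_reduced: A comm ring, P prime of Localization.Away s; every nilpotent x ∈ A is killed by t ∈ A whose image is not in P. Then Localization.AtPrime P is reduced: an element is a/unit with a ∈ A (see local_domain in LibRG7/R4.lean, which can be
   copied: hcl); if it is nilpotent then a^m is killed by some w ∈ A not in P (image), so (w a)^m = 0, w a is killed by t, so a is 0 in the local ring. -/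

namespace Pool.Agent.LibCQ2

universe u

private noncomputable def C6_E (k : Type u) [Field k] (r d : ℕ) :
    MvPolynomial (Vx r d) k ≃ₐ[k] MvPolynomial (Fin r × Fin d) (CP k (Fin d)) :=
  (MvPolynomial.renameEquiv k (Equiv.sumComm (Fin 2 × Fin d × Fin d) (Fin r × Fin d))).trans
    (MvPolynomial.sumAlgEquiv k (Fin r × Fin d) (Fin 2 × Fin d × Fin d))

private theorem C6_inl {k : Type u} [Field k] {r d : ℕ} (t : CP k (Fin d)) :
    C6_E k r d (MvPolynomial.rename Sum.inl t) = MvPolynomial.C t := by
  have h : ((C6_E k r d : MvPolynomial (Vx r d) k →ₐ[k] MvPolynomial (Fin r × Fin d) (CP k (Fin d))).comp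
      (MvPolynomial.rename Sum.inl)) =
      (IsScalarTower.toAlgHom k (CP k (Fin d)) (MvPolynomial (Fin r × Fin d) (CP k (Fin d)))) := by
    apply MvPolynomial.algHom_ext
    intro p
    simp [C6_E, MvPolynomial.renameEquiv_apply, MvPolynomial.rename_X, MvPolynomial.algebraMap_eq]
  exact congrArg (fun f : CP k (Fin d) →ₐ[k] MvPolynomial (Fin r × Fin d) (CP k (Fin d)) => f t) h

private theorem C6_mem {k : Type u} [Field k] {r d : ℕ} (P : MvPolynomial (Vx r d) k) :
    P ∈ Ic k r d ↔ C6_E k r d P ∈ (cI k (Fin d)).map (MvPolynomial.C :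
      CP k (Fin d) →+* MvPolynomial (Fin r × Fin d) (CP k (Fin d))) := by
  have hgen : ∀ p : Fin d × Fin d,
      C6_E k r d ((mt k r d 0 * mt k r d 1 - mt k r d 1 * mt k r d 0) p.1 p.2) =
      MvPolynomial.C ((cm k (Fin d) 0 * cm k (Fin d) 1 - cm k (Fin d) 1 * cm k (Fin d) 0) p.1 p.2) := by
    intro p
    rw [← C6_inl]
    congr 1
    have h0 : ∀ (s : Fin 2) (a b : Fin d), mt k r d s a b =
        MvPolynomial.rename Sum.inl (cm k (Fin d) s a b) := by
      intro s a b
      simp [mt, cm, MvPolynomial.rename_X]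
    simp only [Matrix.sub_apply, Matrix.mul_apply, map_sub, map_sum, map_mul, h0]
  have hmap : (Ic k r d).map (C6_E k r d) = (cI k (Fin d)).map (MvPolynomial.C :
      CP k (Fin d) →+* MvPolynomial (Fin r × Fin d) (CP k (Fin d))) := by
    unfold Ic cI
    rw [Ideal.map_span, Ideal.map_span, ← Set.range_comp, ← Set.range_comp]
    congr 2
    funext p
    exact hgen p
  rw [← hmap, Ideal.mem_map_of_equiv]
  constructor
  · intro h
    exact ⟨P, h, rfl⟩
  · rintro ⟨x, hx, hxP⟩
    rwa [← (C6_E k r d).injective hxP]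

theorem red_vec {k : Type u} [Field k] {r d : ℕ} (X0 Y0 : Matrix (Fin d) (Fin d) k) (h : Red k (Fin d) X0 Y0)
    (P : MvPolynomial (Vx r d) k) (m : ℕ) (hP : P ^ m ∈ Ic k r d) :
    ∃ t : CP k (Fin d), ev X0 Y0 t ≠ 0 ∧ MvPolynomial.rename Sum.inl t * P ∈ Ic k r d := by
  classical
  rw [C6_mem, map_pow] at hP
  obtain ⟨F, hF⟩ : ∃ F, F = C6_E k r d P := ⟨_, rfl⟩
  rw [← hF] at hP
  have hker : ∀ G : MvPolynomial (Fin r × Fin d) (CP k (Fin d)),
      G ∈ (cI k (Fin d)).map (MvPolynomial.C : CP k (Fin d) →+* _) ↔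
        MvPolynomial.map (Ideal.Quotient.mk (cI k (Fin d))) G = 0 := by
    intro G
    rw [MvPolynomial.mem_map_C_iff, MvPolynomial.ext_iff]
    refine forall_congr' fun m => ?_
    rw [MvPolynomial.coeff_map, MvPolynomial.coeff_zero, Ideal.Quotient.eq_zero_iff_mem]
  have hnil : IsNilpotent (MvPolynomial.map (Ideal.Quotient.mk (cI k (Fin d))) F) := by
    refine ⟨m, ?_⟩
    rw [← map_pow]
    exact (hker _).1 hP
  rw [MvPolynomial.isNilpotent_iff] at hnil
  have hc : ∀ i, ∃ t : CP k (Fin d), ev X0 Y0 t ≠ 0 ∧ t * F.coeff i ∈ cI k (Fin d) := by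
    intro i
    refine h (F.coeff i) ?_
    obtain ⟨n, hn⟩ := hnil i
    refine ⟨n, ?_⟩
    rw [MvPolynomial.coeff_map, ← map_pow, Ideal.Quotient.eq_zero_iff_mem] at hn
    exact hn
  choose t ht1 ht2 using hc
  refine ⟨∏ i ∈ F.support, t i, ?_, ?_⟩
  · rw [map_prod]
    exact Finset.prod_ne_zero_iff.2 fun i _ => ht1 i
  · rw [C6_mem, map_mul, C6_inl, ← hF, MvPolynomial.mem_map_C_iff]
    intro i
    rw [MvPolynomial.coeff_C_mul]
    by_cases hi : i ∈ F.support
    · rw [← Finset.prod_erase_mul _ _ hi, mul_assoc]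
      exact Ideal.mul_mem_left _ _ (ht2 i)
    · rw [MvPolynomial.notMem_support_iff.1 hi, mul_zero]
      exact Ideal.zero_mem _

theorem local_reduced {A : Type*} [CommRing A] (s : A) (P : Ideal (Localization.Away s)) [P.IsPrime]
    (h : ∀ x : A, IsNilpotent x → ∃ t : A, algebraMap A (Localization.Away s) t ∉ P ∧ t * x = 0) :
    IsReduced (Localization.AtPrime P) := by
  have hunit : ∀ t : Submonoid.powers s, algebraMap A (Localization.Away s) t ∉ P := by
    intro t ht
    exact Ideal.IsPrime.ne_top' (P.eq_top_of_isUnit_mem ht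
      (IsLocalization.map_units (Localization.Away s) t))
  have hcl : ∀ Z : Localization.AtPrime P, ∃ (a : A) (v : Localization.AtPrime P), IsUnit v ∧
      Z * v = algebraMap (Localization.Away s) (Localization.AtPrime P)
        (algebraMap A (Localization.Away s) a) := by
    intro Z
    obtain ⟨⟨r, u⟩, hu⟩ := IsLocalization.surj P.primeCompl Z
    obtain ⟨⟨a, w⟩, hw⟩ := IsLocalization.surj (Submonoid.powers s) r
    refine ⟨a, algebraMap (Localization.Away s) (Localization.AtPrime P) (u : Localization.Away s) *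
      algebraMap (Localization.Away s) (Localization.AtPrime P)
        (algebraMap A (Localization.Away s) w), ?_, ?_⟩
    · exact (IsLocalization.map_units _ u).mul
        ((IsLocalization.map_units (Localization.Away s) w).map _)
    · rw [← mul_assoc, hu, ← map_mul, hw]
  have hkey : ∀ (a : A) (n : ℕ), algebraMap (Localization.Away s) (Localization.AtPrime P)
      (algebraMap A (Localization.Away s) (a ^ n)) = 0 →
      algebraMap (Localization.Away s) (Localization.AtPrime P)
        (algebraMap A (Localization.Away s) a) = 0 := by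
    intro a n hab
    obtain ⟨⟨m, hm⟩, hm0⟩ :=
      (IsLocalization.map_eq_zero_iff P.primeCompl (Localization.AtPrime P) _).mp hab
    obtain ⟨⟨w, t⟩, hw⟩ := IsLocalization.surj (Submonoid.powers s) m
    have hwP : algebraMap A (Localization.Away s) w ∉ P := by
      intro hwP
      have hw' : m * algebraMap A (Localization.Away s) t = algebraMap A (Localization.Away s) w := hw
      rw [← hw'] at hwP
      rcases Ideal.IsPrime.mem_or_mem ‹P.IsPrime› hwP with h1 | h1
      · exact hm h1
      · exact hunit t h1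
    have h1 : algebraMap A (Localization.Away s) (w * a ^ n) = 0 := by
      have hw' : m * algebraMap A (Localization.Away s) t = algebraMap A (Localization.Away s) w := hw
      have hm0' : m * algebraMap A (Localization.Away s) (a ^ n) = 0 := hm0
      rw [map_mul, ← hw', mul_right_comm, hm0', zero_mul]
    obtain ⟨q, hq0⟩ := (IsLocalization.map_eq_zero_iff (Submonoid.powers s) _ _).mp h1
    obtain ⟨t', ht', h2⟩ := h ((q : A) * w * a) ⟨n + 1, by
      have e : ((q : A) * w * a) ^ (n + 1) = ((q : A) * w) ^ n * a * ((q : A) * (w * a ^ n)) := by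
        ring
      rw [e, hq0, mul_zero]⟩
    have hnot : algebraMap A (Localization.Away s) (t' * ((q : A) * w)) ∉ P := by
      rw [map_mul, map_mul]
      intro h3
      rcases Ideal.IsPrime.mem_or_mem ‹P.IsPrime› h3 with h4 | h4
      · exact ht' h4
      · rcases Ideal.IsPrime.mem_or_mem ‹P.IsPrime› h4 with h5 | h5
        · exact hunit q h5
        · exact hwP h5
    have hu := IsLocalization.map_units (Localization.AtPrime P)
      (⟨algebraMap A (Localization.Away s) (t' * ((q : A) * w)), hnot⟩ : P.primeCompl)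
    apply hu.mul_left_cancel
    change algebraMap (Localization.Away s) (Localization.AtPrime P)
      (algebraMap A (Localization.Away s) (t' * ((q : A) * w))) * _ = _ * _
    rw [← map_mul, ← map_mul, mul_zero]
    have e : t' * ((q : A) * w) * a = 0 := by
      rw [← h2]
      ring
    rw [e, map_zero, map_zero]
  refine ⟨fun Z hZ => ?_⟩
  obtain ⟨n, hn⟩ := hZ
  obtain ⟨a, v, hv, ha⟩ := hcl Z
  have h1 := hkey a n (by
    rw [map_pow, map_pow, ← ha, mul_pow, hn, zero_mul])
  rw [← ha] at h1
  exact (hv.mul_left_eq_zero).mp h1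

end Pool.Agent.LibCQ2
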