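import Pool.Agent.LibCQ2.C4b
import Pool.Agent.LibCQ2.C5
import Pool.Agent.LibCQ2.C6

set_option autoImplicit false

/-! C7 (assembly: C4b, C5, C6). The theorem at a k-point of a chart. -/

namespace Pool.Agent.LibCQ2

universe u

/-- the generating hypothesis -/
def Gen {k : Type u} [Field k] {n : Type} [Fintype n] [DecidableEq n] (X Y : Matrix n n k) : Prop :=
  ∃ (α β : k) (v w : n → k), Submodule.span k ({x | ∃ i j : ℕ, x = (X ^ i * Y ^ j).mulVec v} ∪
    {x | ∃ j : ℕ, x = ((α • X + β • Y) ^ j).mulVec w}) = ⊤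

/-- if `X`, `Y` are linear combinations of `X'`, `Y'` then the `X ^ i * Y ^ j v` are in the span of the `X' ^ i * Y' ^ j v` -/
private theorem C7_span {k : Type u} [Field k] {n : Type} [Fintype n] [DecidableEq n] (X Y X' Y' : Matrix n n k)
    (hXY' : X' * Y' = Y' * X') (a b c d : k) (hX : X = a • X' + b • Y') (hY : Y = c • X' + d • Y') (v : n → k)
    (i j : ℕ) : (X ^ i * Y ^ j).mulVec v ∈ Submodule.span k {x | ∃ i j : ℕ, x = (X' ^ i * Y' ^ j).mulVec v} := by
  set S := Submodule.span k {x | ∃ i j : ℕ, x = (X' ^ i * Y' ^ j).mulVec v} with hS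
  have h1 : ∀ z ∈ S, X'.mulVec z ∈ S := by
    intro z hz
    induction hz using Submodule.span_induction with
    | mem z hz =>
      obtain ⟨i, j, rfl⟩ := hz
      refine Submodule.subset_span ⟨i + 1, j, ?_⟩
      rw [Matrix.mulVec_mulVec, ← mul_assoc, ← pow_succ']
    | zero => rw [Matrix.mulVec_zero]; exact Submodule.zero_mem _
    | add x y _ _ hx hy => rw [Matrix.mulVec_add]; exact Submodule.add_mem _ hx hy
    | smul a x _ hx => rw [Matrix.mulVec_smul]; exact Submodule.smul_mem _ a hx
  have h2 : ∀ z ∈ S, Y'.mulVec z ∈ S := by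
    intro z hz
    induction hz using Submodule.span_induction with
    | mem z hz =>
      obtain ⟨i, j, rfl⟩ := hz
      refine Submodule.subset_span ⟨i, j + 1, ?_⟩
      rw [Matrix.mulVec_mulVec, ← mul_assoc]
      have h3 : Y' * X' ^ i = X' ^ i * Y' := (Commute.pow_left (hXY' : Commute X' Y') i).symm.eq
      rw [h3, mul_assoc, ← pow_succ']
    | zero => rw [Matrix.mulVec_zero]; exact Submodule.zero_mem _
    | add x y _ _ hx hy => rw [Matrix.mulVec_add]; exact Submodule.add_mem _ hx hy
    | smul a x _ hx => rw [Matrix.mulVec_smul]; exact Submodule.smul_mem _ a hx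
  have h3 : ∀ (s t : k) (z : n → k), z ∈ S → (s • X' + t • Y').mulVec z ∈ S := by
    intro s t z hz
    rw [Matrix.add_mulVec, Matrix.smul_mulVec, Matrix.smul_mulVec]
    exact Submodule.add_mem _ (Submodule.smul_mem _ s (h1 z hz)) (Submodule.smul_mem _ t (h2 z hz))
  have hv : v ∈ S := Submodule.subset_span ⟨0, 0, by rw [pow_zero, pow_zero, one_mul, Matrix.one_mulVec]⟩
  have h4 : ∀ j : ℕ, (Y ^ j).mulVec v ∈ S := by
    intro j
    induction j with
    | zero => rw [pow_zero, Matrix.one_mulVec]; exact hv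
    | succ j ih =>
      rw [pow_succ', ← Matrix.mulVec_mulVec, hY]
      rw [hY] at ih
      exact h3 c d _ ih
  have h5 : ∀ i : ℕ, (X ^ i).mulVec ((Y ^ j).mulVec v) ∈ S := by
    intro i
    induction i with
    | zero => rw [pow_zero, Matrix.one_mulVec]; exact h4 j
    | succ i ih =>
      rw [pow_succ', ← Matrix.mulVec_mulVec]
      nth_rw 1 [hX]
      exact h3 a b _ ih
  rw [← Matrix.mulVec_mulVec]
  exact h5 i

private theorem C7_case {k : Type u} [Field k] [Infinite k] {n : Type} [Fintype n] [DecidableEq n]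
    (X Y : Matrix n n k) (hXY : X * Y = Y * X) (α β γ δ : k) (hdet : γ * β - δ * α = 1) (v w : n → k)
    (h : Submodule.span k ({x | ∃ i j : ℕ, x = (X ^ i * Y ^ j).mulVec v} ∪
      {x | ∃ j : ℕ, x = ((α • X + β • Y) ^ j).mulVec w}) = ⊤) : Red k n X Y := by
  refine red_lin X Y γ δ α β hdet ?_
  have hc : (γ • X + δ • Y) * (α • X + β • Y) = (α • X + β • Y) * (γ • X + δ • Y) := by
    simp only [mul_add, add_mul, Matrix.smul_mul, Matrix.mul_smul, smul_smul, hXY]
    rw [mul_comm γ α, mul_comm δ α, mul_comm γ β, mul_comm δ β]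
    abel
  refine red_of_gen _ _ hc v w ?_
  rw [eq_top_iff, ← h, Submodule.span_le]
  rintro x (⟨i, j, rfl⟩ | ⟨j, rfl⟩)
  · have h1 := C7_span X Y (γ • X + δ • Y) (α • X + β • Y) hc β (-δ) (-α) γ (by
        have e1 : β • (γ • X + δ • Y) + (-δ) • (α • X + β • Y) = (γ * β - δ * α) • X := by
          module
        rw [e1, hdet, one_smul]) (by
        have e1 : (-α) • (γ • X + δ • Y) + γ • (α • X + β • Y) = (γ * β - δ * α) • Y := by
          module
        rw [e1, hdet, one_smul]) v i j
    exact Submodule.span_mono Set.subset_union_left h1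
  · exact Submodule.subset_span (Or.inr ⟨j, rfl⟩)

theorem red_gen {k : Type u} [Field k] [Infinite k] {n : Type} [Fintype n] [DecidableEq n] (X Y : Matrix n n k)
    (hXY : X * Y = Y * X) (h : Gen X Y) : Red k n X Y := by
  obtain ⟨α, β, v, w, h⟩ := h
  by_cases hα : α = 0
  · by_cases hβ : β = 0
    · subst hα
      subst hβ
      refine C7_case X Y hXY 0 1 1 0 (by ring) v w ?_
      rw [eq_top_iff, ← h, Submodule.span_le]
      rintro x (⟨i, j, rfl⟩ | ⟨j, rfl⟩)
      · exact Submodule.subset_span (Or.inl ⟨i, j, rfl⟩)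
      · have hw : w ∈ Submodule.span k ({x | ∃ i j : ℕ, x = (X ^ i * Y ^ j).mulVec v} ∪
            {x | ∃ j : ℕ, x = (((0 : k) • X + (1 : k) • Y) ^ j).mulVec w}) :=
          Submodule.subset_span (Or.inr ⟨0, by rw [pow_zero, Matrix.one_mulVec]⟩)
        have hz : ((0 : k) • X + (0 : k) • Y) = 0 := by rw [zero_smul, zero_smul, add_zero]
        rw [hz]
        rcases Nat.eq_zero_or_pos j with hj | hj
        · rw [hj, pow_zero, Matrix.one_mulVec]
          exact hw
        · rw [zero_pow hj.ne', Matrix.zero_mulVec]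
          exact Submodule.zero_mem _
    · exact C7_case X Y hXY α β β⁻¹ 0 (by rw [zero_mul, sub_zero, inv_mul_cancel₀ hβ]) v w h
  · exact C7_case X Y hXY α β 0 (-α⁻¹) (by rw [zero_mul, zero_sub, neg_mul, neg_neg, inv_mul_cancel₀ hα]) v w h

theorem main (k : Type u) [Field k] [Infinite k] (r d : ℕ) (f : Fin d → (Fin d × Fin d × Fin r))
    (z : Localization.Away (Ideal.Quotient.mk (Ic k r d) (chd k r d f)) →ₐ[k] k)
    (P : Ideal (Localization.Away (Ideal.Quotient.mk (Ic k r d) (chd k r d f)))) [P.IsPrime]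
    (hP : P ≤ RingHom.ker z) (X0 Y0 : Matrix (Fin d) (Fin d) k)
    (hX : ∀ i j, X0 i j = z (algebraMap _ _ (Ideal.Quotient.mk (Ic k r d) (mt k r d 0 i j))))
    (hY : ∀ i j, Y0 i j = z (algebraMap _ _ (Ideal.Quotient.mk (Ic k r d) (mt k r d 1 i j))))
    (h : Gen X0 Y0 ∨ Gen X0.transpose Y0.transpose) :
    IsReduced (Localization.AtPrime P) := by
  let θ : (MvPolynomial (Vx r d) k ⧸ Ic k r d) →+* k := (RingHomClass.toRingHom z).comp (algebraMap _ _)
  have hX' : X0 = (mt k r d 0).map (fun p => θ (Ideal.Quotient.mk (Ic k r d) p)) := by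
    ext i j
    exact hX i j
  have hY' : Y0 = (mt k r d 1).map (fun p => θ (Ideal.Quotient.mk (Ic k r d) p)) := by
    ext i j
    exact hY i j
  have hq : (mt k r d 0 * mt k r d 1).map (Ideal.Quotient.mk (Ic k r d)) =
      (mt k r d 1 * mt k r d 0).map (Ideal.Quotient.mk (Ic k r d)) := by
    ext i j
    rw [Matrix.map_apply, Matrix.map_apply, Ideal.Quotient.eq]
    exact Ideal.subset_span ⟨(i, j), rfl⟩
  have hXY : X0 * Y0 = Y0 * X0 := by
    have h1 := congrArg (fun M => M.map θ) hq
    rw [hX', hY']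
    have e : ∀ M N : Matrix (Fin d) (Fin d) (MvPolynomial (Vx r d) k),
        ((M * N).map (Ideal.Quotient.mk (Ic k r d))).map θ =
        M.map (fun p => θ (Ideal.Quotient.mk (Ic k r d) p)) * N.map (fun p => θ (Ideal.Quotient.mk (Ic k r d) p)) := by
      intro M N
      have e2 := Matrix.map_mul (L := M) (M := N) (f := θ.comp (Ideal.Quotient.mk (Ic k r d)))
      rw [Matrix.map_map]
      exact e2
    simp only [e] at h1
    exact h1
  have hred : Red k (Fin d) X0 Y0 := by
    rcases h with h | h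
    · exact red_gen X0 Y0 hXY h
    · refine red_transpose X0 Y0 (red_gen _ _ ?_ h)
      rw [← Matrix.transpose_mul, ← Matrix.transpose_mul, hXY]
  refine local_reduced _ P ?_
  intro x hx
  obtain ⟨p, rfl⟩ := Ideal.Quotient.mk_surjective x
  obtain ⟨m, hm⟩ := hx
  rw [← map_pow, Ideal.Quotient.eq_zero_iff_mem] at hm
  obtain ⟨t, ht, htp⟩ := red_vec X0 Y0 hred p m hm
  refine ⟨Ideal.Quotient.mk _ (MvPolynomial.rename Sum.inl t), ?_, ?_⟩
  · intro hmem
    have h1 := hP hmem
    rw [RingHom.mem_ker] at h1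
    apply ht
    have e : (RingHomClass.toRingHom z).comp ((algebraMap _ _).comp ((Ideal.Quotient.mk (Ic k r d)).comp
        ((MvPolynomial.rename Sum.inl : CP k (Fin d) →ₐ[k] MvPolynomial (Vx r d) k) : CP k (Fin d) →+* _))) =
        ((ev X0 Y0 : CP k (Fin d) →ₐ[k] k) : CP k (Fin d) →+* k) := by
      apply MvPolynomial.ringHom_ext
      · intro c
        have e1 : (algebraMap (MvPolynomial (Vx r d) k ⧸ Ic k r d)
            (Localization.Away (Ideal.Quotient.mk (Ic k r d) (chd k r d f)))) (Ideal.Quotient.mk (Ic k r d)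
            (MvPolynomial.C c)) = algebraMap k _ c := by
          rw [IsScalarTower.algebraMap_apply k (MvPolynomial (Vx r d) k ⧸ Ic k r d)]
          rfl
        change z (algebraMap _ _ (Ideal.Quotient.mk (Ic k r d) (MvPolynomial.rename Sum.inl (MvPolynomial.C c)))) =
          ev X0 Y0 (MvPolynomial.C c)
        rw [MvPolynomial.rename_C, e1, AlgHom.commutes]
        unfold ev
        rw [MvPolynomial.aeval_C]
      · rintro ⟨s, i, j⟩
        change z (algebraMap _ _ (Ideal.Quotient.mk (Ic k r d) (MvPolynomial.rename Sum.inl (MvPolynomial.X (s, i, j))))) =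
          ev X0 Y0 (MvPolynomial.X (s, i, j))
        rw [MvPolynomial.rename_X]
        unfold ev
        rw [MvPolynomial.aeval_X]
        fin_cases s
        · exact (hX i j).symm
        · exact (hY i j).symm
    have e2 := RingHom.congr_fun e t
    rw [← show ((ev X0 Y0 : CP k (Fin d) →ₐ[k] k) : CP k (Fin d) →+* k) t = ev X0 Y0 t from rfl, ← e2]
    exact h1
  · rw [← map_mul, Ideal.Quotient.eq_zero_iff_mem]
    exact htp

end Pool.Agent.LibCQ2
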