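import Pool.Agent.LibCQ2.C7

set_option autoImplicit false

/-! ROW D1a (SHORT/MEDIUM, Defs + C7 (def Gen only)). Two generators and dimension ≤ 5 give Gen.
 For a vector v let S v := span {X^i Y^j v} (stable under X, Y). Among all pairs (v, w) with S v ⊔ S w = ⊤ choose one with finrank (S v) =: l maximal (bounded by card n = d; Nat.find / exists max). By symmetry finrank (S w) ≤ l, so d ≤ 2 l.
 If l ≤ d - 3 then (d ≤ 5) l ≤ 2, d ≤ 4, l ≤ 1, d ≤ 2, contradiction (omega). So d - l ≤ 2, i.e. finrank (S v) + 2 ≥ d.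
 Case (a) X w ∉ S v ⊔ k w: then S v ⊔ span {w, X w} has finrank ≥ ..: if w ∉ S v: l + 2 ≥ d so it is ⊤ (if w ∈ S v then S v = ⊤ and everything is trivial): Gen with α = 1, β = 0 (X^0 w, X^1 w). Case (b) Y w ∉ S v ⊔ k w: α = 0, β = 1.
 Case (c) X w, Y w ∈ S v ⊔ k w: then S v ⊔ k w is stable under X and Y and contains v, w, so it contains S v ⊔ S w = ⊤: Gen with any α, β (w = Z^0 w). -/

namespace Pool.Agent.LibCQ2

universe u

private theorem D1a_stab {k : Type u} [Field k] {n : Type} [Fintype n] [DecidableEq n]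
    {X Y : Matrix n n k} (T : Submodule k (n → k)) (hX : ∀ z ∈ T, X.mulVec z ∈ T)
    (hY : ∀ z ∈ T, Y.mulVec z ∈ T) {u : n → k} (hu : u ∈ T) :
    Submodule.span k {x | ∃ i j : ℕ, x = (X ^ i * Y ^ j).mulVec u} ≤ T := by
  rw [Submodule.span_le]
  rintro _ ⟨i, j, rfl⟩
  have h1 : ∀ j : ℕ, (Y ^ j).mulVec u ∈ T := by
    intro j
    induction j with
    | zero =>
      rw [pow_zero, Matrix.one_mulVec]
      exact hu
    | succ j ih =>
      rw [pow_succ', ← Matrix.mulVec_mulVec]
      exact hY _ ih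
  have h2 : ∀ i : ℕ, (X ^ i).mulVec ((Y ^ j).mulVec u) ∈ T := by
    intro i
    induction i with
    | zero =>
      rw [pow_zero, Matrix.one_mulVec]
      exact h1 j
    | succ i ih =>
      rw [pow_succ', ← Matrix.mulVec_mulVec]
      exact hX _ ih
  rw [← Matrix.mulVec_mulVec]
  exact h2 i

private theorem D1a_X {k : Type u} [Field k] {n : Type} [Fintype n] [DecidableEq n]
    (X Y : Matrix n n k) (v z : n → k)
    (hz : z ∈ Submodule.span k {x | ∃ i j : ℕ, x = (X ^ i * Y ^ j).mulVec v}) :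
    X.mulVec z ∈ Submodule.span k {x | ∃ i j : ℕ, x = (X ^ i * Y ^ j).mulVec v} := by
  have h1 : Submodule.span k {x | ∃ i j : ℕ, x = (X ^ i * Y ^ j).mulVec v} ≤
      (Submodule.span k {x | ∃ i j : ℕ, x = (X ^ i * Y ^ j).mulVec v}).comap
        (Matrix.mulVecLin X) := by
    rw [Submodule.span_le]
    rintro _ ⟨i, j, rfl⟩
    rw [SetLike.mem_coe, Submodule.mem_comap, Matrix.mulVecLin_apply]
    refine Submodule.subset_span ⟨i + 1, j, ?_⟩
    rw [Matrix.mulVec_mulVec, ← mul_assoc, ← pow_succ']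
  exact h1 hz

private theorem D1a_Y {k : Type u} [Field k] {n : Type} [Fintype n] [DecidableEq n]
    (X Y : Matrix n n k) (hXY : X * Y = Y * X) (v z : n → k)
    (hz : z ∈ Submodule.span k {x | ∃ i j : ℕ, x = (X ^ i * Y ^ j).mulVec v}) :
    Y.mulVec z ∈ Submodule.span k {x | ∃ i j : ℕ, x = (X ^ i * Y ^ j).mulVec v} := by
  have h1 : Submodule.span k {x | ∃ i j : ℕ, x = (X ^ i * Y ^ j).mulVec v} ≤
      (Submodule.span k {x | ∃ i j : ℕ, x = (X ^ i * Y ^ j).mulVec v}).comap
        (Matrix.mulVecLin Y) := by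
    rw [Submodule.span_le]
    rintro _ ⟨i, j, rfl⟩
    rw [SetLike.mem_coe, Submodule.mem_comap, Matrix.mulVecLin_apply]
    refine Submodule.subset_span ⟨i, j + 1, ?_⟩
    have h2 : Y * X ^ i = X ^ i * Y := ((Commute.pow_left (show Commute X Y from hXY) i).eq).symm
    rw [Matrix.mulVec_mulVec, ← mul_assoc, h2, mul_assoc, ← pow_succ']
  exact h1 hz

private theorem D1a_lt {k : Type u} [Field k] {n : Type} [Fintype n]
    (T : Submodule k (n → k)) {x : n → k} (hx : x ∉ T) :
    Module.finrank k T < Module.finrank k (T ⊔ Submodule.span k {x} : Submodule k (n → k)) := by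
  apply Submodule.finrank_lt_finrank_of_lt
  refine lt_of_le_of_ne le_sup_left fun h => hx ?_
  rw [h]
  exact Submodule.mem_sup_right (Submodule.mem_span_singleton_self x)

private theorem D1a_Z {k : Type u} [Field k] {n : Type} [Fintype n] [DecidableEq n]
    (X Y : Matrix n n k) (v w : n → k)
    (hl : Fintype.card n ≤
      Module.finrank k (Submodule.span k {x | ∃ i j : ℕ, x = (X ^ i * Y ^ j).mulVec v}) + 2)
    (hw : w ∉ Submodule.span k {x | ∃ i j : ℕ, x = (X ^ i * Y ^ j).mulVec v}) (α β : k)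
    (hZ : (α • X + β • Y).mulVec w ∉
      Submodule.span k {x | ∃ i j : ℕ, x = (X ^ i * Y ^ j).mulVec v} ⊔ Submodule.span k {w}) :
    Gen X Y := by
  refine ⟨α, β, v, w, ?_⟩
  have h1 := D1a_lt _ hw
  have h2 := D1a_lt _ hZ
  have h3 : (Submodule.span k {x | ∃ i j : ℕ, x = (X ^ i * Y ^ j).mulVec v} ⊔
      Submodule.span k {w}) ⊔ Submodule.span k {(α • X + β • Y).mulVec w} = ⊤ := by
    apply Submodule.eq_top_of_finrank_eq
    apply le_antisymm (Submodule.finrank_le _)
    rw [Module.finrank_fintype_fun_eq_card]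
    omega
  rw [eq_top_iff, ← h3, Submodule.span_union]
  refine sup_le (sup_le le_sup_left ?_) ?_
  · refine le_trans ?_ le_sup_right
    rw [Submodule.span_singleton_le_iff_mem]
    refine Submodule.subset_span ⟨0, ?_⟩
    rw [pow_zero, Matrix.one_mulVec]
  · refine le_trans ?_ le_sup_right
    rw [Submodule.span_singleton_le_iff_mem]
    refine Submodule.subset_span ⟨1, ?_⟩
    rw [pow_one]

private theorem D1a_aux {k : Type u} [Field k] {n : Type} [Fintype n] [DecidableEq n]
    (hd : Fintype.card n ≤ 5) (X Y : Matrix n n k) (hXY : X * Y = Y * X) (v w : n → k)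
    (h : Submodule.span k {x | ∃ i j : ℕ, x = (X ^ i * Y ^ j).mulVec v} ⊔
      Submodule.span k {x | ∃ i j : ℕ, x = (X ^ i * Y ^ j).mulVec w} = ⊤)
    (hl : Fintype.card n ≤
      2 * Module.finrank k (Submodule.span k {x | ∃ i j : ℕ, x = (X ^ i * Y ^ j).mulVec v})) :
    Gen X Y := by
  have hl' : Fintype.card n ≤
      Module.finrank k (Submodule.span k {x | ∃ i j : ℕ, x = (X ^ i * Y ^ j).mulVec v}) + 2 := by
    omega
  by_cases hw : w ∈ Submodule.span k {x | ∃ i j : ℕ, x = (X ^ i * Y ^ j).mulVec v}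
  · have h1 := D1a_stab (X := X) (Y := Y) _ (D1a_X X Y v) (D1a_Y X Y hXY v) hw
    rw [sup_eq_left.2 h1] at h
    refine ⟨0, 0, v, w, ?_⟩
    rw [eq_top_iff, ← h]
    exact Submodule.span_mono Set.subset_union_left
  · by_cases hX : X.mulVec w ∈
        Submodule.span k {x | ∃ i j : ℕ, x = (X ^ i * Y ^ j).mulVec v} ⊔ Submodule.span k {w}
    · by_cases hY : Y.mulVec w ∈
          Submodule.span k {x | ∃ i j : ℕ, x = (X ^ i * Y ^ j).mulVec v} ⊔ Submodule.span k {w}
      · have hst : ∀ Z : Matrix n n k, (∀ z ∈ Submodule.span k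
            {x | ∃ i j : ℕ, x = (X ^ i * Y ^ j).mulVec v}, Z.mulVec z ∈ Submodule.span k
            {x | ∃ i j : ℕ, x = (X ^ i * Y ^ j).mulVec v}) → Z.mulVec w ∈ Submodule.span k
            {x | ∃ i j : ℕ, x = (X ^ i * Y ^ j).mulVec v} ⊔ Submodule.span k {w} →
            ∀ z ∈ Submodule.span k {x | ∃ i j : ℕ, x = (X ^ i * Y ^ j).mulVec v} ⊔
              Submodule.span k {w}, Z.mulVec z ∈ Submodule.span k
            {x | ∃ i j : ℕ, x = (X ^ i * Y ^ j).mulVec v} ⊔ Submodule.span k {w} := by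
          intro Z h1 h2 z hz
          obtain ⟨y, hy, t, ht, rfl⟩ := Submodule.mem_sup.1 hz
          obtain ⟨c, rfl⟩ := Submodule.mem_span_singleton.1 ht
          rw [Matrix.mulVec_add, Matrix.mulVec_smul]
          exact Submodule.add_mem _ (Submodule.mem_sup_left (h1 y hy))
            (Submodule.smul_mem _ _ h2)
        have h1 := D1a_stab (X := X) (Y := Y) _ (hst X (D1a_X X Y v) hX)
          (hst Y (D1a_Y X Y hXY v) hY)
          (Submodule.mem_sup_right (Submodule.mem_span_singleton_self w))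
        refine ⟨0, 0, v, w, ?_⟩
        rw [eq_top_iff, ← h]
        refine le_trans (sup_le le_sup_left h1) ?_
        rw [Submodule.span_union]
        refine sup_le le_sup_left (le_trans ?_ le_sup_right)
        rw [Submodule.span_singleton_le_iff_mem]
        refine Submodule.subset_span ⟨0, ?_⟩
        rw [pow_zero, Matrix.one_mulVec]
      · refine D1a_Z X Y v w hl' hw 0 1 ?_
        rw [zero_smul, one_smul, zero_add]
        exact hY
    · refine D1a_Z X Y v w hl' hw 1 0 ?_
      rw [zero_smul, one_smul, add_zero]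
      exact hX

theorem gen_of_two {k : Type u} [Field k] {n : Type} [Fintype n] [DecidableEq n] (hd : Fintype.card n ≤ 5)
    (X Y : Matrix n n k) (hXY : X * Y = Y * X) (v w : n → k)
    (h : Submodule.span k ({x | ∃ i j : ℕ, x = (X ^ i * Y ^ j).mulVec v} ∪
      {x | ∃ i j : ℕ, x = (X ^ i * Y ^ j).mulVec w}) = ⊤) : Gen X Y := by
  rw [Submodule.span_union] at h
  have h1 : Fintype.card n ≤
      Module.finrank k (Submodule.span k {x | ∃ i j : ℕ, x = (X ^ i * Y ^ j).mulVec v}) +
      Module.finrank k (Submodule.span k {x | ∃ i j : ℕ, x = (X ^ i * Y ^ j).mulVec w}) := by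
    have h2 := Submodule.finrank_add_le_finrank_add_finrank
      (Submodule.span k {x | ∃ i j : ℕ, x = (X ^ i * Y ^ j).mulVec v})
      (Submodule.span k {x | ∃ i j : ℕ, x = (X ^ i * Y ^ j).mulVec w})
    rw [h, finrank_top, Module.finrank_fintype_fun_eq_card] at h2
    exact h2
  rcases le_total (Module.finrank k (Submodule.span k
      {x | ∃ i j : ℕ, x = (X ^ i * Y ^ j).mulVec w}))
    (Module.finrank k (Submodule.span k
      {x | ∃ i j : ℕ, x = (X ^ i * Y ^ j).mulVec v})) with h2 | h2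
  · exact D1a_aux hd X Y hXY v w h (by omega)
  · rw [sup_comm] at h
    exact D1a_aux hd X Y hXY w v h (by omega)

end Pool.Agent.LibCQ2
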