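import Pool.Agent.LibCQ2.Defs

set_option autoImplicit false

/-! ROW D1b (SHORT/MEDIUM, only Mathlib + Defs). At a k-point z of a chart the two vectors generate. X0, Y0 values of the matrices, v c i := value of the variable (inr (c, i)). The class of chd is a unit in the localization, so z maps it to a unit of k;
 z (chd) = det of the matrix with columns (X0^a Y0^b) (v c), (a, b, c) = f j (RingHom.map_det, mulVec and powers under the ring hom). So these columns span k^d (Matrix rank / isUnit det: LinearIndependent, span = ⊤), and each of them is in one of the two sets. -/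

namespace Pool.Agent.LibCQ2

universe u

theorem chart_span (k : Type u) [Field k] (d : ℕ) (f : Fin d → (Fin d × Fin d × Fin 2))
    (z : Localization.Away (Ideal.Quotient.mk (Ic k 2 d) (chd k 2 d f)) →ₐ[k] k) (X0 Y0 : Matrix (Fin d) (Fin d) k)
    (hX : ∀ i j, X0 i j = z (algebraMap _ _ (Ideal.Quotient.mk (Ic k 2 d) (mt k 2 d 0 i j))))
    (hY : ∀ i j, Y0 i j = z (algebraMap _ _ (Ideal.Quotient.mk (Ic k 2 d) (mt k 2 d 1 i j)))) :
    ∃ v w : Fin d → k, Submodule.span k ({x | ∃ i j : ℕ, x = (X0 ^ i * Y0 ^ j).mulVec v} ∪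
      {x | ∃ i j : ℕ, x = (X0 ^ i * Y0 ^ j).mulVec w}) = ⊤ := by
  classical
  set ζ : MvPolynomial (Vx 2 d) k →+* k := (z : _ →+* k).comp ((algebraMap (MvPolynomial (Vx 2 d) k ⧸ Ic k 2 d)
    (Localization.Away (Ideal.Quotient.mk (Ic k 2 d) (chd k 2 d f)))).comp (Ideal.Quotient.mk (Ic k 2 d))) with hζ
  have hζa : ∀ p, ζ p = z (algebraMap _ _ (Ideal.Quotient.mk (Ic k 2 d) p)) := fun p => rfl
  have hu : IsUnit (ζ (chd k 2 d f)) := by
    rw [hζa]
    exact (IsLocalization.Away.algebraMap_isUnit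
      (S := Localization.Away (Ideal.Quotient.mk (Ic k 2 d) (chd k 2 d f)))
      (Ideal.Quotient.mk (Ic k 2 d) (chd k 2 d f))).map z
  have hX' : (mt k 2 d 0).map ζ = X0 := by
    ext i j
    rw [Matrix.map_apply, hζa, hX]
  have hY' : (mt k 2 d 1).map ζ = Y0 := by
    ext i j
    rw [Matrix.map_apply, hζa, hY]
  set V : Fin 2 → Fin d → k := fun c i => ζ (MvPolynomial.X (Sum.inr (c, i))) with hV
  set M : Matrix (Fin d) (Fin d) k := Matrix.of fun (a : Fin d) (b : Fin d) =>
    Matrix.mulVec (X0 ^ (f b).1.val * Y0 ^ (f b).2.1.val) (V (f b).2.2) a with hM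
  have hdet : ζ (chd k 2 d f) = M.det := by
    rw [chd, RingHom.map_det]
    congr 1
    ext a b
    rw [RingHom.mapMatrix_apply, Matrix.map_apply, Matrix.of_apply, hM, Matrix.of_apply, RingHom.map_mulVec,
      Matrix.map_mul, Matrix.map_pow, Matrix.map_pow, hX', hY']
    rfl
  rw [hdet] at hu
  refine ⟨V 0, V 1, ?_⟩
  have hcol : ∀ b : Fin d, M.col b ∈ ({x | ∃ i j : ℕ, x = (X0 ^ i * Y0 ^ j).mulVec (V 0)} ∪
      {x | ∃ i j : ℕ, x = (X0 ^ i * Y0 ^ j).mulVec (V 1)}) := by
    intro b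
    have e : M.col b = Matrix.mulVec (X0 ^ (f b).1.val * Y0 ^ (f b).2.1.val) (V (f b).2.2) := by
      funext a
      rfl
    have h2 : (f b).2.2 = 0 ∨ (f b).2.2 = 1 := by
      have := (f b).2.2.2
      rcases Nat.lt_or_ge ((f b).2.2 : ℕ) 1 with h | h
      · left
        exact Fin.ext (by simp; omega)
      · right
        exact Fin.ext (by simp; omega)
    rcases h2 with h | h
    · left
      exact ⟨_, _, by rw [e, h]⟩
    · right
      exact ⟨_, _, by rw [e, h]⟩
  rw [eq_top_iff]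
  intro x _
  obtain ⟨c, hc⟩ : ∃ c : Fin d → k, M.mulVec c = x := by
    refine ⟨M⁻¹.mulVec x, ?_⟩
    rw [Matrix.mulVec_mulVec, Matrix.mul_nonsing_inv M hu, Matrix.one_mulVec]
  rw [← hc]
  have e : M.mulVec c = ∑ b, c b • M.col b := by
    funext a
    rw [Finset.sum_apply]
    simp only [Matrix.mulVec, dotProduct, Pi.smul_apply, smul_eq_mul, Matrix.col_apply]
    exact Finset.sum_congr rfl fun b _ => mul_comm _ _
  rw [e]
  exact Submodule.sum_mem _ fun b _ => Submodule.smul_mem _ _ (Submodule.subset_span (hcol b))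

end Pool.Agent.LibCQ2
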