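import Pool.Agent.LibCQ2.Defs

set_option autoImplicit false

/-! ROW D2 (MEDIUM, only Mathlib + Defs). A finitely generated algebra over an algebraically closed field is reduced if its local rings at k-points are.
 reduced_of_points: isReduced_ofLocalizationMaximal: enough for maximal ideals P; A ⧸ P is a field, finitely generated as a k-algebra, so finite over k (Zariski: finite_of_finite_type_of_isJacobsonRing), so k → A ⧸ P is bijective (IsAlgClosed.algebraMap_bijective_of_isIntegral or
   similar); z := mk followed by the inverse; P = ker z (Ideal.mk_ker).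
 chart_finiteType: quotient of MvPolynomial in finitely many variables (Algebra.FiniteType.mvPolynomial, .of_surjective), Localization.Away: IsLocalization.finiteType or Algebra.FiniteType.trans with Localization.Away of finite type (e.g. instance for Localization.Away). -/

namespace Pool.Agent.LibCQ2

universe u

theorem reduced_of_points {k : Type u} [Field k] [IsAlgClosed k] {A : Type u} [CommRing A] [Algebra k A]
    [Algebra.FiniteType k A]
    (h : ∀ (P : Ideal A) [P.IsPrime] (z : A →ₐ[k] k), P = RingHom.ker z → IsReduced (Localization.AtPrime P)) :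
    IsReduced A := by
  apply isReduced_ofLocalizationMaximal
  intro P hP
  let _ : Field (A ⧸ P) := Ideal.Quotient.field P
  haveI : Algebra.FiniteType k (A ⧸ P) := Algebra.FiniteType.of_surjective (Ideal.Quotient.mkₐ k P)
    (Ideal.Quotient.mkₐ_surjective k P)
  haveI : Module.Finite k (A ⧸ P) := finite_of_finite_type_of_isJacobsonRing k (A ⧸ P)
  have hbij : Function.Bijective (algebraMap k (A ⧸ P)) :=
    IsAlgClosed.algebraMap_bijective_of_isIntegral (k := k) (K := A ⧸ P)
  let e : k ≃ₐ[k] A ⧸ P := AlgEquiv.ofBijective (Algebra.ofId k (A ⧸ P)) hbij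
  let z : A →ₐ[k] k := (e.symm : A ⧸ P →ₐ[k] k).comp (Ideal.Quotient.mkₐ k P)
  have hz : P = RingHom.ker z := by
    ext x
    rw [RingHom.mem_ker]
    change x ∈ P ↔ e.symm (Ideal.Quotient.mk P x) = 0
    rw [map_eq_zero_iff e.symm e.symm.injective, Ideal.Quotient.eq_zero_iff_mem]
  haveI := hP.isPrime
  exact h P z hz

theorem chart_finiteType (k : Type u) [Field k] (r d : ℕ) (f : Fin d → (Fin d × Fin d × Fin r)) :
    Algebra.FiniteType k (Localization.Away (Ideal.Quotient.mk (Ic k r d) (chd k r d f))) := by
  have h1 : Algebra.FiniteType k (MvPolynomial (Vx r d) k ⧸ Ic k r d) :=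
    Algebra.FiniteType.of_surjective (Ideal.Quotient.mkₐ k (Ic k r d))
      (Ideal.Quotient.mkₐ_surjective k (Ic k r d))
  have h2 : Algebra.FiniteType (MvPolynomial (Vx r d) k ⧸ Ic k r d)
      (Localization.Away (Ideal.Quotient.mk (Ic k r d) (chd k r d f))) :=
    IsLocalization.finiteType_of_monoid_fg (Submonoid.powers (Ideal.Quotient.mk (Ic k r d) (chd k r d f))) _
  exact Algebra.FiniteType.trans h1 h2

end Pool.Agent.LibCQ2
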