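import Pool.Agent.LibCQ2.C7
import Pool.Agent.LibCQ2.D1a
import Pool.Agent.LibCQ2.D1b
import Pool.Agent.LibCQ2.D2

set_option autoImplicit false

/-! D3 (assembly). For r = 2 and d ≤ 5 every chart is reduced. -/

namespace Pool.Agent.LibCQ2

universe u

private theorem D3_comm {k : Type u} [Field k] {r d : ℕ} {f : Fin d → (Fin d × Fin d × Fin r)}
    (z : Localization.Away (Ideal.Quotient.mk (Ic k r d) (chd k r d f)) →ₐ[k] k) (X0 Y0 : Matrix (Fin d) (Fin d) k)
    (hX : ∀ i j, X0 i j = z (algebraMap _ _ (Ideal.Quotient.mk (Ic k r d) (mt k r d 0 i j))))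
    (hY : ∀ i j, Y0 i j = z (algebraMap _ _ (Ideal.Quotient.mk (Ic k r d) (mt k r d 1 i j)))) :
    X0 * Y0 = Y0 * X0 := by
  let θ : (MvPolynomial (Vx r d) k) →+* k :=
    ((RingHomClass.toRingHom z).comp (algebraMap _ _)).comp (Ideal.Quotient.mk (Ic k r d))
  have hX' : X0 = (mt k r d 0).map θ := by
    ext i j
    exact hX i j
  have hY' : Y0 = (mt k r d 1).map θ := by
    ext i j
    exact hY i j
  rw [hX', hY', ← Matrix.map_mul, ← Matrix.map_mul]
  ext i j
  rw [Matrix.map_apply, Matrix.map_apply]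
  have h1 : Ideal.Quotient.mk (Ic k r d) ((mt k r d 0 * mt k r d 1) i j) =
      Ideal.Quotient.mk (Ic k r d) ((mt k r d 1 * mt k r d 0) i j) := by
    rw [Ideal.Quotient.eq]
    exact Ideal.subset_span ⟨(i, j), rfl⟩
  exact congrArg (fun x => (RingHomClass.toRingHom z) (algebraMap _ _ x)) h1

theorem rank_two (k : Type u) [Field k] [IsAlgClosed k] (d : ℕ) (hd : d ≤ 5)
    (f : Fin d → (Fin d × Fin d × Fin 2)) :
    IsReduced (Localization.Away (Ideal.Quotient.mk (Ic k 2 d) (chd k 2 d f))) := by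
  have hinf : Infinite k := IsAlgClosed.instInfinite
  have hft := chart_finiteType k 2 d f
  refine reduced_of_points (k := k) ?_
  intro P hP z hz
  let X0 : Matrix (Fin d) (Fin d) k :=
    Matrix.of fun i j => z (algebraMap _ _ (Ideal.Quotient.mk (Ic k 2 d) (mt k 2 d 0 i j)))
  let Y0 : Matrix (Fin d) (Fin d) k :=
    Matrix.of fun i j => z (algebraMap _ _ (Ideal.Quotient.mk (Ic k 2 d) (mt k 2 d 1 i j)))
  obtain ⟨v, w, hvw⟩ := chart_span k d f z X0 Y0 (fun _ _ => rfl) (fun _ _ => rfl)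
  have hg : Gen X0 Y0 := gen_of_two (by rw [Fintype.card_fin]; exact hd) X0 Y0
    (D3_comm z X0 Y0 (fun _ _ => rfl) (fun _ _ => rfl)) v w hvw
  exact main k 2 d f z P hz.le X0 Y0 (fun _ _ => rfl) (fun _ _ => rfl) (Or.inl hg)

end Pool.Agent.LibCQ2
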