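import Mathlib

set_option autoImplicit false

/-! Definitions for CurvQuot (MP_6ef058_ag): page L27_6ef058_helper2.md. -/

namespace Pool.Agent.LibCQ2

open Polynomial

universe u

/-! ### The commuting scheme -/

section comm
variable (k : Type u) [CommRing k] (n : Type) [Fintype n] [DecidableEq n]

/-- polynomials in the entries of two matrices with index set `n` -/
abbrev CP := MvPolynomial (Fin 2 × n × n) k

/-- generic matrix number `s` -/
noncomputable def cm (s : Fin 2) : Matrix n n (CP k n) := Matrix.of fun i j => MvPolynomial.X (s, i, j)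

/-- the ideal of the entries of the commutator -/
noncomputable def cI : Ideal (CP k n) :=
  Ideal.span (Set.range fun p : n × n => (cm k n 0 * cm k n 1 - cm k n 1 * cm k n 0) p.1 p.2)

end comm

/-- the value of a polynomial at a pair of matrices -/
noncomputable def ev {k : Type u} [CommRing k] {n : Type} {R : Type u} [CommRing R] [Algebra k R]
    (X Y : Matrix n n R) : MvPolynomial (Fin 2 × n × n) k →ₐ[k] R :=
  MvPolynomial.aeval (fun p => if p.1 = 0 then X p.2.1 p.2.2 else Y p.2.1 p.2.2)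

/-- the commuting scheme is reduced at `(X0, Y0)`: every nilpotent function is killed by a function not vanishing at the point -/
def Red (k : Type u) [Field k] (n : Type) [Fintype n] [DecidableEq n] (X0 Y0 : Matrix n n k) : Prop :=
  ∀ F : CP k n, (∃ m : ℕ, F ^ m ∈ cI k n) → ∃ h : CP k n, ev X0 Y0 h ≠ 0 ∧ h * F ∈ cI k n

/-! ### The basis `x^i y^j v` (i < N, j < b (N - i)), `y^j w` (j < b) -/

/-- lengths of the strings: `b (N - i)` for `i < N`, `b` for `i = N` -/
def dv (N b : ℕ) (i : Fin (N + 1)) : ℕ := if (i : ℕ) < N then b * (N - i) else b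

/-- index set of the basis -/
abbrev KIx (N b : ℕ) := Σ i : Fin (N + 1), Fin (dv N b i)

section basis
variable {R : Type*} [CommRing R] {n : Type*} [Fintype n] [DecidableEq n]

/-- `x^i v` for `i < N`, `w` for `i = N` -/
def gam (N : ℕ) (X : Matrix n n R) (v w : n → R) : Fin (N + 1) → n → R :=
  fun i => if (i : ℕ) < N then (X ^ (i : ℕ)).mulVec v else w

/-- the matrix with columns `Y^j γ_i`, `j < d i` -/
def GM {m : ℕ} (d : Fin m → ℕ) (Y : Matrix n n R) (γ : Fin m → n → R) :
    Matrix n (Σ i : Fin m, Fin (d i)) R :=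
  Matrix.of fun i κ => ((Y ^ (κ.2 : ℕ)).mulVec (γ κ.1)) i

/-- the columns `Y^j γ_i` form a basis -/
def HB {m : ℕ} (d : Fin m → ℕ) (Y : Matrix n n R) (γ : Fin m → n → R) : Prop :=
  ∃ H : Matrix (Σ i : Fin m, Fin (d i)) n R, GM d Y γ * H = 1 ∧ H * GM d Y γ = 1

/-- `z ↦ ∑ z_i(Y) γ_i` -/
noncomputable def piM {m : ℕ} (Y : Matrix n n R) (γ : Fin m → n → R) (z : Fin m → R[X]) : n → R :=
  ∑ i, (aeval Y (z i)).mulVec (γ i)

/-- the value at `(X, Y)` of a polynomial in `x` (outer variable) with coefficients polynomials in `y` (inner variable) -/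
noncomputable def a2 (X Y : Matrix n n R) (F : R[X][X]) : Matrix n n R :=
  F.eval₂ ((aeval Y : R[X] →ₐ[R] Matrix n n R) : R[X] →+* Matrix n n R) X

end basis

/-! ### Polynomial matrices -/

section polymat
variable {R : Type*} [CommRing R]

/-- row reduced: row `i` has degree `d i`, attained only on the diagonal, where it is monic -/
structure RowRed {m : ℕ} (d : Fin m → ℕ) (P : Matrix (Fin m) (Fin m) R[X]) : Prop where
  diag : ∀ i, (P i i).Monic ∧ (P i i).natDegree = d i
  off : ∀ i j, i ≠ j → (P i j).degree < (d i : WithBot ℕ)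

/-- vector of polynomials with given coefficients -/
noncomputable def iota {m : ℕ} (d : Fin m → ℕ) (r : (Σ i : Fin m, Fin (d i)) → R) : Fin m → R[X] :=
  fun i => ∑ j : Fin (d i), C (r ⟨i, j⟩) * X ^ (j : ℕ)

/-- weight (weight of `x` is `b`, weight of `y` is 1) of all monomials is `< m` -/
def wtLT (b m : ℕ) (F : R[X][X]) : Prop := ∀ i j : ℕ, m ≤ b * i + j → (F.coeff i).coeff j = 0

/-- same part of weight `m`, nothing above -/
def apx (b m : ℕ) (F G : R[X][X]) : Prop := wtLT b (m + 1) F ∧ wtLT b (m + 1) G ∧ wtLT b m (F - G)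

variable (N : ℕ)

/-- `T + (x - f) E`, `E = diag(1, .., 1, 0)` -/
noncomputable def AA (f : R[X]) (T : Matrix (Fin (N + 1)) (Fin (N + 1)) R[X]) :
    Matrix (Fin (N + 1)) (Fin (N + 1)) R[X][X] :=
  Matrix.of fun j k => C (T j k) + if j = k ∧ (j : ℕ) < N then X - C f else 0

/-- `h + (x - f) e_N` -/
noncomputable def ry (f : R[X]) (h : Fin (N + 1) → R[X]) : Fin (N + 1) → R[X][X] :=
  fun k => C (h k) + if (k : ℕ) < N then 0 else X - C f

/-- `u E - g e_N` -/
noncomputable def rx (g : R[X]) (u : Fin (N + 1) → R[X]) : Fin (N + 1) → R[X][X] :=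
  fun k => C (if (k : ℕ) < N then u k else -g)

/-- the presentation matrix of the `R[y]`-module -/
noncomputable def PM (g : R[X]) (u : Fin (N + 1) → R[X]) (q : R[X][X]) (B : Fin (N + 1) → R[X][X]) :
    Matrix (Fin (N + 1)) (Fin (N + 1)) R[X] :=
  Matrix.of fun i j => if (i : ℕ) < N then (if (j : ℕ) < N then (B j).coeff i else q.coeff i)
    else (if (j : ℕ) < N then u j else g)

/-- the action of `x` on the generators -/
noncomputable def QM (f : R[X]) (u : Fin (N + 1) → R[X]) (p : R[X]) (B : Fin (N + 1) → R[X][X]) :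
    Matrix (Fin (N + 1)) (Fin (N + 1)) R[X] :=
  Matrix.of fun i j =>
    if (j : ℕ) < N then
      (if (j : ℕ) + 1 < N then (if (i : ℕ) = (j : ℕ) + 1 then 1 else 0)
       else (if (i : ℕ) < N then -(B (Fin.last N)).coeff i else -u (Fin.last N)))
    else (if (i : ℕ) < N then (if (i : ℕ) = 0 then p else 0) else f)

/-- the action of `x` on the relations, read off from `T`, `h` -/
noncomputable def QpM (f : R[X]) (T : Matrix (Fin (N + 1)) (Fin (N + 1)) R[X]) (h : Fin (N + 1) → R[X]) :
    Matrix (Fin (N + 1)) (Fin (N + 1)) R[X] :=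
  Matrix.of fun j k =>
    if (j : ℕ) < N then (if (k : ℕ) < N then (if j = k then f else 0) - T j k else T j k)
    else (if (k : ℕ) < N then h k else f - h k)

/-- `T` read off from `Q'`, `P` -/
noncomputable def TM (f : R[X]) (Q' P : Matrix (Fin (N + 1)) (Fin (N + 1)) R[X]) :
    Matrix (Fin (N + 1)) (Fin (N + 1)) R[X] :=
  Matrix.of fun j k =>
    if (j : ℕ) < N then (if (k : ℕ) < N then (if j = k then f else 0) - Q' j k else Q' j k)
    else (if (k : ℕ) < N then -P ⟨N - 1, by omega⟩ k else P ⟨N - 1, by omega⟩ k)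

/-- `h` read off from `Q'` -/
noncomputable def hM (f : R[X]) (Q' : Matrix (Fin (N + 1)) (Fin (N + 1)) R[X]) : Fin (N + 1) → R[X] :=
  fun k => if (k : ℕ) < N then Q' (Fin.last N) k else f - Q' (Fin.last N) k

/-- the data: `u T = g h`, `det T = g p`, degrees -/
structure Dta (b : ℕ) (g f : R[X]) (u : Fin (N + 1) → R[X]) (T : Matrix (Fin (N + 1)) (Fin (N + 1)) R[X])
    (h : Fin (N + 1) → R[X]) (p : R[X]) : Prop where
  g_monic : g.Monic
  g_deg : g.natDegree = b
  f_deg : f.degree < (b : WithBot ℕ)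
  u_deg : ∀ j, (u j).degree < (b : WithBot ℕ)
  T_deg : ∀ j k, (T j k + if (j : ℕ) = (k : ℕ) + 1 then g else 0).degree < (b : WithBot ℕ)
  rel : ∀ k, ∑ j, u j * T j k = g * h k
  det : T.det = g * p

/-- the polynomials `q`, `B` belonging to the data -/
structure Out (b : ℕ) (g f : R[X]) (u : Fin (N + 1) → R[X]) (T : Matrix (Fin (N + 1)) (Fin (N + 1)) R[X])
    (h : Fin (N + 1) → R[X]) (p : R[X]) (q : R[X][X]) (B : Fin (N + 1) → R[X][X]) : Prop where
  star : ∀ k, ∑ j, B j * AA N f T j k = q * ry N f h k - C p * rx N g u k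
  wB : ∀ j, wtLT b (N * b) (B j - C (X ^ (b * (N - (j : ℕ)))) * X ^ (j : ℕ))
  wq : wtLT b (N * b) q

/-- normal form of a commuting pair with two vectors -/
structure NF (b : ℕ) {n : Type*} [Fintype n] [DecidableEq n] (x y : Matrix n n R) (v w : n → R)
    (g f p : R[X]) (q : R[X][X]) (u : Fin (N + 1) → R[X]) (B : Fin (N + 1) → R[X][X]) : Prop where
  g_monic : g.Monic
  g_deg : g.natDegree = b
  f_deg : f.degree < (b : WithBot ℕ)
  u_deg : ∀ j, (u j).degree < (b : WithBot ℕ)
  p_deg : p.degree < ((N * b : ℕ) : WithBot ℕ)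
  wB : ∀ j, wtLT b (N * b) (B j - C (X ^ (b * (N - (j : ℕ)))) * X ^ (j : ℕ))
  wq : wtLT b (N * b) q
  relw : x.mulVec w = (aeval y f).mulVec w + (aeval y p).mulVec v
  relg : (aeval y g).mulVec w + (a2 x y q).mulVec v = 0
  relB : ∀ j, (a2 x y (B j)).mulVec v + (aeval y (u j)).mulVec w = 0

end polymat

/-! ### Remainder ideals -/

section rem
variable {A : Type*} [CommRing A]

/-- the ideal of the coefficients of the remainder of `P` modulo `m` -/
noncomputable def remId (m P : A[X]) : Ideal A := Ideal.span (Set.range (P %ₘ m).coeff)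

/-- `∏_{i ∈ W} (z - y_i)` -/
noncomputable def gP {b : ℕ} (y : Fin b → A) (W : Finset (Fin b)) : A[X] := ∏ i ∈ W, (X - C (y i))

/-- the polynomial with given coefficients -/
noncomputable def pV {p : ℕ} (t : Fin p → A) : A[X] := ∑ l : Fin p, C (t l) * X ^ (l : ℕ)

/-- generic polynomial `t` with `p` coefficients -/
noncomputable def tP (A : Type*) [CommRing A] (p q : ℕ) : (MvPolynomial (Fin p ⊕ Fin q) A)[X] :=
  pV fun l => MvPolynomial.X (Sum.inl l)

/-- generic polynomial `u` with `q` coefficients -/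
noncomputable def uP (A : Type*) [CommRing A] (p q : ℕ) : (MvPolynomial (Fin p ⊕ Fin q) A)[X] :=
  pV fun l => MvPolynomial.X (Sum.inr l)

/-- the ideal of the state: `J0`, `g_F ∣ π`, `g_L ∣ t u`, `g_E ∣ t π` -/
noncomputable def sI {b : ℕ} (y : Fin b → A) (J0 : Ideal A) (π : A[X]) (L F E : Finset (Fin b)) (p q : ℕ) :
    Ideal (MvPolynomial (Fin p ⊕ Fin q) A) :=
  (J0 ⊔ remId (gP y F) π).map MvPolynomial.C ⊔ remId ((gP y L).map MvPolynomial.C) (tP A p q * uP A p q) ⊔
    remId ((gP y E).map MvPolynomial.C) (tP A p q * π.map MvPolynomial.C)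

/-- the ideal of the state together with `u(y_i) = 0`, `g_{F'} ∣ π` -/
noncomputable def sJ {b : ℕ} (y : Fin b → A) (J0 : Ideal A) (π : A[X]) (L F E : Finset (Fin b)) (p q : ℕ)
    (i : Fin b) (F' : Finset (Fin b)) : Ideal (MvPolynomial (Fin p ⊕ Fin q) A) :=
  sI y J0 π L F E p q ⊔ Ideal.span {(uP A p q).eval (MvPolynomial.C (y i))} ⊔
    (remId (gP y F') π).map MvPolynomial.C

end rem

/-! ### The model ring -/

/-- variables `u_{j,l}` (left) and `t_{j,k,l}` (right), `j, k < n`, `l < b` -/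
abbrev IK (n b : ℕ) := (Fin n × Fin b) ⊕ (Fin n × Fin n × Fin b)

section model
variable (Y : Type*) [CommRing Y] (n b : ℕ)

noncomputable def uv (j : Fin n) : (MvPolynomial (IK n b) Y)[X] := pV fun l : Fin b => MvPolynomial.X (Sum.inl (j, l))

noncomputable def tv : Matrix (Fin n) (Fin n) (MvPolynomial (IK n b) Y)[X] :=
  Matrix.of fun j k => pV fun l : Fin b => MvPolynomial.X (Sum.inr (j, k, l))

variable {Y} {b} (y : Fin b → Y)

/-- `g = ∏ (z - y_i)` over the polynomial ring -/
noncomputable def gg : (MvPolynomial (IK n b) Y)[X] := (gP y Finset.univ).map MvPolynomial.C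

/-- the ideal of `u t ≡ 0`, `det t ≡ 0 mod g` -/
noncomputable def KI : Ideal (MvPolynomial (IK n b) Y) :=
  (⨆ k : Fin n, remId (gg n y) (∑ j, uv Y n b j * tv Y n b j k)) ⊔ remId (gg n y) (tv Y n b).det

/-- the diagonal ideal -/
noncomputable def K0 : Ideal (MvPolynomial (IK n b) Y) :=
  (⨆ k : Fin n, remId (gg n y) (uv Y n b k * tv Y n b k k)) ⊔ remId (gg n y) (∏ k, tv Y n b k k)

end model

/-- off-diagonal degree -/
def wOff (n b : ℕ) : IK n b → ℕ
  | Sum.inl _ => 0
  | Sum.inr p => if p.1 = p.2.1 then 0 else 1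

/-- degree in all `t` -/
def wT (n b : ℕ) : IK n b → ℕ
  | Sum.inl _ => 0
  | Sum.inr _ => 1

section grade
variable {σ : Type*} {R : Type*} [CommRing R]

/-- all monomials have weight at least `e` -/
def ordGE (w : σ → ℕ) (e : ℕ) (F : MvPolynomial σ R) : Prop := ∀ m ∈ F.support, e ≤ Finsupp.weight w m

/-- the component of weight `e` -/
noncomputable def comp (w : σ → ℕ) (e : ℕ) (F : MvPolynomial σ R) : MvPolynomial σ R :=
  MvPolynomial.weightedHomogeneousComponent w e F

/-- `X x ↦ X x * s ^ w x` -/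
noncomputable def lamW (w : σ → ℕ) : MvPolynomial σ R →+* (MvPolynomial σ R)[X] :=
  MvPolynomial.eval₂Hom ((C : MvPolynomial σ R →+* _).comp MvPolynomial.C) (fun x => C (MvPolynomial.X x) * X ^ w x)

end grade

/-- generators in evaluation coordinates: index `(i, k)`: `∑_j u_{j,i} t_{j,k,i}`; index `i`: `det t_i` -/
noncomputable def Gev (R : Type*) [CommRing R] (n b : ℕ) : (Fin b × Fin n) ⊕ Fin b → MvPolynomial (IK n b) R
  | Sum.inl p => ∑ j : Fin n, MvPolynomial.X (Sum.inl (j, p.1)) * MvPolynomial.X (Sum.inr (j, p.2, p.1))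
  | Sum.inr i => (Matrix.of fun j k : Fin n => (MvPolynomial.X (Sum.inr (j, k, i)) : MvPolynomial (IK n b) R)).det

/-- exponents of their components of degree 0: `u_{k,i} t_{k,k,i}`, `∏_k t_{k,k,i}` -/
noncomputable def Eev (n b : ℕ) : (Fin b × Fin n) ⊕ Fin b → (IK n b →₀ ℕ)
  | Sum.inl p => Finsupp.single (Sum.inl (p.2, p.1)) 1 + Finsupp.single (Sum.inr (p.2, p.2, p.1)) 1
  | Sum.inr i => ∑ k : Fin n, Finsupp.single (Sum.inr (k, k, i)) 1

/-! ### Diagonal ideals with extra variables -/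

section diag
variable (Y : Type*) [CommRing Y] (O : Type) (n b : ℕ)

noncomputable def DIu (j : Fin n) : (MvPolynomial (O ⊕ (Fin n × Bool × Fin b)) Y)[X] :=
  pV fun l : Fin b => MvPolynomial.X (Sum.inr (j, false, l))

noncomputable def DIt (j : Fin n) : (MvPolynomial (O ⊕ (Fin n × Bool × Fin b)) Y)[X] :=
  pV fun l : Fin b => MvPolynomial.X (Sum.inr (j, true, l))

variable {Y} {b}

/-- relations `u_j t_j ≡ 0 mod g` -/
noncomputable def DJ (y : Fin b → Y) : Ideal (MvPolynomial (O ⊕ (Fin n × Bool × Fin b)) Y) :=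
  ⨆ j : Fin n, remId ((gP y Finset.univ).map MvPolynomial.C) (DIu Y O n b j * DIt Y O n b j)

/-- relations `u_j t_j ≡ 0 mod g`, `∏ t_j ≡ 0 mod g_S` -/
noncomputable def DI (y : Fin b → Y) (S : Finset (Fin b)) : Ideal (MvPolynomial (O ⊕ (Fin n × Bool × Fin b)) Y) :=
  DJ O n y ⊔ remId ((gP y S).map MvPolynomial.C) (∏ j, DIt Y O n b j)

end diag

/-! ### The coordinate ring of pairs with `r` vectors -/

section vect
variable (k : Type u) [CommRing k] (r d : ℕ)

abbrev Vx := (Fin 2 × Fin d × Fin d) ⊕ (Fin r × Fin d)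

noncomputable def mt (s : Fin 2) : Matrix (Fin d) (Fin d) (MvPolynomial (Vx r d) k) :=
  Matrix.of (fun i j => MvPolynomial.X (Sum.inl (s, i, j)))

noncomputable def Ic : Ideal (MvPolynomial (Vx r d) k) :=
  Ideal.span (Set.range (fun p : Fin d × Fin d => (mt k r d 0 * mt k r d 1 - mt k r d 1 * mt k r d 0) p.1 p.2))

noncomputable def chd (f : Fin d → (Fin d × Fin d × Fin r)) : MvPolynomial (Vx r d) k :=
  Matrix.det (Matrix.of (fun (a : Fin d) (b : Fin d) =>
    Matrix.mulVec (mt k r d 0 ^ (f b).1.val * mt k r d 1 ^ (f b).2.1.val)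
      (fun i : Fin d => (MvPolynomial.X (Sum.inr ((f b).2.2, i)) : MvPolynomial (Vx r d) k)) a))

end vect

end Pool.Agent.LibCQ2
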